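import Pool.Agent.Lib.MP_43150e_al.SU.Defs

/-! # A `2 x 2` matrix in the rows and columns `p, q` -/

set_option autoImplicit false

namespace SU43

open Matrix

variable {N : ℕ} {K : Type} [Field K]

/-- The matrix `s` in the rows and columns `p, q`, the identity elsewhere. -/
def b2 (p q : Fin N) (s : Matrix (Fin 2) (Fin 2) K) : Matrix (Fin N) (Fin N) K :=
  Matrix.of fun i j =>
    if i = p then (if j = p then s 0 0 else if j = q then s 0 1 else 0)
    else if i = q then (if j = p then s 1 0 else if j = q then s 1 1 else 0)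
    else if i = j then 1 else 0

/-- The two columns `e_p, e_q`. -/
def inc2 (K : Type) [Field K] (p q : Fin N) : Matrix (Fin N) (Fin 2) K :=
  Matrix.of fun i k => if k = 0 then (if i = p then 1 else 0) else (if i = q then 1 else 0)

theorem b2_eq {p q : Fin N} (hpq : p ≠ q) (s : Matrix (Fin 2) (Fin 2) K) :
    b2 p q s = 1 + inc2 K p q * ((s - 1) * (inc2 K p q)ᵀ) := by
  ext i j
  rw [Matrix.add_apply, Matrix.mul_apply, Fin.sum_univ_two, Matrix.mul_apply, Matrix.mul_apply,
    Fin.sum_univ_two, Fin.sum_univ_two]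
  simp only [b2, inc2, Matrix.of_apply, Matrix.transpose_apply, Matrix.sub_apply,
    Matrix.one_apply, if_true, if_neg (show ¬ ((1 : Fin 2) = 0) by decide),
    if_neg (show ¬ ((0 : Fin 2) = 1) by decide)]
  by_cases hi : i = p
  · subst hi
    by_cases hj : j = i
    · subst hj
      simp [hpq]
    · by_cases hj2 : j = q
      · subst hj2
        simp [hj, Ne.symm hj]
      · simp [hj, hj2, Ne.symm hj]
  · by_cases hi2 : i = q
    · subst hi2
      by_cases hj : j = p
      · subst hj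
        simp [hi, hpq]
      · by_cases hj2 : j = i
        · subst hj2
          simp [hi]
        · simp [hi, hj, hj2, Ne.symm hj2]
    · simp [hi, hi2]

/-- `b2 p q s - 1` is supported in the columns `p, q`. -/
theorem b2_col {p q : Fin N} (s : Matrix (Fin 2) (Fin 2) K) {i k : Fin N} (h1 : k ≠ p)
    (h2 : k ≠ q) : (b2 p q s - 1) i k = 0 := by
  rw [Matrix.sub_apply, Matrix.one_apply]
  simp only [b2, Matrix.of_apply]
  by_cases hi : i = p
  · subst hi
    simp [h1, h2, Ne.symm h1]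
  · by_cases hi2 : i = q
    · subst hi2
      simp [hi, h1, h2, Ne.symm h2]
    · simp [hi, hi2]

/-- `b2 p q s - 1` is supported in the rows `p, q`. -/
theorem b2_row {p q : Fin N} (s : Matrix (Fin 2) (Fin 2) K) {i k : Fin N} (h1 : i ≠ p)
    (h2 : i ≠ q) : (b2 p q s - 1) i k = 0 := by
  rw [Matrix.sub_apply, Matrix.one_apply]
  simp [b2, h1, h2]

theorem b2_disj {p q p' q' : Fin N} (h1 : p ≠ p') (h2 : p ≠ q') (h3 : q ≠ p') (h4 : q ≠ q')
    (s t : Matrix (Fin 2) (Fin 2) K) : (b2 p q s - 1) * (b2 p' q' t - 1) = 0 := by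
  ext i j
  rw [Matrix.mul_apply, Matrix.zero_apply]
  apply Finset.sum_eq_zero
  intro k _
  by_cases hk : k = p
  · rw [b2_row t (hk ▸ h1) (hk ▸ h2), mul_zero]
  · by_cases hk2 : k = q
    · rw [b2_row t (hk2 ▸ h3) (hk2 ▸ h4), mul_zero]
    · rw [b2_col s hk hk2, zero_mul]

theorem inc2_tm {p q : Fin N} (hpq : p ≠ q) : (inc2 K p q)ᵀ * inc2 K p q = 1 := by
  ext i j
  rw [Matrix.mul_apply]
  fin_cases i <;> fin_cases j <;> simp [inc2, hpq, Ne.symm hpq]

theorem b2_one {p q : Fin N} (hpq : p ≠ q) : b2 p q (1 : Matrix (Fin 2) (Fin 2) K) = 1 := by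
  rw [b2_eq hpq, sub_self, Matrix.zero_mul, Matrix.mul_zero, add_zero]

theorem b2_mul {p q : Fin N} (hpq : p ≠ q) (s t : Matrix (Fin 2) (Fin 2) K) :
    b2 p q (s * t) = b2 p q s * b2 p q t := by
  rw [b2_eq hpq, b2_eq hpq s, b2_eq hpq t]
  have h : inc2 K p q * ((s - 1) * (inc2 K p q)ᵀ) * (inc2 K p q * ((t - 1) * (inc2 K p q)ᵀ))
      = inc2 K p q * (((s - 1) * (t - 1)) * (inc2 K p q)ᵀ) := by
    calc inc2 K p q * ((s - 1) * (inc2 K p q)ᵀ) * (inc2 K p q * ((t - 1) * (inc2 K p q)ᵀ))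
        = inc2 K p q * ((s - 1) * (((inc2 K p q)ᵀ * inc2 K p q) * ((t - 1) * (inc2 K p q)ᵀ))) := by
          simp only [Matrix.mul_assoc]
      _ = _ := by rw [inc2_tm hpq, Matrix.one_mul]; simp only [Matrix.mul_assoc]
  rw [Matrix.add_mul, Matrix.mul_add, Matrix.mul_add, h, Matrix.one_mul, Matrix.one_mul,
    Matrix.mul_one, add_assoc, ← Matrix.mul_add, ← Matrix.mul_add, ← Matrix.add_mul,
    ← Matrix.add_mul]
  congr 3
  have h3 : s * t - 1 = (t - 1) + ((s - 1) + (s - 1) * (t - 1)) := by noncomm_ring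
  rw [h3]

theorem b2_det {p q : Fin N} (hpq : p ≠ q) (s : Matrix (Fin 2) (Fin 2) K) :
    (b2 p q s).det = s.det := by
  rw [b2_eq hpq, Matrix.det_one_add_mul_comm, Matrix.mul_assoc, inc2_tm hpq, Matrix.mul_one,
    add_sub_cancel]

theorem b2_comm {p q p' q' : Fin N} (h1 : p ≠ p') (h2 : p ≠ q') (h3 : q ≠ p') (h4 : q ≠ q')
    (s t : Matrix (Fin 2) (Fin 2) K) : b2 p q s * b2 p' q' t = b2 p' q' t * b2 p q s := by
  have e1 := b2_disj h1 h2 h3 h4 s t
  have e2 := b2_disj (Ne.symm h1) (Ne.symm h3) (Ne.symm h2) (Ne.symm h4) t s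
  have e3 : b2 p q s * b2 p' q' t = (b2 p q s - 1) * (b2 p' q' t - 1) + b2 p q s + b2 p' q' t - 1 := by
    noncomm_ring
  have e4 : b2 p' q' t * b2 p q s = (b2 p' q' t - 1) * (b2 p q s - 1) + b2 p' q' t + b2 p q s - 1 := by
    noncomm_ring
  rw [e3, e4, e1, e2, zero_add, zero_add, add_comm (b2 p q s)]

theorem b2_upper {p q : Fin N} (hpq : p ≠ q) (c : K) :
    b2 p q !![1, c; 0, 1] = 1 + Matrix.single p q c := by
  ext i j
  rw [Matrix.add_apply, Matrix.single_apply, Matrix.one_apply]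
  simp only [b2, Matrix.of_apply]
  by_cases hi : i = p
  · subst hi
    by_cases hj : j = i
    · subst hj; simp [Ne.symm hpq]
    · by_cases hj2 : j = q
      · subst hj2; simp [hj, hpq]
      · simp [hj, hj2, Ne.symm hj, Ne.symm hj2]
  · by_cases hi2 : i = q
    · subst hi2
      by_cases hj : j = p
      · subst hj; simp [hi, hpq]
      · by_cases hj2 : j = i
        · subst hj2; simp [hi, hpq]
        · simp [hi, hj, hj2, Ne.symm hj, Ne.symm hj2, hpq]
    · simp [hi, hi2, Ne.symm hi]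

theorem b2_lower {p q : Fin N} (hpq : p ≠ q) (c : K) :
    b2 p q !![1, 0; c, 1] = 1 + Matrix.single q p c := by
  ext i j
  rw [Matrix.add_apply, Matrix.single_apply, Matrix.one_apply]
  simp only [b2, Matrix.of_apply]
  by_cases hi : i = p
  · subst hi
    by_cases hj : j = i
    · subst hj; simp [Ne.symm hpq]
    · by_cases hj2 : j = q
      · subst hj2; simp [hj, hpq]
      · simp [hj, hj2, Ne.symm hj, Ne.symm hj2]
  · by_cases hi2 : i = q
    · subst hi2
      by_cases hj : j = p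
      · subst hj; simp [hi, hpq]
      · by_cases hj2 : j = i
        · subst hj2; simp [hi, hpq]
        · simp [hi, hj, hj2, Ne.symm hj, Ne.symm hj2, hpq]
    · simp [hi, hi2, Ne.symm hi, Ne.symm hi2]

end SU43
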