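import Pool.Agent.Lib.MP_43150e_al.SU.Str

/-! # Monomial matrices and the torus -/

set_option autoImplicit false

namespace SU43

open Matrix BN43

variable {m : ℕ} {K : Type} [Field K] [StarRing K]

namespace StrNAux

theorem mat_mul_inv (A : grp m K) : mat A * mat A⁻¹ = 1 := by
  rw [← mat_mul, mul_inv_cancel, mat_one]

theorem row_ne (A : grp m K) (i : Fin (2 * m + 2)) : ∃ j, mat A i j ≠ 0 := by
  by_contra hcon
  push Not at hcon
  have h1 : (mat A * mat A⁻¹) i i = (1 : Mat m K) i i := by rw [mat_mul_inv]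
  rw [Matrix.mul_apply, Matrix.one_apply_eq, Finset.sum_eq_zero] at h1
  · exact zero_ne_one h1
  · intro c _
    rw [hcon c, zero_mul]

theorem form_apply (A : Mat m K) (a b : Fin (2 * m + 2)) :
    (A * J m K * Aᴴ) a b = ∑ c, A a c * sg m K c * star (A b c.rev) := by
  rw [Matrix.mul_apply]
  refine Fintype.sum_equiv Fin.revPerm _ _ fun c => ?_
  rw [mul_J_apply, conjTranspose_apply, Fin.revPerm_apply, Fin.rev_rev]

theorem mat_diag_mul {A C : grp m K} {d : Fin (2 * m + 2) → K} (h : mat A = Matrix.diagonal d)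
    (i j : Fin (2 * m + 2)) : mat (A * C) i j = d i * mat C i j := by
  rw [mat_mul, h, Matrix.diagonal_mul]

theorem mat_mul_diag {A C : grp m K} {d : Fin (2 * m + 2) → K} (h : mat A = Matrix.diagonal d)
    (i j : Fin (2 * m + 2)) : mat (C * A) i j = mat C i j * d j := by
  rw [mat_mul, h, Matrix.mul_diagonal]

end StrNAux

open StrNAux

/-- The permutation of a monomial matrix. -/
theorem exists_perm (n : grp m K) (hn : n ∈ N m K) : ∃ e : Equiv.Perm (Fin (2 * m + 2)),
    (∀ i j, mat n i j ≠ 0 ↔ j = e i) ∧ ∀ i, e i.rev = (e i).rev := by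
  obtain ⟨e, he⟩ := hn
  refine ⟨e, ?_, ?_⟩
  · intro i j
    refine ⟨he i j, ?_⟩
    rintro rfl
    obtain ⟨j, hj⟩ := row_ne n i
    rwa [← he i j hj]
  · intro i
    have h1 : (mat n * J m K * (mat n)ᴴ) i i.rev = J m K i i.rev := by
      rw [show mat n * J m K * (mat n)ᴴ = J m K from mat_pres n]
    have h2 : J m K i i.rev = sg m K i := if_pos rfl
    rw [form_apply, h2] at h1
    have h3 : ∑ c, mat n i c * sg m K c * star (mat n i.rev c.rev) ≠ 0 := by
      rw [h1]
      exact sg_ne_zero i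
    obtain ⟨c, -, hc⟩ := Finset.exists_ne_zero_of_sum_ne_zero h3
    have h4 : mat n i c ≠ 0 := left_ne_zero_of_mul (left_ne_zero_of_mul hc)
    have h5 : mat n i.rev c.rev ≠ 0 := by
      intro h0
      rw [h0, star_zero, mul_zero] at hc
      exact hc rfl
    rw [← he _ _ h4, ← he _ _ h5]

theorem mem_BN_iff (A : grp m K) : A ∈ B m K ⊓ N m K ↔ ∀ i j, i ≠ j → mat A i j = 0 := by
  constructor
  · rintro ⟨hB, e, he⟩ i j hij
    by_contra h
    have h1 := he i j h
    have h2 := he i i (diag_ne A hB i)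
    exact hij (h2.trans h1.symm)
  · intro h
    refine ⟨(mem_B_iff A).2 fun i j hij => h i j hij.ne', 1, fun i j hij => ?_⟩
    by_contra hne
    exact hij (h i j fun h' => hne h'.symm)

theorem StrNAux.mat_eq_diag {A : grp m K} (hA : A ∈ B m K ⊓ N m K) :
    mat A = Matrix.diagonal fun i => mat A i i := by
  ext i j
  by_cases h : i = j
  · subst h
    rw [Matrix.diagonal_apply_eq]
  · rw [(mem_BN_iff A).1 hA i j h, Matrix.diagonal_apply_ne _ h]

theorem BN_comm : ∀ a ∈ B m K ⊓ N m K, ∀ b ∈ B m K ⊓ N m K, a * b = b * a := by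
  intro a ha b hb
  apply mat_inj
  rw [mat_mul, mat_mul, mat_eq_diag ha, mat_eq_diag hb, Matrix.diagonal_mul_diagonal,
    Matrix.diagonal_mul_diagonal]
  congr 1
  funext i
  rw [mul_comm]

/-- Diagonal matrices in the group. -/
theorem exists_diag (d : Fin (2 * m + 2) → K) (hd : ∀ i, d i * star (d i.rev) = 1)
    (hdet : ∏ i, d i = 1) : ∃ h : grp m K, mat h = Matrix.diagonal d := by
  have h1 : (Matrix.diagonal d).det = 1 := by
    rw [Matrix.det_diagonal, hdet]
  have h2 : Pres (m := m) (Matrix.diagonal d) := by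
    show Matrix.diagonal d * J m K * (Matrix.diagonal d)ᴴ = J m K
    ext i j
    rw [Matrix.diagonal_conjTranspose, Matrix.mul_diagonal, Matrix.diagonal_mul]
    by_cases h : j = i.rev
    · have h3 : J m K i j = sg m K i := if_pos h
      rw [h3, h, Pi.star_apply]
      linear_combination (sg m K i) * hd i
    · have h3 : J m K i j = 0 := if_neg h
      rw [h3, mul_zero, zero_mul]
  exact ⟨⟨⟨Matrix.diagonal d, h1⟩, h2⟩, rfl⟩

theorem BN_split : ∀ b ∈ B m K, ∃ u ∈ U m K, ∃ h ∈ B m K ⊓ N m K, b = u * h := by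
  intro b hb
  have hUT := (mem_B_iff b).1 hb
  obtain ⟨h, hh⟩ := exists_diag (m := m) (K := K) (fun i => mat b i i) (fun i => diag_rel b hb i)
    (by rw [← hUT.det]; exact mat_det b)
  have hhBN : h ∈ B m K ⊓ N m K := by
    rw [mem_BN_iff]
    intro i j hij
    rw [hh, Matrix.diagonal_apply_ne _ hij]
  have hhi := (mem_B_iff h⁻¹).1 (inv_mem hhBN.1)
  refine ⟨b * h⁻¹, ?_, h, hhBN, by group⟩
  show Lin43.UU (mat (b * h⁻¹))
  rw [mat_mul]
  refine ⟨hUT.mul hhi, fun i => ?_⟩
  rw [hUT.mul_diag hhi]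
  have h1 : (mat h * mat h⁻¹) i i = (1 : Mat m K) i i := by rw [mat_mul_inv]
  rw [hh, Matrix.diagonal_mul, Matrix.one_apply_eq] at h1
  exact h1

theorem BN_torus : ∀ n ∈ N m K, ∀ h ∈ B m K ⊓ N m K, n * h * n⁻¹ ∈ B m K := by
  rintro n ⟨e, he⟩ h hh
  rw [mem_B_iff]
  have hd := mat_eq_diag hh
  have h1 : mat (n * h) = Matrix.diagonal (fun i => mat h (e i) (e i)) * mat n := by
    ext i j
    rw [mat_mul_diag hd, Matrix.diagonal_mul]
    by_cases h0 : mat n i j = 0
    · rw [h0, zero_mul, mul_zero]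
    · rw [he i j h0, mul_comm]
  rw [mat_mul, h1, Matrix.mul_assoc, mat_mul_inv, Matrix.mul_one]
  intro i j hij
  rw [Matrix.diagonal_apply_ne _ hij.ne']

theorem conj_U (b u : grp m K) (hb : b ∈ B m K) (hu : u ∈ U m K) : b * u * b⁻¹ ∈ U m K := by
  have hb1 := (mem_B_iff b).1 hb
  have hb2 := (mem_B_iff b⁻¹).1 (inv_mem hb)
  have hu1 : Lin43.UU (mat u) := hu
  show Lin43.UU (mat (b * u * b⁻¹))
  rw [mat_mul, mat_mul]
  refine ⟨(hb1.mul hu1.1).mul hb2, fun i => ?_⟩
  rw [(hb1.mul hu1.1).mul_diag hb2, hb1.mul_diag hu1.1, hu1.2, mul_one, ← hb1.mul_diag hb2,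
    mat_mul_inv, Matrix.one_apply_eq]

/-- The entries next to the diagonal of a conjugate. -/
theorem conj_U_apply (b u : grp m K) (hb : b ∈ B m K) (hu : u ∈ U m K)
    (i j : Fin (2 * m + 2)) (hij : (i : ℕ) + 1 = j) :
    mat (b * u * b⁻¹) i j * mat b j j = mat b i i * mat u i j := by
  have hb1 := (mem_B_iff b).1 hb
  have hu1 : Lin43.UU (mat u) := hu
  have hx : Lin43.UU (mat (b * u * b⁻¹)) := conj_U b u hb hu
  have h1 : mat (b * u * b⁻¹) * mat b = mat b * mat u := by
    rw [← mat_mul, ← mat_mul]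
    congr 1
    group
  have h2 : (mat (b * u * b⁻¹) * mat b) i j = (mat b * mat u) i j := by rw [h1]
  rw [hx.1.superdiag hb1 i j hij, hb1.superdiag hu1.1 i j hij, hx.2, hu1.2] at h2
  linear_combination h2

end SU43
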