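import Pool.Agent.Lib.MP_43150e_al.SU.Sie
import Pool.Agent.Lib.MP_43150e_al.SU.StrN
import Pool.Agent.Lib.MP_43150e_al.Lin.Bruhat

/-! # The Bruhat decomposition -/

set_option autoImplicit false

namespace SU43

open Matrix BN43

variable {m : ℕ} {K : Type} [Field K] [StarRing K]

namespace Bru

theorem mul_inv_mat (A : grp m K) : mat A * mat A⁻¹ = 1 := by
  rw [← mat_mul, mul_inv_cancel, mat_one]

/-- The column `b` of `A` is the basis vector `e_b`. -/
def Fix (A : grp m K) (b : Fin (2 * m + 2)) : Prop :=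
  ∀ a, mat A a b = if a = b then 1 else 0

theorem Fix.inv {A : grp m K} {b : Fin (2 * m + 2)} (h : Fix A b) : Fix A⁻¹ b := by
  intro a
  have h1 : (mat A⁻¹ * mat A) a b = (1 : Mat m K) a b := by rw [mat_inv_mul]
  rw [Matrix.mul_apply, Finset.sum_eq_single b] at h1
  · rw [h b, if_pos rfl, mul_one] at h1
    rw [h1, Matrix.one_apply]
  · intro c _ hc
    rw [h c, if_neg hc, mul_zero]
  · intro h2
    exact absurd (Finset.mem_univ _) h2

/-- If the column `rev b` of `A` is a basis vector, then the row `b` of `A⁻¹` is one. -/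
theorem Fix.row_inv {A : grp m K} {b : Fin (2 * m + 2)} (h : Fix A b.rev) (c : Fin (2 * m + 2)) :
    mat A⁻¹ b c = if b = c then 1 else 0 := by
  by_cases hbc : b = c
  · subst hbc
    have h1 : (mat A⁻¹ * mat A) b.rev b.rev = (1 : Mat m K) b.rev b.rev := by rw [mat_inv_mul]
    have h2 : mat A⁻¹ b b = -(sg m K b * sg m K b.rev) := by
      rw [mat_inv_apply, h b.rev, if_pos rfl, star_one, mul_one]
    have h3 : sg m K b * sg m K b.rev = (-1 : K) := by
      have h4 : (b.rev : ℕ) = 2 * m + 2 - (b + 1) := Fin.val_rev b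
      have h5 := b.2
      unfold sg
      by_cases h6 : (b : ℕ) < m + 1
      · rw [if_pos h6, if_neg (by omega)]; ring
      · rw [if_neg h6, if_pos (by omega)]; ring
    rw [h2, h3, neg_neg, if_pos rfl]
  · rw [mat_inv_apply, h c.rev, if_neg, star_zero, mul_zero, zero_mul, neg_zero, if_neg hbc]
    intro h1
    exact hbc (Fin.rev_injective h1).symm

theorem Fix.row {A : grp m K} {b : Fin (2 * m + 2)} (h : Fix A b.rev) (c : Fin (2 * m + 2)) :
    mat A b c = if b = c then 1 else 0 := by
  have h1 := h.inv.row_inv c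
  rwa [inv_inv] at h1

/-- The column `i` and the row `k` meet in their only nonzero entry. -/
def Mon (A : grp m K) (i k : Fin (2 * m + 2)) : Prop :=
  (∀ a, a ≠ k → mat A a i = 0) ∧ ∀ b, b ≠ i → mat A k b = 0

theorem inv_apply_zero {A : grp m K} {a b : Fin (2 * m + 2)} (h : mat A b.rev a.rev = 0) :
    mat A⁻¹ a b = 0 := by
  rw [mat_inv_apply, h, star_zero, mul_zero, zero_mul, neg_zero]

theorem apply_zero_of_inv {A : grp m K} {a b : Fin (2 * m + 2)} (h : mat A⁻¹ b.rev a.rev = 0) :
    mat A a b = 0 := by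
  have h1 := inv_apply_zero (A := A⁻¹) h
  rwa [inv_inv] at h1

theorem Mon.rev {A : grp m K} {i k : Fin (2 * m + 2)} (h : Mon A i k) : Mon A i.rev k.rev := by
  constructor
  · intro l hl
    have h1 : ∀ b, (mat A * mat A⁻¹) b k.rev = mat A b i.rev * mat A⁻¹ i.rev k.rev := by
      intro b
      rw [Matrix.mul_apply, Finset.sum_eq_single i.rev]
      · intro c _ hc
        rw [inv_apply_zero (A := A) (a := c) (b := k.rev), mul_zero]
        rw [Fin.rev_rev]
        refine h.2 _ fun h2 => hc ?_
        rw [← h2, Fin.rev_rev]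
      · intro h2
        exact absurd (Finset.mem_univ _) h2
    have h2 := h1 k.rev
    rw [mul_inv_mat, Matrix.one_apply_eq] at h2
    have h3 : mat A⁻¹ i.rev k.rev ≠ 0 := right_ne_zero_of_mul_eq_one h2.symm
    have h4 := h1 l
    rw [mul_inv_mat, Matrix.one_apply_ne hl] at h4
    exact (mul_eq_zero.1 h4.symm).resolve_right h3
  · intro l hl
    have h1 : ∀ b, (mat A⁻¹ * mat A) i.rev b = mat A⁻¹ i.rev k.rev * mat A k.rev b := by
      intro b
      rw [Matrix.mul_apply, Finset.sum_eq_single k.rev]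
      · intro c _ hc
        rw [inv_apply_zero (A := A) (a := i.rev) (b := c), zero_mul]
        rw [Fin.rev_rev]
        refine h.1 _ fun h2 => hc ?_
        rw [← h2, Fin.rev_rev]
      · intro h2
        exact absurd (Finset.mem_univ _) h2
    have h2 := h1 i.rev
    rw [mat_inv_mul, Matrix.one_apply_eq] at h2
    have h3 : mat A⁻¹ i.rev k.rev ≠ 0 := left_ne_zero_of_mul_eq_one h2.symm
    have h4 := h1 l
    rw [mat_inv_mul, Matrix.one_apply_ne (Ne.symm hl)] at h4
    exact (mul_eq_zero.1 h4.symm).resolve_left h3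

/-- Clearing a column from the left. -/
theorem clear (A : grp m K) (j k : Fin (2 * m + 2)) (hk : mat A k j ≠ 0)
    (h : ∀ a, k < a → mat A a j = 0) : ∃ u ∈ U m K,
      (∀ a, a ≠ k → mat (u⁻¹ * A) a j = 0) ∧ Fix u k.rev ∧
      ∀ b, mat A b.rev j = 0 → b ≠ k → Fix u b := by
  obtain ⟨v, hv⟩ : ∃ v : Fin (2 * m + 2) → K,
      v = fun a => if a = k then 0 else mat A a j * (mat A k j)⁻¹ := ⟨_, rfl⟩
  have hiso : iso k v := by
    rw [hv]
    exact iso_col A j k hk h
  have hvk : v k = 0 := hiso.1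
  have hv0 : ∀ a, mat A a j = 0 → v a = 0 := by
    intro a ha
    rw [hv]
    simp [ha]
  have hvz : ∀ a, k ≤ a → v a = 0 := by
    intro a ha
    rcases eq_or_lt_of_le ha with h1 | h1
    · rw [← h1, hvk]
    · exact hv0 a (h a h1)
  have hUU := sie_UU k v hvz
  have hdet : (sie k v).det = 1 := by
    rw [hUU.1.det]
    exact Finset.prod_eq_one fun i _ => hUU.2 i
  obtain ⟨u, hu⟩ : ∃ u : grp m K, mat u = sie k v :=
    ⟨⟨⟨sie k v, hdet⟩, sie_pres k v hiso⟩, rfl⟩
  have hcol : ∀ b, b ≠ k → v b.rev = 0 → Fix u b := by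
    intro b hb hvb a
    rw [hu]
    simp only [sie, Matrix.of_apply]
    rw [if_neg hb, hvb, star_zero, mul_zero, ite_self, add_zero, sub_zero]
  have hrk : k.rev ≠ k := by
    intro h1
    have h2 := congrArg Fin.val h1
    rw [Fin.val_rev] at h2
    have := k.2
    omega
  refine ⟨u, ?_, ?_, ?_, ?_⟩
  · show Lin43.UU (mat u)
    rw [hu]
    exact hUU
  · intro a ha
    have h1 : ∀ b, mat A b j = mat A k j * mat u b k := by
      intro b
      rw [hu, sie_col k v hvk b]
      by_cases hb : b = k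
      · rw [if_pos hb, hb, hvk, add_zero, mul_one]
      · rw [if_neg hb, zero_add, hv]
        simp only [if_neg hb]
        field_simp
    rw [mat_mul, Matrix.mul_apply]
    have h2 : ∑ b, mat u⁻¹ a b * mat A b j = mat A k j * (mat u⁻¹ * mat u) a k := by
      rw [Matrix.mul_apply, Finset.mul_sum]
      refine Finset.sum_congr rfl fun b _ => ?_
      rw [h1 b]
      ring
    rw [h2, mat_inv_mul, Matrix.one_apply_ne ha, mul_zero]
  · exact hcol _ hrk (by rw [Fin.rev_rev, hvk])
  · intro b hb hbk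
    exact hcol b hbk (hv0 _ hb)

theorem step (d : ℕ) (hd : d ≤ m + 1) (A : grp m K) : ∃ u ∈ U m K, ∃ u' ∈ U m K,
    ∃ κ : Fin (2 * m + 2) → Fin (2 * m + 2),
      ∀ i : Fin (2 * m + 2), (i : ℕ) < d → Mon (u * A * u') i (κ i) := by
  induction d with
  | zero =>
    exact ⟨1, one_mem _, 1, one_mem _, id, fun i hi => absurd hi (Nat.not_lt_zero _)⟩
  | succ d ih =>
    obtain ⟨u, hu, u', hu', κ, hκ⟩ := ih (by omega)
    obtain ⟨C, hC⟩ : ∃ C : grp m K, C = u * A * u' := ⟨_, rfl⟩
    rw [← hC] at hκ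
    obtain ⟨j, hj⟩ : ∃ j : Fin (2 * m + 2), (j : ℕ) = d := ⟨⟨d, by omega⟩, rfl⟩
    have hjr : ∀ i : Fin (2 * m + 2), (i : ℕ) < d → i ≠ j ∧ i.rev ≠ j := by
      intro i hi
      constructor
      · rintro rfl
        omega
      · intro h1
        have h2 := congrArg Fin.val h1
        rw [Fin.val_rev] at h2
        omega
    have hκr : ∀ i : Fin (2 * m + 2), (i : ℕ) < d → Mon C i.rev (κ i).rev := fun i hi =>
      (hκ i hi).rev
    -- the last nonzero row of the column j
    have hex : ∃ k, mat C k j ≠ 0 ∧ ∀ a, k < a → mat C a j = 0 := by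
      have h1 : ∃ k, mat C k j ≠ 0 := by
        by_contra hcon
        push Not at hcon
        have h2 : (mat C⁻¹ * mat C) j j = (1 : Mat m K) j j := by rw [mat_inv_mul]
        rw [Matrix.mul_apply, Matrix.one_apply_eq] at h2
        rw [Finset.sum_eq_zero] at h2
        · exact zero_ne_one h2
        · intro c _
          rw [hcon c, mul_zero]
      classical
      obtain ⟨k0, hk0⟩ := h1
      have hne : (Finset.univ.filter fun k => mat C k j ≠ 0).Nonempty :=
        ⟨k0, Finset.mem_filter.2 ⟨Finset.mem_univ _, hk0⟩⟩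
      refine ⟨(Finset.univ.filter fun k => mat C k j ≠ 0).max' hne,
        (Finset.mem_filter.1 (Finset.max'_mem _ hne)).2, fun a ha => ?_⟩
      by_contra hcon
      have h3 := Finset.le_max' (Finset.univ.filter fun k => mat C k j ≠ 0) a
        (Finset.mem_filter.2 ⟨Finset.mem_univ _, hcon⟩)
      exact absurd (lt_of_lt_of_le ha h3) (lt_irrefl _)
    obtain ⟨k, hk, hkl⟩ := hex
    have hkne : ∀ i : Fin (2 * m + 2), (i : ℕ) < d → k ≠ κ i ∧ k ≠ (κ i).rev := by
      intro i hi
      constructor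
      · rintro rfl
        exact hk ((hκ i hi).2 j (hjr i hi).1.symm)
      · rintro rfl
        exact hk ((hκr i hi).2 j (hjr i hi).2.symm)
    obtain ⟨w, hwU, hwcol, hwk, hwf⟩ := clear C j k hk hkl
    have hwf1 : ∀ i : Fin (2 * m + 2), (i : ℕ) < d → Fix w (κ i) := fun i hi =>
      hwf _ ((hκr i hi).2 j (hjr i hi).2.symm) (hkne i hi).1.symm
    have hwf2 : ∀ i : Fin (2 * m + 2), (i : ℕ) < d → Fix w (κ i).rev := fun i hi =>
      hwf _ (by rw [Fin.rev_rev]; exact (hκ i hi).2 j (hjr i hi).1.symm) (hkne i hi).2.symm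
    obtain ⟨D, hD⟩ : ∃ D : grp m K, D = w⁻¹ * C := ⟨_, rfl⟩
    rw [← hD] at hwcol
    have hDrow : ∀ r, Fix w r.rev → ∀ b, mat D r b = mat C r b := by
      intro r hr b
      rw [hD, mat_mul, Matrix.mul_apply, Finset.sum_eq_single r]
      · rw [hr.row_inv r, if_pos rfl, one_mul]
      · intro c _ hc
        rw [hr.row_inv c, if_neg hc.symm, zero_mul]
      · intro h2
        exact absurd (Finset.mem_univ _) h2
    have hDmon : ∀ i : Fin (2 * m + 2), (i : ℕ) < d → Mon D i (κ i) := by
      intro i hi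
      constructor
      · intro a ha
        rw [hD, mat_mul, Matrix.mul_apply]
        apply Finset.sum_eq_zero
        intro c _
        by_cases hc : c = κ i
        · rw [hc, (hwf1 i hi).inv a, if_neg ha, zero_mul]
        · rw [(hκ i hi).1 c hc, mul_zero]
      · intro b hb
        rw [hDrow _ (hwf2 i hi) b]
        exact (hκ i hi).2 b hb
    have hDk : mat D k j ≠ 0 := by
      rw [hDrow k hwk j]
      exact hk
    -- second half: clear the row k
    have hDinv : mat D⁻¹ j.rev k.rev ≠ 0 := by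
      rw [mat_inv_apply, Fin.rev_rev, Fin.rev_rev]
      refine neg_ne_zero.2 (mul_ne_zero (mul_ne_zero (sg_ne_zero _) ?_) (sg_ne_zero _))
      exact (star_ne_zero).2 hDk
    have hDl : ∀ a, j.rev < a → mat D⁻¹ a k.rev = 0 := by
      intro a ha
      apply inv_apply_zero
      rw [Fin.rev_rev]
      have h1 : ((a.rev : Fin (2 * m + 2)) : ℕ) < d := by
        rw [Fin.lt_def, Fin.val_rev] at ha
        rw [Fin.val_rev]
        have := a.2
        omega
      exact (hDmon _ h1).1 k (hkne _ h1).1
    obtain ⟨z, hzU, hzcol, hzk, hzf⟩ := clear D⁻¹ k.rev j.rev hDinv hDl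
    rw [Fin.rev_rev] at hzk
    have hzf1 : ∀ i : Fin (2 * m + 2), (i : ℕ) < d → Fix z i := by
      intro i hi
      refine hzf i ?_ ?_
      · apply inv_apply_zero
        rw [Fin.rev_rev, Fin.rev_rev]
        exact (hDmon i hi).1 k (hkne i hi).1
      · intro h1
        apply (hjr i hi).2
        rw [h1, Fin.rev_rev]
    have hzf2 : ∀ i : Fin (2 * m + 2), (i : ℕ) < d → Fix z i.rev := by
      intro i hi
      refine hzf _ ?_ ?_
      · apply inv_apply_zero
        rw [Fin.rev_rev, Fin.rev_rev]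
        exact ((hDmon i hi).rev).1 k (hkne i hi).2
      · intro h1
        exact (hjr i hi).1 (Fin.rev_injective h1)
    have hEinv : (D * z)⁻¹ = z⁻¹ * D⁻¹ := mul_inv_rev D z
    have hEcol : ∀ b, Fix z b → ∀ a, mat (D * z) a b = mat D a b := by
      intro b hb a
      rw [mat_mul, Matrix.mul_apply, Finset.sum_eq_single b]
      · rw [hb b, if_pos rfl, mul_one]
      · intro c _ hc
        rw [hb c, if_neg hc, mul_zero]
      · intro h2
        exact absurd (Finset.mem_univ _) h2
    refine ⟨w⁻¹ * u, mul_mem (inv_mem hwU) hu, u' * z, mul_mem hu' hzU,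
      fun i => if (i : ℕ) < d then κ i else k, ?_⟩
    have hE : w⁻¹ * u * A * (u' * z) = D * z := by
      rw [hD, hC]
      group
    rw [hE]
    intro i hi
    by_cases hid : (i : ℕ) < d
    · simp only [if_pos hid]
      constructor
      · intro a ha
        rw [hEcol i (hzf1 i hid) a]
        exact (hDmon i hid).1 a ha
      · intro b hb
        rw [mat_mul, Matrix.mul_apply]
        apply Finset.sum_eq_zero
        intro c _
        by_cases hc : c = i
        · rw [hc, (hzf2 i hid).row b, if_neg (Ne.symm hb), mul_zero]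
        · rw [(hDmon i hid).2 c hc, zero_mul]
    · have hij : i = j := Fin.ext (by omega)
      simp only [if_neg hid]
      rw [hij]
      constructor
      · intro a ha
        rw [hEcol j hzk a]
        exact hwcol a ha
      · intro b hb
        apply apply_zero_of_inv
        rw [hEinv]
        apply hzcol
        intro h1
        exact hb (Fin.rev_injective h1)

end Bru

theorem bruhat (A : grp m K) : ∃ u ∈ U m K, ∃ n ∈ N m K, ∃ u' ∈ U m K, A = u * n * u' := by
  obtain ⟨u, hu, u', hu', κ, hκ⟩ := Bru.step (m + 1) le_rfl A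
  refine ⟨u⁻¹, inv_mem hu, u * A * u', ?_, u'⁻¹, inv_mem hu', by group⟩
  obtain ⟨C, hC⟩ : ∃ C : grp m K, C = u * A * u' := ⟨_, rfl⟩
  rw [← hC] at hκ ⊢
  have hex : ∀ i : Fin (2 * m + 2), ∃ k, Bru.Mon C i k := by
    intro i
    by_cases hi : (i : ℕ) < m + 1
    · exact ⟨_, hκ i hi⟩
    · refine ⟨(κ i.rev).rev, ?_⟩
      have h1 : ((i.rev : Fin (2 * m + 2)) : ℕ) < m + 1 := by
        rw [Fin.val_rev]
        have := i.2
        omega
      have h2 := (hκ i.rev h1).rev
      rwa [Fin.rev_rev] at h2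
  choose f hf using hex
  have hne : ∀ i, mat C (f i) i ≠ 0 := by
    intro i h0
    have h1 : (mat C⁻¹ * mat C) i i = (1 : Mat m K) i i := by rw [mat_inv_mul]
    rw [Matrix.mul_apply, Matrix.one_apply_eq, Finset.sum_eq_zero] at h1
    · exact zero_ne_one h1
    · intro c _
      by_cases hc : c = f i
      · rw [hc, h0, mul_zero]
      · rw [(hf i).1 c hc, mul_zero]
  have hinj : Function.Injective f := by
    intro i j hij
    by_contra h
    have h1 := (hf i).2 j (Ne.symm h)
    rw [hij] at h1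
    exact hne j h1
  have hbij : Function.Bijective f := Finite.injective_iff_bijective.1 hinj
  refine ⟨(Equiv.ofBijective f hbij).symm, fun i j h => ?_⟩
  rw [Equiv.eq_symm_apply, Equiv.ofBijective_apply]
  by_contra h1
  exact h ((hf j).1 i (Ne.symm h1))

end SU43
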