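import Pool.Agent.Lib.MP_43150e_al.SU.Blk2

/-! # The subgroups `SL_2` of the roots `e_p - e_q` and `2 e_p` -/

set_option autoImplicit false

namespace SU43

open Matrix

variable {m : ℕ} {K : Type} [Field K] [StarRing K]

/-- The action on the dual basis. -/
def til (s : Matrix (Fin 2) (Fin 2) K) : Matrix (Fin 2) (Fin 2) K :=
  !![star (s 0 0), -star (s 0 1); -star (s 1 0), star (s 1 1)]

/-- `s` on `e_p, e_q`, the dual action on `f_q, f_p`. -/
def lev2 (p q : Fin (m + 1)) (s : Matrix (Fin 2) (Fin 2) K) : Mat m K :=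
  b2 (ee m p) (ee m q) s * b2 (ff m q) (ff m p) (til s)

/-- `s` on `e_p, f_p`. -/
def lev1 (p : Fin (m + 1)) (s : Matrix (Fin 2) (Fin 2) K) : Mat m K :=
  b2 (ee m p) (ff m p) s

theorem ee_ne_ff (p q : Fin (m + 1)) : ee m p ≠ ff m q := by
  intro h
  have h1 := congrArg Fin.val h
  simp only [ff, ee, Fin.val_rev] at h1
  omega

theorem ee_ne {p q : Fin (m + 1)} (hpq : p ≠ q) : ee m p ≠ ee m q := by
  intro h
  have h1 := congrArg Fin.val h
  exact hpq (Fin.ext h1)

theorem ff_ne {p q : Fin (m + 1)} (hpq : p ≠ q) : ff m p ≠ ff m q := fun h =>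
  ee_ne hpq (Fin.rev_injective h)

theorem sg_ee (p : Fin (m + 1)) : sg m K (ee m p) = 1 := if_pos p.2

theorem sg_ff (p : Fin (m + 1)) : sg m K (ff m p) = -1 := by
  unfold sg
  rw [if_neg]
  simp only [ff, ee, Fin.val_rev]
  omega

theorem J_star_b2 {p q : Fin (2 * m + 2)} (hpq : p ≠ q) (s s' : Matrix (Fin 2) (Fin 2) K)
    (h00 : s' 0 0 = star (s 1 1)) (h11 : s' 1 1 = star (s 0 0))
    (h01 : s' 0 1 * sg m K p.rev = sg m K q.rev * star (s 0 1))
    (h10 : s' 1 0 * sg m K q.rev = sg m K p.rev * star (s 1 0)) :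
    J m K * (b2 p q s)ᴴ = b2 q.rev p.rev s' * J m K := by
  ext i j
  obtain ⟨i, rfl⟩ := Fin.rev_surjective i
  rw [J_mul_apply, mul_J_apply, conjTranspose_apply, Fin.rev_rev]
  simp only [b2, Matrix.of_apply, Fin.rev_inj]
  by_cases hi : i = q
  · subst hi
    by_cases hj : j = i
    · subst hj
      simp only [if_true, if_neg (Ne.symm hpq)]
      rw [h00, mul_comm]
    · by_cases hj2 : j = p
      · subst hj2
        simp only [if_true, if_neg (Ne.symm hpq), if_neg hpq]
        exact h01.symm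
      · simp only [if_neg hj, if_neg hj2, if_true]
        rw [star_zero, mul_zero, zero_mul]
  · by_cases hi2 : i = p
    · subst hi2
      by_cases hj : j = q
      · subst hj
        simp only [if_true, if_neg (Ne.symm hpq), if_neg hpq]
        exact h10.symm
      · by_cases hj2 : j = i
        · subst hj2
          simp only [if_true, if_neg hpq]
          rw [h11, mul_comm]
        · simp only [if_neg hj, if_neg hj2, if_true, if_neg hpq]
          rw [star_zero, mul_zero, zero_mul]
    · simp only [if_neg hi, if_neg hi2]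
      by_cases hj : j = p
      · subst hj
        simp only [if_true, if_neg hi2]
        rw [star_zero, mul_zero, zero_mul]
      · by_cases hj2 : j = q
        · subst hj2
          simp only [if_true, if_neg hi, if_neg hj]
          rw [star_zero, mul_zero, zero_mul]
        · by_cases hij : i = j
          · subst hij
            simp only [if_true, if_neg hj, if_neg hj2, star_one, mul_one, one_mul]
          · simp only [if_neg hj, if_neg hj2, if_neg hij, if_neg (Ne.symm hij)]
            rw [star_zero, mul_zero, zero_mul]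

theorem til_mul (s t : Matrix (Fin 2) (Fin 2) K) : til (s * t) = til s * til t := by
  ext i j
  fin_cases i <;> fin_cases j <;>
    simp [til, Matrix.mul_apply, Fin.sum_univ_two, star_add, star_mul'] <;> ring

theorem til_one : til (1 : Matrix (Fin 2) (Fin 2) K) = 1 := by
  ext i j
  fin_cases i <;> fin_cases j <;> simp [til]

theorem til_det (s : Matrix (Fin 2) (Fin 2) K) : (til s).det = star s.det := by
  rw [til, Matrix.det_fin_two_of, Matrix.det_fin_two, star_sub, star_mul', star_mul']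
  ring

theorem lev2_mul {p q : Fin (m + 1)} (hpq : p ≠ q) (s t : Matrix (Fin 2) (Fin 2) K) :
    (lev2 p q (s * t) : Mat m K) = lev2 p q s * lev2 p q t := by
  unfold lev2
  rw [til_mul, b2_mul (ee_ne hpq), b2_mul (ff_ne (Ne.symm hpq)), Matrix.mul_assoc,
    Matrix.mul_assoc, ← Matrix.mul_assoc (b2 (ee m p) (ee m q) t),
    b2_comm (ee_ne_ff p q) (ee_ne_ff p p) (ee_ne_ff q q) (ee_ne_ff q p) t (til s),
    Matrix.mul_assoc]

theorem lev2_one {p q : Fin (m + 1)} (hpq : p ≠ q) : (lev2 p q 1 : Mat m K) = 1 := by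
  unfold lev2
  rw [til_one, b2_one (ee_ne hpq), b2_one (ff_ne (Ne.symm hpq)), Matrix.one_mul]

theorem lev2_det {p q : Fin (m + 1)} (hpq : p ≠ q) (s : Matrix (Fin 2) (Fin 2) K)
    (hs : s.det = 1) : (lev2 p q s : Mat m K).det = 1 := by
  unfold lev2
  rw [Matrix.det_mul, b2_det (ee_ne hpq), b2_det (ff_ne (Ne.symm hpq)), til_det, hs, star_one,
    one_mul]

theorem J_star_lev2 {p q : Fin (m + 1)} (hpq : p ≠ q) (s : Matrix (Fin 2) (Fin 2) K) :
    J m K * (lev2 p q s : Mat m K)ᴴ = lev2 p q s.adjugate * J m K := by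
  have h1 : J m K * (b2 (ff m q) (ff m p) (til s))ᴴ
      = b2 (ee m p) (ee m q) s.adjugate * J m K := by
    have := J_star_b2 (ff_ne (m := m) (Ne.symm hpq)) (til s) s.adjugate
      (by rw [Matrix.adjugate_fin_two]; simp [til]) (by rw [Matrix.adjugate_fin_two]; simp [til])
      (by
        rw [Matrix.adjugate_fin_two]
        simp only [ff, Fin.rev_rev, sg_ee, til]
        simp)
      (by
        rw [Matrix.adjugate_fin_two]
        simp only [ff, Fin.rev_rev, sg_ee, til]
        simp)
    rw [this]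
    simp only [ff, Fin.rev_rev]
  have h2 : J m K * (b2 (ee m p) (ee m q) s)ᴴ
      = b2 (ff m q) (ff m p) (til s.adjugate) * J m K := by
    refine J_star_b2 (ee_ne hpq) s (til s.adjugate) ?_ ?_ ?_ ?_
    · rw [Matrix.adjugate_fin_two]; simp [til]
    · rw [Matrix.adjugate_fin_two]; simp [til]
    · rw [Matrix.adjugate_fin_two, show (ee m p).rev = ff m p from rfl,
        show (ee m q).rev = ff m q from rfl, sg_ff, sg_ff]
      simp [til]
    · rw [Matrix.adjugate_fin_two, show (ee m p).rev = ff m p from rfl,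
        show (ee m q).rev = ff m q from rfl, sg_ff, sg_ff]
      simp [til]
  unfold lev2
  rw [conjTranspose_mul, ← Matrix.mul_assoc, h1, Matrix.mul_assoc, h2, Matrix.mul_assoc]

theorem lev2_pres {p q : Fin (m + 1)} (hpq : p ≠ q) (s : Matrix (Fin 2) (Fin 2) K)
    (hs : s.det = 1) : Pres (lev2 p q s : Mat m K) := by
  unfold Pres
  rw [Matrix.mul_assoc, J_star_lev2 hpq, ← Matrix.mul_assoc, ← lev2_mul hpq,
    Matrix.mul_adjugate, hs, one_smul, lev2_one hpq, Matrix.one_mul]

theorem lev1_mul (p : Fin (m + 1)) (s t : Matrix (Fin 2) (Fin 2) K) :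
    (lev1 p (s * t) : Mat m K) = lev1 p s * lev1 p t :=
  b2_mul (ee_ne_ff p p) s t

theorem lev1_det (p : Fin (m + 1)) (s : Matrix (Fin 2) (Fin 2) K)
    (hs : s.det = 1) : (lev1 p s : Mat m K).det = 1 := by
  unfold lev1
  rw [b2_det (ee_ne_ff p p), hs]

theorem J_star_lev1 (p : Fin (m + 1)) (s : Matrix (Fin 2) (Fin 2) K)
    (hs' : ∀ i j, star (s i j) = s i j) :
    J m K * (lev1 p s : Mat m K)ᴴ = lev1 p s.adjugate * J m K := by
  have := J_star_b2 (ee_ne_ff (m := m) p p) s s.adjugate
    (by rw [Matrix.adjugate_fin_two]; simp [hs']) (by rw [Matrix.adjugate_fin_two]; simp [hs'])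
    (by
      rw [Matrix.adjugate_fin_two, show (ee m p).rev = ff m p from rfl,
        show (ff m p).rev = ee m p from Fin.rev_rev _, sg_ff, sg_ee]
      simp [hs'])
    (by
      rw [Matrix.adjugate_fin_two, show (ee m p).rev = ff m p from rfl,
        show (ff m p).rev = ee m p from Fin.rev_rev _, sg_ff, sg_ee]
      simp [hs'])
  unfold lev1
  rw [this, show (ee m p).rev = ff m p from rfl, show (ff m p).rev = ee m p from Fin.rev_rev _]

theorem lev1_pres (p : Fin (m + 1)) (s : Matrix (Fin 2) (Fin 2) K)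
    (hs : s.det = 1) (hs' : ∀ i j, star (s i j) = s i j) : Pres (lev1 p s : Mat m K) := by
  unfold Pres
  rw [Matrix.mul_assoc, J_star_lev1 p s hs', ← Matrix.mul_assoc, ← lev1_mul,
    Matrix.mul_adjugate, hs, one_smul]
  unfold lev1
  rw [b2_one (ee_ne_ff p p), Matrix.one_mul]

/-- The subgroup of the roots `±(e_p - e_q)`. -/
def L2 (p q : Fin (m + 1)) (hpq : p ≠ q) : SpecialLinearGroup (Fin 2) K →* grp m K :=
  MonoidHom.mk' (fun s => ⟨⟨lev2 p q s.1, lev2_det hpq s.1 s.2⟩, lev2_pres hpq s.1 s.2⟩)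
    (fun s t => Subtype.ext (Subtype.ext (by
      show lev2 p q (s * t).1 = lev2 p q s.1 * lev2 p q t.1
      rw [← lev2_mul hpq]; rfl)))

theorem mat_L2 (p q : Fin (m + 1)) (hpq : p ≠ q) (s : SpecialLinearGroup (Fin 2) K) :
    mat (L2 p q hpq s) = lev2 p q s.1 := rfl

/-- The matrix over `K` of an element of `SL_2(K_0)`. -/
def inc (s : SpecialLinearGroup (Fin 2) (K0 K)) : Matrix (Fin 2) (Fin 2) K :=
  s.1.map (K0 K).subtype

theorem inc_det (s : SpecialLinearGroup (Fin 2) (K0 K)) : (inc s).det = 1 := by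
  have h := RingHom.map_det (K0 K).subtype s.1
  rw [s.2, map_one] at h
  exact h.symm

theorem inc_star (s : SpecialLinearGroup (Fin 2) (K0 K)) (i j : Fin 2) :
    star (inc s i j) = inc s i j := (s.1 i j).2

theorem inc_mul (s t : SpecialLinearGroup (Fin 2) (K0 K)) : inc (s * t) = inc s * inc t := by
  unfold inc
  rw [← Matrix.map_mul]
  rfl

/-- The subgroup of the roots `±2 e_p`. -/
def L1 (p : Fin (m + 1)) : SpecialLinearGroup (Fin 2) (K0 K) →* grp m K :=
  MonoidHom.mk' (fun s => ⟨⟨lev1 p (inc s), lev1_det p _ (inc_det s)⟩,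
    lev1_pres p _ (inc_det s) (inc_star s)⟩)
    (fun s t => Subtype.ext (Subtype.ext (by
      show lev1 p (inc (s * t)) = lev1 p (inc s) * lev1 p (inc t)
      rw [inc_mul, lev1_mul])))

theorem mat_L1 (p : Fin (m + 1)) (s : SpecialLinearGroup (Fin 2) (K0 K)) :
    mat (L1 p s : grp m K) = lev1 p (inc s) := rfl

/-- The subgroup of the simple roots. -/
def LL (m : ℕ) (K : Type) [Field K] [StarRing K] :
    ∀ i : Option (Fin m), SpecialLinearGroup (Fin 2) (Fl m K i) →* grp m K
  | none => (L1 (Fin.last m) : SpecialLinearGroup (Fin 2) (K0 K) →* grp m K)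
  | some a => (L2 a.castSucc a.succ (ne_of_lt (Fin.castSucc_lt_succ)) :
      SpecialLinearGroup (Fin 2) K →* grp m K)

theorem LL_none (s : SpecialLinearGroup (Fin 2) (K0 K)) :
    LL m K none s = L1 (Fin.last m) s := rfl

theorem LL_some (a : Fin m) (s : SpecialLinearGroup (Fin 2) K) :
    LL m K (some a) s = L2 a.castSucc a.succ (ne_of_lt (Fin.castSucc_lt_succ)) s := rfl

end SU43
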