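import Pool.Agent.Lib.MP_43150e_al.SU.StrN
import Pool.Agent.Lib.MP_43150e_al.SU.Lev
import Pool.Agent.Lib.MP_43150e_al.Lin.Kol

/-! # `U` is a Sylow subgroup with normaliser `B` -/

set_option autoImplicit false

namespace SU43

open Matrix BN43

variable {m : ℕ} {K : Type} [Field K] [StarRing K]

omit [StarRing K] in
theorem stru_uu {n : ℕ} {p q : Fin n} (h : p < q) (c : K) :
    Lin43.UU (1 + Matrix.single p q c) := by
  constructor
  · intro i j hij
    rw [Matrix.add_apply, Matrix.one_apply_ne hij.ne', zero_add, Matrix.single_apply, if_neg]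
    rintro ⟨rfl, rfl⟩
    exact lt_asymm hij h
  · intro i
    rw [Matrix.add_apply, Matrix.one_apply_eq, Matrix.single_apply, if_neg, add_zero]
    rintro ⟨rfl, h2⟩
    exact h.ne h2.symm

theorem stru_none (c : K0 K) :
    mat (LL m K none (up2 c)) =
      1 + Matrix.single (ee m (Fin.last m)) (ff m (Fin.last m)) (c : K) := by
  have h1 : (inc (up2 c) : Matrix (Fin 2) (Fin 2) K) = !![1, (c : K); 0, 1] := by
    ext i j
    fin_cases i <;> fin_cases j <;> simp [inc, up2]
  have h2 : ee m (Fin.last m) ≠ ff m (Fin.last m) := by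
    intro h
    have h3 := congrArg Fin.val h
    simp only [ee, ff, Fin.val_rev, Fin.val_last] at h3
    omega
  show lev1 (Fin.last m) (inc (up2 c)) = _
  rw [lev1, h1, b2_upper h2]

theorem stru_some (a : Fin m) (c : K) :
    mat (LL m K (some a) (up2 c)) =
      (1 + Matrix.single (ee m a.castSucc) (ee m a.succ) c) *
      (1 + Matrix.single (ff m a.succ) (ff m a.castSucc) (-star c)) := by
  have h1 : til (up2 c).1 = !![1, -star c; 0, 1] := by
    ext i j
    fin_cases i <;> fin_cases j <;> simp [til, up2]
  have h0 : (up2 c).1 = !![1, c; 0, 1] := rfl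
  have h2 : ee m a.castSucc ≠ ee m a.succ := by
    intro h
    have h3 := congrArg Fin.val h
    simp only [ee, Fin.val_castSucc, Fin.val_succ] at h3
    omega
  have h3 : ff m a.succ ≠ ff m a.castSucc := fun h => h2 (Fin.rev_injective h).symm
  show lev2 a.castSucc a.succ (up2 c).1 = _
  rw [lev2, h1, h0, b2_upper h2, b2_upper h3]

theorem LL_up_mem (i : Option (Fin m)) (c : Fl m K i) : LL m K i (up2 c) ∈ U m K := by
  rw [mem_U_iff]
  cases i with
  | none =>
    rw [stru_none (m := m) (K := K) c]
    apply stru_uu
    rw [Fin.lt_def]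
    simp only [ee, ff, Fin.val_rev, Fin.val_last]
    omega
  | some a =>
    rw [stru_some (m := m) (K := K) a c]
    refine Lin43.UU.mul (stru_uu ?_ _) (stru_uu ?_ _)
    · rw [Fin.lt_def]
      simp only [ee, Fin.val_castSucc, Fin.val_succ]
      omega
    · rw [Fin.lt_def]
      have := a.2
      simp only [ee, ff, Fin.val_rev, Fin.val_castSucc, Fin.val_succ]
      omega

theorem stru_apply_none (c : K0 K) (a : Fin (m + 1)) :
    mat (LL m K none (up2 c)) (lo m a) (hi m a) = if a = Fin.last m then (c : K) else 0 := by
  have hne : lo m a ≠ hi m a := by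
    intro h
    have h3 := congrArg Fin.val h
    simp only [lo, hi] at h3
    omega
  rw [stru_none c, Matrix.add_apply, Matrix.one_apply_ne hne, zero_add,
    Matrix.single_apply]
  by_cases h : a = Fin.last m
  · subst h
    rw [if_pos, if_pos rfl]
    refine ⟨rfl, ?_⟩
    apply Fin.ext
    simp only [ee, ff, hi, Fin.val_rev, Fin.val_last]
    omega
  · rw [if_neg, if_neg h]
    rintro ⟨h1, -⟩
    apply h
    apply Fin.ext
    have h2 := congrArg Fin.val h1
    simp only [ee, lo] at h2
    exact h2.symm

theorem stru_apply_some (b : Fin m) (c : K) (a : Fin (m + 1)) :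
    mat (LL m K (some b) (up2 c)) (lo m a) (hi m a) = if a = b.castSucc then c else 0 := by
  have hne : lo m a ≠ hi m a := by
    intro h
    have h3 := congrArg Fin.val h
    simp only [lo, hi] at h3
    omega
  have hb := b.2
  have ha := a.2
  rw [stru_some b c, Matrix.add_mul, Matrix.one_mul, Matrix.mul_add,
    Matrix.mul_one, Matrix.add_apply, Matrix.add_apply, Matrix.add_apply,
    Matrix.one_apply_ne hne, zero_add]
  have h1 : (Matrix.single (ff m b.succ) (ff m b.castSucc) (-star c) : Mat m K)
      (lo m a) (hi m a) = 0 := by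
    rw [Matrix.single_apply, if_neg]
    rintro ⟨h1, -⟩
    have h2 := congrArg Fin.val h1
    simp only [ff, ee, lo, Fin.val_rev, Fin.val_succ] at h2
    omega
  have h2 : (Matrix.single (ee m b.castSucc) (ee m b.succ) c : Mat m K) *
      Matrix.single (ff m b.succ) (ff m b.castSucc) (-star c) = 0 := by
    apply Matrix.single_mul_single_of_ne
    intro h1
    have h2 := congrArg Fin.val h1
    simp only [ff, ee, Fin.val_rev, Fin.val_succ] at h2
    omega
  rw [h1, h2, zero_add, Matrix.zero_apply, add_zero, Matrix.single_apply]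
  by_cases h : a = b.castSucc
  · subst h
    rw [if_pos, if_pos rfl]
    refine ⟨rfl, ?_⟩
    apply Fin.ext
    simp only [ee, hi, Fin.val_castSucc, Fin.val_succ]
  · rw [if_neg, if_neg h]
    rintro ⟨h1, -⟩
    apply h
    apply Fin.ext
    have h2 := congrArg Fin.val h1
    simp only [ee, lo] at h2
    exact h2.symm

/-- The entries of a simple root element next to the diagonal. -/
theorem LL_up_apply (i : Option (Fin m)) (c : Fl m K i) (a : Fin (m + 1)) :
    mat (LL m K i (up2 c)) (lo m a) (hi m a) = if a = nd i then em m K i c else 0 := by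
  cases i with
  | none => exact stru_apply_none (m := m) (K := K) c a
  | some b => exact stru_apply_some (m := m) (K := K) b c a

theorem U_pgroup (p : ℕ) [Fact p.Prime] [CharP K p] [Finite K] : IsPGroup p (U m K) := by
  let f : U m K →* Lin43.uniS (2 * m + 2) K :=
    { toFun := fun A => ⟨A.1.1, A.2⟩
      map_one' := rfl
      map_mul' := fun _ _ => rfl }
  refine (Lin43.isPGroup_uniS (n := 2 * m + 2) (F := K) p).of_injective f ?_
  intro A A' h
  have h1 : (f A).1 = (f A').1 := by rw [h]
  apply Subtype.ext
  apply Subtype.ext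
  exact h1

/-- Every place next to the diagonal is nonzero for some element of `U`. -/
theorem stru_ex (k k' : Fin (2 * m + 2)) (hk : (k : ℕ) + 1 = k') :
    ∃ u ∈ U m K, mat u k k' ≠ 0 := by
  have hk' := k'.2
  by_cases h1 : (k : ℕ) = m
  · refine ⟨_, LL_up_mem (m := m) (K := K) none (1 : Fl m K none), ?_⟩
    have h2 : k = lo m (Fin.last m) := Fin.ext h1
    have h3 : k' = hi m (Fin.last m) := by
      apply Fin.ext
      simp only [hi, Fin.val_last]
      omega
    rw [h2, h3, LL_up_apply none, if_pos (show Fin.last m = nd none from rfl), map_one]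
    exact one_ne_zero
  by_cases h2 : (k : ℕ) < m
  · obtain ⟨a, ha⟩ : ∃ a : Fin m, (a : ℕ) = k := ⟨⟨k, h2⟩, rfl⟩
    refine ⟨_, LL_up_mem (m := m) (K := K) (some a) (1 : Fl m K (some a)), ?_⟩
    have h3 : k = lo m a.castSucc := Fin.ext ha.symm
    have h4 : k' = hi m a.castSucc := by
      apply Fin.ext
      simp only [hi, Fin.val_castSucc]
      omega
    rw [h3, h4, LL_up_apply (some a), if_pos (show a.castSucc = nd (some a) from rfl), map_one]
    exact one_ne_zero
  · obtain ⟨a, ha⟩ : ∃ a : Fin m, (a : ℕ) = 2 * m - k := ⟨⟨2 * m - k, by omega⟩, rfl⟩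
    refine ⟨_, LL_up_mem (m := m) (K := K) (some a) (1 : Fl m K (some a)), ?_⟩
    have ha2 := a.2
    have h3 : k = (hi m a.castSucc).rev := by
      apply Fin.ext
      rw [Fin.val_rev]
      simp only [hi, Fin.val_castSucc]
      omega
    have h4 : k' = (lo m a.castSucc).rev := by
      apply Fin.ext
      rw [Fin.val_rev]
      simp only [lo, Fin.val_castSucc]
      omega
    rw [h3, h4, side_rel _ (LL_up_mem (m := m) (K := K) (some a) (1 : Fl m K (some a))),
      LL_up_apply (some a), if_pos (show a.castSucc = nd (some a) from rfl), map_one, star_one]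
    exact neg_ne_zero.2 one_ne_zero

theorem U_norm [Finite K] (g : grp m K) :
    (∀ u ∈ U m K, g * u * g⁻¹ ∈ U m K) ↔ g ∈ B m K := by
  constructor
  · intro h
    have hfin : Finite (grp m K) := by
      have : Finite (SpecialLinearGroup (Fin (2 * m + 2)) K) :=
        inferInstanceAs (Finite {A : Matrix (Fin (2 * m + 2)) (Fin (2 * m + 2)) K // A.det = 1})
      infer_instance
    -- the reverse inclusion
    have hinv : ∀ u ∈ U m K, g⁻¹ * u * g ∈ U m K := by
      intro u hu
      let φ : U m K → U m K := fun x => ⟨g * x * g⁻¹, h x x.2⟩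
      have hφ : Function.Injective φ := by
        intro x y hxy
        have h1 : g * (x : grp m K) * g⁻¹ = g * (y : grp m K) * g⁻¹ := congrArg Subtype.val hxy
        have h2 := mul_right_cancel h1
        exact Subtype.ext (mul_left_cancel h2)
      obtain ⟨x, hx⟩ := Finite.surjective_of_injective hφ ⟨u, hu⟩
      have h1 : g * (x : grp m K) * g⁻¹ = u := congrArg Subtype.val hx
      have h2 : g⁻¹ * u * g = x := by
        rw [← h1]
        group
      rw [h2]
      exact x.2
    rw [mem_B_iff]
    have key : ∀ k : ℕ, ∀ b : Fin (2 * m + 2), (b : ℕ) = k → ∀ a : Fin (2 * m + 2), b < a →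
        mat g a b = 0 := by
      intro k
      induction k using Nat.strong_induction_on with
      | _ k ih =>
        intro b hb
        -- the images of the column under `u - 1`
        have hcol : ∀ u ∈ U m K, ∀ a : Fin (2 * m + 2), b ≤ a →
            (mat u * mat g) a b = mat g a b := by
          intro u hu a hab
          have h1 : Lin43.UU (mat (g⁻¹ * u * g)) := hinv u hu
          have h2 : mat u * mat g = mat g * mat (g⁻¹ * u * g) := by
            rw [← mat_mul, ← mat_mul]
            congr 1
            group
          rw [h2, Matrix.mul_apply, Finset.sum_eq_single b]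
          · rw [h1.2 b, mul_one]
          · intro j _ hj
            rcases lt_or_gt_of_ne hj with h3 | h3
            · rw [ih j (by rw [← hb]; exact h3) j rfl a (lt_of_lt_of_le h3 hab), zero_mul]
            · rw [h1.1 j b h3, mul_zero]
          · intro hne
            exact absurd (Finset.mem_univ b) hne
        by_contra hcon
        push Not at hcon
        obtain ⟨a0, ha0, ha1⟩ := hcon
        classical
        obtain ⟨a, ha, hmax⟩ := Finset.exists_max_image
          (Finset.univ.filter fun a : Fin (2 * m + 2) => b < a ∧ mat g a b ≠ 0) id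
          ⟨a0, Finset.mem_filter.2 ⟨Finset.mem_univ _, ha0, ha1⟩⟩
        obtain ⟨-, hba, hab⟩ := Finset.mem_filter.1 ha
        have hz : ∀ j, a < j → mat g j b = 0 := by
          intro j hj
          by_contra hne
          have h1 := hmax j (Finset.mem_filter.2 ⟨Finset.mem_univ _, lt_trans hba hj, hne⟩)
          exact absurd (lt_of_lt_of_le hj h1) (lt_irrefl _)
        rw [Fin.lt_def] at hba
        obtain ⟨a', ha'⟩ : ∃ a' : Fin (2 * m + 2), (a' : ℕ) + 1 = a :=
          ⟨⟨a - 1, by have := a.2; omega⟩, by show (a : ℕ) - 1 + 1 = a; omega⟩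
        obtain ⟨u, hu, hne⟩ := stru_ex (m := m) (K := K) a' a ha'
        have h1 := hcol u hu a' (by rw [Fin.le_def]; omega)
        have haa : a' ≠ a := by
          rintro rfl
          omega
        have hu' : Lin43.UU (mat u) := hu
        rw [Matrix.mul_apply, Fintype.sum_eq_add a' a haa] at h1
        · rw [hu'.2 a', one_mul] at h1
          have h2 : mat u a' a * mat g a b = 0 := by
            have h3 := add_eq_left.1 h1
            exact h3
          exact (mul_ne_zero hne hab) h2
        · rintro j ⟨hj1, hj2⟩
          by_cases h : j < a'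
          · rw [hu'.1 a' j h, zero_mul]
          · have h3 : a < j := by
              rw [Fin.lt_def] at h ⊢
              have h4 : (j : ℕ) ≠ a' := fun h => hj1 (Fin.ext h)
              have h5 : (j : ℕ) ≠ a := fun h => hj2 (Fin.ext h)
              omega
            rw [hz j h3, mul_zero]
    intro i j hij
    exact key j j rfl i hij
  · intro hg u hu
    exact conj_U g u hg hu

/-- The diagonal of an element of `B`. -/
noncomputable def struDiag (m : ℕ) (K : Type) [Field K] [StarRing K] :
    B m K →* (Fin (2 * m + 2) → Kˣ) where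
  toFun A i := Units.mk0 (mat A.1 i i) (diag_ne A.1 A.2 i)
  map_one' := by
    funext i
    apply Units.ext
    show mat (1 : grp m K) i i = 1
    rw [mat_one, Matrix.one_apply_eq]
  map_mul' A A' := by
    funext i
    apply Units.ext
    show mat (A.1 * A'.1) i i = mat A.1 i i * mat A'.1 i i
    rw [mat_mul]
    exact ((mem_B_iff A.1).1 A.2).mul_diag ((mem_B_iff A'.1).1 A'.2) i

theorem U_cop (p : ℕ) [Fact p.Prime] [CharP K p] [Finite K] :
    ¬ p ∣ (U m K).relIndex (B m K) := by
  have hker : (struDiag m K).ker = (U m K).subgroupOf (B m K) := by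
    ext A
    rw [MonoidHom.mem_ker, Subgroup.mem_subgroupOf, mem_U_iff]
    constructor
    · intro h
      refine ⟨(mem_B_iff A.1).1 A.2, fun i => ?_⟩
      have h1 := congrFun h i
      exact congrArg Units.val h1
    · intro h
      funext i
      apply Units.ext
      exact h.2 i
  have h1 : (U m K).relIndex (B m K) = Nat.card (struDiag m K).range := by
    rw [Subgroup.relIndex, ← hker, Subgroup.index_ker]
  have h2 : Nat.card (struDiag m K).range ∣ (Nat.card K - 1) ^ (2 * m + 2) := by
    have h3 := Subgroup.card_subgroup_dvd_card (struDiag m K).range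
    have h4 : Nat.card (Fin (2 * m + 2) → Kˣ) = (Nat.card K - 1) ^ (2 * m + 2) := by
      rw [Nat.card_fun, Nat.card_fin, Nat.card_units]
    rwa [h4] at h3
  intro h
  rw [h1] at h
  have hp : p.Prime := Fact.out
  have h3 : p ∣ Nat.card K - 1 := hp.dvd_of_dvd_pow (h.trans h2)
  have h4 : p ∣ Nat.card K := by
    have := Fintype.ofFinite K
    rw [Nat.card_eq_fintype_card, ← CharP.cast_eq_zero_iff K p]
    exact Nat.cast_card_eq_zero K
  have h5 : 0 < Nat.card K := Nat.card_pos
  have h6 : p ∣ 1 := by
    have h7 := (Nat.dvd_sub h4 h3)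
    have h8 : Nat.card K - (Nat.card K - 1) = 1 := by omega
    rwa [h8] at h7
  exact hp.one_lt.ne' (Nat.dvd_one.1 h6)

end SU43
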