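import Pool.Agent.Lib.MP_43150e_al.SU.PiH
import Pool.Agent.Lib.MP_43150e_al.SU.StrU

/-! # Values of the homomorphisms -/

set_option autoImplicit false

namespace SU43

open Matrix BN43

variable {m : ℕ} {K : Type} [Field K] [StarRing K]

namespace VS

/-- The value of an element of `P i`. -/
theorem exists_rep (i : Option (Fin m)) (g : grp m K) (hg : g ∈ P m K (nd i)) :
    ∃ (x : GeneralLinearGroup (Fin 2) (Fl m K i)) (c : K), c ≠ 0 ∧
      Val (pi m K i) g (ProjGenLinGroup.mk x) ∧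
      blk (nd i) (mat g) = c • (x : Matrix (Fin 2) (Fin 2) (Fl m K i)).map (em m K i) := by
  obtain ⟨x, hx⟩ := ProjGenLinGroup.mk_surjective (pi m K i ⟨g, hg⟩)
  have h1 : Val (pi m K i) g (ProjGenLinGroup.mk x) := ⟨hg, hx.symm⟩
  obtain ⟨-, c, hc, h2⟩ := (val_iff i g x).1 h1
  exact ⟨x, c, hc, h1, h2⟩

theorem blk_entries (a : Fin (m + 1)) (A : Mat m K) (X : Matrix (Fin 2) (Fin 2) K)
    (h : blk a A = X) : A (lo m a) (lo m a) = X 0 0 ∧ A (lo m a) (hi m a) = X 0 1 ∧
      A (hi m a) (lo m a) = X 1 0 ∧ A (hi m a) (hi m a) = X 1 1 := by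
  subst h
  exact ⟨rfl, rfl, rfl, rfl⟩

theorem blk_eq_of (a : Fin (m + 1)) (A : Mat m K) (X : Matrix (Fin 2) (Fin 2) K)
    (h1 : A (lo m a) (lo m a) = X 0 0) (h2 : A (lo m a) (hi m a) = X 0 1)
    (h3 : A (hi m a) (lo m a) = X 1 0) (h4 : A (hi m a) (hi m a) = X 1 1) : blk a A = X := by
  rw [blk, h1, h2, h3, h4]
  ext i j
  fin_cases i <;> fin_cases j <;> rfl

theorem lo_lt_hi (a : Fin (m + 1)) : lo m a < hi m a := by
  rw [Fin.lt_def]
  simp only [lo, hi]
  omega

theorem U_le_P (a : Fin (m + 1)) : U m K ≤ P m K a := U_le_B.trans (B_le_P a)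

end VS

theorem pi_up_iff (i : Option (Fin m)) (g : P m K (nd i)) :
    IsUp (pi m K i g) ↔ (g : grp m K) ∈ B m K := by
  obtain ⟨x, c, hc, ⟨hg, h1⟩, h2⟩ := VS.exists_rep i g.1 g.2
  have h3 : pi m K i g = ProjGenLinGroup.mk x := h1
  obtain ⟨-, -, h4, -⟩ := VS.blk_entries _ _ _ h2
  rw [Matrix.smul_apply, Matrix.map_apply, smul_eq_mul] at h4
  rw [← mem_B_of_P (nd i) g.1 g.2, h4, mul_eq_zero, or_iff_right hc, map_eq_zero, h3]
  constructor
  · rintro ⟨y, hy, hxy⟩
    obtain ⟨u, hu, hu'⟩ := pgl_mk_eq hxy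
    have h5 := hu' 1 0
    rw [hy] at h5
    exact (mul_eq_zero.1 h5).resolve_right hu
  · intro h
    exact ⟨x, h, rfl⟩

theorem val_uni_iff (i : Option (Fin m)) (u : grp m K) (hu : u ∈ U m K) (c : Fl m K i) :
    Val (pi m K i) u (uni c) ↔ mat u (lo m (nd i)) (hi m (nd i)) = em m K i c := by
  rw [uni, val_iff, pgl_uni_coe]
  have h00 := hu.2 (lo m (nd i))
  have h11 := hu.2 (hi m (nd i))
  have h10 := hu.1 _ _ (VS.lo_lt_hi (nd i))
  constructor
  · rintro ⟨-, c', hc', h⟩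
    obtain ⟨e1, e2, -, -⟩ := VS.blk_entries _ _ _ h
    rw [Matrix.smul_apply, Matrix.map_apply, smul_eq_mul] at e1 e2
    rw [h00] at e1
    have e3 : c' = 1 := by
      simpa using e1.symm
    rw [e2, e3, one_mul]
    rfl
  · intro h
    refine ⟨VS.U_le_P _ hu, 1, one_ne_zero, ?_⟩
    rw [one_smul]
    apply VS.blk_eq_of
    · rw [h00, Matrix.map_apply]
      simp
    · rw [h, Matrix.map_apply]
      rfl
    · rw [h10, Matrix.map_apply]
      simp
    · rw [h11, Matrix.map_apply]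
      simp

theorem pi_uni_of (i : Option (Fin m)) (u : grp m K) (hu : u ∈ U m K) :
    ∃ c, Val (pi m K i) u (uni c) := by
  suffices h : ∃ c, mat u (lo m (nd i)) (hi m (nd i)) = em m K i c by
    obtain ⟨c, hc⟩ := h
    exact ⟨c, (val_uni_iff i u hu c).2 hc⟩
  cases i with
  | none => exact ⟨(⟨_, mid_rel u hu⟩ : K0 K), rfl⟩
  | some a => exact ⟨(mat u (lo m (nd (some a))) (hi m (nd (some a))) : K), rfl⟩

theorem val_one_iff (i : Option (Fin m)) (u : grp m K) (hu : u ∈ U m K) :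
    Val (pi m K i) u 1 ↔ mat u (lo m (nd i)) (hi m (nd i)) = 0 := by
  rw [← uni_zero, val_uni_iff i u hu, map_zero]

/-- An element of `B` is unipotent at `i` iff its block has equal diagonal entries. -/
theorem val_B_iff (i : Option (Fin m)) (b : grp m K) (hb : b ∈ B m K) :
    (∃ c, Val (pi m K i) b (uni c)) ↔
      mat b (lo m (nd i)) (lo m (nd i)) = mat b (hi m (nd i)) (hi m (nd i)) := by
  constructor
  · rintro ⟨c, hc⟩
    rw [uni, val_iff, pgl_uni_coe] at hc
    obtain ⟨-, c', -, h⟩ := hc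
    obtain ⟨e1, -, -, e4⟩ := VS.blk_entries _ _ _ h
    rw [e1, e4, Matrix.smul_apply, Matrix.map_apply, Matrix.smul_apply, Matrix.map_apply]
    rfl
  · intro h
    obtain ⟨x, c, hc, h1, h2⟩ := VS.exists_rep i b (B_le_P _ hb)
    obtain ⟨e1, -, e3, e4⟩ := VS.blk_entries _ _ _ h2
    rw [Matrix.smul_apply, Matrix.map_apply, smul_eq_mul] at e1 e3 e4
    have hb0 : mat b (hi m (nd i)) (lo m (nd i)) = 0 := (mem_B_iff b).1 hb _ _ (VS.lo_lt_hi _)
    rw [hb0, eq_comm, mul_eq_zero, or_iff_right hc, map_eq_zero] at e3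
    rw [e1, e4] at h
    have h3 := (em m K i).injective (mul_left_cancel₀ hc h)
    have h4 : (x : Matrix (Fin 2) (Fin 2) (Fl m K i)) 0 0 ≠ 0 := by
      intro h0
      have h5 : mat b (lo m (nd i)) (lo m (nd i)) = 0 := by
        rw [e1, h0, map_zero, mul_zero]
      exact diag_ne b hb _ h5
    have hr : Ratio (ProjGenLinGroup.mk x) 1 := by
      refine ⟨one_ne_zero, (x : Matrix (Fin 2) (Fin 2) (Fl m K i)) 0 1 *
        ((x : Matrix (Fin 2) (Fin 2) (Fl m K i)) 0 0)⁻¹, _, pgl_uni_coe _, ?_⟩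
      refine pgl_mk_eq_of _ (inv_ne_zero h4) fun k l => ?_
      rw [pgl_uni_coe]
      fin_cases k <;> fin_cases l
      · simp [h4]
      · simp
      · simp [e3]
      · simp [← h3, h4]
    obtain ⟨d, hd⟩ := exists_uni_of_ratio hr
    exact ⟨d, hd ▸ h1⟩

namespace VS

theorem fx_b2 (p q : Fin (2 * m + 2)) (d : ℕ) (hd : ¬ ((p : ℕ) < d ∧ d ≤ (q : ℕ)))
    (hd' : ¬ ((q : ℕ) < d ∧ d ≤ (p : ℕ))) (s : Matrix (Fin 2) (Fin 2) K) : Fx d (b2 p q s) := by
  intro k l hl hk
  have hkl : k ≠ l := by rintro rfl; omega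
  simp only [b2, Matrix.of_apply]
  by_cases h1 : k = p
  · subst h1
    rw [if_pos rfl, if_neg hkl.symm, if_neg]
    rintro rfl
    exact hd' ⟨hl, hk⟩
  · rw [if_neg h1]
    by_cases h2 : k = q
    · subst h2
      rw [if_pos rfl, if_neg, if_neg hkl.symm]
      rintro rfl
      exact hd ⟨hl, hk⟩
    · rw [if_neg h2, if_neg hkl]

theorem Fx_mul {d : ℕ} {A B : Mat m K} (hA : Fx d A) (hB : Fx d B) : Fx d (A * B) := by
  intro k l hl hk
  rw [Matrix.mul_apply]
  apply Finset.sum_eq_zero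
  intro j _
  by_cases hj : (j : ℕ) < d
  · rw [hA k j hj hk, zero_mul]
  · rw [hB j l hl (by omega), mul_zero]

theorem mem_P_of (a : Fin (m + 1)) (A : grp m K)
    (h : ∀ b : Fin (m + 1), b ≠ a → Fx ((b : ℕ) + 1) (mat A)) : A ∈ P m K a := by
  rw [P, Subgroup.mem_iInf]
  exact fun b => h b.1 b.2

theorem LL_mem_some (a : Fin m) (s : SpecialLinearGroup (Fin 2) K) :
    LL m K (some a) s ∈ P m K (nd (some a)) := by
  apply mem_P_of
  intro b hb
  have ha := a.2
  have hb2 := b.2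
  have h1 : (b : ℕ) ≠ a := by
    intro h
    exact hb (Fin.ext h)
  rw [LL_some, mat_L2, lev2]
  refine Fx_mul (fx_b2 _ _ _ ?_ ?_ _) (fx_b2 _ _ _ ?_ ?_ _)
  all_goals simp only [ee, ff, Fin.val_rev, Fin.val_castSucc, Fin.val_succ]; omega

theorem LL_mem_none (s : SpecialLinearGroup (Fin 2) (K0 K)) :
    LL m K none s ∈ P m K (nd none) := by
  apply mem_P_of
  intro b hb
  have hb2 := b.2
  have h1 : (b : ℕ) ≠ m := by
    intro h
    exact hb (Fin.ext h)
  rw [LL_none, mat_L1, lev1]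
  refine fx_b2 _ _ _ ?_ ?_ _
  all_goals simp only [ee, ff, Fin.val_rev, Fin.val_last]; omega

theorem b2_pp {N : ℕ} {K : Type} [Field K] {p q : Fin N} (s : Matrix (Fin 2) (Fin 2) K) :
    b2 p q s p p = s 0 0 := by simp [b2]

theorem b2_pq {N : ℕ} {K : Type} [Field K] {p q : Fin N} (hpq : p ≠ q)
    (s : Matrix (Fin 2) (Fin 2) K) : b2 p q s p q = s 0 1 := by simp [b2, hpq.symm]

theorem b2_qp {N : ℕ} {K : Type} [Field K] {p q : Fin N} (hpq : p ≠ q)
    (s : Matrix (Fin 2) (Fin 2) K) : b2 p q s q p = s 1 0 := by simp [b2, hpq.symm]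

theorem b2_qq {N : ℕ} {K : Type} [Field K] {p q : Fin N} (hpq : p ≠ q)
    (s : Matrix (Fin 2) (Fin 2) K) : b2 p q s q q = s 1 1 := by simp [b2, hpq.symm]

theorem b2_col {N : ℕ} {K : Type} [Field K] {p q : Fin N}
    (s : Matrix (Fin 2) (Fin 2) K) (j : Fin N) (hp : j ≠ p) (hq : j ≠ q) (k : Fin N) :
    b2 p q s k j = if k = j then 1 else 0 := by
  by_cases h1 : k = p
  · simp [b2, h1, hp, hq, hp.symm]
  · by_cases h2 : k = q
    · simp [b2, h2, hp, hq, hq.symm]
    · simp [b2, h1, h2]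

theorem mul_b2_apply {N : ℕ} {K : Type} [Field K] {p q : Fin N} (A : Matrix (Fin N) (Fin N) K)
    (s : Matrix (Fin 2) (Fin 2) K) (i j : Fin N) (hp : j ≠ p) (hq : j ≠ q) :
    (A * b2 p q s) i j = A i j := by
  rw [Matrix.mul_apply, Finset.sum_eq_single j]
  · rw [b2_col s j hp hq, if_pos rfl, mul_one]
  · intro k _ hk
    rw [b2_col s j hp hq, if_neg hk, mul_zero]
  · intro h
    exact absurd (Finset.mem_univ _) h

theorem blk_LL_none (s : SpecialLinearGroup (Fin 2) (K0 K)) :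
    blk (Fin.last m) (mat (LL m K none s)) = inc s := by
  have h1 : lo m (Fin.last m) = ee m (Fin.last m) := rfl
  have h2 : hi m (Fin.last m) = ff m (Fin.last m) := by
    apply Fin.ext
    simp only [hi, ff, ee, Fin.val_rev, Fin.val_last]
    omega
  have h3 : ee m (Fin.last m) ≠ ff m (Fin.last m) := by
    rw [← h1, ← h2]
    exact (lo_lt_hi _).ne
  rw [LL_none, mat_L1, lev1]
  apply blk_eq_of
  · rw [h1, b2_pp]
  · rw [h1, h2, b2_pq h3]
  · rw [h1, h2, b2_qp h3]
  · rw [h2, b2_qq h3]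

theorem blk_LL_some (a : Fin m) (s : SpecialLinearGroup (Fin 2) K) :
    blk a.castSucc (mat (LL m K (some a) s)) = s.1 := by
  have ha := a.2
  have h1 : lo m a.castSucc = ee m a.castSucc := rfl
  have h2 : hi m a.castSucc = ee m a.succ := rfl
  have h3 : ee m a.castSucc ≠ ee m a.succ := by
    rw [← h1, ← h2]
    exact (lo_lt_hi _).ne
  have h4 : ∀ p q : Fin (m + 1), ee m p ≠ ff m q := by
    intro p q h
    have h1 := congrArg Fin.val h
    simp only [ff, ee, Fin.val_rev] at h1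
    have := p.2
    have := q.2
    omega
  rw [LL_some, mat_L2, lev2]
  apply blk_eq_of
  · rw [h1, mul_b2_apply _ _ _ _ (h4 _ _) (h4 _ _), b2_pp]
  · rw [h1, h2, mul_b2_apply _ _ _ _ (h4 _ _) (h4 _ _), b2_pq h3]
  · rw [h1, h2, mul_b2_apply _ _ _ _ (h4 _ _) (h4 _ _), b2_qp h3]
  · rw [h2, mul_b2_apply _ _ _ _ (h4 _ _) (h4 _ _), b2_qq h3]

end VS

theorem LL_mem_P (i : Option (Fin m)) (s : SpecialLinearGroup (Fin 2) (Fl m K i)) :
    LL m K i s ∈ P m K (nd i) := by
  cases i with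
  | none => exact VS.LL_mem_none (m := m) (K := K) s
  | some a => exact VS.LL_mem_some (m := m) (K := K) a s

theorem val_LL (i : Option (Fin m)) (s : SpecialLinearGroup (Fin 2) (Fl m K i)) :
    Val (pi m K i) (LL m K i s) s.toPGL := by
  have h1 : s.toPGL = ProjGenLinGroup.mk (SpecialLinearGroup.toGL s) := rfl
  rw [h1, val_iff]
  refine ⟨LL_mem_P i s, 1, one_ne_zero, ?_⟩
  rw [one_smul]
  cases i with
  | none => exact VS.blk_LL_none (m := m) (K := K) s
  | some a =>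
    refine (VS.blk_LL_some (m := m) (K := K) a s).trans ?_
    ext i j
    rfl

theorem val_LL_up (i : Option (Fin m)) (c : Fl m K i) :
    Val (pi m K i) (LL m K i (up2 c)) (uni c) := by
  rw [val_uni_iff i _ (LL_up_mem i c), LL_up_apply, if_pos rfl]

theorem VS.nd_inj {i l : Option (Fin m)} (h : nd i = nd l) : i = l := by
  cases i with
  | none =>
    cases l with
    | none => rfl
    | some b =>
      exfalso
      have h1 := congrArg Fin.val h
      have := b.2
      simp only [nd, Fin.val_last, Fin.val_castSucc] at h1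
      omega
  | some a =>
    cases l with
    | none =>
      exfalso
      have h1 := congrArg Fin.val h
      have := a.2
      simp only [nd, Fin.val_last, Fin.val_castSucc] at h1
      omega
    | some b =>
      have h1 := congrArg Fin.val h
      simp only [nd, Fin.val_castSucc] at h1
      rw [Fin.ext h1]

theorem val_LL_up_ne (i l : Option (Fin m)) (h : l ≠ i) (c : Fl m K i) :
    Val (pi m K l) (LL m K i (up2 c)) 1 := by
  rw [val_one_iff l _ (LL_up_mem i c), LL_up_apply, if_neg fun h' => h (VS.nd_inj h')]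

end SU43
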