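import Pool.Agent.Lib.MP_43150e_al.SU.Flip
import Pool.Agent.Lib.MP_43150e_al.SU.ValS

/-! # The centre -/

set_option autoImplicit false

namespace SU43

open Matrix BN43

variable {m : ℕ} {K : Type} [Field K] [StarRing K]

theorem cen_nd_surj (a : Fin (m + 1)) : ∃ i : Option (Fin m), nd i = a := by
  refine Fin.lastCases ⟨none, rfl⟩ (fun a => ⟨some a, rfl⟩) a

/-- The scalar matrices of the group are central. -/
theorem scalar_mem (z : grp m K) (c : K) (hz : mat z = Matrix.diagonal fun _ => c) :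
    z ∈ Subgroup.center (grp m K) := by
  rw [Subgroup.mem_center_iff]
  intro g
  apply mat_inj
  ext i j
  rw [StrNAux.mat_mul_diag hz, StrNAux.mat_diag_mul hz, mul_comm]

/-- If the diagonal entries of an element of `B` agree in each block, they are all equal. -/
theorem cen_diag_const (b : grp m K) (hb : b ∈ B m K)
    (h : ∀ a : Fin (m + 1), mat b (lo m a) (lo m a) = mat b (hi m a) (hi m a)) :
    ∃ c : K, c ≠ 0 ∧ c * star c = 1 ∧ ∀ i, mat b i i = c := by
  have h1 : ∀ (k : ℕ) (hk : k < m + 2),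
      mat b ⟨k, by omega⟩ ⟨k, by omega⟩ = mat b ⟨0, by omega⟩ ⟨0, by omega⟩ := by
    intro k
    induction k with
    | zero => intro _; rfl
    | succ k ih =>
      intro hk
      rw [← ih (by omega)]
      exact (h ⟨k, by omega⟩).symm
  have h2 := diag_rel b hb ⟨m, by omega⟩
  have h3 : (⟨m, by omega⟩ : Fin (2 * m + 2)).rev = ⟨m + 1, by omega⟩ := by
    rw [Fin.ext_iff, Fin.val_rev]
    show 2 * m + 2 - (m + 1) = m + 1
    omega
  rw [h3, h1 m (by omega), h1 (m + 1) (by omega)] at h2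
  refine ⟨_, left_ne_zero_of_mul_eq_one h2, h2, fun i => ?_⟩
  by_cases hi : (i : ℕ) < m + 2
  · exact h1 i hi
  · have h4 := diag_rel b hb i
    have h5 : (i.rev : ℕ) = 2 * m + 2 - (i + 1) := Fin.val_rev i
    have h6 : mat b i.rev i.rev = mat b ⟨0, by omega⟩ ⟨0, by omega⟩ := h1 i.rev (by omega)
    rw [h6] at h4
    have h7 := right_ne_zero_of_mul_eq_one h2
    exact mul_right_cancel₀ h7 (h4.trans h2.symm)

theorem cen_const_diag (b : grp m K) (c : K) (hb : ∀ i j, i ≠ j → mat b i j = 0)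
    (h : ∀ i, mat b i i = c) : mat b = Matrix.diagonal fun _ => c := by
  ext i j
  by_cases hij : i = j
  · subst hij
    rw [h, Matrix.diagonal_apply_eq]
  · rw [hb i j hij, Matrix.diagonal_apply_ne _ hij]

theorem center_scalar [Finite K] (z : grp m K) (hz : z ∈ Subgroup.center (grp m K)) :
    ∃ c : K, c ≠ 0 ∧ c * star c = 1 ∧ mat z = Matrix.diagonal fun _ => c := by
  rw [Subgroup.mem_center_iff] at hz
  have hconj : ∀ g : grp m K, g * z * g⁻¹ = z := fun g => by rw [hz g, mul_inv_cancel_right]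
  have hB : z ∈ B m K := by
    rw [← U_norm]
    intro u hu
    rw [← hz u, mul_inv_cancel_right]
    exact hu
  have hd : ∀ i j, i ≠ j → mat z i j = 0 := diag_of_flip z hB fun p => by
    rw [hconj]
    exact hB
  have heq : ∀ a : Fin (m + 1), mat z (lo m a) (lo m a) = mat z (hi m a) (hi m a) := by
    intro a
    obtain ⟨i, rfl⟩ := cen_nd_surj a
    have h1 := LL_up_apply (m := m) (K := K) i 1 (nd i)
    rw [if_pos rfl, map_one] at h1
    have hzd : mat z = Matrix.diagonal fun k => mat z k k := by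
      ext k l
      by_cases hkl : k = l
      · subst hkl
        rw [Matrix.diagonal_apply_eq]
      · rw [hd k l hkl, Matrix.diagonal_apply_ne _ hkl]
    have h2 := congrArg (fun g => mat g (lo m (nd i)) (hi m (nd i))) (hz (LL m K i (up2 1)))
    beta_reduce at h2
    rw [StrNAux.mat_mul_diag hzd, StrNAux.mat_diag_mul hzd, h1, one_mul, mul_one] at h2
    exact h2.symm
  obtain ⟨c, hc0, hc1, hc2⟩ := cen_diag_const z hB heq
  exact ⟨c, hc0, hc1, cen_const_diag z c hd hc2⟩

theorem Z_le_BN [Finite K] (z : grp m K) (hz : z ∈ Subgroup.center (grp m K)) :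
    z ∈ B m K ⊓ N m K := by
  obtain ⟨c, -, -, hc⟩ := center_scalar z hz
  rw [mem_BN_iff]
  intro i j hij
  rw [hc, Matrix.diagonal_apply_ne _ hij]

theorem Z_le_B [Finite K] : Subgroup.center (grp m K) ≤ B m K := fun z hz => (Z_le_BN z hz).1

theorem Z_le_N [Finite K] : Subgroup.center (grp m K) ≤ N m K := fun z hz => (Z_le_BN z hz).2

theorem Z_U [Finite K] : ∀ z ∈ Subgroup.center (grp m K), z ∈ U m K → z = 1 := by
  intro z hz hu
  obtain ⟨c, -, -, hc⟩ := center_scalar z hz
  have h1 : mat z 0 0 = 1 := ((mem_U_iff z).1 hu).2 0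
  rw [hc, Matrix.diagonal_apply_eq] at h1
  apply mat_inj
  rw [hc, h1, mat_one, Matrix.diagonal_one]

theorem Z_val [Finite K] : ∀ i, ∀ z ∈ Subgroup.center (grp m K), Val (pi m K i) z 1 := by
  intro i z hz
  obtain ⟨c, hc0, -, hc⟩ := center_scalar z hz
  have h1 : (1 : ProjGenLinGroup (Fin 2) (Fl m K i)) =
      ProjGenLinGroup.mk (1 : GeneralLinearGroup (Fin 2) (Fl m K i)) := (map_one _).symm
  rw [h1, val_iff]
  refine ⟨B_le_P _ (Z_le_B hz), c, hc0, ?_⟩
  have h2 : lo m (nd i) ≠ hi m (nd i) := by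
    intro h
    have h3 := congrArg Fin.val h
    simp only [lo, hi] at h3
    omega
  rw [hc]
  unfold blk
  rw [Matrix.diagonal_apply_eq, Matrix.diagonal_apply_eq, Matrix.diagonal_apply_ne _ h2,
    Matrix.diagonal_apply_ne _ h2.symm]
  ext k l
  fin_cases k <;> fin_cases l <;> simp

theorem pi_faith : ∀ b ∈ B m K, (∀ i, ∃ c, Val (pi m K i) b (uni c)) →
    ∃ z ∈ Subgroup.center (grp m K), b * z ∈ U m K := by
  intro b hb h
  obtain ⟨c, hc0, hc1, hc2⟩ := cen_diag_const b hb (fun a => by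
    obtain ⟨i, rfl⟩ := cen_nd_surj a
    exact (val_B_iff i b hb).1 (h i))
  have hUT := (mem_B_iff b).1 hb
  have hdet : (∏ _i : Fin (2 * m + 2), c) = 1 := by
    rw [← mat_det b, hUT.det]
    exact Finset.prod_congr rfl fun i _ => (hc2 i).symm
  obtain ⟨z, hz⟩ := exists_diag (m := m) (K := K) (fun _ => c⁻¹)
    (fun i => by
      show c⁻¹ * star c⁻¹ = 1
      rw [star_inv₀, ← mul_inv, hc1, inv_one])
    (by rw [Finset.prod_inv_distrib, hdet, inv_one])
  refine ⟨z, scalar_mem z c⁻¹ hz, ?_⟩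
  rw [mem_U_iff]
  constructor
  · intro i j hij
    rw [StrNAux.mat_mul_diag hz, hUT i j hij, zero_mul]
  · intro i
    rw [StrNAux.mat_mul_diag hz, hc2, mul_inv_cancel₀ hc0]

end SU43
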