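import Pool.Agent.Lib.MP_43150e_al.SU.StrU

/-! # Conjugates of simple root elements in maximal parabolic subgroups -/

set_option autoImplicit false

namespace SU43

open Matrix BN43

variable {m : ℕ} {K : Type} [Field K] [StarRing K]

theorem fixm_entry_none (s : K0 K) (k l : Fin (2 * m + 2)) (hkl : k ≠ l)
    (h : mat (LL m K none (up2 s)) k l ≠ 0) :
    k = lo m (Fin.last m) ∧ l = hi m (Fin.last m) := by
  rw [stru_none s, Matrix.add_apply, Matrix.one_apply_ne hkl, zero_add,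
    Matrix.single_apply] at h
  have h1 : ee m (Fin.last m) = k ∧ ff m (Fin.last m) = l := by
    by_contra hc
    rw [if_neg hc] at h
    exact h rfl
  refine ⟨?_, ?_⟩
  · rw [← h1.1]
    rfl
  · rw [← h1.2]
    apply Fin.ext
    simp only [ff, ee, hi, Fin.val_rev, Fin.val_last]
    omega

theorem fixm_entry_some (a : Fin m) (s : K) (k l : Fin (2 * m + 2)) (hkl : k ≠ l)
    (h : mat (LL m K (some a) (up2 s)) k l ≠ 0) :
    (k = lo m a.castSucc ∧ l = hi m a.castSucc) ∨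
      (k = (hi m a.castSucc).rev ∧ l = (lo m a.castSucc).rev) := by
  have ha := a.2
  rw [stru_some a s, Matrix.add_mul, Matrix.one_mul, Matrix.mul_add,
    Matrix.mul_one, Matrix.add_apply, Matrix.add_apply, Matrix.add_apply,
    Matrix.one_apply_ne hkl, zero_add] at h
  have h2 : (Matrix.single (ee m a.castSucc) (ee m a.succ) s : Mat m K) *
      Matrix.single (ff m a.succ) (ff m a.castSucc) (-star s) = 0 := by
    apply Matrix.single_mul_single_of_ne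
    intro h1
    have h2 := congrArg Fin.val h1
    simp only [ff, ee, Fin.val_rev, Fin.val_succ] at h2
    omega
  rw [h2, Matrix.zero_apply, add_zero] at h
  by_cases h4 : ee m a.castSucc = k ∧ ee m a.succ = l
  · left
    refine ⟨?_, ?_⟩
    · rw [← h4.1]
      rfl
    · rw [← h4.2]
      apply Fin.ext
      simp only [ee, hi, Fin.val_succ, Fin.val_castSucc]
  · rw [Matrix.single_apply, Matrix.single_apply, if_neg h4, add_zero] at h
    have h7 : ff m a.succ = k ∧ ff m a.castSucc = l := by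
      by_contra hc
      rw [if_neg hc] at h
      exact h rfl
    right
    refine ⟨?_, ?_⟩
    · rw [← h7.1]
      apply Fin.ext
      simp only [ff, ee, hi, Fin.val_rev, Fin.val_succ, Fin.val_castSucc]
    · rw [← h7.2]
      rfl

/-- The places off the diagonal of a simple root element. -/
theorem fixm_entry (i : Option (Fin m)) (s : Fl m K i) (k l : Fin (2 * m + 2)) (hkl : k ≠ l)
    (h : mat (LL m K i (up2 s)) k l ≠ 0) :
    (k = lo m (nd i) ∧ l = hi m (nd i)) ∨ (k = (hi m (nd i)).rev ∧ l = (lo m (nd i)).rev) := by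
  cases i with
  | none => exact Or.inl (fixm_entry_none (m := m) (K := K) s k l hkl h)
  | some a => exact fixm_entry_some (m := m) (K := K) a s k l hkl h

theorem fixm_arith0 (m x0 x1 x2 : ℕ) (hA : x0 < 2 * m + 2) (hB : x1 < 2 * m + 2)
    (hC : x2 < 2 * m + 2)
    (h0 : ¬ (¬ (x1 < 0 + 1 ∧ 0 + 1 ≤ x0) ∧ ¬ (2 * m + 2 - (x0 + 1) < 0 + 1 ∧
      0 + 1 ≤ 2 * m + 2 - (x1 + 1))))
    (h1 : ¬ (¬ (x2 < 0 + 1 ∧ 0 + 1 ≤ x1) ∧ ¬ (2 * m + 2 - (x1 + 1) < 0 + 1 ∧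
      0 + 1 ≤ 2 * m + 2 - (x2 + 1)))) : x0 + x2 = 2 * m + 1 := by
  omega

theorem fixm_arithm (m x0 x1 x2 : ℕ) (hA : x0 < 2 * m + 2) (hB : x1 < 2 * m + 2)
    (hC : x2 < 2 * m + 2)
    (h0 : ¬ (¬ (x1 < m + 1 ∧ m + 1 ≤ x0) ∧ ¬ (2 * m + 2 - (x0 + 1) < m + 1 ∧
      m + 1 ≤ 2 * m + 2 - (x1 + 1))))
    (h1 : ¬ (¬ (x2 < m + 1 ∧ m + 1 ≤ x1) ∧ ¬ (2 * m + 2 - (x1 + 1) < m + 1 ∧
      m + 1 ≤ 2 * m + 2 - (x2 + 1)))) : False := by
  omega

/-- The conjugate by a monomial element. -/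
theorem fixm_conj (n : grp m K) (e : Equiv.Perm (Fin (2 * m + 2)))
    (he : ∀ i j, mat n i j ≠ 0 ↔ j = e i) (her : ∀ i, e i.rev = (e i).rev) (x : grp m K)
    (c : Fin (m + 1))
    (h : ∀ k l, (e l : ℕ) < (c : ℕ) + 1 → (c : ℕ) + 1 ≤ (e k : ℕ) → mat x k l = 0) :
    n⁻¹ * x * n ∈ M m K c := by
  rw [mem_M_iff]
  intro k l hl hk
  rw [mat_mul, Matrix.mul_apply]
  apply Finset.sum_eq_zero
  intro j _
  by_cases hj : mat n j l = 0
  · rw [hj, mul_zero]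
  · have h1 : l = e j := (he j l).1 hj
    rw [mat_mul, Matrix.mul_apply, Finset.sum_eq_zero, zero_mul]
    intro i _
    by_cases hi : mat n⁻¹ k i = 0
    · rw [hi, zero_mul]
    · have h2 : mat n i.rev k.rev ≠ 0 := by
        intro h0
        apply hi
        rw [mat_inv_apply, h0, star_zero, mul_zero, zero_mul, neg_zero]
      have h3 : k.rev = e i.rev := (he _ _).1 h2
      have h4 : k = e i := by
        rw [her] at h3
        exact Fin.rev_injective h3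
      rw [h i j (by rw [← h1]; exact hl) (by rw [← h4]; exact hk), mul_zero]

/-- The condition for a simple root element. -/
theorem fixm_crit (n : grp m K) (e : Equiv.Perm (Fin (2 * m + 2)))
    (he : ∀ i j, mat n i j ≠ 0 ↔ j = e i) (her : ∀ i, e i.rev = (e i).rev) (c : Fin (m + 1))
    (i : Option (Fin m))
    (h1 : ¬ ((e (hi m (nd i)) : ℕ) < (c : ℕ) + 1 ∧ (c : ℕ) + 1 ≤ (e (lo m (nd i)) : ℕ)))
    (h2 : ¬ ((e (lo m (nd i)).rev : ℕ) < (c : ℕ) + 1 ∧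
      (c : ℕ) + 1 ≤ (e (hi m (nd i)).rev : ℕ))) (s : Fl m K i) :
    n⁻¹ * LL m K i (up2 s) * n ∈ M m K c := by
  apply fixm_conj n e he her
  intro k l hl hk
  by_contra hne
  have hkl : k ≠ l := by
    rintro rfl
    omega
  rcases fixm_entry i s k l hkl hne with ⟨rfl, rfl⟩ | ⟨rfl, rfl⟩
  · exact h1 ⟨hl, hk⟩
  · exact h2 ⟨hl, hk⟩

/-- There are nodes `0` and `1`. -/
theorem fixm_node (a : Fin (m + 1)) : ∃ i : Option (Fin m), nd i = a := by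
  by_cases h : a = Fin.last m
  · exact ⟨none, h.symm⟩
  · refine ⟨some (a.castPred h), ?_⟩
    show (a.castPred h).castSucc = a
    rw [Fin.castSucc_castPred]

theorem fix01 (hm : 1 ≤ m) (n : grp m K) (hn : n ∈ N m K) (c : Fin (m + 1))
    (hc : c = 0 ∨ c = Fin.last m) : ∃ i : Option (Fin m), ((nd i : ℕ) = 0 ∨ (nd i : ℕ) = 1) ∧
      ∀ s : Fl m K i, n⁻¹ * LL m K i (up2 s) * n ∈ M m K c := by
  obtain ⟨e, he, her⟩ := exists_perm n hn
  obtain ⟨i0, hi0⟩ := fixm_node (m := m) ⟨0, by omega⟩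
  obtain ⟨i1, hi1⟩ := fixm_node (m := m) ⟨1, by omega⟩
  by_contra hcon
  have h0 : ¬ (¬ ((e (hi m (nd i0)) : ℕ) < (c : ℕ) + 1 ∧
        (c : ℕ) + 1 ≤ (e (lo m (nd i0)) : ℕ)) ∧
      ¬ ((e (lo m (nd i0)).rev : ℕ) < (c : ℕ) + 1 ∧
        (c : ℕ) + 1 ≤ (e (hi m (nd i0)).rev : ℕ))) := by
    rintro ⟨h1, h2⟩
    exact hcon ⟨i0, Or.inl (by rw [hi0]), fixm_crit n e he her c i0 h1 h2⟩
  have h1 : ¬ (¬ ((e (hi m (nd i1)) : ℕ) < (c : ℕ) + 1 ∧
        (c : ℕ) + 1 ≤ (e (lo m (nd i1)) : ℕ)) ∧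
      ¬ ((e (lo m (nd i1)).rev : ℕ) < (c : ℕ) + 1 ∧
        (c : ℕ) + 1 ≤ (e (hi m (nd i1)).rev : ℕ))) := by
    rintro ⟨h1, h2⟩
    exact hcon ⟨i1, Or.inr (by rw [hi1]), fixm_crit n e he her c i1 h1 h2⟩
  rw [hi0, her, her, Fin.val_rev, Fin.val_rev] at h0
  rw [hi1, her, her, Fin.val_rev, Fin.val_rev] at h1
  have e01 : hi m (⟨0, by omega⟩ : Fin (m + 1)) = lo m (⟨1, by omega⟩ : Fin (m + 1)) :=
    Fin.ext rfl
  rw [e01] at h0
  have hA := (e (lo m (⟨0, by omega⟩ : Fin (m + 1)))).2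
  have hB := (e (lo m (⟨1, by omega⟩ : Fin (m + 1)))).2
  have hC := (e (hi m (⟨1, by omega⟩ : Fin (m + 1)))).2
  rcases hc with rfl | rfl
  · -- the generator is a basis vector
    have hinj : ∀ j j' : Fin (2 * m + 2), (j : ℕ) ≠ (j' : ℕ) → (e j : ℕ) ≠ (e j' : ℕ) := by
      intro j j' hne h
      exact hne (congrArg Fin.val (e.injective (Fin.ext h)))
    have v0 : ((lo m (⟨0, by omega⟩ : Fin (m + 1)) : Fin (2 * m + 2)) : ℕ) = 0 := rfl
    have v2 : ((hi m (⟨1, by omega⟩ : Fin (m + 1)) : Fin (2 * m + 2)) : ℕ) = 2 := rfl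
    have n02' := hinj (lo m (⟨0, by omega⟩ : Fin (m + 1))).rev (hi m ⟨1, by omega⟩) (by
      rw [Fin.val_rev, v0, v2]; omega)
    rw [her, Fin.val_rev] at n02'
    rw [Fin.val_zero] at h0 h1
    have := fixm_arith0 m _ _ _ hA hB hC h0 h1
    omega
  · rw [Fin.val_last] at h0 h1
    exact fixm_arithm m _ _ _ hA hB hC h0 h1

theorem fix0m (hm : 1 ≤ m) (n : grp m K) (hn : n ∈ N m K) :
    ∃ i : Option (Fin m), (nd i = 0 ∨ nd i = Fin.last m) ∧
      ∀ s : Fl m K i, n⁻¹ * LL m K i (up2 s) * n ∈ M m K 0 := by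
  obtain ⟨e, he, her⟩ := exists_perm n hn
  obtain ⟨i0, hi0⟩ := fixm_node (m := m) 0
  obtain ⟨i1, hi1⟩ := fixm_node (m := m) (Fin.last m)
  by_contra hcon
  have h0 : ¬ (¬ ((e (hi m (nd i0)) : ℕ) < ((0 : Fin (m + 1)) : ℕ) + 1 ∧
        ((0 : Fin (m + 1)) : ℕ) + 1 ≤ (e (lo m (nd i0)) : ℕ)) ∧
      ¬ ((e (lo m (nd i0)).rev : ℕ) < ((0 : Fin (m + 1)) : ℕ) + 1 ∧
        ((0 : Fin (m + 1)) : ℕ) + 1 ≤ (e (hi m (nd i0)).rev : ℕ))) := by
    rintro ⟨h1, h2⟩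
    exact hcon ⟨i0, Or.inl hi0, fixm_crit n e he her 0 i0 h1 h2⟩
  have h1 : ¬ (¬ ((e (hi m (nd i1)) : ℕ) < ((0 : Fin (m + 1)) : ℕ) + 1 ∧
        ((0 : Fin (m + 1)) : ℕ) + 1 ≤ (e (lo m (nd i1)) : ℕ)) ∧
      ¬ ((e (lo m (nd i1)).rev : ℕ) < ((0 : Fin (m + 1)) : ℕ) + 1 ∧
        ((0 : Fin (m + 1)) : ℕ) + 1 ≤ (e (hi m (nd i1)).rev : ℕ))) := by
    rintro ⟨h1, h2⟩
    exact hcon ⟨i1, Or.inr hi1, fixm_crit n e he her 0 i1 h1 h2⟩
  rw [hi0] at h0
  rw [hi1] at h1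
  have key : ∀ j j' : Fin (2 * m + 2), j ≠ j' → ¬ ((e j : ℕ) < ((0 : Fin (m + 1)) : ℕ) + 1 ∧
      (e j' : ℕ) < ((0 : Fin (m + 1)) : ℕ) + 1) := by
    rintro j j' hne ⟨h2, h3⟩
    apply hne
    apply e.injective
    apply Fin.ext
    rw [Fin.val_zero] at h2 h3
    omega
  have v1 : ((hi m (0 : Fin (m + 1)) : Fin (2 * m + 2)) : ℕ) = 1 := rfl
  have v2 : ((lo m (0 : Fin (m + 1))).rev : ℕ) = 2 * m + 1 := by
    rw [Fin.val_rev]
    simp only [lo, Fin.val_zero]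
    omega
  have v3 : ((hi m (Fin.last m) : Fin (2 * m + 2)) : ℕ) = m + 1 := rfl
  have v4 : ((lo m (Fin.last m)).rev : ℕ) = m + 1 := by
    rw [Fin.val_rev]
    simp only [lo, Fin.val_last]
    omega
  have k1 := key (hi m 0) (hi m (Fin.last m)) (by rw [Ne, Fin.ext_iff, v1, v3]; omega)
  have k2 := key (hi m 0) (lo m (Fin.last m)).rev (by rw [Ne, Fin.ext_iff, v1, v4]; omega)
  have k3 := key (lo m 0).rev (hi m (Fin.last m)) (by rw [Ne, Fin.ext_iff, v2, v3]; omega)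
  have k4 := key (lo m 0).rev (lo m (Fin.last m)).rev (by rw [Ne, Fin.ext_iff, v2, v4]; omega)
  tauto

end SU43
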