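import Pool.Agent.Lib.MP_43150e_al.SU.StrU

/-! # Characters of `U` -/

set_option autoImplicit false

namespace SU43

open Matrix BN43

variable {m : ℕ} {K : Type} [Field K] [StarRing K]

/-- The character `u ↦ λ(u_{a,a+1}) + λ(u_{b,b+1})`, `λ : K → Z/p` additive, `λ 1 ≠ 0`. -/
theorem exists_psi [Finite K] (p : ℕ) [Fact p.Prime] [CharP K p] (a b : Fin (m + 1))
    (hab : a ≠ b) : ∃ ψ : U m K →* Multiplicative (ZMod p),
      (∀ i : Option (Fin m), nd i = a ∨ nd i = b →
        ψ ⟨LL m K i (up2 1), LL_up_mem i 1⟩ ≠ 1) ∧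
      ∀ u : U m K, mat (u : grp m K) (lo m a) (hi m a) = 0 →
        mat (u : grp m K) (lo m b) (hi m b) = 0 → ψ u = 1 := by
  let _ : Algebra (ZMod p) K := ZMod.algebra K p
  obtain ⟨l, hl⟩ : ∃ l : Module.Dual (ZMod p) K, l 1 ≠ 0 := by
    by_contra hcon
    push Not at hcon
    exact one_ne_zero ((Module.forall_dual_apply_eq_zero_iff (ZMod p) (1 : K)).1 hcon)
  have hadd : ∀ (u v : U m K) (c : Fin (m + 1)), mat (((u * v : U m K)) : grp m K) (lo m c) (hi m c) =
      mat (u : grp m K) (lo m c) (hi m c) + mat (v : grp m K) (lo m c) (hi m c) := by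
    intro u v c
    have h1 : mat (((u * v : U m K)) : grp m K) = mat (u : grp m K) * mat (v : grp m K) := rfl
    rw [h1]
    exact Lin43.UU.superdiag u.2 v.2 _ _ rfl
  have hone : ∀ c : Fin (m + 1), mat ((1 : U m K) : grp m K) (lo m c) (hi m c) = 0 := by
    intro c
    have h1 := hadd 1 1 c
    rw [mul_one] at h1
    exact left_eq_add.1 h1
  refine ⟨{ toFun := fun u => Multiplicative.ofAdd (l (mat (u : grp m K) (lo m a) (hi m a)) +
              l (mat (u : grp m K) (lo m b) (hi m b)))
            map_one' := ?_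
            map_mul' := ?_ }, ?_, ?_⟩
  · rw [hone, hone, map_zero, add_zero]
    rfl
  · intro u v
    refine congrArg Multiplicative.ofAdd ?_
    rw [hadd, hadd, map_add, map_add]
    exact add_add_add_comm _ _ _ _
  · intro i hi h
    have h1 : l (mat (LL m K i (up2 1)) (lo m a) (SU43.hi m a)) +
        l (mat (LL m K i (up2 1)) (lo m b) (SU43.hi m b)) = 0 := Multiplicative.ofAdd.injective h
    rw [LL_up_apply, LL_up_apply, map_one] at h1
    rcases hi with hi | hi
    · rw [if_pos hi.symm, if_neg (fun h2 => hab (hi.symm.trans h2.symm)), map_zero, add_zero] at h1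
      exact hl h1
    · rw [if_neg (fun h2 => hab (h2.trans hi)), if_pos hi.symm, map_zero, zero_add] at h1
      exact hl h1
  · intro u h1 h2
    show Multiplicative.ofAdd (l (mat (u : grp m K) (lo m a) (hi m a)) +
              l (mat (u : grp m K) (lo m b) (hi m b))) = 1
    rw [h1, h2, map_zero, add_zero]
    rfl

end SU43
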