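import Pool.Agent.Lib.MP_43150e_al.SU.Flip

/-! # Vanishing of simple root coordinates -/

set_option autoImplicit false

namespace SU43

open Matrix BN43 StrNAux

variable {m : ℕ} {K : Type} [Field K] [StarRing K]

omit [StarRing K] in
theorem van_nz {n : ℕ} {p q k : Fin n} {x y : K} (hx : x ≠ 0) (hy : y ≠ 0) :
    (if k = p then x else if k = q then y else (1 : K)) ≠ 0 := by
  split_ifs
  · exact hx
  · exact hy
  · exact one_ne_zero

omit [StarRing K] in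
theorem van_left {n : ℕ} {p q : Fin n} (hpq : p ≠ q) {x y : K} (hx : x ≠ 0) (hy : y ≠ 0)
    (A : Matrix (Fin n) (Fin n) K) (i j : Fin n) :
    (b2 p q !![0, x; y, 0] * A) i j = 0 ↔ A (Equiv.swap p q i) j = 0 := by
  rw [b2_anti_mul hpq]
  exact ⟨fun h => (mul_eq_zero.1 h).resolve_left (van_nz hx hy), fun h => by rw [h, mul_zero]⟩

omit [StarRing K] in
theorem van_right {n : ℕ} {p q : Fin n} (hpq : p ≠ q) {x y : K} (hx : x ≠ 0) (hy : y ≠ 0)
    (A : Matrix (Fin n) (Fin n) K) (i j : Fin n) :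
    (A * b2 p q !![0, x; y, 0]) i j = 0 ↔ A i (Equiv.swap p q j) = 0 := by
  rw [mul_b2_anti hpq]
  exact ⟨fun h => (mul_eq_zero.1 h).resolve_right (van_nz hx hy), fun h => by rw [h, zero_mul]⟩

theorem van_L1 (p : Fin (m + 1)) (A : grp m K) (i j : Fin (2 * m + 2)) :
    mat ((L1 p wl)⁻¹ * A * L1 p wl) i j = 0 ↔
      mat A (Equiv.swap (ee m p) (ff m p) i) (Equiv.swap (ee m p) (ff m p) j) = 0 := by
  have h := flip_apply p ((L1 p wl)⁻¹ * A * L1 p wl) (Equiv.swap (ee m p) (ff m p) i)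
    (Equiv.swap (ee m p) (ff m p) j)
  rw [Equiv.swap_apply_self, Equiv.swap_apply_self] at h
  rw [← h]
  have h2 : L1 p wl * ((L1 p wl)⁻¹ * A * L1 p wl) * (L1 p wl)⁻¹ = A := by group
  rw [h2]

omit [StarRing K] in
theorem van_wl_inv : ((wl : SpecialLinearGroup (Fin 2) K)⁻¹).1 = !![0, -1; 1, 0] := by
  rw [Matrix.SpecialLinearGroup.SL2_inv_expl]
  ext i j
  fin_cases i <;> fin_cases j <;> simp [wl]

theorem van_til (x y : K) : til (K := K) !![0, x; y, 0] = !![0, -star x; -star y, 0] := by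
  ext i j
  fin_cases i <;> fin_cases j <;> simp [til]

theorem van_L2 (p q : Fin (m + 1)) (hpq : p ≠ q) (A : grp m K) (i j : Fin (2 * m + 2)) :
    mat ((L2 p q hpq wl)⁻¹ * A * L2 p q hpq wl) i j = 0 ↔
      mat A (Equiv.swap (ff m q) (ff m p) (Equiv.swap (ee m p) (ee m q) i))
        (Equiv.swap (ee m p) (ee m q) (Equiv.swap (ff m q) (ff m p) j)) = 0 := by
  rw [← map_inv, mat_mul, mat_mul, mat_L2, mat_L2, van_wl_inv]
  have h1 : (wl : SpecialLinearGroup (Fin 2) K).1 = !![0, 1; -1, 0] := rfl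
  rw [h1]
  unfold lev2
  rw [van_til, van_til, star_one, star_neg, star_one, neg_neg]
  have e1 : ee m p ≠ ee m q := ee_ne hpq
  have e2 : ff m q ≠ ff m p := ff_ne (Ne.symm hpq)
  have h1' : (1 : K) ≠ 0 := one_ne_zero
  have h2' : (-1 : K) ≠ 0 := neg_ne_zero.2 one_ne_zero
  have h3 : ∀ X Y A X' Y' : Mat m K, X * Y * A * (X' * Y') = X * (Y * (A * X' * Y')) := by
    intro X Y A X' Y'
    simp only [Matrix.mul_assoc]
  rw [h3, van_left e1 h2' h1', van_left e2 h1' h2', van_right e2 h2' h1', van_right e1 h1' h2']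

theorem van_sw {n : ℕ} (a b i : Fin n) : ((Equiv.swap a b i : Fin n) : ℕ) =
    if (i : ℕ) = a then (b : ℕ) else if (i : ℕ) = b then (a : ℕ) else i := by
  rw [Equiv.swap_apply_def]
  by_cases h1 : i = a
  · rw [if_pos h1, if_pos (congrArg Fin.val h1)]
  · rw [if_neg h1, if_neg (fun h => h1 (Fin.ext h))]
    by_cases h2 : i = b
    · rw [if_pos h2, if_pos (congrArg Fin.val h2)]
    · rw [if_neg h2, if_neg (fun h => h2 (Fin.ext h))]

theorem van_ee (p : Fin (m + 1)) : ((ee m p : Fin (2 * m + 2)) : ℕ) = p := rfl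

theorem van_ff (p : Fin (m + 1)) : ((ff m p : Fin (2 * m + 2)) : ℕ) = 2 * m + 1 - (p : ℕ) := by
  have h : ((ff m p : Fin (2 * m + 2)) : ℕ) = 2 * m + 2 - ((p : ℕ) + 1) := Fin.val_rev _
  rw [h]
  omega

theorem van_ee0 : ((ee m 0 : Fin (2 * m + 2)) : ℕ) = 0 := rfl

theorem van_ff0 : ((ff m 0 : Fin (2 * m + 2)) : ℕ) = 2 * m + 1 := van_ff 0

theorem van_eel : ((ee m (Fin.last m) : Fin (2 * m + 2)) : ℕ) = m := rfl

theorem van_ffl : ((ff m (Fin.last m) : Fin (2 * m + 2)) : ℕ) = m + 1 := by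
  rw [van_ff, Fin.val_last]
  omega

theorem van_sv {n : ℕ} {a b i : Fin n} {va vb vi : ℕ} (w : ℕ) (ha : (a : ℕ) = va)
    (hb : (b : ℕ) = vb) (hi : (i : ℕ) = vi)
    (h : (vi = va ∧ w = vb) ∨ (vi ≠ va ∧ vi = vb ∧ w = va) ∨ (vi ≠ va ∧ vi ≠ vb ∧ w = vi)) :
    ((Equiv.swap a b i : Fin n) : ℕ) = w := by
  rw [van_sw, ha, hb, hi]
  rcases h with ⟨h1, h2⟩ | ⟨h1, h2, h3⟩ | ⟨h1, h2, h3⟩
  · rw [if_pos h1, h2]
  · rw [if_neg h1, if_pos h2, h3]
  · rw [if_neg h1, if_neg h2, h3]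

theorem van_s0 {n : ℕ} {a b : Fin n} {va vb vi : ℕ} {hvi : vi < n} (w : ℕ) (ha : (a : ℕ) = va)
    (hb : (b : ℕ) = vb)
    (h : (vi = va ∧ w = vb) ∨ (vi ≠ va ∧ vi = vb ∧ w = va) ∨ (vi ≠ va ∧ vi ≠ vb ∧ w = vi)) :
    ((Equiv.swap a b ⟨vi, hvi⟩ : Fin n) : ℕ) = w :=
  van_sv w ha hb rfl h

/-- The entries of `t⁻¹ u t`. -/
theorem van_t1 (p q : Fin (m + 1)) (hpq : p ≠ q) (u : grp m K) (i j : Fin (2 * m + 2)) :
    mat ((L1 0 wl * L2 p q hpq wl)⁻¹ * u * (L1 0 wl * L2 p q hpq wl)) i j = 0 ↔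
      mat u (Equiv.swap (ee m 0) (ff m 0)
          (Equiv.swap (ff m q) (ff m p) (Equiv.swap (ee m p) (ee m q) i)))
        (Equiv.swap (ee m 0) (ff m 0)
          (Equiv.swap (ee m p) (ee m q) (Equiv.swap (ff m q) (ff m p) j))) = 0 := by
  have h : (L1 0 wl * L2 p q hpq wl)⁻¹ * u * (L1 0 wl * L2 p q hpq wl) =
      (L2 p q hpq wl)⁻¹ * ((L1 0 wl)⁻¹ * u * L1 0 wl) * L2 p q hpq wl := by group
  rw [h, van_L2, van_L1]

theorem van_t2 (r s : Fin (m + 1)) (u : grp m K) (i j : Fin (2 * m + 2)) :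
    mat ((L1 r wl * L1 s wl)⁻¹ * u * (L1 r wl * L1 s wl)) i j = 0 ↔
      mat u (Equiv.swap (ee m r) (ff m r) (Equiv.swap (ee m s) (ff m s) i))
        (Equiv.swap (ee m r) (ff m r) (Equiv.swap (ee m s) (ff m s) j)) = 0 := by
  have h : (L1 r wl * L1 s wl)⁻¹ * u * (L1 r wl * L1 s wl) =
      (L1 s wl)⁻¹ * ((L1 r wl)⁻¹ * u * L1 r wl) * L1 s wl := by group
  rw [h, van_L1, van_L1]

/-- The dual of the first simple root coordinate. -/
theorem van_dual (hm : 0 < m) (u : grp m K) (hu : u ∈ U m K) (k l : Fin (2 * m + 2))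
    (hk : (k : ℕ) = 2 * m) (hl : (l : ℕ) = 2 * m + 1) (h : mat u k l = 0) :
    mat u (lo m 0) (hi m 0) = 0 := by
  have h1 := side_rel u hu (⟨0, hm⟩ : Fin m)
  have e1 : (hi m (⟨0, hm⟩ : Fin m).castSucc).rev = k := by
    apply Fin.ext
    rw [Fin.val_rev, hk]
    show 2 * m + 2 - (0 + 1 + 1) = 2 * m
    omega
  have e2 : (lo m (⟨0, hm⟩ : Fin m).castSucc).rev = l := by
    apply Fin.ext
    rw [Fin.val_rev, hl]
    show 2 * m + 2 - (0 + 1) = 2 * m + 1
    omega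
  rw [e1, e2, h] at h1
  have e3 : (lo m (⟨0, hm⟩ : Fin m).castSucc) = lo m 0 := rfl
  have e4 : (hi m (⟨0, hm⟩ : Fin m).castSucc) = hi m 0 := rfl
  rw [e3, e4] at h1
  exact star_eq_zero.1 (neg_eq_zero.1 h1.symm)

/-- `t E_{d+1}` is spanned by `f_0, e_2, .., e_{d+1}`. -/
theorem van1 (d p q : Fin (m + 1)) (h1 : 1 ≤ (d : ℕ)) (hp : (p : ℕ) = 1)
    (hq : (q : ℕ) = (d : ℕ) + 1) (hpq : p ≠ q) (u : grp m K) (hu : u ∈ U m K)
    (h : (L1 0 wl * L2 p q hpq wl)⁻¹ * u * (L1 0 wl * L2 p q hpq wl) ∈ M m K d) :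
    mat u (lo m 0) (hi m 0) = 0 ∧ mat u (lo m p) (hi m p) = 0 := by
  have hq2 := q.2
  constructor
  · have h2 := (van_t1 p q hpq u (⟨2 * m - (d : ℕ), by omega⟩ : Fin (2 * m + 2)) ⟨0, by omega⟩).1
      (h _ _ (by show 0 < (d : ℕ) + 1; omega) (by show (d : ℕ) + 1 ≤ 2 * m - (d : ℕ); omega))
    refine van_dual (by omega) u hu _ _ ?_ ?_ h2
    · exact van_sv (2 * m) van_ee0 van_ff0 (van_sv (2 * m) (van_ff q) (van_ff p)
        (van_s0 (2 * m - (d : ℕ)) (van_ee p) (van_ee q) (by omega)) (by omega)) (by omega)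
    · exact van_sv (2 * m + 1) van_ee0 van_ff0 (van_sv 0 (van_ee p) (van_ee q)
        (van_s0 0 (van_ff q) (van_ff p) (by omega)) (by omega)) (by omega)
  · have e1 : Equiv.swap (ee m 0) (ff m 0) (Equiv.swap (ff m q) (ff m p)
        (Equiv.swap (ee m p) (ee m q) (⟨(d : ℕ) + 1, by omega⟩ : Fin (2 * m + 2)))) = lo m p := by
      apply Fin.ext
      show _ = (p : ℕ)
      exact van_sv (p : ℕ) van_ee0 van_ff0 (van_sv 1 (van_ff q) (van_ff p)
        (van_s0 1 (van_ee p) (van_ee q) (by omega)) (by omega)) (by omega)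
    by_cases hd : (d : ℕ) = 1
    · have h2 := (van_t1 p q hpq u (⟨(d : ℕ) + 1, by omega⟩ : Fin (2 * m + 2)) ⟨1, by omega⟩).1
        (h _ _ (by show 1 < (d : ℕ) + 1; omega) (by show (d : ℕ) + 1 ≤ (d : ℕ) + 1; omega))
      have e2 : Equiv.swap (ee m 0) (ff m 0) (Equiv.swap (ee m p) (ee m q)
          (Equiv.swap (ff m q) (ff m p) (⟨1, by omega⟩ : Fin (2 * m + 2)))) = hi m p := by
        apply Fin.ext
        show _ = (p : ℕ) + 1
        exact van_sv ((p : ℕ) + 1) van_ee0 van_ff0 (van_sv 2 (van_ee p) (van_ee q)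
          (van_s0 1 (van_ff q) (van_ff p) (by omega)) (by omega)) (by omega)
      rwa [e1, e2] at h2
    · have h2 := (van_t1 p q hpq u (⟨(d : ℕ) + 1, by omega⟩ : Fin (2 * m + 2)) ⟨2, by omega⟩).1
        (h _ _ (by show 2 < (d : ℕ) + 1; omega) (by show (d : ℕ) + 1 ≤ (d : ℕ) + 1; omega))
      have e2 : Equiv.swap (ee m 0) (ff m 0) (Equiv.swap (ee m p) (ee m q)
          (Equiv.swap (ff m q) (ff m p) (⟨2, by omega⟩ : Fin (2 * m + 2)))) = hi m p := by
        apply Fin.ext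
        show _ = (p : ℕ) + 1
        exact van_sv ((p : ℕ) + 1) van_ee0 van_ff0 (van_sv 2 (van_ee p) (van_ee q)
          (van_s0 2 (van_ff q) (van_ff p) (by omega)) (by omega)) (by omega)
      rwa [e1, e2] at h2

/-- `t E_1` is spanned by `f_0` and `t E_{m+1}` by `f_0, f_1, e_2, .., e_m`. -/
theorem van2 (p : Fin (m + 1)) (hp : (p : ℕ) = 1) (u : grp m K) (hu : u ∈ U m K)
    (h0 : (L1 0 wl * L1 p wl)⁻¹ * u * (L1 0 wl * L1 p wl) ∈ M m K 0)
    (h1 : (L1 0 wl * L1 p wl)⁻¹ * u * (L1 0 wl * L1 p wl) ∈ M m K (Fin.last m)) :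
    mat u (lo m 0) (hi m 0) = 0 ∧ mat u (lo m p) (hi m p) = 0 := by
  have hp2 := p.2
  constructor
  · have h2 := (van_t2 0 p u (⟨1, by omega⟩ : Fin (2 * m + 2)) ⟨0, by omega⟩).1
      (h0 _ _ (by show 0 < 0 + 1; omega) (by show 0 + 1 ≤ 1; omega))
    refine van_dual (by omega) u hu _ _ ?_ ?_ h2
    · exact van_sv (2 * m) van_ee0 van_ff0
        (van_s0 (2 * m) (van_ee p) (van_ff p) (by omega)) (by omega)
    · exact van_sv (2 * m + 1) van_ee0 van_ff0
        (van_s0 0 (van_ee p) (van_ff p) (by omega)) (by omega)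
  · have e1 : Equiv.swap (ee m 0) (ff m 0) (Equiv.swap (ee m p) (ff m p)
        (⟨2 * m, by omega⟩ : Fin (2 * m + 2))) = lo m p := by
      apply Fin.ext
      show _ = (p : ℕ)
      exact van_sv (p : ℕ) van_ee0 van_ff0
        (van_s0 1 (van_ee p) (van_ff p) (by omega)) (by omega)
    by_cases hm : m = 1
    · have h2 := (van_t2 0 p u (⟨2 * m, by omega⟩ : Fin (2 * m + 2)) ⟨1, by omega⟩).1
        (h1 _ _ (by show 1 < m + 1; omega) (by show m + 1 ≤ 2 * m; omega))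
      have e2 : Equiv.swap (ee m 0) (ff m 0) (Equiv.swap (ee m p) (ff m p)
          (⟨1, by omega⟩ : Fin (2 * m + 2))) = hi m p := by
        apply Fin.ext
        show _ = (p : ℕ) + 1
        exact van_sv ((p : ℕ) + 1) van_ee0 van_ff0
          (van_s0 2 (van_ee p) (van_ff p) (by omega)) (by omega)
      rwa [e1, e2] at h2
    · have h2 := (van_t2 0 p u (⟨2 * m, by omega⟩ : Fin (2 * m + 2)) ⟨2, by omega⟩).1
        (h1 _ _ (by show 2 < m + 1; omega) (by show m + 1 ≤ 2 * m; omega))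
      have e2 : Equiv.swap (ee m 0) (ff m 0) (Equiv.swap (ee m p) (ff m p)
          (⟨2, by omega⟩ : Fin (2 * m + 2))) = hi m p := by
        apply Fin.ext
        show _ = (p : ℕ) + 1
        exact van_sv ((p : ℕ) + 1) van_ee0 van_ff0
          (van_s0 2 (van_ee p) (van_ff p) (by omega)) (by omega)
      rwa [e1, e2] at h2

/-- `t E_{m+1}` is spanned by `f_0, e_1, .., e_{m-1}, f_m`. -/
theorem van3 (hm : 2 ≤ m) (u : grp m K) (hu : u ∈ U m K)
    (h : (L1 0 wl * L1 (Fin.last m) wl)⁻¹ * u * (L1 0 wl * L1 (Fin.last m) wl) ∈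
      M m K (Fin.last m)) :
    mat u (lo m 0) (hi m 0) = 0 ∧ mat u (lo m (Fin.last m)) (hi m (Fin.last m)) = 0 := by
  constructor
  · have h2 := (van_t2 0 (Fin.last m) u (⟨2 * m + 1, by omega⟩ : Fin (2 * m + 2))
      ⟨1, by omega⟩).1 (h _ _ (by show 1 < m + 1; omega) (by show m + 1 ≤ 2 * m + 1; omega))
    have e1 : Equiv.swap (ee m 0) (ff m 0)
        (Equiv.swap (ee m (Fin.last m)) (ff m (Fin.last m))
        (⟨2 * m + 1, by omega⟩ : Fin (2 * m + 2))) = lo m 0 := by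
      apply Fin.ext
      show _ = 0
      exact van_sv 0 van_ee0 van_ff0 (van_s0 (2 * m + 1) van_eel van_ffl (by omega))
        (by omega)
    have e2 : Equiv.swap (ee m 0) (ff m 0)
        (Equiv.swap (ee m (Fin.last m)) (ff m (Fin.last m))
        (⟨1, by omega⟩ : Fin (2 * m + 2))) = hi m 0 := by
      apply Fin.ext
      show _ = 0 + 1
      exact van_sv (0 + 1) van_ee0 van_ff0 (van_s0 1 van_eel van_ffl (by omega))
        (by omega)
    rwa [e1, e2] at h2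
  · have h2 := (van_t2 0 (Fin.last m) u (⟨m + 1, by omega⟩ : Fin (2 * m + 2))
      ⟨m, by omega⟩).1 (h _ _ (by show m < m + 1; omega) (by show m + 1 ≤ m + 1; omega))
    have e1 : Equiv.swap (ee m 0) (ff m 0)
        (Equiv.swap (ee m (Fin.last m)) (ff m (Fin.last m))
        (⟨m + 1, by omega⟩ : Fin (2 * m + 2))) = lo m (Fin.last m) := by
      apply Fin.ext
      show _ = m
      exact van_sv m van_ee0 van_ff0 (van_s0 m van_eel van_ffl (by omega))
        (by omega)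
    have e2 : Equiv.swap (ee m 0) (ff m 0)
        (Equiv.swap (ee m (Fin.last m)) (ff m (Fin.last m))
        (⟨m, by omega⟩ : Fin (2 * m + 2))) = hi m (Fin.last m) := by
      apply Fin.ext
      show _ = m + 1
      exact van_sv (m + 1) van_ee0 van_ff0 (van_s0 (m + 1) van_eel van_ffl (by omega))
        (by omega)
    rwa [e1, e2] at h2

/-- The first column of `g (L1 0 wl)`. -/
theorem van_col (g : grp m K) (k : Fin (2 * m + 2)) :
    mat (g * L1 0 wl) k (ee m 0) = 0 ↔ mat g k (ff m 0) = 0 := by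
  rw [mat_mul, mat_L1, inc_wl]
  unfold lev1
  rw [van_right (ee_ne_ff 0 0) one_ne_zero (neg_ne_zero.2 one_ne_zero),
    Equiv.swap_apply_left]

/-- The stabiliser of the point `e_0` is not transitive on the totally isotropic spaces. -/
theorem nop (d : Fin (m + 1)) (h : grp m K) (hh : h ∈ M m K 0) :
    h⁻¹ * L1 0 wl ∉ M m K d := by
  intro h1
  have hd := d.2
  have h2 : mat (h⁻¹ * L1 0 wl) (ff m 0) (ee m 0) = 0 := h1 _ _
    (by rw [van_ee, Fin.val_zero]; omega) (by rw [van_ff, Fin.val_zero]; omega)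
  have h3 := (van_col h⁻¹ (ff m 0)).1 h2
  have h4 : Fx (2 * m + 2 - (((0 : Fin (m + 1)) : ℕ) + 1)) (mat h⁻¹) :=
    Fx_rev h⁻¹ _ (by rw [Fin.val_zero]; omega) ((M m K 0).inv_mem hh)
  obtain ⟨j, hj⟩ := row_ne h⁻¹ (ff m 0)
  by_cases hj2 : j = ff m 0
  · rw [hj2] at hj
    exact hj h3
  · apply hj
    have h5 : (j : ℕ) ≠ 2 * m + 1 := by
      intro h6
      apply hj2
      apply Fin.ext
      rw [van_ff, Fin.val_zero, h6]
      omega
    have h7 := j.2
    exact h4 _ _ (by rw [Fin.val_zero]; omega) (by rw [van_ff, Fin.val_zero]; omega)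

/-- The stabiliser of `E_{m+1}` is not transitive on the isotropic points. -/
theorem nop' (h : grp m K) (hh : h ∈ M m K (Fin.last m)) : h⁻¹ * L1 0 wl ∉ M m K 0 := by
  intro h1
  have h2 : ∀ k : Fin (2 * m + 2), 1 ≤ (k : ℕ) → mat h⁻¹ k (ff m 0) = 0 := by
    intro k hk
    exact (van_col h⁻¹ k).1 (h1 _ _ (by rw [van_ee, Fin.val_zero]; omega)
      (by rw [Fin.val_zero]; omega))
  have h3 : (mat h * mat h⁻¹) (ff m 0) (ff m 0) = 1 := by
    rw [mat_mul_inv, Matrix.one_apply_eq]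
  rw [Matrix.mul_apply] at h3
  have h4 : ∑ k, mat h (ff m 0) k * mat h⁻¹ k (ff m 0) = 0 := by
    apply Finset.sum_eq_zero
    intro k _
    by_cases hk : 1 ≤ (k : ℕ)
    · rw [h2 k hk, mul_zero]
    · have h5 : mat h (ff m 0) k = 0 := hh _ _ (by rw [Fin.val_last]; omega)
        (by rw [van_ff, Fin.val_last, Fin.val_zero]; omega)
      rw [h5, zero_mul]
  rw [h4] at h3
  exact zero_ne_one h3

end SU43
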