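import Pool.Agent.Lib.MP_43150e_al.SU.Setup
import Pool.Agent.Lib.MP_43150e_al.SU.Psi
import Pool.Agent.Lib.MP_43150e_al.SU.FixM
import Pool.Agent.Lib.MP_43150e_al.SU.Van

/-! # The certificates with characters of `U` -/

set_option autoImplicit false

namespace SU43

open Matrix BN43 Spr43

variable {m : ℕ} {K : Type} [Field K] [StarRing K]

theorem char_core [Finite K] (p : ℕ) [Fact p.Prime] [CharP K p] (hm : 1 ≤ m)
    (hq : 59 < Nat.card (K0 K)) {Γ Ω : Type*} [Group Γ] [MulAction Γ Ω] [Fintype Ω]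
    [DecidableEq Ω] (j : grp m K ⧸ Subgroup.center (grp m K) →* Γ)
    (hj : ∀ g : Γ, ∃ β : (grp m K ⧸ Subgroup.center (grp m K)) ≃*
      (grp m K ⧸ Subgroup.center (grp m K)), ∀ y, j (β y) = g * j y * g⁻¹)
    (htr : ∀ x y : Ω, ∃ t, j t • x = y) (x : Ω)
    (hB : ∀ b ∈ B m K, j (pj (grp m K) b) • x = x)
    (a b : Fin (m + 1)) (hab : a ≠ b)
    (hfix : ∀ (β : (grp m K ⧸ Subgroup.center (grp m K)) ≃*
      (grp m K ⧸ Subgroup.center (grp m K))) (t : grp m K) (σ : Equiv.Perm (Option (Fin m))),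
      (pre m K p hm hq).Adm j x β t σ → ∀ c : Option (Fin m), nd c = 0 → ∀ n ∈ N m K,
        ∃ i : Option (Fin m), (nd i = a ∨ nd i = b) ∧
          ∀ s : Fl m K i, n⁻¹ * LL m K i (up2 s) * n ∈ M m K (nd (σ c)))
    (i0 : Option (Fin m)) (hi0 : ¬ P m K (nd i0) ≤ stG j x) (t₀ : grp m K)
    (hiii : ∀ u ∈ U m K, t₀⁻¹ * u * t₀ ∈ stG j x →
      mat u (lo m a) (hi m a) = 0 ∧ mat u (lo m b) (hi m b) = 0) :
    ¬ IsSpreading Γ Ω := by
  obtain ⟨ψ, hψ1, hψ2⟩ := exists_psi (m := m) (K := K) p a b hab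
  refine PreDatum.critU (pre m K p hm hq) j hj htr x hB (M m K 0) p ψ ?_ ?_ t₀ ?_
  · intro β t σ hadm
    obtain ⟨c, hc⟩ := nd_bij.2 (0 : Fin (m + 1))
    obtain ⟨u1, hu1, n, hn, u2, hu2, rfl⟩ := bruhat t
    obtain ⟨i, hi, hs⟩ := hfix β _ σ hadm c hc n hn
    have hmem : u1 * LL m K i (up2 1) * u1⁻¹ ∈ U m K :=
      mul_mem (mul_mem hu1 (LL_up_mem i 1)) (inv_mem hu1)
    refine ⟨⟨u1 * LL m K i (up2 1) * u1⁻¹, hmem⟩, ?_, ?_⟩
    · have h1 : (⟨u1 * LL m K i (up2 1) * u1⁻¹, hmem⟩ : U m K) =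
          (⟨u1, hu1⟩ : U m K) * ⟨LL m K i (up2 1), LL_up_mem i 1⟩ * (⟨u1, hu1⟩ : U m K)⁻¹ := rfl
      intro h2
      apply hψ1 i hi
      have h3 : ψ ((⟨u1, hu1⟩ : U m K) * ⟨LL m K i (up2 1), LL_up_mem i 1⟩ *
          (⟨u1, hu1⟩ : U m K)⁻¹) = 1 := h2
      rwa [map_mul, map_mul, map_inv, mul_comm (ψ ⟨u1, hu1⟩), mul_inv_cancel_right] at h3
    · have h4 := (adm_max hadm c (u1 * LL m K i (up2 1) * u1⁻¹)).2 (by
        have h5 : (u1 * n * u2)⁻¹ * (u1 * LL m K i (up2 1) * u1⁻¹) * (u1 * n * u2) =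
            u2⁻¹ * (n⁻¹ * LL m K i (up2 1) * n) * u2 := by group
        rw [h5]
        have h6 : u2 ∈ M m K (nd (σ c)) := B_le_M _ (U_le_B hu2)
        exact mul_mem (mul_mem (inv_mem h6) (hs 1)) h6)
      rw [hc] at h4
      exact h4
  · refine ⟨L1 0 wl, fun h hh hmem => ?_⟩
    exact nop (nd i0) h hh (st_le_M j x hB i0 hi0 hmem)
  · intro u hu
    obtain ⟨h1, h2⟩ := hiii u.1 u.2 hu
    exact hψ2 u h1 h2

theorem char_fix01 [Finite K] {p : ℕ} [Fact p.Prime] [CharP K p] {hm : 1 ≤ m}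
    {hq : 59 < Nat.card (K0 K)} {Γ Ω : Type*} [Group Γ] [MulAction Γ Ω]
    {j : grp m K ⧸ Subgroup.center (grp m K) →* Γ} {x : Ω}
    (a : Fin (m + 1)) (ha : (a : ℕ) = 1)
    (β : (grp m K ⧸ Subgroup.center (grp m K)) ≃* (grp m K ⧸ Subgroup.center (grp m K)))
    (t : grp m K) (σ : Equiv.Perm (Option (Fin m)))
    (h : (pre m K p hm hq).Adm j x β t σ) (c : Option (Fin m)) (hc : nd c = 0)
    (n : grp m K) (hn : n ∈ N m K) :
    ∃ i : Option (Fin m), (nd i = 0 ∨ nd i = a) ∧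
      ∀ s : Fl m K i, n⁻¹ * LL m K i (up2 s) * n ∈ M m K (nd (σ c)) := by
  obtain ⟨i, hi, hs⟩ := fix01 hm n hn (nd (σ c)) (adm_ends h c (Or.inl hc))
  refine ⟨i, ?_, hs⟩
  rcases hi with hi | hi
  · exact Or.inl (Fin.ext hi)
  · exact Or.inr (Fin.ext (hi.trans ha.symm))

theorem char_A [Finite K] (p : ℕ) [Fact p.Prime] [CharP K p]
    (hq : 59 < Nat.card (K0 K)) {Γ Ω : Type*} [Group Γ] [MulAction Γ Ω] [Fintype Ω]
    [DecidableEq Ω] (j : grp m K ⧸ Subgroup.center (grp m K) →* Γ)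
    (hj : ∀ g : Γ, ∃ β : (grp m K ⧸ Subgroup.center (grp m K)) ≃*
      (grp m K ⧸ Subgroup.center (grp m K)), ∀ y, j (β y) = g * j y * g⁻¹)
    (htr : ∀ x y : Ω, ∃ t, j t • x = y) (x : Ω)
    (hB : ∀ b ∈ B m K, j (pj (grp m K) b) • x = x)
    (i : Option (Fin m)) (hi : ¬ P m K (nd i) ≤ stG j x) (h1 : 1 ≤ (nd i : ℕ))
    (h2 : (nd i : ℕ) < m) : ¬ IsSpreading Γ Ω := by
  have hm : 1 ≤ m := by omega
  have hp : ((⟨1, by omega⟩ : Fin (m + 1)) : ℕ) = 1 := rfl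
  have hqq : ((⟨(nd i : ℕ) + 1, by omega⟩ : Fin (m + 1)) : ℕ) = (nd i : ℕ) + 1 := rfl
  have hpq : (⟨1, by omega⟩ : Fin (m + 1)) ≠ ⟨(nd i : ℕ) + 1, by omega⟩ := by
    intro h
    have h3 := congrArg Fin.val h
    simp only at h3
    omega
  have hab : (0 : Fin (m + 1)) ≠ ⟨1, by omega⟩ := by
    intro h
    exact absurd (congrArg Fin.val h) (Nat.zero_ne_one)
  refine char_core p hm hq j hj htr x hB 0 ⟨1, by omega⟩ hab
    (fun β t σ hadm c hc n hn => char_fix01 _ hp β t σ hadm c hc n hn) i hi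
    (L1 0 wl * L2 ⟨1, by omega⟩ ⟨(nd i : ℕ) + 1, by omega⟩ hpq wl) ?_
  intro u hu h
  exact van1 (nd i) ⟨1, by omega⟩ ⟨(nd i : ℕ) + 1, by omega⟩ h1 hp hqq hpq u hu
    (st_le_M j x hB i hi h)

theorem char_B [Finite K] (p : ℕ) [Fact p.Prime] [CharP K p] (hm : 1 ≤ m)
    (hq : 59 < Nat.card (K0 K)) {Γ Ω : Type*} [Group Γ] [MulAction Γ Ω] [Fintype Ω]
    [DecidableEq Ω] (j : grp m K ⧸ Subgroup.center (grp m K) →* Γ)
    (hj : ∀ g : Γ, ∃ β : (grp m K ⧸ Subgroup.center (grp m K)) ≃*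
      (grp m K ⧸ Subgroup.center (grp m K)), ∀ y, j (β y) = g * j y * g⁻¹)
    (htr : ∀ x y : Ω, ∃ t, j t • x = y) (x : Ω)
    (hB : ∀ b ∈ B m K, j (pj (grp m K) b) • x = x)
    (h0 : ¬ P m K 0 ≤ stG j x) (h1 : ¬ P m K (Fin.last m) ≤ stG j x) :
    ¬ IsSpreading Γ Ω := by
  have hp : ((⟨1, by omega⟩ : Fin (m + 1)) : ℕ) = 1 := rfl
  have hab : (0 : Fin (m + 1)) ≠ ⟨1, by omega⟩ := by
    intro h
    exact absurd (congrArg Fin.val h) (Nat.zero_ne_one)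
  obtain ⟨i0, hi0⟩ := nd_bij.2 (0 : Fin (m + 1))
  have hM0 : stG j x ≤ M m K 0 := by
    have h2 := st_le_M j x hB i0 (by rw [hi0]; exact h0)
    rwa [hi0] at h2
  have hM1 : stG j x ≤ M m K (Fin.last m) := st_le_M j x hB none h1
  refine char_core p hm hq j hj htr x hB 0 ⟨1, by omega⟩ hab
    (fun β t σ hadm c hc n hn => char_fix01 _ hp β t σ hadm c hc n hn) i0
    (by rw [hi0]; exact h0) (L1 0 wl * L1 ⟨1, by omega⟩ wl) ?_
  intro u hu h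
  exact van2 ⟨1, by omega⟩ hp u hu (hM0 h) (hM1 h)

theorem char_C [Finite K] (p : ℕ) [Fact p.Prime] [CharP K p] (hm : 2 ≤ m)
    (hq : 59 < Nat.card (K0 K)) {Γ Ω : Type*} [Group Γ] [MulAction Γ Ω] [Fintype Ω]
    [DecidableEq Ω] (j : grp m K ⧸ Subgroup.center (grp m K) →* Γ)
    (hj : ∀ g : Γ, ∃ β : (grp m K ⧸ Subgroup.center (grp m K)) ≃*
      (grp m K ⧸ Subgroup.center (grp m K)), ∀ y, j (β y) = g * j y * g⁻¹)
    (htr : ∀ x y : Ω, ∃ t, j t • x = y) (x : Ω)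
    (hB : ∀ b ∈ B m K, j (pj (grp m K) b) • x = x)
    (h0 : P m K 0 ≤ stG j x) (h1 : ¬ P m K (Fin.last m) ≤ stG j x) :
    ¬ IsSpreading Γ Ω := by
  have hm1 : 1 ≤ m := by omega
  have hab : (0 : Fin (m + 1)) ≠ Fin.last m := by
    intro h
    have h2 := congrArg Fin.val h
    simp only [Fin.val_zero, Fin.val_last] at h2
    omega
  have hM1 : stG j x ≤ M m K (Fin.last m) := st_le_M j x hB none h1
  refine char_core p hm1 hq j hj htr x hB 0 (Fin.last m) hab ?_ none h1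
    (L1 0 wl * L1 (Fin.last m) wl) ?_
  · intro β t σ hadm c hc n hn
    obtain ⟨i, hi, hs⟩ := fix0m hm1 n hn
    have h2 : nd (σ c) = 0 := by
      rcases adm_ends hadm c (Or.inl hc) with h3 | h3
      · exact h3
      · exfalso
        have h4 : P m K (nd c) ≤ stG j x ↔ P m K (nd (σ c)) ≤ stG j x := hadm.hL c
        rw [hc, h3] at h4
        exact h1 (h4.1 h0)
    refine ⟨i, hi, fun s => ?_⟩
    rw [h2]
    exact hs s
  · intro u hu h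
    exact van3 hm u hu (hM1 h)

end SU43
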