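import Pool.Agent.Lib.MP_43150e_al.SU.LLS

/-! # Commuting minimal parabolic subgroups -/

set_option autoImplicit false

namespace SU43

open Matrix BN43

variable {m : ℕ} {K : Type} [Field K] [StarRing K]

/-- The nodes are neighbours. -/
def adj (i k : Option (Fin m)) : Prop :=
  (nd i : ℕ) + 1 = nd k ∨ (nd k : ℕ) + 1 = nd i

theorem commp_nd_none : ((nd (none : Option (Fin m)) : Fin (m + 1)) : ℕ) = m := rfl

theorem commp_nd_some (a : Fin m) : ((nd (some a) : Fin (m + 1)) : ℕ) = a := rfl

theorem commp_inj {i k : Option (Fin m)} (h : (nd i : ℕ) = nd k) : i = k := by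
  cases i with
  | none =>
    cases k with
    | none => rfl
    | some b =>
      rw [commp_nd_none, commp_nd_some] at h
      have := b.2
      omega
  | some a =>
    cases k with
    | none =>
      rw [commp_nd_none, commp_nd_some] at h
      have := a.2
      omega
    | some b =>
      rw [commp_nd_some, commp_nd_some] at h
      rw [Fin.ext h]

theorem commp_surj (n : ℕ) (hn : n ≤ m) : ∃ i : Option (Fin m), (nd i : ℕ) = n := by
  rcases Nat.lt_or_ge n m with h | h
  · exact ⟨some ⟨n, h⟩, rfl⟩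
  · exact ⟨none, by rw [commp_nd_none]; omega⟩

/-- The `SL_2` of nodes which are not neighbours commute. -/
theorem LL_comm (i k : Option (Fin m)) (hik : i ≠ k) (hadj : ¬ adj i k)
    (s : SpecialLinearGroup (Fin 2) (Fl m K i)) (t : SpecialLinearGroup (Fin 2) (Fl m K k)) :
    LL m K i s * LL m K k t = LL m K k t * LL m K i s := by
  have key1 : ∀ (a : Fin m) (s : SpecialLinearGroup (Fin 2) K)
      (t : SpecialLinearGroup (Fin 2) (K0 K)), (a : ℕ) + 1 ≠ m →
      LL m K (some a) s * LL m K none t = LL m K none t * LL m K (some a) s := by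
    intro a s t ha
    apply mat_inj
    rw [mat_mul, mat_mul, LL_none, LL_some, mat_L1, mat_L2, lev1, lev2]
    have ha2 := a.2
    have e1 : b2 (ee m a.castSucc) (ee m a.succ) s.1 *
        b2 (ee m (Fin.last m)) (ff m (Fin.last m)) (inc t) =
        b2 (ee m (Fin.last m)) (ff m (Fin.last m)) (inc t) *
        b2 (ee m a.castSucc) (ee m a.succ) s.1 := by
      apply b2_comm <;> intro h <;> have h' := congrArg Fin.val h <;>
        simp only [ee, ff, Fin.val_rev, Fin.val_last, Fin.val_castSucc, Fin.val_succ] at h' <;>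
        omega
    have e2 : b2 (ff m a.succ) (ff m a.castSucc) (til s.1) *
        b2 (ee m (Fin.last m)) (ff m (Fin.last m)) (inc t) =
        b2 (ee m (Fin.last m)) (ff m (Fin.last m)) (inc t) *
        b2 (ff m a.succ) (ff m a.castSucc) (til s.1) := by
      apply b2_comm <;> intro h <;> have h' := congrArg Fin.val h <;>
        simp only [ee, ff, Fin.val_rev, Fin.val_last, Fin.val_castSucc, Fin.val_succ] at h' <;>
        omega
    rw [Matrix.mul_assoc, e2, ← Matrix.mul_assoc, e1, Matrix.mul_assoc]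
  have key2 : ∀ (a b : Fin m) (s t : SpecialLinearGroup (Fin 2) K), (a : ℕ) + 1 < b →
      LL m K (some a) s * LL m K (some b) t = LL m K (some b) t * LL m K (some a) s := by
    intro a b s t hab
    apply mat_inj
    rw [mat_mul, mat_mul, LL_some, LL_some, mat_L2, mat_L2, lev2, lev2]
    have ha2 := a.2
    have hb2 := b.2
    have e1 : b2 (ee m a.castSucc) (ee m a.succ) s.1 * b2 (ee m b.castSucc) (ee m b.succ) t.1 =
        b2 (ee m b.castSucc) (ee m b.succ) t.1 * b2 (ee m a.castSucc) (ee m a.succ) s.1 := by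
      apply b2_comm <;> intro h <;> have h' := congrArg Fin.val h <;>
        simp only [ee, ff, Fin.val_rev, Fin.val_last, Fin.val_castSucc, Fin.val_succ] at h' <;>
        omega
    have e2 : b2 (ff m a.succ) (ff m a.castSucc) (til s.1) *
        b2 (ee m b.castSucc) (ee m b.succ) t.1 =
        b2 (ee m b.castSucc) (ee m b.succ) t.1 *
        b2 (ff m a.succ) (ff m a.castSucc) (til s.1) := by
      apply b2_comm <;> intro h <;> have h' := congrArg Fin.val h <;>
        simp only [ee, ff, Fin.val_rev, Fin.val_last, Fin.val_castSucc, Fin.val_succ] at h' <;>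
        omega
    have e3 : b2 (ee m a.castSucc) (ee m a.succ) s.1 *
        b2 (ff m b.succ) (ff m b.castSucc) (til t.1) =
        b2 (ff m b.succ) (ff m b.castSucc) (til t.1) *
        b2 (ee m a.castSucc) (ee m a.succ) s.1 := by
      apply b2_comm <;> intro h <;> have h' := congrArg Fin.val h <;>
        simp only [ee, ff, Fin.val_rev, Fin.val_last, Fin.val_castSucc, Fin.val_succ] at h' <;>
        omega
    have e4 : b2 (ff m a.succ) (ff m a.castSucc) (til s.1) *
        b2 (ff m b.succ) (ff m b.castSucc) (til t.1) =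
        b2 (ff m b.succ) (ff m b.castSucc) (til t.1) *
        b2 (ff m a.succ) (ff m a.castSucc) (til s.1) := by
      apply b2_comm <;> intro h <;> have h' := congrArg Fin.val h <;>
        simp only [ee, ff, Fin.val_rev, Fin.val_last, Fin.val_castSucc, Fin.val_succ] at h' <;>
        omega
    generalize b2 (ee m a.castSucc) (ee m a.succ) s.1 = A at *
    generalize b2 (ff m a.succ) (ff m a.castSucc) (til s.1) = A' at *
    generalize b2 (ee m b.castSucc) (ee m b.succ) t.1 = C at *
    generalize b2 (ff m b.succ) (ff m b.castSucc) (til t.1) = C' at *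
    calc A * A' * (C * C') = A * (A' * C) * C' := by simp only [Matrix.mul_assoc]
      _ = (A * C) * (A' * C') := by rw [e2]; simp only [Matrix.mul_assoc]
      _ = C * (A * C') * A' := by rw [e1, e4]; simp only [Matrix.mul_assoc]
      _ = C * C' * (A * A') := by rw [e3]; simp only [Matrix.mul_assoc]
  have hne : (nd i : ℕ) ≠ nd k := fun h => hik (commp_inj h)
  unfold adj at hadj
  cases i with
  | none =>
    cases k with
    | none => exact absurd rfl hik
    | some b =>
      rw [commp_nd_none, commp_nd_some] at hadj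
      exact (key1 b t s (fun h => hadj (Or.inr h))).symm
  | some a =>
    cases k with
    | none =>
      rw [commp_nd_none, commp_nd_some] at hadj
      exact key1 a s t (fun h => hadj (Or.inl h))
    | some b =>
      rw [commp_nd_some, commp_nd_some] at hadj hne
      rcases lt_or_gt_of_ne hne with h | h
      · exact key2 a b s t (by omega)
      · exact (key2 b a t s (by omega)).symm

/-- An element of `P i` splits into an element of the `SL_2` and an element of `B`. -/
theorem P_split (i : Option (Fin m)) (g : grp m K) (hg : g ∈ P m K (nd i)) :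
    ∃ (s : SpecialLinearGroup (Fin 2) (Fl m K i)) (b : grp m K), b ∈ B m K ∧
      g = LL m K i s * b := by
  obtain ⟨x, hx⟩ := exists_val (f := pi m K i) hg
  obtain ⟨s, hs⟩ := exists_isUp x
  obtain ⟨hm, hv⟩ := (val_LL i s).inv.mul hx
  refine ⟨s, (LL m K i s)⁻¹ * g, ?_, by rw [mul_inv_cancel_left]⟩
  rw [← hv] at hs
  exact (pi_up_iff i _).1 hs

/-- `P i` is not contained in `B`. -/
theorem exists_not_B (i : Option (Fin m)) :
    ∃ x ∈ P m K (nd i), mat x (hi m (nd i)) (lo m (nd i)) ≠ 0 := by
  refine ⟨LL m K i wl, LL_mem_P i wl, fun h => ?_⟩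
  have h1 : LL m K i wl ∈ B m K := (mem_B_of_P _ _ (LL_mem_P i wl)).1 h
  obtain ⟨hm, hv⟩ := val_LL (K := K) i (wl : SpecialLinearGroup (Fin 2) (Fl m K i))
  have h2 : IsUp (wl : SpecialLinearGroup (Fin 2) (Fl m K i)).toPGL := by
    rw [← hv]
    exact (pi_up_iff i _).2 h1
  obtain ⟨g, hg, hg'⟩ := h2
  have h3 : ProjGenLinGroup.mk (SpecialLinearGroup.toGL
      (wl : SpecialLinearGroup (Fin 2) (Fl m K i))) = ProjGenLinGroup.mk g := hg'
  obtain ⟨u, hu, hu'⟩ := pgl_mk_eq h3
  have h4 := hu' 1 0
  rw [hg] at h4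
  have h5 : ((SpecialLinearGroup.toGL (wl : SpecialLinearGroup (Fin 2) (Fl m K i)) :
      GeneralLinearGroup (Fin 2) (Fl m K i)) : Matrix (Fin 2) (Fin 2) (Fl m K i)) 1 0 = -1 := rfl
  rw [h5, neg_one_mul, neg_eq_zero] at h4
  exact hu h4

/-- For neighbours `i`, `k = i + 1` there is an element of `(P k) (P i)` not in `(P i) (P k)`. -/
theorem commp_core (i k : Option (Fin m)) (h : (nd i : ℕ) + 1 = nd k)
    (H : ∀ x ∈ P m K (nd k), ∀ y ∈ P m K (nd i), ∃ y' ∈ P m K (nd i), ∃ x' ∈ P m K (nd k),
      x * y = y' * x') : False := by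
  obtain ⟨x, hx, hx0⟩ := exists_not_B (K := K) k
  obtain ⟨y, hy, hy0⟩ := exists_not_B (K := K) i
  obtain ⟨y', hy', x', hx', he⟩ := H x hx y hy
  have hk := (nd k).2
  have hloi : (lo m (nd i) : ℕ) = nd i := rfl
  have hhii : (hi m (nd i) : ℕ) = nd i + 1 := rfl
  have hlok : (lo m (nd k) : ℕ) = nd k := rfl
  have hhik : (hi m (nd k) : ℕ) = nd k + 1 := rfl
  have e0 : hi m (nd i) = lo m (nd k) := Fin.ext (by omega)
  have e1 : mat (x * y) (hi m (nd k)) (lo m (nd i)) =
      mat x (hi m (nd k)) (lo m (nd k)) * mat y (hi m (nd i)) (lo m (nd i)) := by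
    rw [mat_mul, Matrix.mul_apply, Finset.sum_eq_single (lo m (nd k)), e0]
    · intro j _ hj
      have hj' : (j : ℕ) ≠ nd k := fun h' => hj (Fin.ext (by omega))
      rcases Nat.lt_or_ge j (nd k) with hlt | hge
      · rw [(mem_P_iff (nd k) x).1 hx _ j (by rw [Fin.lt_def]; omega), zero_mul]
        · rintro ⟨h1, -⟩
          exact hj h1
        · rintro ⟨h1, h2⟩
          have h1' := congrArg Fin.val h1
          have h2' := congrArg Fin.val h2
          rw [Fin.val_rev] at h1' h2'
          omega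
      · rw [(mem_P_iff (nd i) y).1 hy j _ (by rw [Fin.lt_def]; omega), mul_zero]
        · rintro ⟨-, h1⟩
          have h1' := congrArg Fin.val h1
          omega
        · rintro ⟨h1, h2⟩
          have h1' := congrArg Fin.val h1
          have h2' := congrArg Fin.val h2
          rw [Fin.val_rev] at h1' h2'
          omega
    · intro h'
      exact absurd (Finset.mem_univ _) h'
  have e2 : mat (y' * x') (hi m (nd k)) (lo m (nd i)) = 0 := by
    rw [mat_mul, Matrix.mul_apply]
    apply Finset.sum_eq_zero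
    intro j _
    rcases Nat.lt_or_ge (nd i) j with hlt | hge
    · rw [(mem_P_iff (nd k) x').1 hx' j _ (by rw [Fin.lt_def]; omega), mul_zero]
      · rintro ⟨h1, -⟩
        have h1' := congrArg Fin.val h1
        omega
      · rintro ⟨h1, h2⟩
        have h1' := congrArg Fin.val h1
        rw [Fin.val_rev] at h1'
        omega
    · rw [(mem_P_iff (nd i) y').1 hy' _ j (by rw [Fin.lt_def]; omega), zero_mul]
      · rintro ⟨-, h1⟩
        have h1' := congrArg Fin.val h1
        omega
      · rintro ⟨h1, h2⟩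
        have h2' := congrArg Fin.val h2
        rw [Fin.val_rev] at h2'
        omega
  rw [he, e2] at e1
  exact (mul_ne_zero hx0 hy0) e1.symm

theorem commp_symm {i k : Option (Fin m)}
    (H : ∀ x ∈ P m K (nd i), ∀ y ∈ P m K (nd k), ∃ y' ∈ P m K (nd k), ∃ x' ∈ P m K (nd i),
      x * y = y' * x') :
    ∀ x ∈ P m K (nd k), ∀ y ∈ P m K (nd i), ∃ y' ∈ P m K (nd i), ∃ x' ∈ P m K (nd k),
      x * y = y' * x' := by
  intro x hx y hy
  obtain ⟨y', hy', x', hx', he⟩ := H y⁻¹ (Subgroup.inv_mem _ hy) x⁻¹ (Subgroup.inv_mem _ hx)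
  refine ⟨x'⁻¹, Subgroup.inv_mem _ hx', y'⁻¹, Subgroup.inv_mem _ hy', ?_⟩
  rw [← _root_.mul_inv_rev, ← he, _root_.mul_inv_rev, inv_inv, inv_inv]

theorem comm_iff (i k : Option (Fin m)) (hik : i ≠ k) :
    (∀ x ∈ P m K (nd i), ∀ y ∈ P m K (nd k), ∃ y' ∈ P m K (nd k), ∃ x' ∈ P m K (nd i),
      x * y = y' * x') ↔ ¬ adj i k := by
  constructor
  · rintro H (h | h)
    · exact commp_core i k h (commp_symm H)
    · exact commp_core k i h H
  · intro hadj x hx y hy
    obtain ⟨s, b1, hb1, rfl⟩ := P_split i x hx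
    obtain ⟨s2, b2, hb2, he2⟩ := P_split k y⁻¹ (Subgroup.inv_mem _ hy)
    have h1 : b1 * y ∈ P m K (nd k) := Subgroup.mul_mem _ (B_le_P _ hb1) hy
    obtain ⟨s3, b3, hb3, he3⟩ := P_split k _ h1
    refine ⟨LL m K k s3, LL_mem_P k s3, LL m K i s * b3,
      Subgroup.mul_mem _ (LL_mem_P i s) (B_le_P _ hb3), ?_⟩
    rw [mul_assoc, he3, ← mul_assoc, ← mul_assoc, LL_comm i k hik hadj]

/-- A permutation of the nodes preserving the neighbours preserves the set of the two ends. -/
theorem ends (σ : Equiv.Perm (Option (Fin m)))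
    (hσ : ∀ i k : Option (Fin m), i ≠ k → (adj i k ↔ adj (σ i) (σ k))) (i : Option (Fin m))
    (hi : nd i = 0 ∨ nd i = Fin.last m) : nd (σ i) = 0 ∨ nd (σ i) = Fin.last m := by
  by_contra hc
  rw [not_or] at hc
  obtain ⟨h0, h1⟩ := hc
  have h0' : ((nd (σ i) : Fin (m + 1)) : ℕ) ≠ 0 := fun h => h0 (Fin.ext h)
  have h1' : ((nd (σ i) : Fin (m + 1)) : ℕ) ≠ m := fun h => h1 (Fin.ext h)
  have h2 := (nd (σ i)).2
  obtain ⟨k1, hk1⟩ := commp_surj (m := m) ((nd (σ i) : ℕ) - 1) (by omega)
  obtain ⟨k2, hk2⟩ := commp_surj (m := m) ((nd (σ i) : ℕ) + 1) (by omega)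
  have n1 : i ≠ σ.symm k1 := by
    rintro h
    rw [h, Equiv.apply_symm_apply] at hk1 h0'
    omega
  have n2 : i ≠ σ.symm k2 := by
    rintro h
    rw [h, Equiv.apply_symm_apply] at hk2
    omega
  have a1 : adj i (σ.symm k1) := by
    rw [hσ _ _ n1, Equiv.apply_symm_apply]
    right
    omega
  have a2 : adj i (σ.symm k2) := by
    rw [hσ _ _ n2, Equiv.apply_symm_apply]
    left
    omega
  have h3 : ((nd (σ.symm k1) : Fin (m + 1)) : ℕ) = nd (σ.symm k2) := by
    have l1 := (nd (σ.symm k1)).2
    have l2 := (nd (σ.symm k2)).2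
    unfold adj at a1 a2
    rcases hi with h | h
    · rw [h, Fin.val_zero] at a1 a2
      omega
    · rw [h, Fin.val_last] at a1 a2
      omega
  have h4 := σ.symm.injective (commp_inj h3)
  rw [h4] at hk1
  omega

end SU43
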