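import Pool.Agent.Lib.MP_43150e_al.BN.Basic
import Pool.Agent.Lib.MP_43150e_al.Lin.Tri

/-!
# Symplectic and unitary groups in even dimension, definitions (project SU, MP_43150e_al)

`K` a field with an involution `star` (possibly trivial), `2m + 2` = dimension, basis
`e_0, .., e_m, f_m, .., f_0`. Paper proof: /team-store/h12_lietype.md, part C.
-/

set_option autoImplicit false

namespace SU43

open Matrix BN43

/-- Square matrices of size `2m + 2`. -/
abbrev Mat (m : ℕ) (K : Type) := Matrix (Fin (2 * m + 2)) (Fin (2 * m + 2)) K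

/-- The matrix of the skew-hermitian form: antidiagonal, `1` in the first half of the rows, `-1`
in the second half. -/
def J (m : ℕ) (K : Type) [Ring K] : Mat m K :=
  Matrix.of fun i j => if j = i.rev then (if (i : ℕ) < m + 1 then 1 else -1) else 0

/-- `A` preserves the form. -/
def Pres {m : ℕ} {K : Type} [Field K] [StarRing K] (A : Mat m K) : Prop :=
  A * J m K * Aᴴ = J m K

theorem Pres.one {m : ℕ} {K : Type} [Field K] [StarRing K] : Pres (1 : Mat m K) := by
  simp [Pres]

theorem Pres.mul {m : ℕ} {K : Type} [Field K] [StarRing K] {A B : Mat m K} (hA : Pres A)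
    (hB : Pres B) : Pres (A * B) := by
  unfold Pres at *
  rw [conjTranspose_mul]
  calc A * B * J m K * (Bᴴ * Aᴴ) = A * (B * J m K * Bᴴ) * Aᴴ := by simp only [Matrix.mul_assoc]
    _ = J m K := by rw [hB, hA]

theorem Pres.of_mul_eq_one {m : ℕ} {K : Type} [Field K] [StarRing K] {A B : Mat m K}
    (hA : Pres A) (h : B * A = 1) : Pres B := by
  unfold Pres at *
  have h2 : Aᴴ * Bᴴ = 1 := by rw [← conjTranspose_mul, h, conjTranspose_one]
  calc B * J m K * Bᴴ = B * (A * J m K * Aᴴ) * Bᴴ := by rw [hA]
    _ = (B * A) * J m K * (Aᴴ * Bᴴ) := by simp only [Matrix.mul_assoc]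
    _ = J m K := by rw [h, h2, one_mul, mul_one]

/-- The group of all matrices of determinant one that preserve the form: `Sp_{2m+2}(K)` if `star`
is trivial, `SU_{2m+2}(K)` otherwise. -/
def grp (m : ℕ) (K : Type) [Field K] [StarRing K] :
    Subgroup (SpecialLinearGroup (Fin (2 * m + 2)) K) where
  carrier := {A | Pres (m := m) A.1}
  one_mem' := Pres.one
  mul_mem' := fun hA hB => Pres.mul hA hB
  inv_mem' := fun {A} hA => Pres.of_mul_eq_one hA
    (congrArg Subtype.val (inv_mul_cancel A))

variable {m : ℕ} {K : Type} [Field K] [StarRing K]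

/-- The matrix of an element of the group. -/
def mat (A : grp m K) : Mat m K := A.1.1

theorem mat_mul (A B : grp m K) : mat (A * B) = mat A * mat B := rfl

theorem mat_one : mat (1 : grp m K) = 1 := rfl

theorem mat_inj {A B : grp m K} (h : mat A = mat B) : A = B := Subtype.ext (Subtype.ext h)

theorem mat_pres (A : grp m K) : Pres (mat A) := A.2

theorem mat_det (A : grp m K) : (mat A).det = 1 := A.1.2

theorem mat_inv_mul (A : grp m K) : mat A⁻¹ * mat A = 1 := by
  rw [← mat_mul, inv_mul_cancel, mat_one]

theorem J_mul_J (m : ℕ) (K : Type) [Field K] : J m K * J m K = -1 := by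
  ext i k
  rw [Matrix.mul_apply, Finset.sum_eq_single i.rev]
  · by_cases hk : k = i
    · subst hk
      have h2 : (k.rev : ℕ) = 2 * m + 2 - (k + 1) := Fin.val_rev k
      have h3 := k.2
      simp only [J, Matrix.of_apply, if_true, Fin.rev_rev, Matrix.neg_apply, Matrix.one_apply_eq]
      by_cases h : (k : ℕ) < m + 1
      · rw [if_pos h, if_neg (by omega)]; ring
      · rw [if_neg h, if_pos (by omega)]; ring
    · have h1 : J m K i.rev k = 0 := by
        simp [J, hk]
      rw [h1, mul_zero, Matrix.neg_apply, Matrix.one_apply_ne (Ne.symm hk), neg_zero]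
  · intro j _ hj
    have h1 : J m K i j = 0 := by
      simp [J, hj]
    rw [h1, zero_mul]
  · intro h
    exact absurd (Finset.mem_univ _) h

theorem mat_inv (A : grp m K) : mat A⁻¹ = -(J m K * (mat A)ᴴ * J m K) := by
  have h1 : mat A * (-(J m K * (mat A)ᴴ * J m K)) = 1 := by
    have h2 := mat_pres A
    unfold Pres at h2
    rw [mul_neg, ← Matrix.mul_assoc, ← Matrix.mul_assoc, h2, J_mul_J, neg_neg]
  calc mat A⁻¹ = mat A⁻¹ * (mat A * (-(J m K * (mat A)ᴴ * J m K))) := by rw [h1, mul_one]
    _ = -(J m K * (mat A)ᴴ * J m K) := by rw [← Matrix.mul_assoc, mat_inv_mul, one_mul]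

/-- The sign of the row `i` of the form. -/
def sg (m : ℕ) (K : Type) [Ring K] (i : Fin (2 * m + 2)) : K := if (i : ℕ) < m + 1 then 1 else -1

theorem J_mul_apply (A : Mat m K) (i j : Fin (2 * m + 2)) :
    (J m K * A) i j = sg m K i * A i.rev j := by
  rw [Matrix.mul_apply, Finset.sum_eq_single i.rev]
  · simp [J, sg]
  · intro k _ hk
    have h1 : J m K i k = 0 := by simp [J, hk]
    rw [h1, zero_mul]
  · intro h
    exact absurd (Finset.mem_univ _) h

theorem mul_J_apply (A : Mat m K) (i j : Fin (2 * m + 2)) :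
    (A * J m K) i j = A i j.rev * sg m K j.rev := by
  rw [Matrix.mul_apply, Finset.sum_eq_single j.rev]
  · simp [J, sg]
  · intro k _ hk
    have h1 : J m K k j = 0 := by
      simp only [J, Matrix.of_apply]
      rw [if_neg]
      rintro rfl
      exact hk (Fin.rev_rev k).symm
    rw [h1, mul_zero]
  · intro h
    exact absurd (Finset.mem_univ _) h

theorem mat_inv_apply (A : grp m K) (i j : Fin (2 * m + 2)) :
    mat A⁻¹ i j = -(sg m K i * star (mat A j.rev i.rev) * sg m K j.rev) := by
  rw [mat_inv, Matrix.neg_apply, mul_J_apply, J_mul_apply, conjTranspose_apply]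

theorem sg_ne_zero (i : Fin (2 * m + 2)) : sg m K i ≠ 0 := by
  unfold sg
  split_ifs <;> simp

/-- The matrix maps the span `E_d` of the first `d` basis vectors to itself. -/
def Fx (d : ℕ) (A : Mat m K) : Prop :=
  ∀ k l : Fin (2 * m + 2), (l : ℕ) < d → d ≤ (k : ℕ) → A k l = 0

/-- The stabiliser of `E_{a+1}`, the maximal parabolic subgroup of the node `a`. -/
def M (m : ℕ) (K : Type) [Field K] [StarRing K] (a : Fin (m + 1)) : Subgroup (grp m K) where
  carrier := {A | Fx ((a : ℕ) + 1) (mat A)}
  one_mem' := by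
    intro k l hl hk
    have : k ≠ l := by rintro rfl; omega
    simp [mat_one, Matrix.one_apply_ne this]
  mul_mem' := by
    intro A B hA hB k l hl hk
    rw [mat_mul, Matrix.mul_apply]
    apply Finset.sum_eq_zero
    intro j _
    by_cases hj : (j : ℕ) < (a : ℕ) + 1
    · rw [hA k j hj hk, zero_mul]
    · rw [hB j l hl (by omega), mul_zero]
  inv_mem' := by
    intro A hA
    have h1 : mat A * mat A⁻¹ = 1 := by rw [← mat_mul, mul_inv_cancel, mat_one]
    have hb : (mat A).BlockTriangular (fun i => if (i : ℕ) < (a : ℕ) + 1 then 0 else 1) := by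
      intro i j hij
      beta_reduce at hij
      by_cases hi : (i : ℕ) < (a : ℕ) + 1
      · rw [if_pos hi] at hij
        exact absurd hij (Nat.not_lt_zero _)
      · by_cases hj : (j : ℕ) < (a : ℕ) + 1
        · exact hA i j hj (by omega)
        · rw [if_neg hi, if_neg hj] at hij
          exact absurd hij (lt_irrefl _)
    have hinv : (mat A)⁻¹ = mat A⁻¹ := Matrix.inv_eq_right_inv h1
    have hI : Invertible (mat A) := invertibleOfRightInverse _ _ h1
    have hb' := blockTriangular_inv_of_blockTriangular hb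
    rw [hinv] at hb'
    intro k l hl hk
    apply hb'
    beta_reduce
    rw [if_pos hl, if_neg (by omega)]
    exact Nat.zero_lt_one

/-- The minimal parabolic subgroup of the node `a`. -/
def P (m : ℕ) (K : Type) [Field K] [StarRing K] (a : Fin (m + 1)) : Subgroup (grp m K) :=
  ⨅ b : {b : Fin (m + 1) // b ≠ a}, M m K b

/-- The Borel subgroup: upper triangular matrices. -/
def B (m : ℕ) (K : Type) [Field K] [StarRing K] : Subgroup (grp m K) := ⨅ a, M m K a

/-- The subgroup of upper unitriangular matrices. -/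
def U (m : ℕ) (K : Type) [Field K] [StarRing K] : Subgroup (grp m K) where
  carrier := {A | Lin43.UU (mat A)}
  one_mem' := Lin43.UU.one
  mul_mem' := fun hA hB => Lin43.UU.mul hA hB
  inv_mem' := fun {A} hA => Lin43.UU.of_mul_eq_one hA
    (show mat A * mat A⁻¹ = 1 by rw [← mat_mul, mul_inv_cancel, mat_one])

/-- The subgroup of monomial matrices. -/
def N (m : ℕ) (K : Type) [Field K] [StarRing K] : Subgroup (grp m K) where
  carrier := {A | ∃ e : Equiv.Perm (Fin (2 * m + 2)), ∀ i j, mat A i j ≠ 0 → j = e i}
  one_mem' := ⟨1, fun i j h => by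
    by_contra hij
    exact h (Matrix.one_apply_ne (fun h' => hij h'.symm))⟩
  mul_mem' := by
    rintro A B ⟨e, he⟩ ⟨f, hf⟩
    refine ⟨e.trans f, fun i j h => ?_⟩
    rw [mat_mul, Matrix.mul_apply] at h
    obtain ⟨k, _, hk⟩ := Finset.exists_ne_zero_of_sum_ne_zero h
    have h1 := he i k (left_ne_zero_of_mul hk)
    have h2 := hf k j (right_ne_zero_of_mul hk)
    rw [Equiv.trans_apply, ← h1, h2]
  inv_mem' := by
    rintro A ⟨e, he⟩
    refine ⟨(Fin.revPerm.trans e.symm).trans Fin.revPerm, fun i j h => ?_⟩
    rw [mat_inv_apply] at h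
    have h1 : mat A j.rev i.rev ≠ 0 := by
      intro h0
      rw [h0, star_zero, mul_zero, zero_mul, neg_zero] at h
      exact h rfl
    have h2 := he _ _ h1
    simp only [Equiv.trans_apply, Fin.revPerm_apply]
    rw [h2, Equiv.symm_apply_apply, Fin.rev_rev]

/-- The fixed field of the involution. -/
def K0 (K : Type) [Field K] [StarRing K] : Subfield K where
  carrier := {c | star c = c}
  one_mem' := star_one K
  mul_mem' := fun {a b} ha hb => by
    show star (a * b) = a * b
    rw [star_mul', show star a = a from ha, show star b = b from hb]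
  zero_mem' := star_zero K
  add_mem' := fun {a b} ha hb => by
    show star (a + b) = a + b
    rw [star_add, show star a = a from ha, show star b = b from hb]
  neg_mem' := fun {a} ha => by
    show star (-a) = -a
    rw [star_neg, show star a = a from ha]
  inv_mem' := fun a ha => by
    show star a⁻¹ = a⁻¹
    rw [star_inv₀, show star a = a from ha]

/-- The positions of the `2 x 2` block of the node `a`. -/
def lo (m : ℕ) (a : Fin (m + 1)) : Fin (2 * m + 2) := ⟨a, by omega⟩

/-- The positions of the `2 x 2` block of the node `a`. -/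
def hi (m : ℕ) (a : Fin (m + 1)) : Fin (2 * m + 2) := ⟨a + 1, by omega⟩

/-- The vector `e_p`. -/
def ee (m : ℕ) (p : Fin (m + 1)) : Fin (2 * m + 2) := ⟨p, by omega⟩

/-- The vector `f_p`. -/
def ff (m : ℕ) (p : Fin (m + 1)) : Fin (2 * m + 2) := (ee m p).rev

/-- The index of the node: `some a` is the node `a < m`, `none` is the node `m`. -/
def nd {m : ℕ} : Option (Fin m) → Fin (m + 1)
  | none => Fin.last m
  | some a => a.castSucc

/-- The field of the node: `K` for `a < m`, the fixed field for `m`. -/
def Fl (m : ℕ) (K : Type) [Field K] [StarRing K] : Option (Fin m) → Type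
  | none => K0 K
  | some _ => K

instance instFieldFl (m : ℕ) (K : Type) [Field K] [StarRing K] :
    ∀ i : Option (Fin m), Field (Fl m K i)
  | none => inferInstanceAs (Field (K0 K))
  | some _ => inferInstanceAs (Field K)

noncomputable instance instFintypeFl (m : ℕ) (K : Type) [Field K] [StarRing K] [Finite K] :
    ∀ i : Option (Fin m), Fintype (Fl m K i)
  | none => Fintype.ofFinite (K0 K)
  | some _ => Fintype.ofFinite K

/-- The inclusion of the field of a node in `K`. -/
def em (m : ℕ) (K : Type) [Field K] [StarRing K] : ∀ i : Option (Fin m), Fl m K i →+* K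
  | none => (K0 K).subtype
  | some _ => RingHom.id K

/-- The upper unitriangular element of `SL_2`. -/
def up2 {F : Type} [Field F] (c : F) : SpecialLinearGroup (Fin 2) F := ⟨!![1, c; 0, 1], by simp⟩

/-- The lower unitriangular element of `SL_2`. -/
def dn2 {F : Type} [Field F] (c : F) : SpecialLinearGroup (Fin 2) F := ⟨!![1, 0; c, 1], by simp⟩

/-- The Weyl element of `SL_2`. -/
def wl {F : Type} [Field F] : SpecialLinearGroup (Fin 2) F := ⟨!![0, 1; -1, 0], by simp⟩

/-- The diagonal element of `SL_2`. -/
def dg2 {F : Type} [Field F] (t : F) (ht : t ≠ 0) : SpecialLinearGroup (Fin 2) F :=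
  ⟨!![t, 0; 0, t⁻¹], by simp [ht]⟩

/-- The diagonal `2 x 2` block of the node `a`. -/
def blk (a : Fin (m + 1)) (A : Mat m K) : Matrix (Fin 2) (Fin 2) K :=
  !![A (lo m a) (lo m a), A (lo m a) (hi m a); A (hi m a) (lo m a), A (hi m a) (hi m a)]

end SU43
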