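import Pool.Agent.Lib.MP_43150e_al.SU.StrU

/-! # Conjugation by the elements exchanging `e_p` and `f_p` -/

set_option autoImplicit false

namespace SU43

open Matrix BN43

variable {m : ℕ} {K : Type} [Field K] [StarRing K]

omit [StarRing K] in
/-- The entries of a `2 x 2` antidiagonal block. -/
theorem b2_anti_apply {n : ℕ} {p q : Fin n} (hpq : p ≠ q) (x y : K) (i k : Fin n) :
    b2 p q !![0, x; y, 0] i k =
      if k = Equiv.swap p q i then (if i = p then x else if i = q then y else 1) else 0 := by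
  unfold b2
  simp only [Matrix.of_apply, Matrix.cons_val', Matrix.cons_val_zero, Matrix.cons_val_one,
    Matrix.cons_val_fin_one]
  by_cases hi : i = p
  · subst hi
    rw [Equiv.swap_apply_left, if_pos rfl, if_pos rfl]
    by_cases hk : k = i
    · subst hk
      rw [if_pos rfl, if_neg hpq]
    · rw [if_neg hk]
  · rw [if_neg hi, if_neg hi]
    by_cases hi' : i = q
    · subst hi'
      rw [Equiv.swap_apply_right, if_pos rfl, if_pos rfl]
      by_cases hk : k = p
      · rw [if_pos hk, if_pos hk]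
      · rw [if_neg hk, if_neg hk]
        by_cases hk' : k = i
        · rw [if_pos hk']
        · rw [if_neg hk']
    · rw [if_neg hi', if_neg hi', Equiv.swap_apply_of_ne_of_ne hi hi']
      by_cases hk : k = i
      · rw [if_pos hk.symm, if_pos hk]
      · rw [if_neg (Ne.symm hk), if_neg hk]

omit [StarRing K] in
theorem b2_anti_mul {n : ℕ} {p q : Fin n} (hpq : p ≠ q) (x y : K)
    (A : Matrix (Fin n) (Fin n) K) (i j : Fin n) :
    (b2 p q !![0, x; y, 0] * A) i j =
      (if i = p then x else if i = q then y else 1) * A (Equiv.swap p q i) j := by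
  rw [Matrix.mul_apply, Finset.sum_eq_single (Equiv.swap p q i)]
  · rw [b2_anti_apply hpq, if_pos rfl]
  · intro k _ hk
    rw [b2_anti_apply hpq, if_neg hk, zero_mul]
  · intro h
    exact absurd (Finset.mem_univ _) h

omit [StarRing K] in
theorem mul_b2_anti {n : ℕ} {p q : Fin n} (hpq : p ≠ q) (x y : K)
    (A : Matrix (Fin n) (Fin n) K) (i j : Fin n) :
    (A * b2 p q !![0, x; y, 0]) i j =
      A i (Equiv.swap p q j) * (if Equiv.swap p q j = p then x else
        if Equiv.swap p q j = q then y else 1) := by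
  rw [Matrix.mul_apply, Finset.sum_eq_single (Equiv.swap p q j)]
  · rw [b2_anti_apply hpq, Equiv.swap_apply_self, if_pos rfl]
  · intro k _ hk
    rw [b2_anti_apply hpq, if_neg, mul_zero]
    rintro rfl
    rw [Equiv.swap_apply_self] at hk
    exact hk rfl
  · intro h
    exact absurd (Finset.mem_univ _) h

theorem inc_wl : inc (K := K) wl = !![0, 1; -1, 0] := by
  ext i j
  fin_cases i <;> fin_cases j <;> simp [inc, wl]

theorem inc_wl_inv : inc (K := K) wl⁻¹ = !![0, -1; 1, 0] := by
  have h : ((wl : SpecialLinearGroup (Fin 2) (K0 K))⁻¹).1 = !![0, -1; 1, 0] := by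
    rw [Matrix.SpecialLinearGroup.SL2_inv_expl]
    ext i j
    fin_cases i <;> fin_cases j <;> simp [wl]
  unfold inc
  rw [h]
  ext i j
  fin_cases i <;> fin_cases j <;> simp

/-- Up to sign, conjugation by `L1 p wl` exchanges the indices `ee p` and `ff p`. -/
theorem flip_apply (p : Fin (m + 1)) (A : grp m K) (i j : Fin (2 * m + 2)) :
    mat (L1 p wl * A * (L1 p wl)⁻¹) i j = 0 ↔
      mat A (Equiv.swap (ee m p) (ff m p) i) (Equiv.swap (ee m p) (ff m p) j) = 0 := by
  rw [← map_inv, mat_mul, mat_mul, mat_L1, mat_L1, inc_wl, inc_wl_inv]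
  unfold lev1
  rw [mul_b2_anti (ee_ne_ff p p), b2_anti_mul (ee_ne_ff p p)]
  have h1 : ∀ k : Fin (2 * m + 2), ∀ x y : K, x ≠ 0 → y ≠ 0 →
      (if k = ee m p then x else if k = ff m p then y else 1) ≠ 0 := by
    intro k x y hx hy
    split_ifs
    · exact hx
    · exact hy
    · exact one_ne_zero
  have h2 := h1 i 1 (-1) one_ne_zero (neg_ne_zero.2 one_ne_zero)
  have h3 := h1 (Equiv.swap (ee m p) (ff m p) j) (-1) 1 (neg_ne_zero.2 one_ne_zero) one_ne_zero
  constructor
  · intro h
    rcases mul_eq_zero.1 h with h | h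
    · rcases mul_eq_zero.1 h with h | h
      · exact absurd h h2
      · exact h
    · exact absurd h h3
  · intro h
    rw [h, mul_zero, zero_mul]

/-- An upper triangular element all whose flips are upper triangular is diagonal. -/
theorem diag_of_flip (A : grp m K) (hA : A ∈ B m K)
    (h : ∀ p : Fin (m + 1), L1 p wl * A * (L1 p wl)⁻¹ ∈ B m K) :
    ∀ i j, i ≠ j → mat A i j = 0 := by
  have key : ∀ (p : Fin (m + 1)) (i j i' j' : Fin (2 * m + 2)),
      Equiv.swap (ee m p) (ff m p) i' = i → Equiv.swap (ee m p) (ff m p) j' = j → j' < i' →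
      mat A i j = 0 := by
    rintro p i j i' j' rfl rfl hlt
    exact (flip_apply p A i' j').1 ((mem_B_iff _).1 (h p) i' j' hlt)
  intro i j hij
  have hri : (i.rev : ℕ) = 2 * m + 2 - ((i : ℕ) + 1) := Fin.val_rev i
  have hrj : (j.rev : ℕ) = 2 * m + 2 - ((j : ℕ) + 1) := Fin.val_rev j
  have hi2 := i.2
  have hj2 := j.2
  rcases lt_or_gt_of_ne hij with hlt | hlt
  · have hlt' : (i : ℕ) < (j : ℕ) := hlt
    rcases lt_trichotomy j i.rev with h1 | h1 | h1
    · have h1' : (j : ℕ) < (i.rev : ℕ) := h1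
      have hi : (i : ℕ) < m + 1 := by omega
      have e1 : ee m (⟨i, hi⟩ : Fin (m + 1)) = i := Fin.ext rfl
      have e2 : ff m (⟨i, hi⟩ : Fin (m + 1)) = i.rev := by unfold ff; rw [e1]
      refine key ⟨i, hi⟩ i j i.rev j ?_ ?_ h1
      · rw [e1, e2, Equiv.swap_apply_right]
      · rw [e1, e2, Equiv.swap_apply_of_ne_of_ne (ne_of_gt hlt) (ne_of_lt h1)]
    · have h1' : (j : ℕ) = (i.rev : ℕ) := congrArg Fin.val h1
      have hi : (i : ℕ) < m + 1 := by omega
      have e1 : ee m (⟨i, hi⟩ : Fin (m + 1)) = i := Fin.ext rfl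
      have e2 : ff m (⟨i, hi⟩ : Fin (m + 1)) = i.rev := by unfold ff; rw [e1]
      refine key ⟨i, hi⟩ i j j i ?_ ?_ hlt
      · rw [e1, e2, h1, Equiv.swap_apply_right]
      · rw [e1, e2, h1, Equiv.swap_apply_left]
    · have h1' : (i.rev : ℕ) < (j : ℕ) := h1
      have hj : (j.rev : ℕ) < m + 1 := by omega
      have e1 : ee m (⟨j.rev, hj⟩ : Fin (m + 1)) = j.rev := Fin.ext rfl
      have e2 : ff m (⟨j.rev, hj⟩ : Fin (m + 1)) = j := by unfold ff; rw [e1, Fin.rev_rev]
      have hlt2 : j.rev < i := by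
        show (j.rev : ℕ) < (i : ℕ)
        omega
      refine key ⟨j.rev, hj⟩ i j i j.rev ?_ ?_ hlt2
      · rw [e1, e2, Equiv.swap_apply_of_ne_of_ne (ne_of_gt hlt2) (ne_of_lt hlt)]
      · rw [e1, e2, Equiv.swap_apply_left]
  · exact (mem_B_iff _).1 hA i j hlt

theorem pre_core (u : grp m K) (hu : u ∈ U m K) (h : ∀ g : grp m K, g * u * g⁻¹ ∈ B m K) :
    u = 1 := by
  apply mat_inj
  rw [mat_one]
  ext i j
  by_cases hij : i = j
  · subst hij
    rw [Matrix.one_apply_eq]
    exact hu.2 i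
  · rw [Matrix.one_apply_ne hij]
    exact diag_of_flip u (U_le_B hu) (fun p => h _) i j hij

end SU43
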