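import Pool.Agent.Lib.MP_43150e_al.SU.GenU
import Pool.Agent.Lib.MP_43150e_al.SU.ValS

/-! # The elements of `U` with trivial values are in `[U, U]` -/

set_option autoImplicit false

namespace SU43

open Matrix BN43

variable {m : ℕ} {K : Type} [Field K] [StarRing K]

namespace FR

theorem up2_add {F : Type} [Field F] (c d : F) : up2 (c + d) = up2 c * up2 d := by
  apply Subtype.ext
  change !![1, c + d; 0, 1] = !![1, c; 0, 1] * !![1, d; 0, 1]
  ext i j
  fin_cases i <;> fin_cases j <;> simp [Matrix.mul_apply, Fin.sum_univ_two, add_comm]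

/-- The simple root elements as elements of `U`. -/
def fr (m : ℕ) (K : Type) [Field K] [StarRing K] (i : Option (Fin m)) (c : Fl m K i) :
    U m K := ⟨LL m K i (up2 c), LL_up_mem i c⟩

theorem fr_add (i : Option (Fin m)) (c d : Fl m K i) :
    fr m K i (c + d) = fr m K i c * fr m K i d := by
  apply Subtype.ext
  change LL m K i (up2 (c + d)) = LL m K i (up2 c) * LL m K i (up2 d)
  rw [← map_mul, up2_add]

theorem fr_zero (i : Option (Fin m)) : fr m K i 0 = 1 := by
  have h := fr_add (m := m) (K := K) i 0 0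
  rw [add_zero] at h
  exact (left_eq_mul.1 h)

theorem fr_neg (i : Option (Fin m)) (c : Fl m K i) : fr m K i (-c) = (fr m K i c)⁻¹ := by
  rw [eq_inv_iff_mul_eq_one, ← fr_add, neg_add_cancel, fr_zero]

/-- The elements of `U` which are products of simple root elements modulo `[U, U]`. -/
def R (m : ℕ) (K : Type) [Field K] [StarRing K] : Subgroup (U m K) where
  carrier := {u | ∃ c : ∀ i, Fl m K i, Abelianization.of u =
    ∏ i, Abelianization.of (fr m K i (c i))}
  one_mem' := ⟨fun _ => 0, by
    rw [map_one]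
    symm
    apply Finset.prod_eq_one
    intro i _
    rw [fr_zero, map_one]⟩
  mul_mem' := by
    rintro a b ⟨c, hc⟩ ⟨d, hd⟩
    refine ⟨fun i => c i + d i, ?_⟩
    rw [map_mul, hc, hd, ← Finset.prod_mul_distrib]
    refine Finset.prod_congr rfl fun i _ => ?_
    rw [fr_add, map_mul]
  inv_mem' := by
    rintro a ⟨c, hc⟩
    refine ⟨fun i => -c i, ?_⟩
    rw [map_inv, hc, ← Finset.prod_inv_distrib]
    refine Finset.prod_congr rfl fun i _ => ?_
    rw [fr_neg, map_inv]

theorem mem_R [Finite K] (hq : 59 < Nat.card (K0 K)) (u : U m K) : u ∈ R m K := by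
  classical
  have h1 : U m K ≤ (R m K).map (U m K).subtype := by
    apply gen_U hq
    intro i c
    refine ⟨fr m K i c, ?_, rfl⟩
    refine ⟨Function.update (fun _ => 0) i c, ?_⟩
    rw [Finset.prod_eq_single i]
    · rw [Function.update_self]
    · intro j _ hj
      rw [Function.update_of_ne hj, fr_zero, map_one]
    · intro h
      exact absurd (Finset.mem_univ i) h
  obtain ⟨v, hv, hvu⟩ := h1 u.2
  have h2 : v = u := Subtype.ext hvu
  rw [← h2]
  exact hv

/-- The entry `(a, a + 1)` as a homomorphism. -/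
def chi (m : ℕ) (K : Type) [Field K] [StarRing K] (a : Fin (m + 1)) :
    U m K →* Multiplicative K :=
  MonoidHom.mk' (fun u => Multiplicative.ofAdd (mat u.1 (lo m a) (hi m a))) (by
    intro u v
    rw [← ofAdd_add]
    congr 1
    exact Lin43.UU.superdiag u.2 v.2 _ _ rfl)

theorem chi_fr (i : Option (Fin m)) (c : Fl m K i) (a : Fin (m + 1)) :
    chi m K a (fr m K i c) = Multiplicative.ofAdd (if a = nd i then em m K i c else 0) := by
  rw [← LL_up_apply i c a]
  rfl

end FR

theorem pi_frat [Finite K] (hq : 59 < Nat.card (K0 K)) :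
    ∀ u ∈ U m K, (∀ i, Val (pi m K i) u 1) → u ∈ ⁅U m K, U m K⁆ := by
  intro u hu hval
  obtain ⟨c, hc⟩ := FR.mem_R hq ⟨u, hu⟩
  have h1 : ∀ i, c i = 0 := by
    intro i
    have h2 := congrArg (Abelianization.lift (FR.chi m K (nd i))) hc
    rw [Abelianization.lift_apply_of, map_prod] at h2
    rw [Finset.prod_eq_single i] at h2
    · rw [Abelianization.lift_apply_of, FR.chi_fr, if_pos rfl] at h2
      have h3 : mat u (lo m (nd i)) (hi m (nd i)) = em m K i (c i) :=
        Multiplicative.ofAdd.injective h2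
      rw [(val_one_iff i u hu).1 (hval i), eq_comm, map_eq_zero] at h3
      exact h3
    · intro j _ hj
      rw [Abelianization.lift_apply_of, FR.chi_fr, if_neg fun h => hj (VS.nd_inj h).symm]
      rfl
    · intro h
      exact absurd (Finset.mem_univ i) h
  have h2 : Abelianization.of (⟨u, hu⟩ : U m K) = 1 := by
    rw [hc]
    apply Finset.prod_eq_one
    intro i _
    rw [h1 i, FR.fr_zero, map_one]
  have h3 : (⟨u, hu⟩ : U m K) ∈ commutator (U m K) := by
    rw [← Abelianization.ker_of, MonoidHom.mem_ker]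
    exact h2
  rw [← Subgroup.map_subtype_commutator]
  exact ⟨⟨u, hu⟩, h3, rfl⟩

end SU43
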