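import Pool.Agent.Lib.MP_43150e_al.SU.Sie
import Pool.Agent.Lib.MP_43150e_al.SU.StrU

/-! # `U` is generated by the simple root groups -/

set_option autoImplicit false

namespace SU43

open Matrix BN43

variable {m : ℕ} {K : Type} [Field K] [StarRing K]

namespace GU

section root

theorem ee_ne_ff (p q : Fin (m + 1)) : ee m p ≠ ff m q := by
  intro h
  have h1 := congrArg Fin.val h
  have h2 := Fin.val_rev (ee m q)
  have hp := p.2
  have hq := q.2
  simp only [ff] at h1
  rw [h2] at h1
  simp only [ee] at h1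
  omega

theorem ee_inj {p q : Fin (m + 1)} (h : p ≠ q) : ee m p ≠ ee m q := by
  intro h1
  have h2 : (ee m p : ℕ) = ee m q := congrArg Fin.val h1
  exact h (Fin.ext h2)

theorem ff_inj {p q : Fin (m + 1)} (h : p ≠ q) : ff m p ≠ ff m q := by
  intro h1
  exact ee_inj h (Fin.rev_injective h1)

/-- The matrix of the root element of `e_p - e_q`. -/
theorem mat_x (p q : Fin (m + 1)) (hpq : p ≠ q) (c : K) :
    mat (L2 p q hpq (up2 c)) = 1 + (Matrix.single (ee m p) (ee m q) c -
      Matrix.single (ff m q) (ff m p) (star c)) := by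
  rw [mat_L2]
  have h1 : (up2 c).1 = !![1, c; 0, 1] := rfl
  have h2 : til (up2 c).1 = !![1, -star c; 0, 1] := by
    rw [h1]
    ext i j
    fin_cases i <;> fin_cases j <;> simp [til]
  rw [lev2, h2, h1, b2_upper (ee_inj hpq), b2_upper (ff_inj hpq.symm), mul_add, mul_one, add_mul,
    one_mul, Matrix.single_mul_single_of_ne _ _ _ _ (ee_ne_ff q q), ← Matrix.single_neg]
  abel

/-- The matrix of the root element of `2 e_p`. -/
theorem mat_z (p : Fin (m + 1)) (c : K0 K) :
    mat (L1 p (up2 c) : grp m K) = 1 + Matrix.single (ee m p) (ff m p) (c : K) := by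
  rw [mat_L1]
  have h1 : inc (up2 c) = !![1, (c : K); 0, 1] := by
    ext i j
    fin_cases i <;> fin_cases j <;> simp [inc, up2]
  rw [lev1, h1, b2_upper (ee_ne_ff p p)]

theorem mat_inv_of_sq {A : grp m K} {X : Mat m K} (h : mat A = 1 + X) (hX : X * X = 0) :
    mat A⁻¹ = 1 - X := by
  have h1 : mat A * (1 - X) = 1 := by
    rw [h, add_mul, one_mul, mul_sub, mul_one, hX]
    abel
  calc mat A⁻¹ = mat A⁻¹ * (mat A * (1 - X)) := by rw [h1, mul_one]
    _ = 1 - X := by rw [← Matrix.mul_assoc, mat_inv_mul, one_mul]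

theorem x_sq {p q : Fin (m + 1)} (hpq : p ≠ q) (c : K) :
    (Matrix.single (ee m p) (ee m q) c - Matrix.single (ff m q) (ff m p) (star c) : Mat m K) *
      (Matrix.single (ee m p) (ee m q) c - Matrix.single (ff m q) (ff m p) (star c)) = 0 := by
  rw [sub_mul, mul_sub, mul_sub, Matrix.single_mul_single_of_ne _ _ _ _ (ee_inj hpq.symm),
    Matrix.single_mul_single_of_ne _ _ _ _ (ee_ne_ff q q),
    Matrix.single_mul_single_of_ne _ _ _ _ (ee_ne_ff p p).symm,
    Matrix.single_mul_single_of_ne _ _ _ _ (ff_inj hpq)]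
  simp

omit [StarRing K] in
theorem z_sq (p : Fin (m + 1)) (c : K) :
    (Matrix.single (ee m p) (ff m p) c : Mat m K) * Matrix.single (ee m p) (ff m p) c = 0 :=
  Matrix.single_mul_single_of_ne _ _ _ _ (ee_ne_ff p p).symm _

/-- The commutator of the root elements of `e_p - e_q` and `e_q - e_r`. -/
theorem comm_xx {p q r : Fin (m + 1)} (hpq : p ≠ q) (hqr : q ≠ r) (hpr : p ≠ r) (a b : K) :
    L2 p q hpq (up2 a) * L2 q r hqr (up2 b) * (L2 p q hpq (up2 a))⁻¹ *
      (L2 q r hqr (up2 b))⁻¹ = (L2 p r hpr (up2 (a * b)) : grp m K) := by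
  apply mat_inj
  rw [mat_mul, mat_mul, mat_mul, mat_inv_of_sq (mat_x p q hpq a) (x_sq hpq a),
    mat_inv_of_sq (mat_x q r hqr b) (x_sq hqr b), mat_x, mat_x, mat_x]
  have e1 := ee_inj hpq
  have e2 := ee_inj hqr
  have e3 := ee_inj hpr
  have f1 := ff_inj hpq
  have f2 := ff_inj hqr
  have f3 := ff_inj hpr
  have g1 := fun i j => ee_ne_ff (m := m) i j
  have g2 := fun i j => (ee_ne_ff (m := m) i j).symm
  simp only [mul_add, add_mul, mul_sub, sub_mul, mul_one, one_mul,
    Matrix.single_mul_single_same,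
    Matrix.single_mul_single_of_ne _ _ _ _ e1, Matrix.single_mul_single_of_ne _ _ _ _ e1.symm,
    Matrix.single_mul_single_of_ne _ _ _ _ e2, Matrix.single_mul_single_of_ne _ _ _ _ e2.symm,
    Matrix.single_mul_single_of_ne _ _ _ _ e3, Matrix.single_mul_single_of_ne _ _ _ _ e3.symm,
    Matrix.single_mul_single_of_ne _ _ _ _ f1, Matrix.single_mul_single_of_ne _ _ _ _ f1.symm,
    Matrix.single_mul_single_of_ne _ _ _ _ f2, Matrix.single_mul_single_of_ne _ _ _ _ f2.symm,
    Matrix.single_mul_single_of_ne _ _ _ _ f3, Matrix.single_mul_single_of_ne _ _ _ _ f3.symm,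
    Matrix.single_mul_single_of_ne _ _ _ _ (g1 _ _), Matrix.single_mul_single_of_ne _ _ _ _ (g2 _ _),
    star_mul, sub_zero, zero_sub, add_zero, zero_add, neg_zero, neg_mul, mul_neg, neg_neg]
  abel

/-- The commutator of the root elements of `e_p - e_q` and `2 e_q`. -/
theorem comm_xz {p q : Fin (m + 1)} (hpq : p ≠ q) (a : K) (t : K0 K) :
    mat (L2 p q hpq (up2 a) * L1 q (up2 t) * (L2 p q hpq (up2 a))⁻¹ *
      (L1 q (up2 t))⁻¹ : grp m K) = 1 + (Matrix.single (ee m p) (ff m q) (a * t) +
        Matrix.single (ee m q) (ff m p) (t * star a) +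
        Matrix.single (ee m p) (ff m p) (a * t * star a)) := by
  rw [mat_mul, mat_mul, mat_mul, mat_inv_of_sq (mat_x p q hpq a) (x_sq hpq a),
    mat_inv_of_sq (mat_z q t) (z_sq q _), mat_x, mat_z]
  have e1 := ee_inj hpq
  have f1 := ff_inj hpq
  have g1 := fun i j => ee_ne_ff (m := m) i j
  have g2 := fun i j => (ee_ne_ff (m := m) i j).symm
  simp only [mul_add, add_mul, mul_sub, sub_mul, mul_one, one_mul,
    Matrix.single_mul_single_same,
    Matrix.single_mul_single_of_ne _ _ _ _ e1, Matrix.single_mul_single_of_ne _ _ _ _ e1.symm,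
    Matrix.single_mul_single_of_ne _ _ _ _ f1, Matrix.single_mul_single_of_ne _ _ _ _ f1.symm,
    Matrix.single_mul_single_of_ne _ _ _ _ (g1 _ _), Matrix.single_mul_single_of_ne _ _ _ _ (g2 _ _),
    sub_zero, zero_sub, add_zero, zero_add, neg_zero]
  abel

end root

section gen

variable (L : Subgroup (grp m K))

theorem x_mem (h : ∀ (i : Option (Fin m)) (c : Fl m K i), LL m K i (up2 c) ∈ L) :
    ∀ (n : ℕ) (p q : Fin (m + 1)) (hpq : p ≠ q), (p : ℕ) + n + 1 = q →
      ∀ c : K, L2 p q hpq (up2 c) ∈ L := by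
  intro n
  induction n with
  | zero =>
    intro p q hpq h1 c
    have hp : (p : ℕ) < m := by have := q.2; omega
    have h2 := h (some ⟨p, hp⟩) c
    have h3 : (⟨p, hp⟩ : Fin m).castSucc = p := rfl
    have h4 : (⟨p, hp⟩ : Fin m).succ = q := by
      apply Fin.ext
      simp only [Fin.val_succ]
      omega
    subst h4
    exact h2
  | succ n ih =>
    intro p q hpq h1 c
    have hq := q.2
    have hr : (p : ℕ) + n + 1 < m + 1 := by omega
    have h2 : p ≠ ⟨p + n + 1, hr⟩ := by
      intro h3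
      have h4 := congrArg Fin.val h3
      simp only at h4
      omega
    have h3 : (⟨p + n + 1, hr⟩ : Fin (m + 1)) ≠ q := by
      intro h3
      have h4 := congrArg Fin.val h3
      simp only at h4
      omega
    have h5 := ih p ⟨p + n + 1, hr⟩ h2 rfl c
    have h6 : L2 ⟨p + n + 1, hr⟩ q h3 (up2 (1 : K)) ∈ L := by
      have h7 : (⟨p + n + 1, hr⟩ : Fin (m + 1)) < q := by
        rw [Fin.lt_def]
        simp only
        omega
      have hm : (p : ℕ) + n + 1 < m := by omega
      have h8 := h (some ⟨p + n + 1, hm⟩) (1 : K)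
      have h9 : (⟨p + n + 1, hm⟩ : Fin m).succ = q := by
        apply Fin.ext
        simp only [Fin.val_succ]
        omega
      subst h9
      exact h8
    have h7 := comm_xx h2 h3 hpq c 1
    rw [mul_one] at h7
    rw [← h7]
    exact L.mul_mem (L.mul_mem (L.mul_mem h5 h6) (L.inv_mem h5)) (L.inv_mem h6)

theorem x_mem' (h : ∀ (i : Option (Fin m)) (c : Fl m K i), LL m K i (up2 c) ∈ L)
    (p q : Fin (m + 1)) (hpq : p < q) (c : K) : L2 p q hpq.ne (up2 c) ∈ L := by
  refine x_mem L h ((q : ℕ) - p - 1) p q hpq.ne ?_ c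
  rw [Fin.lt_def] at hpq
  omega

theorem exists_K0 (hq : 59 < Nat.card (K0 K)) : ∃ s : K0 K, s ≠ 0 ∧ s ≠ 1 := by
  by_contra hcon
  push Not at hcon
  have hfin : Finite (K0 K) := Nat.finite_of_card_ne_zero (by omega)
  have := Fintype.ofFinite (K0 K)
  classical
  have h1 : (Finset.univ : Finset (K0 K)) ⊆ {0, 1} := by
    intro s _
    rw [Finset.mem_insert, Finset.mem_singleton]
    by_cases hs : s = 0
    · exact Or.inl hs
    · exact Or.inr (hcon s hs)
  have h2 := (Finset.card_le_card h1).trans Finset.card_le_two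
  rw [Finset.card_univ, ← Nat.card_eq_fintype_card] at h2
  omega

theorem z_mem (hq : 59 < Nat.card (K0 K))
    (h : ∀ (i : Option (Fin m)) (c : Fl m K i), LL m K i (up2 c) ∈ L)
    (p : Fin (m + 1)) (c : K0 K) : (L1 p (up2 c) : grp m K) ∈ L := by
  by_cases hp : p = Fin.last m
  · subst hp
    exact h none c
  · have hlt : p < Fin.last m := lt_of_le_of_ne (Fin.le_last p) hp
    obtain ⟨s, hs0, hs1⟩ := exists_K0 (K := K) hq
    have hs2 : 1 - s ≠ 0 := sub_ne_zero_of_ne hs1.symm
    have key : ∀ (a : K) (t : K0 K), L2 p (Fin.last m) hlt.ne (up2 a) * L1 (Fin.last m) (up2 t) *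
        (L2 p (Fin.last m) hlt.ne (up2 a))⁻¹ * (L1 (Fin.last m) (up2 t))⁻¹ ∈ L := by
      intro a t
      have h1 := x_mem' L h p (Fin.last m) hlt a
      have h2 : (L1 (Fin.last m) (up2 t) : grp m K) ∈ L := h none t
      exact L.mul_mem (L.mul_mem (L.mul_mem h1 h2) (L.inv_mem h1)) (L.inv_mem h2)
    have h1 := key 1 (c / (1 - s))
    have h2 := key (s : K) (c / (1 - s) / s)
    have h3 := L.mul_mem (L.inv_mem h2) h1
    have h4 : (L2 p (Fin.last m) hlt.ne (up2 (s : K)) * L1 (Fin.last m) (up2 (c / (1 - s) / s)) *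
        (L2 p (Fin.last m) hlt.ne (up2 (s : K)))⁻¹ *
          (L1 (Fin.last m) (up2 (c / (1 - s) / s)))⁻¹) * L1 p (up2 c) =
        L2 p (Fin.last m) hlt.ne (up2 (1 : K)) * L1 (Fin.last m) (up2 (c / (1 - s))) *
        (L2 p (Fin.last m) hlt.ne (up2 (1 : K)))⁻¹ *
          (L1 (Fin.last m) (up2 (c / (1 - s))))⁻¹ := by
      apply mat_inj
      rw [mat_mul _ (L1 p (up2 c)), comm_xz, comm_xz, mat_z]
      have g2 := fun i j => (ee_ne_ff (m := m) i j).symm
      have hs3 : (s : K) ≠ 0 := fun h => hs0 (Subtype.ext h)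
      have hs4 : (1 : K) - s ≠ 0 := fun h => hs2 (Subtype.ext h)
      have e1 : (s : K) * ((c / (1 - s) / s : K0 K) : K) = 1 * ((c / (1 - s) : K0 K) : K) := by
        push_cast
        field_simp
      have e2 : ((c / (1 - s) / s : K0 K) : K) * star (s : K) =
          ((c / (1 - s) : K0 K) : K) * star (1 : K) := by
        rw [show star (s : K) = s from s.2, star_one]
        push_cast
        field_simp
      have e3 : 1 * ((c / (1 - s) : K0 K) : K) * star (s : K) + (c : K) =
          1 * ((c / (1 - s) : K0 K) : K) * star (1 : K) := by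
        rw [show star (s : K) = s from s.2, star_one]
        push_cast
        field_simp
        ring
      rw [e1, e2, ← e3, Matrix.single_add]
      simp only [mul_add, add_mul, mul_one, one_mul,
        Matrix.single_mul_single_of_ne _ _ _ _ (g2 _ _), add_zero]
      abel
    have h5 : (L1 p (up2 c) : grp m K) = _ := (inv_mul_eq_of_eq_mul h4.symm).symm
    rw [h5]
    exact h3

theorem y_mem (hq : 59 < Nat.card (K0 K))
    (h : ∀ (i : Option (Fin m)) (c : Fl m K i), LL m K i (up2 c) ∈ L)
    (p q : Fin (m + 1)) (hpq : p < q) (c : K) : ∃ r ∈ L, mat r =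
      1 + (Matrix.single (ee m p) (ff m q) c + Matrix.single (ee m q) (ff m p) (star c)) := by
  have h1 := x_mem' L h p q hpq c
  have h2 := z_mem L hq h q 1
  have hc : star (c * star c) = c * star c := by
    rw [star_mul, star_star]
  have h3 := z_mem L hq h p (-⟨c * star c, hc⟩)
  refine ⟨_, L.mul_mem (L.mul_mem (L.mul_mem (L.mul_mem h1 h2) (L.inv_mem h1)) (L.inv_mem h2)) h3,
    ?_⟩
  rw [mat_mul _ (L1 p _), comm_xz, mat_z]
  have g2 := fun i j => (ee_ne_ff (m := m) i j).symm
  have e1 : ((-⟨c * star c, hc⟩ : K0 K) : K) = -(c * star c) := rfl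
  have e2 : (((1 : K0 K) : K)) = 1 := rfl
  rw [e1, e2, mul_one, one_mul, ← Matrix.single_neg]
  simp only [mul_add, add_mul, mul_one, one_mul, mul_neg,
    Matrix.single_mul_single_of_ne _ _ _ _ (g2 _ _), add_zero, neg_zero]
  abel

/-- All root elements of `U` are in `L`. -/
theorem exists_root (hq : 59 < Nat.card (K0 K))
    (h : ∀ (i : Option (Fin m)) (c : Fl m K i), LL m K i (up2 c) ∈ L)
    (i j : Fin (2 * m + 2)) (hij : i < j) (hij' : i ≤ j.rev) (c : K)
    (hc : i = j.rev → star c = c) : ∃ r ∈ L, ∃ d : K, (i = j.rev → d = 0) ∧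
      mat r = 1 + (Matrix.single i j c + Matrix.single j.rev i.rev d) := by
  have hi := i.2
  have hj := j.2
  have hjr := Fin.val_rev j
  rw [Fin.lt_def] at hij
  rw [Fin.le_def] at hij'
  have him : (i : ℕ) < m + 1 := by omega
  have ei : i = ee m ⟨i, him⟩ := rfl
  by_cases hjm : (j : ℕ) < m + 1
  · have ej : j = ee m ⟨j, hjm⟩ := rfl
    refine ⟨_, x_mem' L h ⟨i, him⟩ ⟨j, hjm⟩ hij c, -star c, fun h => ?_, ?_⟩
    · exfalso
      have := congrArg Fin.val h
      omega
    · rw [mat_x, ← Matrix.single_neg, ← sub_eq_add_neg]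
      rfl
  · have hjm' : (j.rev : ℕ) < m + 1 := by omega
    have ej : j = ff m ⟨j.rev, hjm'⟩ := (Fin.rev_rev j).symm
    have ej' : j.rev = ee m ⟨j.rev, hjm'⟩ := rfl
    by_cases he : i = j.rev
    · subst he
      refine ⟨_, z_mem L hq h ⟨j.rev, hjm'⟩ ⟨c, hc rfl⟩, 0, fun _ => rfl, ?_⟩
      rw [mat_z, Matrix.single_zero, add_zero, ← ej, ← ej']
    · have hlt : (i : ℕ) < j.rev := lt_of_le_of_ne hij' fun h => he (Fin.ext h)
      obtain ⟨r, hr, hr2⟩ := y_mem L hq h ⟨i, him⟩ ⟨j.rev, hjm'⟩ hlt c
      refine ⟨r, hr, star c, fun h => absurd h he, ?_⟩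
      rw [hr2, ← ej, ← ej']
      rfl

end gen

theorem elim_apply (u r : grp m K) (hu : u ∈ U m K) (i j : Fin (2 * m + 2)) (hij' : i ≤ j.rev)
    (c d : K) (hd : i = j.rev → d = 0)
    (hr : mat r = 1 + (Matrix.single i j c + Matrix.single j.rev i.rev d))
    (a k : Fin (2 * m + 2)) (hk : k ≤ j) :
    mat (r * u) a k = mat u a k + if a = i ∧ k = j then c else 0 := by
  rw [mat_mul, hr, add_mul, one_mul, add_mul, Matrix.add_apply, Matrix.add_apply]
  have h1 : (Matrix.single j.rev i.rev d * mat u) a k = 0 := by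
    by_cases ha : a = j.rev
    · rw [ha, Matrix.single_mul_apply_same]
      by_cases he : i = j.rev
      · rw [hd he, zero_mul]
      · have h2 : k < i.rev := by
          have hi := i.2
          have hj := j.2
          have h3 := Fin.val_rev i
          have h4 := Fin.val_rev j
          rw [Fin.le_def] at hij' hk
          have h5 : (i : ℕ) ≠ j.rev := fun h => he (Fin.ext h)
          rw [Fin.lt_def]
          omega
        rw [hu.1 _ _ h2, mul_zero]
    · rw [Matrix.single_mul_apply_of_ne _ _ _ _ _ ha]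
  rw [h1, add_zero]
  congr 1
  by_cases ha : a = i
  · rw [ha, Matrix.single_mul_apply_same]
    by_cases hkj : k = j
    · rw [if_pos ⟨rfl, hkj⟩, hkj, hu.2, mul_one]
    · rw [if_neg fun h => hkj h.2, hu.1 _ _ (lt_of_le_of_ne hk hkj), mul_zero]
  · rw [Matrix.single_mul_apply_of_ne _ _ _ _ _ ha, if_neg fun h => ha h.1]

theorem row_zero (u : grp m K) (hu : u ∈ U m K) (k : Fin (2 * m + 2))
    (hcol : ∀ a, a ≠ k → mat u a k = 0) (b : Fin (2 * m + 2)) (hb : b ≠ k.rev) :
    mat u k.rev b = 0 := by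
  have h1 : ∀ a, mat u⁻¹ a k = (1 : Mat m K) a k := by
    intro a
    rw [← mat_inv_mul u, Matrix.mul_apply, Finset.sum_eq_single k]
    · rw [hu.2, mul_one]
    · intro l _ hl
      rw [hcol l hl, mul_zero]
    · intro h
      exact absurd (Finset.mem_univ _) h
  have hbk : b.rev ≠ k := fun h => hb (by rw [← h, Fin.rev_rev])
  have h2 := h1 b.rev
  rw [Matrix.one_apply_ne hbk, mat_inv_apply, Fin.rev_rev, neg_eq_zero, mul_eq_zero,
    mul_eq_zero] at h2
  rcases h2 with (h2 | h2) | h2
  · exact absurd h2 (sg_ne_zero _)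
  · exact star_eq_zero.1 h2
  · exact absurd h2 (sg_ne_zero _)

theorem mid_star (u : grp m K) (hu : u ∈ U m K) (j : Fin (2 * m + 2)) (hj : j.rev < j)
    (hcol : ∀ k, k < j → ∀ a, a ≠ k → mat u a k = 0) :
    star (mat u j.rev j) = mat u j.rev j := by
  have h1 := congrFun (congrFun (mat_pres u) j.rev) j.rev
  have hjr := Fin.val_rev j
  have hj2 := j.2
  rw [Fin.lt_def] at hj
  have h0 : J m K j.rev j.rev = 0 := by
    simp only [J, Matrix.of_apply]
    rw [if_neg]
    rw [Fin.rev_rev]
    intro h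
    have := congrArg Fin.val h
    omega
  rw [h0, Matrix.mul_apply, Fintype.sum_eq_add j.rev j] at h1
  · rw [mul_J_apply, mul_J_apply, conjTranspose_apply, conjTranspose_apply, Fin.rev_rev, hu.2,
      star_one, mul_one, one_mul] at h1
    have s1 : sg m K j = -1 := by
      rw [sg, if_neg (by omega)]
    have s2 : sg m K j.rev = 1 := by
      rw [sg, if_pos (by omega)]
    rw [s1, s2, one_mul] at h1
    linear_combination h1
  · intro h
    have := congrArg Fin.val h
    omega
  · rintro k ⟨hk1, hk2⟩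
    rw [mul_J_apply, conjTranspose_apply]
    rcases lt_or_gt_of_ne hk2 with h | h
    · rw [hcol k h _ hk1.symm, star_zero, mul_zero]
    · have h3 : k.rev < j.rev := Fin.rev_lt_rev.2 h
      rw [hu.1 _ _ h3, zero_mul, zero_mul]

theorem gen_aux (L : Subgroup (grp m K))
    (hL : ∀ i j : Fin (2 * m + 2), i < j → i ≤ j.rev → ∀ c : K, (i = j.rev → star c = c) →
      ∃ r ∈ L, ∃ d : K, (i = j.rev → d = 0) ∧
        mat r = 1 + (Matrix.single i j c + Matrix.single j.rev i.rev d)) (hLU : L ≤ U m K) :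
    ∀ (t : ℕ) (u : grp m K), u ∈ U m K →
      (∀ k : Fin (2 * m + 2), (k : ℕ) + t < 2 * m + 2 → ∀ a, a ≠ k → mat u a k = 0) →
      u ∈ L := by
  intro t
  induction t with
  | zero =>
    intro u hu hcol
    have h1 : u = 1 := by
      apply mat_inj
      rw [mat_one]
      ext a k
      by_cases hak : a = k
      · rw [hak, hu.2, Matrix.one_apply_eq]
      · rw [hcol k (by have := k.2; omega) a hak, Matrix.one_apply_ne hak]
    rw [h1]
    exact L.one_mem
  | succ t ih =>
    by_cases ht : t + 1 ≤ 2 * m + 2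
    swap
    · intro u hu _
      exact ih u hu fun k hk => by omega
    have hjlt : 2 * m + 2 - (t + 1) < 2 * m + 2 := by omega
    obtain ⟨j, hj⟩ : ∃ j : Fin (2 * m + 2), (j : ℕ) = 2 * m + 2 - (t + 1) := ⟨⟨_, hjlt⟩, rfl⟩
    have inner : ∀ (s : ℕ) (u : grp m K), u ∈ U m K →
        (∀ k : Fin (2 * m + 2), k < j → ∀ a, a ≠ k → mat u a k = 0) →
        (∀ a : Fin (2 * m + 2), (a : ℕ) + s < j → mat u a j = 0) → u ∈ L := by
      intro s
      induction s with
      | zero =>
        intro u hu hcol hrow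
        refine ih u hu fun k hk a hak => ?_
        by_cases hkj : k = j
        · subst hkj
          rcases lt_or_gt_of_ne hak with h | h
          · rw [Fin.lt_def] at h
            exact hrow a (by omega)
          · exact hu.1 _ _ h
        · refine hcol k ?_ a hak
          rw [Fin.lt_def]
          have : (k : ℕ) ≠ j := fun h => hkj (Fin.ext h)
          omega
      | succ s ihs =>
        intro u hu hcol hrow
        by_cases hs : s + 1 ≤ (j : ℕ)
        swap
        · exact ihs u hu hcol fun a ha => by omega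
        obtain ⟨i, hi⟩ : ∃ i : Fin (2 * m + 2), (i : ℕ) = j - (s + 1) :=
          ⟨⟨j - (s + 1), by omega⟩, rfl⟩
        have hij : i < j := by rw [Fin.lt_def]; omega
        by_cases hir : i ≤ j.rev
        · obtain ⟨r, hr, d, hd, hr2⟩ := hL i j hij hir (-mat u i j) (by
            intro h
            rw [star_neg, h, mid_star u hu j (h ▸ hij) hcol])
          have hru : r * u ∈ L := by
            refine ihs (r * u) ((U m K).mul_mem (hLU hr) hu) ?_ ?_
            · intro k hk a hak
              rw [elim_apply u r hu i j hir _ d hd hr2 a k hk.le, hcol k hk a hak,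
                if_neg fun h => hk.ne h.2, add_zero]
            · intro a ha
              rw [elim_apply u r hu i j hir _ d hd hr2 a j le_rfl]
              by_cases hai : a = i
              · rw [if_pos ⟨hai, rfl⟩, hai, add_neg_cancel]
              · have : (a : ℕ) ≠ i := fun h => hai (Fin.ext h)
                rw [if_neg fun h => hai h.1, hrow a (by omega), add_zero]
          have h2 := L.mul_mem (L.inv_mem hr) hru
          rwa [inv_mul_cancel_left] at h2
        · refine ihs u hu hcol fun a ha => ?_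
          by_cases hai : a = i
          · rw [hai]
            have h1 : i.rev < j := by
              rw [not_le] at hir
              have := Fin.rev_lt_rev.2 hir
              rwa [Fin.rev_rev] at this
            have h2 := row_zero u hu i.rev (hcol _ h1) j (by rw [Fin.rev_rev]; exact hij.ne')
            rwa [Fin.rev_rev] at h2
          · have : (a : ℕ) ≠ i := fun h => hai (Fin.ext h)
            exact hrow a (by omega)
    intro u hu hcol
    refine inner (2 * m + 2) u hu (fun k hk => hcol k ?_) fun a ha => ?_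
    · rw [Fin.lt_def] at hk
      omega
    · have := j.2
      omega

end GU

theorem gen_U [Finite K] (hq : 59 < Nat.card (K0 K)) (L : Subgroup (grp m K))
    (h : ∀ (i : Option (Fin m)) (c : Fl m K i), LL m K i (up2 c) ∈ L) : U m K ≤ L := by
  intro u hu
  have h1 := GU.gen_aux (L ⊓ U m K) (GU.exists_root (L ⊓ U m K) hq fun i c =>
    ⟨h i c, LL_up_mem i c⟩) inf_le_right (2 * m + 2) u hu fun k hk => by omega
  exact h1.1

end SU43
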