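import Pool.Agent.Lib.MP_43150e_al.SU.StrU

/-! # Induction on the number of inversions -/

set_option autoImplicit false

namespace SU43

open Matrix BN43

variable {m : ℕ} {K : Type} [Field K] [StarRing K]

namespace InvAux

theorem rev_hi_last : (hi m (Fin.last m)).rev = lo m (Fin.last m) := by
  apply Fin.ext
  rw [Fin.val_rev]
  simp only [hi, lo, Fin.val_last]
  omega

theorem ff_last : ff m (Fin.last m) = hi m (Fin.last m) := by
  apply Fin.ext
  unfold ff
  rw [Fin.val_rev]
  simp only [hi, ee, Fin.val_last]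
  omega

theorem ee_eq_lo (p : Fin (m + 1)) : ee m p = lo m p := rfl

theorem ee_succ (a : Fin m) : ee m a.succ = hi m a.castSucc := by
  apply Fin.ext
  simp [ee, hi]

theorem ff_succ (a : Fin m) : ff m a.succ = (hi m a.castSucc).rev := by
  unfold ff
  rw [ee_succ]

theorem ff_castSucc (a : Fin m) : ff m a.castSucc = (lo m a.castSucc).rev := rfl

theorem nd_surj (a : Fin (m + 1)) : ∃ i : Option (Fin m), nd i = a := by
  induction a using Fin.lastCases with
  | last => exact ⟨none, rfl⟩
  | cast a => exact ⟨some a, rfl⟩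

theorem lo_ne_hi (a : Fin (m + 1)) : lo m a ≠ hi m a := by
  intro h
  have := congrArg Fin.val h
  simp [lo, hi] at this

theorem ee_ne_ff (p q : Fin (m + 1)) : ee m p ≠ ff m q := by
  intro h
  have := congrArg Fin.val h
  simp only [ee, ff, Fin.val_rev] at this
  omega

/-- The matrix of an upper root element. -/
theorem LL_up_some (a : Fin m) (c : K) :
    mat (LL m K (some a) (up2 (F := K) c)) = 1 + Matrix.single (lo m a.castSucc) (hi m a.castSucc) c +
      Matrix.single (hi m a.castSucc).rev (lo m a.castSucc).rev (-star c) := by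
  have hne : a.castSucc ≠ a.succ := ne_of_lt Fin.castSucc_lt_succ
  have h1 : (ee m a.castSucc) ≠ (ee m a.succ) := by
    intro h
    apply hne
    have := congrArg Fin.val h
    exact Fin.ext this
  have h2 : (ff m a.succ) ≠ (ff m a.castSucc) := by
    intro h
    apply h1
    exact (Fin.rev_injective h).symm
  have h3 : til (up2 (F := K) c).1 = !![1, -star c; 0, 1] := by
    ext i j
    fin_cases i <;> fin_cases j <;> simp [til, up2]
  show lev2 a.castSucc a.succ (up2 (F := K) c).1 = _
  unfold lev2
  rw [h3]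
  have h4 : (up2 (F := K) c).1 = !![1, c; 0, 1] := rfl
  rw [h4, b2_upper h1, b2_upper h2, mul_add, mul_one, add_mul, one_mul,
    Matrix.single_mul_single_of_ne _ _ _ _ (by rw [ff_succ, ← ff_succ]; exact ee_ne_ff _ _),
    add_zero, ff_succ, ee_succ, ff_castSucc, ee_eq_lo]

theorem LL_dn_some (a : Fin m) (c : K) :
    mat (LL m K (some a) (dn2 (F := K) c)) = 1 + Matrix.single (hi m a.castSucc) (lo m a.castSucc) c +
      Matrix.single (lo m a.castSucc).rev (hi m a.castSucc).rev (-star c) := by
  have hne : a.castSucc ≠ a.succ := ne_of_lt Fin.castSucc_lt_succ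
  have h1 : (ee m a.castSucc) ≠ (ee m a.succ) := by
    intro h
    apply hne
    have := congrArg Fin.val h
    exact Fin.ext this
  have h2 : (ff m a.succ) ≠ (ff m a.castSucc) := by
    intro h
    apply h1
    exact (Fin.rev_injective h).symm
  have h3 : til (dn2 (F := K) c).1 = !![1, 0; -star c, 1] := by
    ext i j
    fin_cases i <;> fin_cases j <;> simp [til, dn2]
  show lev2 a.castSucc a.succ (dn2 (F := K) c).1 = _
  unfold lev2
  rw [h3]
  have h4 : (dn2 (F := K) c).1 = !![1, 0; c, 1] := rfl
  rw [h4, b2_lower h1, b2_lower h2, mul_add, mul_one, add_mul, one_mul,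
    Matrix.single_mul_single_of_ne _ _ _ _ (ee_ne_ff _ _),
    add_zero, ff_succ, ee_succ, ff_castSucc, ee_eq_lo]

theorem LL_up_none (c : K0 K) :
    mat (LL m K none (up2 (F := K0 K) c)) =
      1 + Matrix.single (lo m (Fin.last m)) (hi m (Fin.last m)) (c : K) := by
  have h1 : (ee m (Fin.last m)) ≠ (ff m (Fin.last m)) := ee_ne_ff _ _
  have h3 : inc (up2 (F := K0 K) c) = !![1, (c : K); 0, 1] := by
    ext i j
    fin_cases i <;> fin_cases j <;> simp [inc, up2]
  show lev1 (Fin.last m) (inc (up2 (F := K0 K) c)) = _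
  unfold lev1
  rw [h3, b2_upper h1, ff_last, ee_eq_lo]

theorem LL_dn_none (c : K0 K) :
    mat (LL m K none (dn2 (F := K0 K) c)) =
      1 + Matrix.single (hi m (Fin.last m)) (lo m (Fin.last m)) (c : K) := by
  have h1 : (ee m (Fin.last m)) ≠ (ff m (Fin.last m)) := ee_ne_ff _ _
  have h3 : inc (dn2 (F := K0 K) c) = !![1, 0; (c : K), 1] := by
    ext i j
    fin_cases i <;> fin_cases j <;> simp [inc, dn2]
  show lev1 (Fin.last m) (inc (dn2 (F := K0 K) c)) = _
  unfold lev1
  rw [h3, b2_lower h1, ff_last, ee_eq_lo]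

theorem LL_up_form (i : Option (Fin m)) (c : Fl m K i) : ∃ y : K,
    mat (LL m K i (up2 c)) = 1 + Matrix.single (lo m (nd i)) (hi m (nd i)) (em m K i c) +
      Matrix.single (hi m (nd i)).rev (lo m (nd i)).rev y := by
  cases i with
  | none => exact ⟨0, by rw [Matrix.single_zero, add_zero]; exact LL_up_none c⟩
  | some a => exact ⟨_, LL_up_some a (show K from c)⟩

theorem LL_dn_form (i : Option (Fin m)) (c : Fl m K i) : ∃ y : K,
    mat (LL m K i (dn2 c)) = 1 + Matrix.single (hi m (nd i)) (lo m (nd i)) (em m K i c) +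
      Matrix.single (lo m (nd i)).rev (hi m (nd i)).rev y := by
  cases i with
  | none => exact ⟨0, by rw [Matrix.single_zero, add_zero]; exact LL_dn_none c⟩
  | some a => exact ⟨_, LL_dn_some a (show K from c)⟩

/-- The entries of the inverse of a monomial matrix. -/
theorem inv_entry {n : grp m K} {e : Equiv.Perm (Fin (2 * m + 2))}
    (he : ∀ i j, mat n i j ≠ 0 ↔ j = e i) (hr : ∀ i, e i.rev = (e i).rev)
    {i j : Fin (2 * m + 2)} (h : mat n⁻¹ i j ≠ 0) : i = e j := by
  rw [mat_inv_apply] at h
  have h1 : mat n j.rev i.rev ≠ 0 := by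
    intro h0
    rw [h0, star_zero, mul_zero, zero_mul, neg_zero] at h
    exact h rfl
  have h2 := (he _ _).1 h1
  rw [hr] at h2
  exact Fin.rev_injective h2

theorem conj_single (A C : Mat m K) (p q i j : Fin (2 * m + 2)) (x : K) :
    (A * Matrix.single p q x * C) i j = A i p * x * C q j := by
  rw [Matrix.mul_apply, Finset.sum_eq_single q]
  · rw [Matrix.mul_apply, Finset.sum_eq_single p]
    · simp
    · intro k _ hk
      rw [Matrix.single_apply_of_row_ne (Ne.symm hk), mul_zero]
    · intro h
      exact absurd (Finset.mem_univ _) h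
  · intro k _ hk
    rw [Matrix.mul_apply, Finset.sum_eq_zero, zero_mul]
    intro l _
    rw [Matrix.single_apply_of_col_ne _ _ (Ne.symm hk), mul_zero]
  · intro h
    exact absurd (Finset.mem_univ _) h

theorem conj_form (n g : grp m K) (p q p' q' : Fin (2 * m + 2)) (x y : K)
    (hg : mat g = 1 + Matrix.single p q x + Matrix.single p' q' y) (i j : Fin (2 * m + 2)) :
    mat (n⁻¹ * g * n) i j = (1 : Mat m K) i j + mat n⁻¹ i p * x * mat n q j +
      mat n⁻¹ i p' * y * mat n q' j := by
  rw [mat_mul, mat_mul, hg, mul_add, mul_add, mul_one, add_mul, add_mul, mat_inv_mul,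
    Matrix.add_apply, Matrix.add_apply, conj_single, conj_single]

/-- A conjugate of a root element by a monomial element is in `U`. -/
theorem conj_mem {n : grp m K} {e : Equiv.Perm (Fin (2 * m + 2))}
    (he : ∀ i j, mat n i j ≠ 0 ↔ j = e i) (hr : ∀ i, e i.rev = (e i).rev) (g : grp m K)
    (p q : Fin (2 * m + 2)) (x y : K)
    (hg : mat g = 1 + Matrix.single p q x + Matrix.single q.rev p.rev y) (hpq : e p < e q) :
    n⁻¹ * g * n ∈ U m K := by
  have key : ∀ i j, j ≤ i → mat (n⁻¹ * g * n) i j = (1 : Mat m K) i j := by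
    intro i j hji
    rw [conj_form n g _ _ _ _ _ _ hg]
    have h1 : mat n⁻¹ i p * x * mat n q j = 0 := by
      by_contra h0
      have h2 := inv_entry he hr (left_ne_zero_of_mul (left_ne_zero_of_mul h0))
      have h3 := (he _ _).1 (right_ne_zero_of_mul h0)
      rw [h2, h3] at hji
      exact absurd hpq (not_lt.2 hji)
    have h4 : mat n⁻¹ i q.rev * y * mat n p.rev j = 0 := by
      by_contra h0
      have h2 := inv_entry he hr (left_ne_zero_of_mul (left_ne_zero_of_mul h0))
      have h3 := (he _ _).1 (right_ne_zero_of_mul h0)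
      rw [h2, h3, hr, hr, Fin.rev_le_rev] at hji
      exact absurd hpq (not_lt.2 hji)
    rw [h1, h4, add_zero, add_zero]
  refine ⟨fun i j hij => ?_, fun i => ?_⟩
  · rw [key i j hij.le, Matrix.one_apply_ne hij.ne']
  · rw [key i i le_rfl, Matrix.one_apply_eq]

/-! ### The permutations of the simple reflections -/

/-- The permutation of a simple reflection. -/
def sig (m : ℕ) : Option (Fin m) → Equiv.Perm (Fin (2 * m + 2))
  | none => Equiv.swap (lo m (Fin.last m)) (hi m (Fin.last m))
  | some a => (Equiv.swap (lo m a.castSucc) (hi m a.castSucc)).trans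
      (Equiv.swap (hi m a.castSucc).rev (lo m a.castSucc).rev)

theorem b2_mono {N : ℕ} {p q : Fin N} (s : Matrix (Fin 2) (Fin 2) K) (h0 : s 0 0 = 0)
    (h1 : s 1 1 = 0) {i j : Fin N} (h : b2 p q s i j ≠ 0) : j = Equiv.swap p q i := by
  unfold b2 at h
  simp only [Matrix.of_apply] at h
  by_cases hip : i = p
  · subst hip
    rw [if_pos rfl, h0] at h
    rw [Equiv.swap_apply_left]
    by_contra hj
    by_cases hji : j = i
    · rw [if_pos hji] at h
      exact h rfl
    · rw [if_neg hji, if_neg hj] at h
      exact h rfl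
  · rw [if_neg hip] at h
    by_cases hiq : i = q
    · subst hiq
      rw [if_pos rfl, h1] at h
      rw [Equiv.swap_apply_right]
      by_contra hj
      rw [if_neg hj] at h
      split_ifs at h <;> exact h rfl
    · rw [if_neg hiq] at h
      rw [Equiv.swap_apply_of_ne_of_ne hip hiq]
      by_contra hj
      rw [if_neg (Ne.symm hj)] at h
      exact h rfl

theorem LL_wl_mono (i : Option (Fin m)) {k l : Fin (2 * m + 2)}
    (h : mat (LL m K i wl) k l ≠ 0) : l = sig m i k := by
  cases i with
  | none =>
    have h1 : b2 (ee m (Fin.last m)) (ff m (Fin.last m)) (inc (wl (F := K0 K))) k l ≠ 0 := h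
    have h2 := b2_mono (inc (wl (F := K0 K))) (by simp [inc, wl]) (by simp [inc, wl]) h1
    rw [ff_last, ee_eq_lo] at h2
    exact h2
  | some a =>
    have h1 : (b2 (ee m a.castSucc) (ee m a.succ) (wl (F := K)).1 *
      b2 (ff m a.succ) (ff m a.castSucc) (til (wl (F := K)).1)) k l ≠ 0 := h
    rw [Matrix.mul_apply] at h1
    obtain ⟨r, _, hr⟩ := Finset.exists_ne_zero_of_sum_ne_zero h1
    have h2 := b2_mono _ (by simp [wl]) (by simp [wl]) (left_ne_zero_of_mul hr)
    have h3 := b2_mono _ (by simp [til, wl]) (by simp [til, wl]) (right_ne_zero_of_mul hr)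
    rw [ff_succ, ff_castSucc, h2, ee_succ, ee_eq_lo] at h3
    exact h3

theorem LL_wl_mem (i : Option (Fin m)) : LL m K i wl ∈ N m K :=
  ⟨sig m i, fun _ _ h => LL_wl_mono i h⟩

/-- The measure. -/
def wt (m : ℕ) (e : Fin (2 * m + 2) → Fin (2 * m + 2)) : ℤ :=
  ∑ k : Fin (2 * m + 2), ((k : ℕ) : ℤ) * ((e k : ℕ) : ℤ)

theorem wt_le (e : Fin (2 * m + 2) → Fin (2 * m + 2)) :
    wt m e ≤ (2 * m + 2) * ((2 * m + 2) * (2 * m + 2)) := by
  unfold wt
  have : ∀ k ∈ (Finset.univ : Finset (Fin (2 * m + 2))),
      ((k : ℕ) : ℤ) * ((e k : ℕ) : ℤ) ≤ (2 * m + 2) * (2 * m + 2) := by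
    intro k _
    have h1 := k.2
    have h2 := (e k).2
    apply mul_le_mul <;> first | positivity | omega
  have h := Finset.sum_le_card_nsmul _ _ _ this
  rw [Finset.card_univ, Fintype.card_fin, nsmul_eq_mul] at h
  push_cast at h
  exact h

theorem wt_swap (f : Fin (2 * m + 2) → Fin (2 * m + 2)) (p q : Fin (2 * m + 2)) (hpq : p ≠ q) :
    wt m (fun k => f (Equiv.swap p q k)) = wt m f +
      (((q : ℕ) : ℤ) - ((p : ℕ) : ℤ)) * (((f p : ℕ) : ℤ) - ((f q : ℕ) : ℤ)) := by
  unfold wt
  have h1 : ∑ k : Fin (2 * m + 2), ((k : ℕ) : ℤ) * ((f (Equiv.swap p q k) : ℕ) : ℤ) =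
      ∑ k : Fin (2 * m + 2),
        (((Equiv.swap p q k : Fin (2 * m + 2)) : ℕ) : ℤ) * ((f k : ℕ) : ℤ) := by
    rw [← Equiv.sum_comp (Equiv.swap p q)
      (fun k => (((Equiv.swap p q k : Fin (2 * m + 2)) : ℕ) : ℤ) * ((f k : ℕ) : ℤ))]
    apply Finset.sum_congr rfl
    intro k _
    rw [Equiv.swap_apply_self]
  rw [h1, ← sub_eq_iff_eq_add', ← Finset.sum_sub_distrib]
  rw [Finset.sum_eq_add p q hpq]
  · rw [Equiv.swap_apply_left, Equiv.swap_apply_right]
    ring
  · rintro k _ ⟨hp, hq⟩
    rw [Equiv.swap_apply_of_ne_of_ne hp hq, sub_self]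
  · intro h
    exact absurd (Finset.mem_univ _) h
  · intro h
    exact absurd (Finset.mem_univ _) h

theorem wt_sig (i : Option (Fin m)) (e : Equiv.Perm (Fin (2 * m + 2)))
    (hr : ∀ i, e i.rev = (e i).rev) (h : e (hi m (nd i)) < e (lo m (nd i))) :
    wt m e < wt m (fun k => e ((sig m i).symm k)) := by
  cases i with
  | none =>
    have h1 : (fun k => e ((sig m none).symm k)) =
        fun k => e (Equiv.swap (lo m (Fin.last m)) (hi m (Fin.last m)) k) := rfl
    rw [h1, wt_swap _ _ _ (lo_ne_hi _)]
    have h2 : ((hi m (Fin.last m) : ℕ) : ℤ) - ((lo m (Fin.last m) : ℕ) : ℤ) = 1 := by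
      simp [hi, lo]
    rw [h2]
    have h3 : ((e (hi m (Fin.last m)) : ℕ)) < ((e (lo m (Fin.last m)) : ℕ)) := h
    omega
  | some a =>
    have hab : (hi m a.castSucc).rev ≠ (lo m a.castSucc).rev := by
      intro h'
      exact lo_ne_hi _ (Fin.rev_injective h').symm
    have h1 : (fun k => e ((sig m (some a)).symm k)) =
        fun k => (fun k => e (Equiv.swap (lo m a.castSucc) (hi m a.castSucc) k))
          (Equiv.swap (hi m a.castSucc).rev (lo m a.castSucc).rev k) := rfl
    rw [h1, wt_swap (fun k => e (Equiv.swap (lo m a.castSucc) (hi m a.castSucc) k)) _ _ hab,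
      wt_swap _ _ _ (lo_ne_hi _)]
    have ha := a.2
    have e1 : Equiv.swap (lo m a.castSucc) (hi m a.castSucc) (hi m a.castSucc).rev =
        (hi m a.castSucc).rev := by
      apply Equiv.swap_apply_of_ne_of_ne
      · intro h'
        have := congrArg Fin.val h'
        simp only [Fin.val_rev, hi, lo, Fin.val_castSucc] at this
        omega
      · intro h'
        have := congrArg Fin.val h'
        simp only [Fin.val_rev, hi, Fin.val_castSucc] at this
        omega
    have e2 : Equiv.swap (lo m a.castSucc) (hi m a.castSucc) (lo m a.castSucc).rev =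
        (lo m a.castSucc).rev := by
      apply Equiv.swap_apply_of_ne_of_ne
      · intro h'
        have := congrArg Fin.val h'
        simp only [Fin.val_rev, lo, Fin.val_castSucc] at this
        omega
      · intro h'
        have := congrArg Fin.val h'
        simp only [Fin.val_rev, hi, lo, Fin.val_castSucc] at this
        omega
    beta_reduce
    rw [e1, e2, hr, hr]
    have h2 : ((hi m a.castSucc : ℕ) : ℤ) - ((lo m a.castSucc : ℕ) : ℤ) = 1 := by
      simp [hi, lo]
    have h4 : (((lo m a.castSucc).rev : ℕ) : ℤ) - (((hi m a.castSucc).rev : ℕ) : ℤ) = 1 := by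
      simp only [Fin.val_rev, hi, lo, Fin.val_castSucc]
      omega
    rw [h2, h4, Fin.val_rev, Fin.val_rev]
    have h3 : ((e (hi m a.castSucc) : ℕ)) < ((e (lo m a.castSucc) : ℕ)) := h
    have h5 := (e (hi m a.castSucc)).2
    have h6 := (e (lo m a.castSucc)).2
    omega

/-- No inversion at a node: the permutation is increasing. -/
theorem strictMono_of (e : Equiv.Perm (Fin (2 * m + 2))) (hr : ∀ i, e i.rev = (e i).rev)
    (h : ∀ a, e (lo m a) < e (hi m a)) : StrictMono e := by
  rw [Fin.strictMono_iff_lt_succ (n := 2 * m + 1)]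
  intro k
  by_cases hk : (k : ℕ) < m + 1
  · exact h ⟨k, hk⟩
  · have hk2 := k.2
    have h1 := h ⟨2 * m - k, by omega⟩
    have h2 : (lo m ⟨2 * m - k, by omega⟩).rev = k.succ := by
      apply Fin.ext
      simp only [Fin.val_rev, lo, Fin.val_succ]
      omega
    have h3 : (hi m ⟨2 * m - k, by omega⟩).rev = k.castSucc := by
      apply Fin.ext
      simp only [Fin.val_rev, hi, Fin.val_castSucc]
      omega
    rw [← h2, ← h3, hr, hr, Fin.rev_lt_rev]
    exact h1

theorem eq_id_of (e : Equiv.Perm (Fin (2 * m + 2))) (h : StrictMono e) (i : Fin (2 * m + 2)) :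
    e i = i := by
  have h1 : (e : Fin (2 * m + 2) → Fin (2 * m + 2)) = id := by
    apply (h.range_inj strictMono_id).1
    rw [Set.range_id, e.surjective.range_eq]
  rw [h1]
  rfl

end InvAux

open InvAux

/-- Induction over the monomial matrices: the step multiplies by a simple reflection for which
there is an inversion. -/
theorem N_induction (Q : grp m K → Prop) (h0 : ∀ n ∈ B m K ⊓ N m K, Q n)
    (h1 : ∀ (i : Option (Fin m)) (n : grp m K), n ∈ N m K →
      (∀ c : Fl m K i, n⁻¹ * LL m K i (dn2 c) * n ∈ U m K) → Q ((LL m K i wl)⁻¹ * n) → Q n) :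
    ∀ n ∈ N m K, Q n := by
  have main : ∀ (d : ℕ) (n : grp m K) (e : Equiv.Perm (Fin (2 * m + 2))), n ∈ N m K →
      (∀ i j, mat n i j ≠ 0 ↔ j = e i) → (∀ i, e i.rev = (e i).rev) →
      (2 * m + 2) * ((2 * m + 2) * (2 * m + 2)) - wt m e ≤ (d : ℤ) → Q n := by
    intro d
    induction d with
    | zero =>
      intro n e hn he hr hd
      by_cases hall : ∀ a, e (lo m a) < e (hi m a)
      · apply h0
        rw [mem_BN_iff]
        intro i j hij
        by_contra h
        have h2 := (he i j).1 h
        rw [eq_id_of e (strictMono_of e hr hall)] at h2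
        exact hij h2.symm
      · push Not at hall
        obtain ⟨a, ha⟩ := hall
        obtain ⟨i, rfl⟩ := nd_surj a
        have hlt : e (hi m (nd i)) < e (lo m (nd i)) :=
          lt_of_le_of_ne ha (fun h => lo_ne_hi _ (e.injective h).symm)
        have h2 := wt_sig i e hr hlt
        have h3 := wt_le (m := m) (fun k => e ((sig m i).symm k))
        push_cast at hd
        omega
    | succ d ih =>
      intro n e hn he hr hd
      by_cases hall : ∀ a, e (lo m a) < e (hi m a)
      · apply h0
        rw [mem_BN_iff]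
        intro i j hij
        by_contra h
        have h2 := (he i j).1 h
        rw [eq_id_of e (strictMono_of e hr hall)] at h2
        exact hij h2.symm
      · push Not at hall
        obtain ⟨a, ha⟩ := hall
        obtain ⟨i, rfl⟩ := nd_surj a
        have hlt : e (hi m (nd i)) < e (lo m (nd i)) :=
          lt_of_le_of_ne ha (fun h => lo_ne_hi _ (e.injective h).symm)
        have h2 := wt_sig i e hr hlt
        apply h1 i n hn
        · intro c
          obtain ⟨y, hy⟩ := LL_dn_form i c
          exact conj_mem he hr _ _ _ _ _ hy hlt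
        · have hn' : (LL m K i wl)⁻¹ * n ∈ N m K :=
            (N m K).mul_mem ((N m K).inv_mem (LL_wl_mem i)) hn
          obtain ⟨e', he', hr'⟩ := exists_perm _ hn'
          have hee : ∀ k, e k = e' (sig m i k) := by
            intro k
            have h3 : mat n k (e k) ≠ 0 := (he k (e k)).2 rfl
            have h4 : n = LL m K i wl * ((LL m K i wl)⁻¹ * n) := by
              rw [mul_inv_cancel_left]
            rw [h4, mat_mul, Matrix.mul_apply] at h3
            obtain ⟨r, _, hr2⟩ := Finset.exists_ne_zero_of_sum_ne_zero h3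
            have h5 := LL_wl_mono i (left_ne_zero_of_mul hr2)
            have h6 := (he' _ _).1 (right_ne_zero_of_mul hr2)
            rw [h5] at h6
            exact h6
          have hee2 : (e' : Fin (2 * m + 2) → Fin (2 * m + 2)) =
              fun k => e ((sig m i).symm k) := by
            funext k
            rw [hee, Equiv.apply_symm_apply]
          apply ih _ e' hn' he' hr'
          rw [hee2]
          push_cast at hd
          omega
  intro n hn
  obtain ⟨e, he, hr⟩ := exists_perm n hn
  refine main ((2 * m + 2) * ((2 * m + 2) * (2 * m + 2)) - wt m e).toNat n e hn he hr ?_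
  exact Int.self_le_toNat _

/-- Either some simple root group is mapped into `U` or all are mapped to the opposite ones. -/
theorem N_opp (n : grp m K) (hn : n ∈ N m K) :
    (∃ i : Option (Fin m), ∀ c : Fl m K i, n⁻¹ * LL m K i (up2 c) * n ∈ U m K) ∨
    ∀ (k : Option (Fin m)) (c : Fl m K k), ∃ c' : Fl m K k,
      n⁻¹ * LL m K k (up2 c) * n = LL m K k (dn2 c') := by
  obtain ⟨e, he, hr⟩ := exists_perm n hn
  by_cases hex : ∃ a, e (lo m a) < e (hi m a)
  · left
    obtain ⟨a, ha⟩ := hex
    obtain ⟨i, rfl⟩ := nd_surj a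
    refine ⟨i, fun c => ?_⟩
    obtain ⟨y, hy⟩ := LL_up_form i c
    exact conj_mem he hr _ _ _ _ _ hy ha
  · right
    push Not at hex
    have hrev : ∀ i, e i = i.rev := by
      intro i
      have h1 : StrictMono (e.trans Fin.revPerm) := by
        apply strictMono_of
        · intro i
          simp only [Equiv.trans_apply, Fin.revPerm_apply, hr]
        · intro a
          simp only [Equiv.trans_apply, Fin.revPerm_apply, Fin.rev_lt_rev]
          exact lt_of_le_of_ne (hex a) (fun h => lo_ne_hi _ (e.injective h).symm)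
      have h2 := eq_id_of _ h1 i
      simp only [Equiv.trans_apply, Fin.revPerm_apply] at h2
      rw [← h2, Fin.rev_rev]
      rw [h2]
    have hs : ∀ i, sg m K i * sg m K i = 1 := by
      intro i
      unfold sg
      split_ifs <;> ring
    -- the entries of the inverse
    have hinv : ∀ i, mat n⁻¹ i.rev i = -star (mat n i.rev i) := by
      intro i
      rw [mat_inv_apply, Fin.rev_rev]
      have h := hs i.rev
      linear_combination (-star (mat n i.rev i)) * h
    have hz : ∀ i j, j ≠ i.rev → mat n i j = 0 := by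
      intro i j hij
      by_contra h
      exact hij (((he i j).1 h).trans (hrev i))
    have hz' : ∀ i j, j ≠ i.rev → mat n⁻¹ i j = 0 := by
      intro i j hij
      by_contra h
      have h2 := inv_entry he hr h
      rw [hrev] at h2
      apply hij
      rw [h2, Fin.rev_rev]
    have hsing : ∀ (p q : Fin (2 * m + 2)) (x : K), mat n⁻¹ * Matrix.single p q x * mat n =
        Matrix.single p.rev q.rev (mat n⁻¹ p.rev p * x * mat n q q.rev) := by
      intro p q x
      ext i j
      rw [conj_single]
      by_cases hi : i = p.rev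
      · by_cases hj : j = q.rev
        · rw [hi, hj, Matrix.single_apply_same]
        · rw [hz q j hj, mul_zero, Matrix.single_apply_of_col_ne _ _ (Ne.symm hj)]
      · rw [hz' i p (fun h => hi (by rw [h, Fin.rev_rev])), zero_mul, zero_mul,
          Matrix.single_apply_of_row_ne (Ne.symm hi)]
    have part1 : ∀ c : K0 K, ∃ c' : K0 K,
        n⁻¹ * LL m K none (up2 (F := K0 K) c) * n = LL m K none (dn2 (F := K0 K) c') := by
      intro c
      have hlh : (lo m (Fin.last m)).rev = hi m (Fin.last m) := by
        rw [← rev_hi_last, Fin.rev_rev]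
      have hc : star (c : K) = c := c.2
      have h1 := hinv (lo m (Fin.last m))
      rw [hlh] at h1
      refine ⟨(⟨mat n⁻¹ (hi m (Fin.last m)) (lo m (Fin.last m)) * (c : K) *
        mat n (hi m (Fin.last m)) (lo m (Fin.last m)), ?_⟩ : K0 K), ?_⟩
      · show star (_ * (c : K) * _) = _ * (c : K) * _
        rw [h1]
        simp only [star_mul', star_neg, star_star, hc]
        ring
      · apply mat_inj
        rw [LL_dn_none, mat_mul, mat_mul, LL_up_none, mul_add, mul_one, add_mul, mat_inv_mul,
          hsing, hlh, rev_hi_last]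
    have part2 : ∀ (a : Fin m) (c : K), ∃ c' : K,
        n⁻¹ * LL m K (some a) (up2 (F := K) c) * n = LL m K (some a) (dn2 (F := K) c') := by
      intro a c
      have h1 := hinv (lo m a.castSucc)
      have h2 := hinv (hi m a.castSucc).rev
      rw [Fin.rev_rev] at h2
      refine ⟨mat n⁻¹ (hi m a.castSucc) (hi m a.castSucc).rev * (-star c) *
        mat n (lo m a.castSucc).rev (lo m a.castSucc), ?_⟩
      apply mat_inj
      rw [LL_dn_some, mat_mul, mat_mul, LL_up_some, mul_add, mul_add, mul_one, add_mul, add_mul,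
        mat_inv_mul, hsing, hsing, Fin.rev_rev, Fin.rev_rev, add_assoc, add_assoc,
        add_comm (Matrix.single (lo m a.castSucc).rev (hi m a.castSucc).rev _)]
      congr 3
      rw [h1, h2]
      simp only [star_mul', star_neg, star_star]
      ring
    intro k c
    cases k with
    | none => exact part1 c
    | some a => exact part2 a c

end SU43
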