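import Pool.Agent.Lib.MP_43150e_al.SU.ValS
import Pool.Agent.Lib.MP_43150e_al.Lin.Gen

/-! # Generation of the rank one subgroups -/

set_option autoImplicit false

namespace SU43

open Matrix BN43

variable {m : ℕ} {K : Type} [Field K] [StarRing K]

/-- A subgroup containing the upper and the lower root elements contains the whole `SL_2`. -/
theorem LL_mem (i : Option (Fin m)) (L : Subgroup (grp m K))
    (h1 : ∀ c : Fl m K i, LL m K i (up2 c) ∈ L) (h2 : ∀ c : Fl m K i, LL m K i (dn2 c) ∈ L)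
    (s : SpecialLinearGroup (Fin 2) (Fl m K i)) : LL m K i s ∈ L := by
  have h3 : L.comap (LL m K i) = ⊤ := by
    apply Lin43.gen
    intro k l hkl c
    fin_cases k <;> fin_cases l
    · exact absurd rfl hkl
    · refine ⟨up2 c, h1 c, ?_⟩
      change (!![1, c; 0, 1] : Matrix (Fin 2) (Fin 2) (Fl m K i)) = _
      ext a b
      fin_cases a <;> fin_cases b <;> simp
    · refine ⟨dn2 c, h2 c, ?_⟩
      change (!![1, 0; c, 1] : Matrix (Fin 2) (Fin 2) (Fl m K i)) = _
      ext a b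
      fin_cases a <;> fin_cases b <;> simp
    · exact absurd rfl hkl
  have h4 : s ∈ L.comap (LL m K i) := by
    rw [h3]
    exact Subgroup.mem_top s
  exact h4

/-- The lower root elements are conjugates of the upper ones. -/
theorem wl_up2 {F : Type} [Field F] (c : F) : dn2 c * wl = wl * up2 (-c) := by
  apply Subtype.ext
  change (!![1, 0; c, 1] : Matrix (Fin 2) (Fin 2) F) * !![0, 1; -1, 0] =
    !![0, 1; -1, 0] * !![1, -c; 0, 1]
  ext a b
  fin_cases a <;> fin_cases b <;> simp [Matrix.mul_apply, Fin.sum_univ_two]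

theorem LL_mem_S (i : Option (Fin m)) (s : SpecialLinearGroup (Fin 2) (Fl m K i)) :
    LL m K i s ∈ conjGen (P m K (nd i)) (U m K) := by
  apply LL_mem
  · intro c
    exact Subgroup.subset_closure ⟨1, Subgroup.one_mem _, _, LL_up_mem i c, by simp⟩
  · intro c
    refine Subgroup.subset_closure ⟨LL m K i wl, LL_mem_P i wl, _, LL_up_mem i (-c), ?_⟩
    rw [← map_inv, ← map_mul, ← map_mul, ← wl_up2, mul_inv_cancel_right]

/-- An element of `PGL_2` is the class of an element of `SL_2` times an upper triangular one. -/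
theorem exists_isUp {F : Type} [Field F] (x : ProjGenLinGroup (Fin 2) F) :
    ∃ s : SpecialLinearGroup (Fin 2) F, IsUp (s.toPGL⁻¹ * x) := by
  obtain ⟨X, rfl⟩ := ProjGenLinGroup.mk_surjective x
  have hdet : (X : Matrix (Fin 2) (Fin 2) F).det ≠ 0 :=
    ((Matrix.isUnit_iff_isUnit_det _).mp X.isUnit).ne_zero
  rw [Matrix.det_fin_two] at hdet
  obtain ⟨s, h0, h1⟩ : ∃ s : SpecialLinearGroup (Fin 2) F,
      (s : Matrix (Fin 2) (Fin 2) F) 0 0 = (X : Matrix (Fin 2) (Fin 2) F) 0 0 ∧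
      (s : Matrix (Fin 2) (Fin 2) F) 1 0 = (X : Matrix (Fin 2) (Fin 2) F) 1 0 := by
    by_cases hx : (X : Matrix (Fin 2) (Fin 2) F) 0 0 = 0
    · have hy : (X : Matrix (Fin 2) (Fin 2) F) 1 0 ≠ 0 := by
        intro hy
        rw [hx, hy] at hdet
        simp at hdet
      refine ⟨⟨!![(X : Matrix (Fin 2) (Fin 2) F) 0 0, -((X : Matrix (Fin 2) (Fin 2) F) 1 0)⁻¹;
        (X : Matrix (Fin 2) (Fin 2) F) 1 0, 0], ?_⟩, rfl, rfl⟩
      rw [Matrix.det_fin_two_of]
      field_simp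
      ring
    · refine ⟨⟨!![(X : Matrix (Fin 2) (Fin 2) F) 0 0, 0;
        (X : Matrix (Fin 2) (Fin 2) F) 1 0, ((X : Matrix (Fin 2) (Fin 2) F) 0 0)⁻¹], ?_⟩, rfl,
        rfl⟩
      rw [Matrix.det_fin_two_of, mul_inv_cancel₀ hx, zero_mul, sub_zero]
  refine ⟨s, (SpecialLinearGroup.toGL s)⁻¹ * X, ?_, ?_⟩
  · have e : ((SpecialLinearGroup.toGL s⁻¹ : GeneralLinearGroup (Fin 2) F) :
        Matrix (Fin 2) (Fin 2) F) = Matrix.adjugate (s : Matrix (Fin 2) (Fin 2) F) := rfl
    rw [← map_inv, Units.val_mul, e, Matrix.adjugate_fin_two, Matrix.mul_apply,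
      Fin.sum_univ_two]
    change -(s : Matrix (Fin 2) (Fin 2) F) 1 0 * (X : Matrix (Fin 2) (Fin 2) F) 0 0 +
      (s : Matrix (Fin 2) (Fin 2) F) 0 0 * (X : Matrix (Fin 2) (Fin 2) F) 1 0 = 0
    rw [h0, h1]
    ring
  · rw [map_mul, map_inv]
    rfl

/-- `P i` is generated by `B` and the lower root elements. -/
theorem P_le_of (i : Option (Fin m)) (L : Subgroup (grp m K)) (hB : B m K ≤ L)
    (h : ∀ c : Fl m K i, LL m K i (dn2 c) ∈ L) : P m K (nd i) ≤ L := by
  intro g hg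
  obtain ⟨x, hx⟩ := exists_val (f := pi m K i) hg
  obtain ⟨s, hs⟩ := exists_isUp x
  obtain ⟨hm, hv⟩ := (val_LL i s).inv.mul hx
  have h1 : (LL m K i s)⁻¹ * g ∈ B m K := by
    rw [← hv] at hs
    exact (pi_up_iff i _).1 hs
  have h2 : LL m K i s ∈ L := LL_mem i L (fun c => hB (U_le_B (LL_up_mem i c))) h s
  have h3 := L.mul_mem h2 (hB h1)
  rwa [mul_inv_cancel_left] at h3

end SU43
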