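import Pool.Agent.Lib.MP_43150e_al.SU.Defs

/-! # The parabolic subgroups as block triangular matrices -/

set_option autoImplicit false

namespace SU43

open Matrix BN43

variable {m : ℕ} {K : Type} [Field K] [StarRing K]

/-- The inverse maps `E_d` to itself, too. -/
theorem Fx_inv (A : grp m K) (d : ℕ) (h : Fx d (mat A)) : Fx d (mat A⁻¹) := by
  have h1 : mat A * mat A⁻¹ = 1 := by rw [← mat_mul, mul_inv_cancel, mat_one]
  have hb : (mat A).BlockTriangular (fun i => if (i : ℕ) < d then 0 else 1) := by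
    intro i j hij
    beta_reduce at hij
    by_cases hi : (i : ℕ) < d
    · rw [if_pos hi] at hij
      exact absurd hij (Nat.not_lt_zero _)
    · by_cases hj : (j : ℕ) < d
      · exact h i j hj (by omega)
      · rw [if_neg hi, if_neg hj] at hij
        exact absurd hij (lt_irrefl _)
  have hinv : (mat A)⁻¹ = mat A⁻¹ := Matrix.inv_eq_right_inv h1
  have hI : Invertible (mat A) := invertibleOfRightInverse _ _ h1
  have hb' := blockTriangular_inv_of_blockTriangular hb
  rw [hinv] at hb'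
  intro k l hl hk
  apply hb'
  beta_reduce
  rw [if_pos hl, if_neg (by omega)]
  exact Nat.zero_lt_one

omit [StarRing K] in
theorem sg_mul_rev (i : Fin (2 * m + 2)) : sg m K i * sg m K i.rev = -1 := by
  unfold sg
  have h2 : (i.rev : ℕ) = 2 * m + 2 - (i + 1) := Fin.val_rev i
  have h3 := i.2
  by_cases h : (i : ℕ) < m + 1
  · rw [if_pos h, if_neg (by omega)]; ring
  · rw [if_neg h, if_pos (by omega)]; ring

/-- The flag is self dual. -/
theorem Fx_rev (A : grp m K) (d : ℕ) (hd : d ≤ 2 * m + 2) (h : Fx d (mat A)) :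
    Fx (2 * m + 2 - d) (mat A) := by
  intro k l hl hk
  have h2 : (k.rev : ℕ) = 2 * m + 2 - (k + 1) := Fin.val_rev k
  have h3 : (l.rev : ℕ) = 2 * m + 2 - (l + 1) := Fin.val_rev l
  have h4 := k.2
  have h5 := l.2
  have h6 := Fx_inv A d h l.rev k.rev (by omega) (by omega)
  rw [mat_inv_apply, Fin.rev_rev, Fin.rev_rev, neg_eq_zero, mul_eq_zero, mul_eq_zero,
    star_eq_zero] at h6
  rcases h6 with (h6 | h6) | h6
  · exact absurd h6 (sg_ne_zero _)
  · exact h6
  · exact absurd h6 (sg_ne_zero _)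

theorem mem_M_iff (a : Fin (m + 1)) (A : grp m K) : A ∈ M m K a ↔ Fx ((a : ℕ) + 1) (mat A) :=
  Iff.rfl

/-- Membership in `P a`, one condition for each node. -/
theorem mem_P_iff' (a : Fin (m + 1)) (A : grp m K) : A ∈ P m K a ↔
    ∀ b : Fin (m + 1), b ≠ a → Fx ((b : ℕ) + 1) (mat A) := by
  unfold P
  rw [Subgroup.mem_iInf]
  constructor
  · intro h b hb
    exact h ⟨b, hb⟩
  · intro h b
    exact h b.1 b.2

theorem mem_B_iff (A : grp m K) : A ∈ B m K ↔ Lin43.UT (mat A) := by
  unfold B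
  rw [Subgroup.mem_iInf]
  constructor
  · intro h i j hij
    have hij' : (j : ℕ) < i := hij
    have h4 := i.2
    by_cases hj : (j : ℕ) < m + 1
    · exact h ⟨j, hj⟩ i j (Nat.lt_succ_self _) hij'
    · have h5 := Fx_rev A (2 * m - j + 1) (by omega) (h ⟨2 * m - j, by omega⟩)
      exact h5 i j (by omega) (by omega)
  · intro h a k l hl hk
    exact h k l (by rw [Fin.lt_def]; omega)

theorem mem_U_iff (A : grp m K) : A ∈ U m K ↔ Lin43.UU (mat A) := Iff.rfl

/-- The elements of `P a` are upper triangular up to the entries `(hi, lo)` and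
`(rev lo, rev hi)`. -/
theorem mem_P_iff (a : Fin (m + 1)) (A : grp m K) : A ∈ P m K a ↔
    ∀ k l : Fin (2 * m + 2), l < k → ¬ (l = lo m a ∧ k = hi m a) →
      ¬ (l = (hi m a).rev ∧ k = (lo m a).rev) → mat A k l = 0 := by
  have ha := a.2
  have hlo : ((lo m a : Fin (2 * m + 2)) : ℕ) = a := rfl
  have hhi : ((hi m a : Fin (2 * m + 2)) : ℕ) = a + 1 := rfl
  have hlr : ((lo m a).rev : ℕ) = 2 * m + 2 - (a + 1) := by rw [Fin.val_rev, hlo]
  have hhr : ((hi m a).rev : ℕ) = 2 * m + 2 - (a + 1 + 1) := by rw [Fin.val_rev, hhi]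
  rw [mem_P_iff']
  constructor
  · intro h k l hlk h1 h2
    rw [Fin.lt_def] at hlk
    have hk := k.2
    have key : ∀ D : ℕ, (l : ℕ) < D → D ≤ (k : ℕ) → D ≠ a + 1 → D ≠ 2 * m + 1 - a →
        mat A k l = 0 := by
      intro D hD1 hD2 hD3 hD4
      by_cases hj : D ≤ m + 1
      · have h5 := h ⟨D - 1, by omega⟩ (by
          intro h6
          have h7 := congrArg Fin.val h6
          dsimp only at h7
          omega)
        exact h5 k l (by show (l : ℕ) < D - 1 + 1; omega) (by show D - 1 + 1 ≤ (k : ℕ); omega)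
      · have h5 := Fx_rev A (2 * m + 1 - D + 1) (by omega) (h ⟨2 * m + 1 - D, by omega⟩ (by
          intro h6
          have h7 := congrArg Fin.val h6
          dsimp only at h7
          omega))
        exact h5 k l (by omega) (by omega)
    rw [Fin.ext_iff, Fin.ext_iff, hlo, hhi] at h1
    rw [Fin.ext_iff, Fin.ext_iff, hlr, hhr] at h2
    by_cases h3 : (l : ℕ) + 1 ≠ a + 1 ∧ (l : ℕ) + 1 ≠ 2 * m + 1 - a
    · exact key (l + 1) (by omega) (by omega) h3.1 h3.2
    · exact key (l + 2) (by omega) (by omega) (by omega) (by omega)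
  · intro h b hb k l hl hk
    have hb' : (b : ℕ) ≠ a := fun h => hb (Fin.ext h)
    have hb2 := b.2
    apply h k l
    · rw [Fin.lt_def]; omega
    · rw [Fin.ext_iff, Fin.ext_iff, hlo, hhi]; omega
    · rw [Fin.ext_iff, Fin.ext_iff, hlr, hhr]; omega

theorem B_le_M (a : Fin (m + 1)) : B m K ≤ M m K a := iInf_le _ a

theorem B_le_P (a : Fin (m + 1)) : B m K ≤ P m K a := le_iInf fun b => B_le_M b.1

theorem P_le_M {a b : Fin (m + 1)} (h : b ≠ a) : P m K a ≤ M m K b :=
  iInf_le (fun b : {b : Fin (m + 1) // b ≠ a} => M m K b) ⟨b, h⟩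

/-- An element of `P a` whose block is upper triangular is in `B`. -/
theorem mem_B_of_P (a : Fin (m + 1)) (A : grp m K) (hA : A ∈ P m K a) :
    mat A (hi m a) (lo m a) = 0 ↔ A ∈ B m K := by
  constructor
  · intro h0
    have ha := a.2
    have hlo : ((lo m a : Fin (2 * m + 2)) : ℕ) = a := rfl
    have hhi : ((hi m a : Fin (2 * m + 2)) : ℕ) = a + 1 := rfl
    have hlr : ((lo m a).rev : ℕ) = 2 * m + 2 - (a + 1) := by rw [Fin.val_rev, hlo]
    have hhr : ((hi m a).rev : ℕ) = 2 * m + 2 - (a + 1 + 1) := by rw [Fin.val_rev, hhi]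
    unfold B
    rw [Subgroup.mem_iInf]
    intro b
    by_cases hb : b = a
    · subst hb
      intro k l hl hk
      by_cases h1 : l = lo m b ∧ k = hi m b
      · rw [h1.1, h1.2]
        exact h0
      · apply (mem_P_iff b A).1 hA k l _ h1
        · rw [Fin.ext_iff, Fin.ext_iff, hlr, hhr]
          rw [Fin.ext_iff, Fin.ext_iff, hlo, hhi] at h1
          omega
        · rw [Fin.lt_def]; omega
    · exact (mem_P_iff' a A).1 hA b hb
  · intro h
    exact (mem_B_iff A).1 h _ _ (by
      rw [Fin.lt_def]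
      exact Nat.lt_succ_self _)

theorem U_le_B : U m K ≤ B m K := fun A hA => (mem_B_iff A).2 hA.1

theorem diag_rel (A : grp m K) (hA : A ∈ B m K) (i : Fin (2 * m + 2)) :
    mat A i i * star (mat A i.rev i.rev) = 1 := by
  have h1 : mat A * mat A⁻¹ = 1 := by rw [← mat_mul, mul_inv_cancel, mat_one]
  have h2 := (mem_B_iff A).1 hA
  have h3 := (mem_B_iff A⁻¹).1 (inv_mem hA)
  have h4 := h2.mul_diag h3 i
  rw [h1, Matrix.one_apply_eq, mat_inv_apply] at h4
  have h5 := sg_mul_rev (K := K) i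
  calc mat A i i * star (mat A i.rev i.rev)
      = mat A i i * -(sg m K i * star (mat A i.rev i.rev) * sg m K i.rev) := by
        linear_combination (mat A i i * star (mat A i.rev i.rev)) * h5
    _ = 1 := h4.symm

theorem diag_ne (A : grp m K) (hA : A ∈ B m K) (i : Fin (2 * m + 2)) : mat A i i ≠ 0 :=
  left_ne_zero_of_mul_eq_one (diag_rel A hA i)

/-- The entry `(m, m+1)` of an element of `U` is in the fixed field. -/
theorem mid_rel (A : grp m K) (hA : A ∈ U m K) :
    star (mat A (lo m (Fin.last m)) (hi m (Fin.last m))) =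
      mat A (lo m (Fin.last m)) (hi m (Fin.last m)) := by
  have h1 : mat A * mat A⁻¹ = 1 := by rw [← mat_mul, mul_inv_cancel, mat_one]
  have h2 : Lin43.UU (mat A) := hA
  have h3 : Lin43.UU (mat A⁻¹) := (U m K).inv_mem hA
  have h4 := h2.superdiag h3 (lo m (Fin.last m)) (hi m (Fin.last m)) rfl
  have hlo : ((lo m (Fin.last m) : Fin (2 * m + 2)) : ℕ) = m := rfl
  have hhi : ((hi m (Fin.last m) : Fin (2 * m + 2)) : ℕ) = m + 1 := rfl
  have h5 : (hi m (Fin.last m)).rev = lo m (Fin.last m) := by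
    rw [Fin.ext_iff, Fin.val_rev, hlo, hhi]; omega
  have h6 : (lo m (Fin.last m)).rev = hi m (Fin.last m) := by
    rw [← h5, Fin.rev_rev]
  have h7 : lo m (Fin.last m) ≠ hi m (Fin.last m) := by
    rw [Ne, Fin.ext_iff, hlo, hhi]; omega
  have h8 : sg m K (lo m (Fin.last m)) = 1 := if_pos (by rw [hlo]; omega)
  rw [h1, Matrix.one_apply_ne h7, mat_inv_apply, h5, h6, h8, one_mul, mul_one] at h4
  exact (add_neg_eq_zero.1 h4.symm).symm

/-- The dual entry of the entry `(a, a+1)`, `a < m`, of an element of `U`. -/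
theorem side_rel (A : grp m K) (hA : A ∈ U m K) (a : Fin m) :
    mat A (hi m a.castSucc).rev (lo m a.castSucc).rev =
      -star (mat A (lo m a.castSucc) (hi m a.castSucc)) := by
  have h1 : mat A * mat A⁻¹ = 1 := by rw [← mat_mul, mul_inv_cancel, mat_one]
  have h2 : Lin43.UU (mat A) := hA
  have h3 : Lin43.UU (mat A⁻¹) := (U m K).inv_mem hA
  have h4 := h2.superdiag h3 (lo m a.castSucc) (hi m a.castSucc) rfl
  have hlo : ((lo m a.castSucc : Fin (2 * m + 2)) : ℕ) = a := rfl
  have hhi : ((hi m a.castSucc : Fin (2 * m + 2)) : ℕ) = a + 1 := rfl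
  have hhr : ((hi m a.castSucc).rev : ℕ) = 2 * m + 2 - (a + 1 + 1) := by rw [Fin.val_rev, hhi]
  have ha := a.2
  have h7 : lo m a.castSucc ≠ hi m a.castSucc := by
    rw [Ne, Fin.ext_iff, hlo, hhi]; omega
  have h8 : sg m K (lo m a.castSucc) = 1 := if_pos (by rw [hlo]; omega)
  have h9 : sg m K (hi m a.castSucc).rev = -1 := if_neg (by rw [hhr]; omega)
  rw [h1, Matrix.one_apply_ne h7, mat_inv_apply, h8, h9, one_mul, mul_neg, mul_one,
    neg_neg] at h4
  have h10 := congrArg star h4
  rw [star_zero, star_add, star_star] at h10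
  exact (neg_eq_of_add_eq_zero_right h10.symm).symm

end SU43
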