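import Pool.Agent.Lib.MP_43150e_al.SU.Lev
import Pool.Agent.Lib.MP_43150e_al.SU.Str

/-! # Counting points of a generator in a subspace and its orthogonal space -/

set_option autoImplicit false

namespace SU43

open Matrix BN43

variable {m : ℕ} {K : Type} [Field K] [StarRing K]

/-- The indices of the subspace spanned by `e_a, f_a, e_2, .., e_m`. -/
def inXs (m : ℕ) (a : Fin (m + 1)) (k : Fin (2 * m + 2)) : Prop :=
  k = ee m a ∨ k = ff m a ∨ (2 ≤ (k : ℕ) ∧ (k : ℕ) ≤ m)

/-- The vector `g e_0` lies in the span of `e_a, f_a, e_2, .., e_m`. -/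
def inX (a : Fin (m + 1)) (g : grp m K) : Prop := ∀ k, ¬ inXs m a k → mat g k (ee m 0) = 0

/-- The left and the right kernel of a square matrix have the same size. -/
theorem pts_card_ker {n : ℕ} {F : Type} [Field F] (A : Matrix (Fin n) (Fin n) F) :
    Nat.card {y : Fin n → F // y ᵥ* A = 0} = Nat.card {c : Fin n → F // A *ᵥ c = 0} := by
  have h1 : Module.finrank F (LinearMap.ker (Aᵀ).mulVecLin) =
      Module.finrank F (LinearMap.ker A.mulVecLin) := by
    have e1 := (Aᵀ).mulVecLin.finrank_range_add_finrank_ker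
    have e2 := A.mulVecLin.finrank_range_add_finrank_ker
    have e3 : Module.finrank F (LinearMap.range (Aᵀ).mulVecLin) =
        Module.finrank F (LinearMap.range A.mulVecLin) := A.rank_transpose
    omega
  have h2 : Nat.card (LinearMap.ker (Aᵀ).mulVecLin) = Nat.card (LinearMap.ker A.mulVecLin) :=
    Nat.card_congr (LinearEquiv.ofFinrankEq _ _ h1).toEquiv
  have h3 : Nat.card {y : Fin n → F // y ᵥ* A = 0} = Nat.card (LinearMap.ker (Aᵀ).mulVecLin) := by
    refine Nat.card_congr (Equiv.subtypeEquivRight fun y => ?_)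
    rw [LinearMap.mem_ker, Matrix.mulVecLin_apply, Matrix.mulVec_transpose]
  have h4 : Nat.card {c : Fin n → F // A *ᵥ c = 0} = Nat.card (LinearMap.ker A.mulVecLin) := by
    refine Nat.card_congr (Equiv.subtypeEquivRight fun y => ?_)
    rw [LinearMap.mem_ker, Matrix.mulVecLin_apply]
  rw [h3, h4, h2]

/-- The columns `ee l` and `ee i` of `t` are orthogonal. -/
theorem pts_orth (t : grp m K) (l i : Fin (m + 1)) :
    ∑ k, star (mat t k (ee m l)) * sg m K k * mat t k.rev (ee m i) = 0 := by
  have h1 : (mat t⁻¹ * mat t) (ff m l) (ee m i) = 0 := by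
    rw [mat_inv_mul, Matrix.one_apply_ne (ee_ne_ff i l).symm]
  rw [Matrix.mul_apply] at h1
  have h2 : ∀ k, mat t⁻¹ (ff m l) k * mat t k (ee m i) =
      star (mat t k.rev (ee m l)) * sg m K k.rev * mat t k (ee m i) := by
    intro k
    rw [mat_inv_apply, sg_ff, show (ff m l).rev = ee m l from Fin.rev_rev _]
    ring
  rw [Finset.sum_congr rfl fun k _ => h2 k] at h1
  rw [← h1]
  refine Fintype.sum_equiv Fin.revPerm _ _ fun k => ?_
  rw [Fin.revPerm_apply, Fin.rev_rev]

/-- `t` is injective on the span of the `e_i`. -/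
theorem pts_inj (t : grp m K) (c c' : Fin (m + 1) → K)
    (h : ∀ k, ∑ i, mat t k (ee m i) * c i = ∑ i, mat t k (ee m i) * c' i) : c = c' := by
  funext j
  have h1 : ∀ d : Fin (m + 1) → K,
      ∑ k, mat t⁻¹ (ee m j) k * ∑ i, mat t k (ee m i) * d i = d j := by
    intro d
    have h2 : ∀ k, mat t⁻¹ (ee m j) k * ∑ i, mat t k (ee m i) * d i =
        ∑ i, mat t⁻¹ (ee m j) k * mat t k (ee m i) * d i := by
      intro k
      rw [Finset.mul_sum]
      exact Finset.sum_congr rfl fun i _ => (mul_assoc _ _ _).symm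
    rw [Finset.sum_congr rfl fun k _ => h2 k, Finset.sum_comm]
    have h3 : ∀ i, ∑ k, mat t⁻¹ (ee m j) k * mat t k (ee m i) * d i =
        (1 : Mat m K) (ee m j) (ee m i) * d i := by
      intro i
      rw [← Finset.sum_mul, ← Matrix.mul_apply, mat_inv_mul]
    rw [Finset.sum_congr rfl fun i _ => h3 i, Finset.sum_eq_single j]
    · rw [Matrix.one_apply_eq, one_mul]
    · intro i _ hi
      rw [Matrix.one_apply_ne (ee_ne (Ne.symm hi)), zero_mul]
    · intro hj
      exact absurd (Finset.mem_univ j) hj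
  rw [← h1 c, ← h1 c']
  exact Finset.sum_congr rfl fun k _ => by rw [h k]

/-- One inequality of `card_int` in general. -/
theorem pts_card_le [Finite K] (t : grp m K) (P Q : Fin (2 * m + 2) → Prop)
    (ι : Fin (m + 1) → Fin (2 * m + 2)) (hinj : Function.Injective ι)
    (hP : ∀ k, P k ↔ ∃ j, ι j = k) (hQ : ∀ k, ¬ Q k ↔ P k.rev) :
    Nat.card {c : Fin (m + 1) → K // ∀ k, ¬ P k → ∑ i, mat t k (ee m i) * c i = 0} ≤
    Nat.card {c : Fin (m + 1) → K // ∀ k, ¬ Q k → ∑ i, mat t k (ee m i) * c i = 0} := by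
  let A : Matrix (Fin (m + 1)) (Fin (m + 1)) K := Matrix.of fun j i => mat t (ι j).rev (ee m i)
  have hR : Nat.card {c : Fin (m + 1) → K // ∀ k, ¬ Q k → ∑ i, mat t k (ee m i) * c i = 0} =
      Nat.card {c : Fin (m + 1) → K // A *ᵥ c = 0} := by
    refine Nat.card_congr (Equiv.subtypeEquivRight fun c => ?_)
    constructor
    · intro h
      funext j
      have h1 : ¬ Q (ι j).rev := by
        rw [hQ, Fin.rev_rev, hP]
        exact ⟨j, rfl⟩
      exact h _ h1
    · intro h k hk
      rw [hQ, hP] at hk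
      obtain ⟨j, hj⟩ := hk
      have h1 := congrFun h j
      have h2 : k = (ι j).rev := by rw [hj, Fin.rev_rev]
      rw [h2]
      exact h1
  rw [hR, ← pts_card_ker A]
  let x : (Fin (m + 1) → K) → Fin (2 * m + 2) → K := fun c k => ∑ i, mat t k (ee m i) * c i
  have key : ∀ c : Fin (m + 1) → K, (∀ k, ¬ P k → x c k = 0) →
      (fun j => star (x c (ι j)) * sg m K (ι j)) ᵥ* A = 0 := by
    intro c hc
    funext i
    have h1 : ∑ k, star (x c k) * sg m K k * mat t k.rev (ee m i) = 0 := by
      have h2 : ∀ k, star (x c k) * sg m K k * mat t k.rev (ee m i) =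
          ∑ l, star (c l) * (star (mat t k (ee m l)) * sg m K k * mat t k.rev (ee m i)) := by
        intro k
        show star (∑ l, mat t k (ee m l) * c l) * sg m K k * mat t k.rev (ee m i) = _
        rw [star_sum, Finset.sum_mul, Finset.sum_mul]
        refine Finset.sum_congr rfl fun l _ => ?_
        rw [star_mul']
        ring
      rw [Finset.sum_congr rfl fun k _ => h2 k, Finset.sum_comm]
      apply Finset.sum_eq_zero
      intro l _
      rw [← Finset.mul_sum, pts_orth, mul_zero]
    have h3 : ∑ j, star (x c (ι j)) * sg m K (ι j) * mat t (ι j).rev (ee m i) =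
        ∑ k, star (x c k) * sg m K k * mat t k.rev (ee m i) := by
      classical
      rw [← Finset.sum_image (s := Finset.univ) (g := ι)
        (f := fun k => star (x c k) * sg m K k * mat t k.rev (ee m i)) (hinj.injOn)]
      apply Finset.sum_subset (Finset.subset_univ _)
      intro k _ hk
      have h4 : ¬ P k := by
        rw [hP]
        rintro ⟨j, hj⟩
        exact hk (Finset.mem_image.2 ⟨j, Finset.mem_univ _, hj⟩)
      rw [hc k h4, star_zero, zero_mul, zero_mul]
    show ∑ j, star (x c (ι j)) * sg m K (ι j) * mat t (ι j).rev (ee m i) = 0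
    rw [h3, h1]
  let f : {c : Fin (m + 1) → K // ∀ k, ¬ P k → ∑ i, mat t k (ee m i) * c i = 0} →
      {y : Fin (m + 1) → K // y ᵥ* A = 0} :=
    fun c => ⟨fun j => star (x c.1 (ι j)) * sg m K (ι j), key c.1 c.2⟩
  apply Nat.card_le_card_of_injective f
  intro c c' h
  apply Subtype.ext
  apply pts_inj t
  intro k
  by_cases hk : P k
  · obtain ⟨j, hj⟩ := (hP k).1 hk
    have h1 : star (x c.1 (ι j)) * sg m K (ι j) = star (x c'.1 (ι j)) * sg m K (ι j) :=
      congrFun (congrArg Subtype.val h) j
    have h2 := mul_right_cancel₀ (sg_ne_zero _) h1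
    have h3 := star_injective h2
    rw [hj] at h3
    exact h3
  · rw [c.2 k hk, c'.2 k hk]

/-- The intersections of `t E_{m+1}` with the subspace and with its orthogonal space have the
same size. -/
theorem card_int [Finite K] (hm : 1 ≤ m) (t : grp m K) :
    Nat.card {c : Fin (m + 1) → K // ∀ k, ¬ inXs m 0 k → ∑ i, mat t k (ee m i) * c i = 0} =
    Nat.card {c : Fin (m + 1) → K // ∀ k, ¬ inXs m ⟨1, by omega⟩ k →
      ∑ i, mat t k (ee m i) * c i = 0} := by
  have hv0 : ((ee m 0 : Fin (2 * m + 2)) : ℕ) = 0 := rfl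
  have hv1 : ((ee m ⟨1, by omega⟩ : Fin (2 * m + 2)) : ℕ) = 1 := rfl
  have hw0 : ((ff m 0 : Fin (2 * m + 2)) : ℕ) = 2 * m + 1 := by
    unfold ff
    rw [Fin.val_rev, hv0]
    omega
  have hw1 : ((ff m ⟨1, by omega⟩ : Fin (2 * m + 2)) : ℕ) = 2 * m := by
    unfold ff
    rw [Fin.val_rev, hv1]
    omega
  have hQ : ∀ k : Fin (2 * m + 2), ¬ inXs m ⟨1, by omega⟩ k ↔ inXs m 0 k.rev := by
    intro k
    unfold inXs
    rw [Fin.ext_iff, Fin.ext_iff, Fin.ext_iff, Fin.ext_iff, Fin.val_rev, hv0, hv1, hw0, hw1]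
    have := k.2
    omega
  have hQ' : ∀ k : Fin (2 * m + 2), ¬ inXs m 0 k ↔ inXs m ⟨1, by omega⟩ k.rev := by
    intro k
    rw [← not_iff_not, hQ, Fin.rev_rev, not_not]
  apply le_antisymm
  · refine pts_card_le t _ _ (fun j => if (j : ℕ) = 1 then ff m 0 else ee m j) ?_ ?_ hQ
    · intro i j hij
      beta_reduce at hij
      apply Fin.ext
      have hi := i.2
      have hj := j.2
      split_ifs at hij with h1 h2 h2
      · omega
      · rw [Fin.ext_iff, hw0] at hij
        have : ((ee m j : Fin (2 * m + 2)) : ℕ) = j := rfl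
        omega
      · rw [Fin.ext_iff, hw0] at hij
        have : ((ee m i : Fin (2 * m + 2)) : ℕ) = i := rfl
        omega
      · rw [Fin.ext_iff] at hij
        exact hij
    · intro k
      unfold inXs
      rw [Fin.ext_iff, Fin.ext_iff, hv0, hw0]
      constructor
      · rintro (h | h | h)
        · exact ⟨0, by
            rw [if_neg (by simp)]
            exact Fin.ext h.symm⟩
        · exact ⟨⟨1, by omega⟩, by
            rw [if_pos rfl]
            exact Fin.ext (by rw [hw0, h])⟩
        · exact ⟨⟨k, by omega⟩, by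
            rw [if_neg (by show ¬ (k : ℕ) = 1; omega)]
            exact Fin.ext rfl⟩
      · rintro ⟨j, hj⟩
        have hj2 := j.2
        split_ifs at hj with h1
        · rw [← hj, hw0]
          omega
        · rw [← hj]
          have : ((ee m j : Fin (2 * m + 2)) : ℕ) = j := rfl
          omega
  · refine pts_card_le t _ _ (fun j => if (j : ℕ) = 0 then ff m ⟨1, by omega⟩ else ee m j)
      ?_ ?_ hQ'
    · intro i j hij
      beta_reduce at hij
      apply Fin.ext
      have hi := i.2
      have hj := j.2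
      split_ifs at hij with h1 h2 h2
      · omega
      · rw [Fin.ext_iff, hw1] at hij
        have : ((ee m j : Fin (2 * m + 2)) : ℕ) = j := rfl
        omega
      · rw [Fin.ext_iff, hw1] at hij
        have : ((ee m i : Fin (2 * m + 2)) : ℕ) = i := rfl
        omega
      · rw [Fin.ext_iff] at hij
        exact hij
    · intro k
      unfold inXs
      rw [Fin.ext_iff, Fin.ext_iff, hv1, hw1]
      constructor
      · rintro (h | h | h)
        · exact ⟨⟨1, by omega⟩, by
            rw [if_neg (by simp)]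
            exact Fin.ext h.symm⟩
        · exact ⟨0, by
            rw [if_pos (by simp)]
            exact Fin.ext (by rw [hw1, h])⟩
        · exact ⟨⟨k, by omega⟩, by
            rw [if_neg (by show ¬ (k : ℕ) = 0; omega)]
            exact Fin.ext rfl⟩
      · rintro ⟨j, hj⟩
        have hj2 := j.2
        split_ifs at hj with h1
        · rw [← hj, hw1]
          omega
        · rw [← hj]
          have : ((ee m j : Fin (2 * m + 2)) : ℕ) = j := rfl
          omega

/-- The matrix of a transvection. -/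
theorem pts_dn (p q : Fin (m + 1)) (hpq : p ≠ q) (a : K) :
    mat (L2 p q hpq (dn2 a)) = (1 + Matrix.single (ee m q) (ee m p) a) *
      (1 + Matrix.single (ff m p) (ff m q) (-star a)) := by
  have h1 : til (dn2 a).1 = !![1, 0; -star a, 1] := by
    ext i j
    fin_cases i <;> fin_cases j <;> simp [til, dn2]
  have h0 : (dn2 a).1 = !![1, 0; a, 1] := rfl
  rw [mat_L2, lev2, h1, h0, b2_lower (ee_ne hpq), b2_lower (ff_ne (Ne.symm hpq))]

theorem pts_dn_mem (p q : Fin (m + 1)) (hpq : p ≠ q) (a : K) :
    L2 p q hpq (dn2 a) ∈ M m K (Fin.last m) := by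
  rw [mem_M_iff, pts_dn]
  intro k l hl hk
  rw [Fin.val_last] at hl hk
  have hkl : k ≠ l := by
    rintro rfl
    omega
  have h1 : (Matrix.single (ee m q) (ee m p) a : Mat m K) k l = 0 := by
    rw [Matrix.single_apply, if_neg]
    rintro ⟨h1, -⟩
    have h2 := congrArg Fin.val h1
    have h3 := q.2
    simp only [ee] at h2
    omega
  have h2 : (Matrix.single (ff m p) (ff m q) (-star a) : Mat m K) k l = 0 := by
    rw [Matrix.single_apply, if_neg]
    rintro ⟨-, h1⟩
    have h2 := congrArg Fin.val h1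
    have h3 := q.2
    simp only [ff, ee, Fin.val_rev] at h2
    omega
  have h3 : (Matrix.single (ee m q) (ee m p) a : Mat m K) *
      Matrix.single (ff m p) (ff m q) (-star a) = 0 :=
    Matrix.single_mul_single_of_ne _ _ _ _ (ee_ne_ff p p) _
  have h4 : (1 + Matrix.single (ee m q) (ee m p) a : Mat m K) *
      (1 + Matrix.single (ff m p) (ff m q) (-star a)) =
      1 + Matrix.single (ee m q) (ee m p) a + Matrix.single (ff m p) (ff m q) (-star a) +
        Matrix.single (ee m q) (ee m p) a * Matrix.single (ff m p) (ff m q) (-star a) := by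
    noncomm_ring
  rw [h4, h3, add_zero, Matrix.add_apply, Matrix.add_apply, Matrix.one_apply_ne hkl, h1, h2,
    zero_add, zero_add]

theorem pts_dn_apply (p q : Fin (m + 1)) (hpq : p ≠ q) (a : K) (H : Mat m K) (i : Fin (m + 1))
    (j : Fin (2 * m + 2)) : (mat (L2 p q hpq (dn2 a)) * H) (ee m i) j =
      H (ee m i) j + if i = q then a * H (ee m p) j else 0 := by
  have h1 : ∀ r, ((1 + Matrix.single (ff m p) (ff m q) (-star a)) * H) (ee m r) j =
      H (ee m r) j := by
    intro r
    rw [Matrix.add_mul, Matrix.one_mul, Matrix.add_apply,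
      Matrix.single_mul_apply_of_ne _ _ _ _ _ (ee_ne_ff r p), add_zero]
  rw [pts_dn, Matrix.mul_assoc, Matrix.add_mul, Matrix.one_mul, Matrix.add_apply, h1]
  by_cases hi : i = q
  · subst hi
    rw [if_pos rfl, Matrix.single_mul_apply_same, h1]
  · rw [if_neg hi, Matrix.single_mul_apply_of_ne _ _ _ _ _ (ee_ne hi)]

/-- The vectors that are the first column of an element of the stabiliser. -/
def PtsR (m : ℕ) (K : Type) [Field K] [StarRing K] (v : Fin (m + 1) → K) : Prop :=
  ∃ h ∈ M m K (Fin.last m), ∀ i, mat h (ee m i) (ee m 0) = v i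

theorem PtsR.step {v : Fin (m + 1) → K} (hv : PtsR m K v) (p q : Fin (m + 1)) (hpq : p ≠ q)
    (a : K) : PtsR m K (Function.update v q (v q + a * v p)) := by
  obtain ⟨h, hh, h1⟩ := hv
  refine ⟨L2 p q hpq (dn2 a) * h, mul_mem (pts_dn_mem p q hpq a) hh, fun i => ?_⟩
  rw [mat_mul, pts_dn_apply, h1, h1]
  by_cases hi : i = q
  · subst hi
    rw [if_pos rfl, Function.update_self]
  · rw [if_neg hi, add_zero, Function.update_of_ne hi]

/-- A vector can be changed at one place if another coordinate is nonzero. -/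
theorem PtsR.change {v : Fin (m + 1) → K} (hv : PtsR m K v) (p q : Fin (m + 1)) (hpq : p ≠ q)
    (hp : v p ≠ 0) (b : K) : PtsR m K (Function.update v q b) := by
  have h1 := hv.step p q hpq ((b - v q) / v p)
  have h2 : v q + (b - v q) / v p * v p = b := by
    rw [div_mul_cancel₀ _ hp]
    ring
  rwa [h2] at h1

theorem PtsR.all (hm : 1 ≤ m) (c : Fin (m + 1) → K) (hc : c ≠ 0) : PtsR m K c := by
  classical
  obtain ⟨p, hp⟩ := Function.ne_iff.1 hc
  have hp' : c p ≠ 0 := hp
  -- a vector with a nonzero coordinate different from `p`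
  have h1 : ∃ v : Fin (m + 1) → K, PtsR m K v ∧ ∃ q, q ≠ p ∧ v q ≠ 0 := by
    have h0 : PtsR m K (fun i => (1 : Mat m K) (ee m i) (ee m 0)) :=
      ⟨1, one_mem _, fun i => by rw [mat_one]⟩
    have h01 : (0 : Fin (m + 1)) ≠ ⟨1, by omega⟩ := by
      intro h
      have h2 := congrArg Fin.val h
      simp at h2
    by_cases hp0 : p = 0
    · refine ⟨_, h0.change 0 ⟨1, by omega⟩ h01 (by
        rw [Matrix.one_apply_eq]
        exact one_ne_zero) 1, ⟨1, by omega⟩, ?_, ?_⟩
      · rw [hp0]
        exact h01.symm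
      · rw [Function.update_self]
        exact one_ne_zero
    · refine ⟨_, h0, 0, Ne.symm hp0, ?_⟩
      rw [Matrix.one_apply_eq]
      exact one_ne_zero
  obtain ⟨v, hv, q, hqp, hq⟩ := h1
  have h2 := hv.change q p hqp hq (c p)
  -- change the other coordinates
  have h3 : ∀ s : Finset (Fin (m + 1)), p ∉ s →
      PtsR m K (fun i => if i ∈ s then c i else Function.update v p (c p) i) := by
    intro s
    induction s using Finset.induction_on with
    | empty =>
      intro _
      simpa using h2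
    | insert r s hr ih =>
      intro hps
      rw [Finset.mem_insert, not_or] at hps
      have h4 := (ih hps.2).change p r hps.1 (by
        rw [if_neg hps.2, Function.update_self]
        exact hp') (c r)
      convert h4 using 1
      funext i
      by_cases hi : i = r
      · subst hi
        rw [if_pos (Finset.mem_insert_self _ _), Function.update_self]
      · rw [Function.update_of_ne hi]
        by_cases his : i ∈ s
        · rw [if_pos (Finset.mem_insert_of_mem his), if_pos his]
        · rw [if_neg his, if_neg]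
          rw [Finset.mem_insert, not_or]
          exact ⟨hi, his⟩
  have h5 := h3 (Finset.univ.erase p) (Finset.notMem_erase _ _)
  convert h5 using 1
  funext i
  by_cases hi : i = p
  · subst hi
    rw [if_neg (Finset.notMem_erase _ _), Function.update_self]
  · rw [if_pos (Finset.mem_erase.2 ⟨hi, Finset.mem_univ _⟩)]

/-- The stabiliser of `E_{m+1}` is transitive on its nonzero vectors. -/
theorem exists_col_M (hm : 1 ≤ m) (c : Fin (m + 1) → K) (hc : c ≠ 0) :
    ∃ h ∈ M m K (Fin.last m), ∀ i, mat h (ee m i) (ee m 0) = c i :=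
  PtsR.all hm c hc

/-- The first column of an element of the stabiliser. -/
def ptsCol (h : M m K (Fin.last m)) : Fin (m + 1) → K := fun i =>
  mat (h : grp m K) (ee m i) (ee m 0)

theorem pts_zero (h : M m K (Fin.last m)) (k : Fin (2 * m + 2)) (hk : m + 1 ≤ (k : ℕ)) :
    mat (h : grp m K) k (ee m 0) = 0 :=
  h.2 k (ee m 0) (Nat.succ_pos _) hk

theorem pts_mul_apply (t : grp m K) (h : M m K (Fin.last m)) (k : Fin (2 * m + 2)) :
    mat (t * (h : grp m K)) k (ee m 0) = ∑ i, mat t k (ee m i) * ptsCol h i := by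
  rw [mat_mul, Matrix.mul_apply]
  have hinj : Function.Injective (ee m) := fun i j hij => by
    by_contra hne
    exact ee_ne hne hij
  classical
  have h1 : ∑ i, mat t k (ee m i) * ptsCol h i =
      ∑ l ∈ Finset.univ.image (ee m), mat t k l * mat (h : grp m K) l (ee m 0) :=
    (Finset.sum_image (f := fun l => mat t k l * mat (h : grp m K) l (ee m 0)) hinj.injOn).symm
  rw [h1]
  symm
  apply Finset.sum_subset (Finset.subset_univ _)
  intro l _ hl
  rw [pts_zero h l, mul_zero]
  by_contra hcon
  apply hl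
  exact Finset.mem_image.2 ⟨⟨l, by omega⟩, Finset.mem_univ _, Fin.ext rfl⟩

theorem pts_col_mul (g h : M m K (Fin.last m)) :
    ptsCol (g * h) = fun j => ∑ i, mat (g : grp m K) (ee m j) (ee m i) * ptsCol h i := by
  funext j
  exact pts_mul_apply (g : grp m K) h (ee m j)

theorem pts_col_ne (h : M m K (Fin.last m)) : ptsCol h ≠ 0 := by
  intro h0
  have h1 : (mat (h : grp m K)⁻¹ * mat (h : grp m K)) (ee m 0) (ee m 0) = 1 := by
    rw [mat_inv_mul, Matrix.one_apply_eq]
  rw [← mat_mul, pts_mul_apply] at h1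
  rw [h0] at h1
  simp at h1

theorem pts_card_fib [Finite K] (hm : 1 ≤ m) (S : (Fin (m + 1) → K) → Prop) :
    Nat.card {h : M m K (Fin.last m) // S (ptsCol h)} =
    Nat.card {c : Fin (m + 1) → K // S c ∧ c ≠ 0} *
      Nat.card {h : M m K (Fin.last m) // ptsCol h = ptsCol 1} := by
  have hg : ∀ c : Fin (m + 1) → K, ∃ g : M m K (Fin.last m), c ≠ 0 → ptsCol g = c := by
    intro c
    by_cases hc : c = 0
    · exact ⟨1, fun h => absurd hc h⟩
    · obtain ⟨h, hh, h1⟩ := exists_col_M hm c hc
      exact ⟨⟨h, hh⟩, fun _ => funext h1⟩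
  choose g hg using hg
  have hcol : ∀ x h h' : M m K (Fin.last m), ptsCol h = ptsCol h' →
      ptsCol (x * h) = ptsCol (x * h') := by
    intro x h h' hh
    rw [pts_col_mul, pts_col_mul, hh]
  rw [← Nat.card_prod]
  refine Nat.card_congr
    { toFun := fun h => (⟨ptsCol h.1, h.2, pts_col_ne h.1⟩, ⟨(g (ptsCol h.1))⁻¹ * h.1, ?_⟩)
      invFun := fun x => ⟨g x.1.1 * x.2.1, ?_⟩
      left_inv := ?_
      right_inv := ?_ }
  · rw [hcol _ h.1 (g (ptsCol h.1)) (hg _ (pts_col_ne h.1)).symm, inv_mul_cancel]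
  · rw [hcol _ x.2.1 1 x.2.2, mul_one, hg _ x.1.2.2]
    exact x.1.2.1
  · intro h
    apply Subtype.ext
    show g (ptsCol h.1) * ((g (ptsCol h.1))⁻¹ * h.1) = h.1
    rw [mul_inv_cancel_left]
  · rintro ⟨⟨c, hc, hc0⟩, ⟨h, hh⟩⟩
    have h1 : ptsCol (g c * h) = c := by
      rw [hcol _ h 1 hh, mul_one, hg _ hc0]
    apply Prod.ext
    · apply Subtype.ext
      exact h1
    · apply Subtype.ext
      show (g (ptsCol (g c * h)))⁻¹ * (g c * h) = h
      rw [h1, inv_mul_cancel_left]

omit [StarRing K] in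
theorem pts_card_zero [Finite K] (S : (Fin (m + 1) → K) → Prop) (h0 : S 0) :
    Nat.card {c : Fin (m + 1) → K // S c ∧ c ≠ 0} + 1 = Nat.card {c : Fin (m + 1) → K // S c} := by
  have h1 := Set.ncard_sdiff_singleton_add_one (s := {c | S c}) (a := 0) h0 (Set.toFinite _)
  rw [← Nat.card_coe_set_eq, ← Nat.card_coe_set_eq] at h1
  exact h1

theorem card_pts [Finite K] (hm : 1 ≤ m) (t : grp m K) :
    Nat.card {h : M m K (Fin.last m) // inX 0 (t * (h : grp m K))} =
    Nat.card {h : M m K (Fin.last m) // inX ⟨1, by omega⟩ (t * (h : grp m K))} := by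
  have h1 : ∀ a : Fin (m + 1), Nat.card {h : M m K (Fin.last m) // inX a (t * (h : grp m K))} =
      Nat.card {h : M m K (Fin.last m) //
        (fun c : Fin (m + 1) → K => ∀ k, ¬ inXs m a k → ∑ i, mat t k (ee m i) * c i = 0)
          (ptsCol h)} := by
    intro a
    refine Nat.card_congr (Equiv.subtypeEquivRight fun h => ?_)
    unfold inX
    refine forall_congr' fun k => ?_
    rw [pts_mul_apply]
  have h2 : ∀ a : Fin (m + 1), Nat.card {c : Fin (m + 1) → K //
      (∀ k, ¬ inXs m a k → ∑ i, mat t k (ee m i) * c i = 0) ∧ c ≠ 0} + 1 =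
      Nat.card {c : Fin (m + 1) → K // ∀ k, ¬ inXs m a k → ∑ i, mat t k (ee m i) * c i = 0} :=
    fun a => pts_card_zero (fun c : Fin (m + 1) → K => ∀ k, ¬ inXs m a k →
      ∑ i, mat t k (ee m i) * c i = 0) (fun k _ => by simp)
  have h3 := h2 0
  have h4 := h2 ⟨1, by omega⟩
  have h5 := card_int hm t
  rw [h1, h1,
    pts_card_fib hm (fun c : Fin (m + 1) → K => ∀ k, ¬ inXs m 0 k →
      ∑ i, mat t k (ee m i) * c i = 0),
    pts_card_fib hm (fun c : Fin (m + 1) → K => ∀ k, ¬ inXs m ⟨1, by omega⟩ k →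
      ∑ i, mat t k (ee m i) * c i = 0)]
  congr 1
  omega

end SU43
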