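import Pool.Agent.Lib.MP_43150e_al.SU.Setup
import Pool.Agent.Lib.MP_43150e_al.SU.Van
import Pool.Agent.Lib.MP_43150e_al.SU.Pts

/-! # The certificate for the isotropic points -/

set_option autoImplicit false

namespace SU43

open Matrix BN43 Spr43

variable {m : ℕ} {K : Type} [Field K] [StarRing K]

/-- `inX` depends only on the image of the point `e_0`. -/
theorem inX_mul (a : Fin (m + 1)) (g l : grp m K) (hl : l ∈ M m K 0) :
    inX a (g * l) ↔ inX a g := by
  have key : ∀ (g l : grp m K), l ∈ M m K 0 → ∀ k, mat (g * l) k (ee m 0) =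
      mat g k (ee m 0) * mat l (ee m 0) (ee m 0) := by
    intro g l hl k
    rw [mat_mul, Matrix.mul_apply, Finset.sum_eq_single (ee m 0)]
    · intro j _ hj
      have h1 : mat l j (ee m 0) = 0 := by
        apply hl
        · show (0 : ℕ) < 0 + 1
          exact Nat.zero_lt_one
        · show 0 + 1 ≤ (j : ℕ)
          by_contra hc
          apply hj
          apply Fin.ext
          show (j : ℕ) = 0
          omega
      rw [h1, mul_zero]
    · intro h
      exact absurd (Finset.mem_univ _) h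
  constructor
  · intro h k hk
    have h1 := h k hk
    rw [key g l hl] at h1
    have h2 := key (g * l) l⁻¹ (inv_mem hl) k
    rw [mul_inv_cancel_right] at h2
    rw [h2, key g l hl, h1, zero_mul]
  · intro h k hk
    rw [key g l hl, h k hk, zero_mul]

theorem inX_one_zero : inX (0 : Fin (m + 1)) (1 : grp m K) := by
  intro k hk
  have h1 : k ≠ ee m 0 := fun h => hk (Or.inl h)
  rw [mat_one, Matrix.one_apply_ne h1]

theorem not_inX_one (hm : 1 ≤ m) : ¬ inX (⟨1, by omega⟩ : Fin (m + 1)) (1 : grp m K) := by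
  intro h
  have h1 := h (ee m 0) (by
    rintro (h2 | h2 | h2)
    · have h3 := congrArg Fin.val h2
      simp [ee] at h3
    · have h3 := congrArg Fin.val h2
      unfold ff at h3
      rw [Fin.val_rev] at h3
      simp only [ee] at h3
      omega
    · have h3 : 2 ≤ 0 := h2.1
      omega)
  rw [mat_one, Matrix.one_apply_eq] at h1
  exact one_ne_zero h1

/-- The number of the elements of a finite type with a property as a sum. -/
theorem card_eq_finsum {α : Type*} [Finite α] (q : α → Prop) [DecidablePred q] :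
    ∑ᶠ a, (if q a then 1 else 0) = Nat.card {a // q a} := by
  have := Fintype.ofFinite α
  rw [finsum_eq_sum_of_fintype, Nat.card_eq_fintype_card, Fintype.card_subtype,
    Finset.sum_boole]
  rfl

theorem pts_adm [Finite K] {p : ℕ} [Fact p.Prime] [CharP K p] {hm : 1 ≤ m}
    {hq : 59 < Nat.card (K0 K)} {Γ Ω : Type*} [Group Γ] [MulAction Γ Ω]
    {j : grp m K ⧸ Subgroup.center (grp m K) →* Γ} {x : Ω}
    {β : (grp m K ⧸ Subgroup.center (grp m K)) ≃* (grp m K ⧸ Subgroup.center (grp m K))}
    {t : grp m K} {σ : Equiv.Perm (Option (Fin m))}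
    (h : (pre m K p hm hq).Adm j x β t σ)
    (h0 : ¬ P m K 0 ≤ stG j x) (h1 : ∀ a : Fin (m + 1), a ≠ 0 → P m K a ≤ stG j x)
    (y : grp m K) : β (pj (grp m K) y) ∈ (M m K (Fin.last m)).map (pj (grp m K)) ↔
      t⁻¹ * y * t ∈ M m K (Fin.last m) := by
  have hlast : (Fin.last m : Fin (m + 1)) ≠ 0 := by
    intro h
    have h2 := congrArg Fin.val h
    simp at h2
    omega
  have h2 := adm_max h none y
  have h3 := adm_ends h none (Or.inr rfl)
  have h4 : nd (σ none) = Fin.last m := by
    rcases h3 with h3 | h3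
    · exfalso
      have h5 : P m K (nd none) ≤ stG j x ↔ P m K (nd (σ none)) ≤ stG j x := h.hL none
      rw [h3] at h5
      exact h0 (h5.1 (h1 _ hlast))
    · exact h3
  rw [h4] at h2
  exact h2

theorem pts_cert [Finite K] (p : ℕ) [Fact p.Prime] [CharP K p] (hm : 1 ≤ m)
    (hq : 59 < Nat.card (K0 K)) {Γ Ω : Type*} [Group Γ] [Finite Γ] [MulAction Γ Ω] [Fintype Ω]
    [DecidableEq Ω] (j : grp m K ⧸ Subgroup.center (grp m K) →* Γ)
    (hj : ∀ g : Γ, ∃ β : (grp m K ⧸ Subgroup.center (grp m K)) ≃*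
      (grp m K ⧸ Subgroup.center (grp m K)), ∀ y, j (β y) = g * j y * g⁻¹)
    (htr : ∀ x y : Ω, ∃ t, j t • x = y) (x : Ω)
    (hB : ∀ b ∈ B m K, j (pj (grp m K) b) • x = x)
    (h0 : ¬ P m K 0 ≤ stG j x) (h1 : ∀ a : Fin (m + 1), a ≠ 0 → P m K a ≤ stG j x) :
    ¬ IsSpreading Γ Ω := by
  classical
  have hnd0 : (nd (some ⟨0, by omega⟩) : Fin (m + 1)) = 0 := rfl
  have hst : stG j x ≤ M m K 0 := by
    have h2 := st_le_M j x hB (some ⟨0, by omega⟩)
    rw [hnd0] at h2
    exact h2 h0
  refine (pre m K p hm hq).critW j hj htr x hB (M m K (Fin.last m))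
    (Z_le_B.trans (B_le_M _)) ?_ ?_
    (fun g => (1 + if inX 0 g then 1 else 0) - if inX ⟨1, by omega⟩ g then 1 else 0) ?_ ?_ ?_
  · intro β t σ hadm y
    exact pts_adm hadm h0 h1 y
  · exact ⟨L1 0 wl, fun h hh hc => nop' h hh (hst hc)⟩
  · intro g l hl
    have h2 := hst hl
    beta_reduce
    simp only [inX_mul _ g l h2]
  · refine ⟨1, ?_⟩
    beta_reduce
    rw [if_pos inX_one_zero, if_neg (not_inX_one hm)]
    norm_num
  · intro t
    have h2 := card_pts hm t
    rw [← card_eq_finsum, ← card_eq_finsum] at h2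
    have : Fintype (M m K (Fin.last m)) := Fintype.ofFinite _
    rw [finsum_eq_sum_of_fintype, finsum_eq_sum_of_fintype] at h2
    rw [finsum_eq_sum_of_fintype, Nat.card_eq_fintype_card]
    have h3 : ∑ h : M m K (Fin.last m), (((1 + if inX 0 (t * (h : grp m K)) then 1 else 0) -
        if inX ⟨1, by omega⟩ (t * (h : grp m K)) then 1 else 0) +
        if inX ⟨1, by omega⟩ (t * (h : grp m K)) then 1 else 0) =
        ∑ h : M m K (Fin.last m), (1 + if inX 0 (t * (h : grp m K)) then 1 else 0) := by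
      apply Finset.sum_congr rfl
      intro h _
      split_ifs <;> rfl
    rw [Finset.sum_add_distrib, Finset.sum_add_distrib, h2, Finset.sum_const,
      Finset.card_univ, smul_eq_mul, mul_one] at h3
    exact Nat.add_right_cancel h3

end SU43
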