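import Pool.Agent.Lib.MP_43150e_al.SU.Lev
import Pool.Agent.Lib.MP_43150e_al.SU.Str

/-! # A regular spread of totally isotropic lines of the symplectic space of dimension four -/

set_option autoImplicit false

namespace SU43

open Matrix BN43

variable {K : Type} [Field K] [StarRing K]

/-- The lines of the spread. -/
def sline (b c : K) : Option (K × K) → (Fin (2 * 1 + 2) → K) → Prop
  | none, v => v 2 = 0 ∧ v 3 = 0
  | some (x, z), v => v 0 = x * v 2 + (b * x + c * z) * v 3 ∧ v 1 = z * v 2 + x * v 3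

theorem fin4 (i : Fin (2 * 1 + 2)) : i = 0 ∨ i = 1 ∨ i = 2 ∨ i = 3 := by
  revert i
  decide

omit [StarRing K] in
/-- Every nonzero vector is on exactly one line of the spread. -/
theorem exists_sline' (b c : K) (hbc : ∀ x : K, x * x - b * x - c ≠ 0)
    (v : Fin (2 * 1 + 2) → K) (hv : v ≠ 0) : ∃! o, sline b c o v := by
  by_cases h : v 2 = 0 ∧ v 3 = 0
  · refine ⟨none, h, ?_⟩
    rintro (_ | ⟨x, z⟩) ho
    · rfl
    · exfalso
      apply hv
      obtain ⟨h0, h1⟩ := ho
      rw [h.1, h.2, mul_zero, mul_zero, add_zero] at h0 h1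
      funext i
      rcases fin4 i with rfl | rfl | rfl | rfl
      · exact h0
      · exact h1
      · exact h.1
      · exact h.2
  · have hD : v 2 * v 2 + b * v 2 * v 3 - c * v 3 * v 3 ≠ 0 := by
      by_cases h3 : v 3 = 0
      · have h2 : v 2 ≠ 0 := fun h2 => h ⟨h2, h3⟩
        rw [h3]
        simpa using h2
      · intro h4
        apply hbc (-(v 2 / v 3))
        have h5 : (v 2 * v 2 + b * v 2 * v 3 - c * v 3 * v 3) / (v 3 * v 3) = 0 := by
          rw [h4, zero_div]
        rw [← h5]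
        field_simp
        ring
    obtain ⟨D, hDe⟩ : ∃ D, D = v 2 * v 2 + b * v 2 * v 3 - c * v 3 * v 3 := ⟨_, rfl⟩
    rw [← hDe] at hD
    refine ⟨some ((v 0 * v 2 - c * v 3 * v 1) / D, ((v 2 + b * v 3) * v 1 - v 3 * v 0) / D),
      ⟨?_, ?_⟩, ?_⟩
    · field_simp
      rw [hDe]
      ring
    · field_simp
      rw [hDe]
      ring
    · rintro (_ | ⟨x, z⟩) ho
      · exact absurd ho h
      · obtain ⟨h0, h1⟩ := ho
        congr 1
        refine Prod.ext ?_ ?_
        · rw [eq_div_iff hD, hDe]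
          linear_combination (-v 2) * h0 + c * v 3 * h1
        · rw [eq_div_iff hD, hDe]
          linear_combination v 3 * h0 - (v 2 + b * v 3) * h1

/-- Every nonzero vector is on exactly one line of the spread. -/
theorem exists_sline (b c : K) (hbc : ∀ x : K, x * x - b * x - c ≠ 0)
    (v : Fin (2 * 1 + 2) → K) (hv : v ≠ 0) : ∃! o, sline b c o v :=
  exists_sline' b c hbc v hv

/-- There are irreducible polynomials of degree two over finite fields. -/
theorem exists_irr [Finite K] : ∃ b c : K, ∀ x : K, x * x - b * x - c ≠ 0 := by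
  have h1 : ¬ Function.Surjective (fun x : K => x * x - x) := by
    intro h
    have h2 := Finite.injective_iff_surjective.2 h
    have h3 : (0 : K) = 1 := h2 (by simp)
    exact zero_ne_one h3
  simp only [Function.Surjective, not_forall, not_exists] at h1
  obtain ⟨c, hc⟩ := h1
  refine ⟨1, c, fun x hx => hc x ?_⟩
  rw [one_mul, sub_eq_zero] at hx
  exact hx

/-- `g E_2` is a line of the spread. -/
def inS (b c : K) (g : grp 1 K) : Prop :=
  ∃ o, sline b c o (fun k => mat g k 0) ∧ sline b c o (fun k => mat g k 1)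

omit [StarRing K] in
theorem sline_lin (b c : K) (o : Option (K × K)) {v w : Fin (2 * 1 + 2) → K} (x y : K)
    (hv : sline b c o v) (hw : sline b c o w) : sline b c o (fun k => v k * x + w k * y) := by
  rcases o with _ | ⟨p, r⟩
  · obtain ⟨h1, h2⟩ := hv
    obtain ⟨h3, h4⟩ := hw
    refine ⟨?_, ?_⟩
    · show v 2 * x + w 2 * y = 0
      rw [h1, h3]
      ring
    · show v 3 * x + w 3 * y = 0
      rw [h2, h4]
      ring
  · obtain ⟨h1, h2⟩ := hv
    obtain ⟨h3, h4⟩ := hw
    refine ⟨?_, ?_⟩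
    · show v 0 * x + w 0 * y = p * (v 2 * x + w 2 * y) + (b * p + c * r) * (v 3 * x + w 3 * y)
      rw [h1, h3]
      ring
    · show v 1 * x + w 1 * y = r * (v 2 * x + w 2 * y) + p * (v 3 * x + w 3 * y)
      rw [h2, h4]
      ring

theorem mul_apply4 (A B : Mat 1 K) (k l : Fin (2 * 1 + 2)) :
    (A * B) k l = A k 0 * B 0 l + A k 1 * B 1 l + A k 2 * B 2 l + A k 3 * B 3 l := by
  rw [Matrix.mul_apply]
  exact Fin.sum_univ_four _

theorem inS_mul (b c : K) (g h : grp 1 K) (hh : h ∈ M 1 K (Fin.last 1)) (hg : inS b c g) :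
    inS b c (g * h) := by
  have key : ∀ l : Fin (2 * 1 + 2), (l : ℕ) < 2 →
      (fun k => mat (g * h) k l) = fun k => mat g k 0 * mat h 0 l + mat g k 1 * mat h 1 l := by
    intro l hl
    funext k
    rw [mat_mul, mul_apply4, hh 2 l hl (le_refl 2), hh 3 l hl (show 2 ≤ 3 by omega)]
    ring
  obtain ⟨o, h0, h1⟩ := hg
  refine ⟨o, ?_, ?_⟩
  · rw [key 0 (by decide)]
    exact sline_lin b c o _ _ h0 h1
  · rw [key 1 (by decide)]
    exact sline_lin b c o _ _ h0 h1

/-- The number of vectors of a line. -/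
theorem card_sline [Finite K] (b c : K) (o : Option (K × K)) :
    Nat.card {w : Fin (2 * 1 + 2) → K // sline b c o w} = Nat.card K * Nat.card K := by
  rw [← Nat.card_prod]
  rcases o with _ | ⟨x, z⟩
  · exact Nat.card_congr
      { toFun := fun w => (w.1 0, w.1 1)
        invFun := fun a => ⟨![a.1, a.2, 0, 0], rfl, rfl⟩
        left_inv := by
          rintro ⟨w, h2, h3⟩
          apply Subtype.ext
          funext i
          rcases fin4 i with rfl | rfl | rfl | rfl
          · rfl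
          · rfl
          · exact h2.symm
          · exact h3.symm
        right_inv := fun a => rfl }
  · exact Nat.card_congr
      { toFun := fun w => (w.1 2, w.1 3)
        invFun := fun a =>
          ⟨![x * a.1 + (b * x + c * z) * a.2, z * a.1 + x * a.2, a.1, a.2], rfl, rfl⟩
        left_inv := by
          rintro ⟨w, h0, h1⟩
          apply Subtype.ext
          funext i
          rcases fin4 i with rfl | rfl | rfl | rfl
          · exact h0.symm
          · exact h1.symm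
          · rfl
          · rfl
        right_inv := fun a => rfl }

/-- The lines of the spread are totally isotropic. -/
theorem sline_iso (b c : K) (o : Option (K × K)) {u w : Fin (2 * 1 + 2) → K}
    (hu : sline b c o u) (hw : sline b c o w) :
    u 0 * w 3 + u 1 * w 2 - u 2 * w 1 - u 3 * w 0 = 0 := by
  rcases o with _ | ⟨x, z⟩
  · rw [hu.1, hu.2, hw.1, hw.2]
    ring
  · rw [hu.1, hu.2, hw.1, hw.2]
    ring

/-- The span of the columns `1` and `2` in the line. -/
def lpr (b c : K) (t : grp 1 K) (o : Option (K × K)) (y : Fin 2 → K) : Prop :=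
  sline b c o (fun k => mat t k 1 * y 0 + mat t k 2 * y 1)

theorem mulVec4 (A : Mat 1 K) (w : Fin (2 * 1 + 2) → K) (k : Fin (2 * 1 + 2)) :
    (A *ᵥ w) k = A k 0 * w 0 + A k 1 * w 1 + A k 2 * w 2 + A k 3 * w 3 := by
  unfold Matrix.mulVec dotProduct
  exact Fin.sum_univ_four _

theorem inv3 (hst : ∀ c : K, star c = c) (t : grp 1 K) (w : Fin (2 * 1 + 2) → K) :
    (mat t⁻¹ *ᵥ w) 3 = mat t 0 0 * w 3 + mat t 1 0 * w 2 - mat t 2 0 * w 1 - mat t 3 0 * w 0 := by
  rw [mulVec4, mat_inv_apply, mat_inv_apply, mat_inv_apply, mat_inv_apply, hst, hst, hst, hst]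
  have r0 : Fin.rev (0 : Fin (2 * 1 + 2)) = 3 := rfl
  have r1 : Fin.rev (1 : Fin (2 * 1 + 2)) = 2 := rfl
  have r2 : Fin.rev (2 : Fin (2 * 1 + 2)) = 1 := rfl
  have r3 : Fin.rev (3 : Fin (2 * 1 + 2)) = 0 := rfl
  have s0 : sg 1 K 0 = 1 := if_pos (by decide)
  have s1 : sg 1 K 1 = 1 := if_pos (by decide)
  have s2 : sg 1 K 2 = -1 := if_neg (by decide)
  have s3 : sg 1 K 3 = -1 := if_neg (by decide)
  rw [r0, r1, r2, r3, s0, s1, s2, s3]
  ring

theorem card_lpr [Finite K] (hst : ∀ c : K, star c = c) (b c : K) (t : grp 1 K)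
    (o : Option (K × K)) (ho : sline b c o (fun k => mat t k 0)) :
    Nat.card {y : Fin 2 → K // lpr b c t o y} = Nat.card K := by
  have hmm : mat t * mat t⁻¹ = 1 := by rw [← mat_mul, mul_inv_cancel, mat_one]
  have e : {w : Fin (2 * 1 + 2) → K // sline b c o w} ≃ K × {y : Fin 2 → K // lpr b c t o y} :=
    { toFun := fun w => ((mat t⁻¹ *ᵥ w.1) 0, ⟨![(mat t⁻¹ *ᵥ w.1) 1, (mat t⁻¹ *ᵥ w.1) 2], by
        have h1 := sline_lin b c o 1 (-(mat t⁻¹ *ᵥ w.1) 0) w.2 ho
        have h2 : (fun k => w.1 k * 1 + mat t k 0 * -(mat t⁻¹ *ᵥ w.1) 0) =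
            fun k => mat t k 1 * (mat t⁻¹ *ᵥ w.1) 1 + mat t k 2 * (mat t⁻¹ *ᵥ w.1) 2 := by
          funext k
          have h3 : w.1 k = (mat t *ᵥ (mat t⁻¹ *ᵥ w.1)) k := by
            rw [Matrix.mulVec_mulVec, hmm, Matrix.one_mulVec]
          have h4 : (mat t⁻¹ *ᵥ w.1) 3 = 0 := by
            rw [inv3 hst]
            exact sline_iso b c o ho w.2
          rw [mulVec4 (mat t), h4] at h3
          rw [h3]
          ring
        rw [h2] at h1
        exact h1⟩)
      invFun := fun a => ⟨fun k => (mat t k 1 * a.2.1 0 + mat t k 2 * a.2.1 1) * 1 +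
        mat t k 0 * a.1, sline_lin b c o _ _ a.2.2 ho⟩
      left_inv := by
        rintro ⟨w, hw⟩
        apply Subtype.ext
        funext k
        have h3 : w k = (mat t *ᵥ (mat t⁻¹ *ᵥ w)) k := by
          rw [Matrix.mulVec_mulVec, hmm, Matrix.one_mulVec]
        have h4 : (mat t⁻¹ *ᵥ w) 3 = 0 := by
          rw [inv3 hst]
          exact sline_iso b c o ho hw
        rw [mulVec4 (mat t), h4] at h3
        refine Eq.trans ?_ h3.symm
        show (mat t k 1 * (mat t⁻¹ *ᵥ w) 1 + mat t k 2 * (mat t⁻¹ *ᵥ w) 2) * 1 +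
          mat t k 0 * (mat t⁻¹ *ᵥ w) 0 = _
        ring
      right_inv := by
        rintro ⟨a, y, hy⟩
        have h1 : (fun k => (mat t k 1 * y 0 + mat t k 2 * y 1) * 1 + mat t k 0 * a) =
            mat t *ᵥ ![a, y 0, y 1, 0] := by
          funext k
          rw [mulVec4]
          show _ = mat t k 0 * a + mat t k 1 * y 0 + mat t k 2 * y 1 + mat t k 3 * 0
          ring
        have h2 : mat t⁻¹ *ᵥ (fun k => (mat t k 1 * y 0 + mat t k 2 * y 1) * 1 +
            mat t k 0 * a) = ![a, y 0, y 1, 0] := by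
          rw [h1, Matrix.mulVec_mulVec, mat_inv_mul, Matrix.one_mulVec]
        refine Prod.ext ?_ (Subtype.ext ?_)
        · show (mat t⁻¹ *ᵥ _) 0 = a
          rw [h2]
          rfl
        · show ![(mat t⁻¹ *ᵥ _) 1, (mat t⁻¹ *ᵥ _) 2] = y
          rw [h2]
          funext i
          fin_cases i <;> rfl }
  have h1 := Nat.card_congr e
  rw [card_sline, Nat.card_prod] at h1
  exact (Nat.eq_of_mul_eq_mul_left Nat.card_pos h1).symm

/-- The elements which act on `e_1, f_1` only. -/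
def RR (hst : ∀ c : K, star c = c) : SpecialLinearGroup (Fin 2) K →* grp 1 K :=
  MonoidHom.mk' (fun s => ⟨⟨lev1 (Fin.last 1) s.1, lev1_det _ s.1 s.2⟩,
    lev1_pres _ s.1 s.2 (fun _ _ => hst _)⟩)
    (fun s t => Subtype.ext (Subtype.ext (lev1_mul _ s.1 t.1)))

theorem mat_RR (hst : ∀ c : K, star c = c) (s : SpecialLinearGroup (Fin 2) K) :
    mat (RR hst s) = lev1 (Fin.last 1) s.1 := rfl

/-- The entries `(1, 1)` and `(2, 1)`. -/
def fr (h : M 1 K 0) : Fin 2 → K := ![mat (h : grp 1 K) 1 1, mat (h : grp 1 K) 2 1]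

theorem RR_mem (hst : ∀ c : K, star c = c) (s : SpecialLinearGroup (Fin 2) K) :
    RR hst s ∈ M 1 K 0 := by
  intro k l hl hk
  have hl' : l = 0 := by
    apply Fin.ext
    have : (l : ℕ) < 0 + 1 := hl
    show (l : ℕ) = 0
    omega
  subst hl'
  rw [mat_RR]
  rcases fin4 k with rfl | rfl | rfl | rfl
  · exact absurd hk (by decide)
  · rfl
  · rfl
  · rfl

theorem fr_RR (hst : ∀ c : K, star c = c) (s : SpecialLinearGroup (Fin 2) K) (h : M 1 K 0) :
    fr (⟨RR hst s, RR_mem hst s⟩ * h) = s.1 *ᵥ fr h := by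
  have key : ∀ k : Fin (2 * 1 + 2), mat (RR hst s * (h : grp 1 K)) k 1 =
      lev1 (Fin.last 1) s.1 k 0 * mat (h : grp 1 K) 0 1 +
      lev1 (Fin.last 1) s.1 k 1 * mat (h : grp 1 K) 1 1 +
      lev1 (Fin.last 1) s.1 k 2 * mat (h : grp 1 K) 2 1 +
      lev1 (Fin.last 1) s.1 k 3 * mat (h : grp 1 K) 3 1 := by
    intro k
    rw [mat_mul, mul_apply4, mat_RR]
  funext i
  fin_cases i
  · show mat (RR hst s * (h : grp 1 K)) 1 1 = (s.1 *ᵥ fr h) 0
    rw [key]
    show 0 * _ + s.1 0 0 * _ + s.1 0 1 * _ + 0 * _ = _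
    simp [Matrix.mulVec, dotProduct, Fin.sum_univ_two, fr]
  · show mat (RR hst s * (h : grp 1 K)) 2 1 = (s.1 *ᵥ fr h) 1
    rw [key]
    show 0 * _ + s.1 1 0 * _ + s.1 1 1 * _ + 0 * _ = _
    simp [Matrix.mulVec, dotProduct, Fin.sum_univ_two, fr]

theorem fr_ne (h : M 1 K 0) : fr h ≠ 0 := by
  intro h0
  have h1 : mat (h : grp 1 K) 1 1 = 0 := congrFun h0 0
  have h2 : mat (h : grp 1 K) 2 1 = 0 := congrFun h0 1
  have h3 : mat (h : grp 1 K) 3 1 = 0 :=
    Fx_rev (h : grp 1 K) 1 (by omega) h.2 3 1 (by decide) (by decide)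
  have h4 : mat (h : grp 1 K)⁻¹ 1 0 = 0 := (M 1 K 0).inv_mem h.2 1 0 (by decide) (by decide)
  have h5 := congrFun (congrFun (mat_inv_mul (h : grp 1 K)) 1) 1
  rw [mul_apply4, h1, h2, h3, h4, Matrix.one_apply_eq] at h5
  simp at h5

theorem exists_sv (v : Fin 2 → K) (hv : v ≠ 0) :
    ∃ s : SpecialLinearGroup (Fin 2) K, s.1 *ᵥ ![1, 0] = v := by
  by_cases hx : v 0 = 0
  · have hy : v 1 ≠ 0 := by
      intro hy
      apply hv
      funext i
      fin_cases i
      · exact hx
      · exact hy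
    refine ⟨⟨!![v 0, -(v 1)⁻¹; v 1, 0], ?_⟩, ?_⟩
    · rw [Matrix.det_fin_two_of]
      field_simp
      ring
    · funext i
      fin_cases i <;> simp
  · refine ⟨⟨!![v 0, 0; v 1, (v 0)⁻¹], ?_⟩, ?_⟩
    · rw [Matrix.det_fin_two_of, mul_inv_cancel₀ hx, zero_mul, sub_zero]
    · funext i
      fin_cases i <;> simp

theorem fib_card {H V : Type*} [Group H] (f : H → V) (v0 : V) (N : V → Prop) (τ : V → H)
    (hf : ∀ h, N (f h)) (h1 : ∀ v, N v → ∀ h, f h = v0 ↔ f (τ v * h) = v) (L : V → Prop) :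
    Nat.card {h // L (f h)} = Nat.card {v // N v ∧ L v} * Nat.card {h // f h = v0} := by
  rw [← Nat.card_prod]
  exact Nat.card_congr
    { toFun := fun h => (⟨f h, hf h, h.2⟩, ⟨(τ (f h))⁻¹ * h, (h1 (f h) (hf h) _).2 (by
        rw [mul_inv_cancel_left])⟩)
      invFun := fun x => ⟨τ x.1.1 * x.2.1, by
        rw [(h1 x.1.1 x.1.2.1 x.2.1).1 x.2.2]
        exact x.1.2.2⟩
      left_inv := by
        rintro ⟨h, hh⟩
        apply Subtype.ext
        show τ (f h) * ((τ (f h))⁻¹ * h) = h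
        rw [mul_inv_cancel_left]
      right_inv := by
        rintro ⟨⟨v, hv, hL⟩, ⟨k, hk⟩⟩
        have e : f (τ v * k) = v := (h1 v hv k).1 hk
        refine Prod.ext (Subtype.ext e) (Subtype.ext ?_)
        show (τ (f (τ v * k)))⁻¹ * (τ v * k) = k
        rw [e, inv_mul_cancel_left] }

theorem card_ne_add {V : Type*} [Finite V] (L : V → Prop) (v0 : V) (h0 : L v0) :
    Nat.card {v // v ≠ v0 ∧ L v} + 1 = Nat.card {v // L v} := by
  have h1 := Set.ncard_sdiff_singleton_add_one (s := {v | L v}) (a := v0) h0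
  rw [← Nat.card_coe_set_eq, ← Nat.card_coe_set_eq] at h1
  rw [← Nat.card_congr (Equiv.refl {v // L v})]
  refine Eq.trans ?_ h1
  congr 1
  exact Nat.card_congr (Equiv.subtypeEquivRight fun v =>
    ⟨fun h => ⟨h.2, h.1⟩, fun h => ⟨h.2, h.1⟩⟩)

theorem inS_iff (b c : K) (hbc : ∀ x : K, x * x - b * x - c ≠ 0) (t : grp 1 K)
    (o : Option (K × K)) (ho : sline b c o (fun k => mat t k 0))
    (huniq : ∀ o', sline b c o' (fun k => mat t k 0) → o' = o) (h : M 1 K 0) :
    inS b c (t * (h : grp 1 K)) ↔ lpr b c t o (fr h) := by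
  have h1 : mat (h : grp 1 K) 1 0 = 0 := h.2 1 0 (by decide) (by decide)
  have h2 : mat (h : grp 1 K) 2 0 = 0 := h.2 2 0 (by decide) (by decide)
  have h3 : mat (h : grp 1 K) 3 0 = 0 := h.2 3 0 (by decide) (by decide)
  have h4 : mat (h : grp 1 K) 3 1 = 0 :=
    Fx_rev (h : grp 1 K) 1 (by omega) h.2 3 1 (by decide) (by decide)
  have h5 : mat (h : grp 1 K) 0 0 ≠ 0 := by
    intro h0
    have h6 := congrFun (congrFun (mat_inv_mul (h : grp 1 K)) 0) 0
    rw [mul_apply4, h0, h1, h2, h3, Matrix.one_apply_eq] at h6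
    simp at h6
  have c0 : (fun k => mat (t * (h : grp 1 K)) k 0) =
      fun k => mat t k 0 * mat (h : grp 1 K) 0 0 + 0 * 0 := by
    funext k
    rw [mat_mul, mul_apply4, h1, h2, h3]
    ring
  have c1 : (fun k => mat (t * (h : grp 1 K)) k 1) = fun k => (mat t k 1 *
      mat (h : grp 1 K) 1 1 + mat t k 2 * mat (h : grp 1 K) 2 1) * 1 +
      mat t k 0 * mat (h : grp 1 K) 0 1 := by
    funext k
    rw [mat_mul, mul_apply4, h4]
    ring
  constructor
  · rintro ⟨o', ho0, ho1⟩
    have e : o' = o := by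
      apply huniq
      rw [c0] at ho0
      have h6 := sline_lin b c o' (mat (h : grp 1 K) 0 0)⁻¹ 0 ho0 ho0
      refine (congrArg (sline b c o') ?_).mp h6
      funext k
      field_simp
      ring
    subst e
    rw [c1] at ho1
    have h6 := sline_lin b c o' 1 (-mat (h : grp 1 K) 0 1) ho1 ho
    refine (congrArg (sline b c o') ?_).mp h6
    funext k
    show _ = mat t k 1 * mat (h : grp 1 K) 1 1 + mat t k 2 * mat (h : grp 1 K) 2 1
    ring
  · intro hl
    refine ⟨o, ?_, ?_⟩
    · rw [c0]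
      have h6 := sline_lin b c o (mat (h : grp 1 K) 0 0) 0 ho ho
      refine (congrArg (sline b c o) ?_).mp h6
      funext k
      ring
    · rw [c1]
      exact sline_lin b c o _ _ hl ho

/-- Among the lines `t h E_2`, `h` in the stabiliser of `e_0`, one in `q + 1` is in the
spread. -/
theorem card_spread [Finite K] (hst : ∀ c : K, star c = c) (b c : K)
    (hbc : ∀ x : K, x * x - b * x - c ≠ 0) (t : grp 1 K) :
    Nat.card {h : M 1 K 0 // inS b c (t * (h : grp 1 K))} * (Nat.card K + 1) = Nat.card (M 1 K 0) := by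
  have hu : (fun k => mat t k 0) ≠ 0 := by
    intro h0
    have h6 := congrFun (congrFun (mat_inv_mul t) 0) 0
    have h7 : ∀ k, mat t k 0 = 0 := fun k => congrFun h0 k
    rw [mul_apply4, h7, h7, h7, h7, Matrix.one_apply_eq] at h6
    simp at h6
  obtain ⟨o, ho, huniq⟩ := exists_sline b c hbc _ hu
  have hτ : ∀ v : Fin 2 → K, ∃ s : SpecialLinearGroup (Fin 2) K, v ≠ 0 → s.1 *ᵥ ![1, 0] = v := by
    intro v
    by_cases hv : v = 0
    · exact ⟨1, fun h => absurd hv h⟩
    · obtain ⟨s, hs⟩ := exists_sv v hv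
      exact ⟨s, fun _ => hs⟩
  choose s hs using hτ
  have hfib := fib_card (H := M 1 K 0) fr ![1, 0] (fun v => v ≠ 0)
    (fun v => ⟨RR hst (s v), RR_mem hst (s v)⟩) fr_ne (by
      intro v hv h
      rw [fr_RR]
      constructor
      · intro h1
        rw [h1]
        exact hs v hv
      · intro h1
        have h2 := congrArg (fun y => (s v).1.adjugate *ᵥ y) (h1.trans (hs v hv).symm)
        simp only [Matrix.mulVec_mulVec, Matrix.adjugate_mul, (s v).2, one_smul,
          Matrix.one_mulVec] at h2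
        exact h2)
  have h1 := hfib (lpr b c t o)
  have h2 := hfib (fun _ => True)
  have h3 := card_ne_add (lpr b c t o) 0 (by
    have h6 := sline_lin b c o 0 0 ho ho
    refine (congrArg (sline b c o) ?_).mp h6
    funext k
    show _ = mat t k 1 * 0 + mat t k 2 * 0
    ring)
  have h4 := card_ne_add (fun _ : Fin 2 → K => True) 0 trivial
  rw [card_lpr hst b c t o ho] at h3
  have h5 : Nat.card {h : M 1 K 0 // inS b c (t * (h : grp 1 K))} =
      Nat.card {h : M 1 K 0 // lpr b c t o (fr h)} :=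
    Nat.card_congr (Equiv.subtypeEquivRight fun h => inS_iff b c hbc t o ho huniq h)
  have h6 : Nat.card {h : M 1 K 0 // True} = Nat.card (M 1 K 0) :=
    Nat.card_congr (Equiv.subtypeUnivEquiv fun _ => trivial)
  have h7 : Nat.card {v : Fin 2 → K // True} = Nat.card K ^ 2 := by
    rw [Nat.card_congr (Equiv.subtypeUnivEquiv fun _ => trivial), Nat.card_fun]
    simp
  rw [h5, h1, ← h6, h2]
  rw [h7] at h4
  rw [← h3] at h4 ⊢
  have h8 : Nat.card {v : Fin 2 → K // v ≠ 0 ∧ True} =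
      Nat.card {v : Fin 2 → K // v ≠ 0 ∧ lpr b c t o v} *
        (Nat.card {v : Fin 2 → K // v ≠ 0 ∧ lpr b c t o v} + 2) := by
    nlinarith
  rw [h8]
  ring

end SU43
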