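import Pool.Agent.Lib.MP_43150e_al.SU.Setup
import Pool.Agent.Lib.MP_43150e_al.SU.Van
import Pool.Agent.Lib.MP_43150e_al.SU.Spread

/-! # The certificate for the lines of the symplectic generalised quadrangle -/

set_option autoImplicit false

namespace SU43

open Matrix BN43 Spr43

variable {K : Type} [Field K] [StarRing K]

theorem spr_cert [Finite K] (hst : ∀ c : K, star c = c) (p : ℕ) [Fact p.Prime] [CharP K p]
    (hq : 59 < Nat.card (K0 K)) {Γ Ω : Type*} [Group Γ] [Finite Γ] [MulAction Γ Ω] [Fintype Ω]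
    [DecidableEq Ω] (j : grp 1 K ⧸ Subgroup.center (grp 1 K) →* Γ)
    (hj : ∀ g : Γ, ∃ β : (grp 1 K ⧸ Subgroup.center (grp 1 K)) ≃*
      (grp 1 K ⧸ Subgroup.center (grp 1 K)), ∀ y, j (β y) = g * j y * g⁻¹)
    (htr : ∀ x y : Ω, ∃ t, j t • x = y) (x : Ω)
    (hB : ∀ b ∈ B 1 K, j (pj (grp 1 K) b) • x = x)
    (h0 : P 1 K 0 ≤ stG j x) (h1 : ¬ P 1 K (Fin.last 1) ≤ stG j x) :
    ¬ IsSpreading Γ Ω := by
  classical
  obtain ⟨b, c, hbc⟩ := exists_irr (K := K)
  have hst_M : stG j x ≤ M 1 K (Fin.last 1) := st_le_M j x hB none h1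
  have hiff : ∀ g : grp 1 K, ∀ l ∈ stG j x, inS b c (g * l) ↔ inS b c g := by
    intro g l hl
    constructor
    · intro h
      have h2 := inS_mul b c (g * l) l⁻¹ ((M 1 K (Fin.last 1)).inv_mem (hst_M hl)) h
      rwa [mul_inv_cancel_right] at h2
    · intro h
      exact inS_mul b c g l (hst_M hl) h
  refine (pre 1 K p (le_refl 1) hq).critW j hj htr x hB (M 1 K 0)
    (fun z hz => B_le_M 0 (Z_le_B hz)) ?_ ⟨L1 0 wl, fun h hh hm => nop (Fin.last 1) h hh (hst_M hm)⟩
    (fun g => if inS b c g then Nat.card K + 1 else 0) ?_ ⟨1, ?_⟩ ?_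
  · intro β t (σ : Equiv.Perm (Option (Fin 1))) hadm y
    have hσ : σ (some (0 : Fin 1)) = some 0 := by
      have h2 : P 1 K (nd (σ (some (0 : Fin 1)))) ≤ stG j x := (hadm.hL (some (0 : Fin 1))).1 h0
      cases h3 : σ (some (0 : Fin 1)) with
      | none =>
        rw [h3] at h2
        exact absurd h2 h1
      | some a =>
        congr 1
        exact Subsingleton.elim _ _
    have h2 := adm_max hadm (some (0 : Fin 1)) y
    rw [hσ] at h2
    exact h2
  · intro g l hl
    by_cases h : inS b c g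
    · rw [if_pos h, if_pos ((hiff g l hl).2 h)]
    · rw [if_neg h, if_neg (fun h' => h ((hiff g l hl).1 h'))]
  · have hp : 0 < Nat.card K := Nat.card_pos
    split_ifs
    · omega
    · omega
  · intro t
    have : Fintype (M 1 K 0) := Fintype.ofFinite _
    rw [finsum_eq_sum_of_fintype, ← card_spread hst b c hbc t, Finset.sum_ite, Finset.sum_const,
      Finset.sum_const_zero, add_zero, smul_eq_mul,
      Nat.card_eq_fintype_card (α := {h : M 1 K 0 // inS b c (t * (h : grp 1 K))}),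
      Fintype.card_subtype]

end SU43
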