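import Pool.Agent.Lib.MP_43150e_al.BN.Main
import Pool.Agent.Lib.MP_43150e_al.SU.CharC
import Pool.Agent.Lib.MP_43150e_al.SU.PtsC
import Pool.Agent.Lib.MP_43150e_al.SU.SprC

/-! # Theorem SU -/

set_option autoImplicit false

namespace SU43

open Matrix BN43 Spr43 MulAction

variable {m : ℕ} {K : Type} [Field K] [StarRing K]

/-- `k = 1`, `B` fixes a point. -/
theorem one_su [Finite K] (hm : 1 ≤ m) (hq : 59 < Nat.card (K0 K))
    (hst : (∀ c : K, star c = c) ∨ 2 ≤ m)
    {Γ Ω : Type*} [Group Γ] [Finite Γ] [MulAction Γ Ω] [Fintype Ω]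
    [DecidableEq Ω] (j : grp m K ⧸ Subgroup.center (grp m K) →* Γ)
    (hj : ∀ g : Γ, ∃ β : (grp m K ⧸ Subgroup.center (grp m K)) ≃*
      (grp m K ⧸ Subgroup.center (grp m K)), ∀ y, j (β y) = g * j y * g⁻¹)
    (htr : ∀ x y : Ω, ∃ t, j t • x = y) (x : Ω) (hx : ∃ y : Ω, y ≠ x)
    (hB : ∀ b ∈ B m K, j (pj (grp m K) b) • x = x) : ¬ IsSpreading Γ Ω := by
  obtain ⟨p, hp⟩ := CharP.exists K
  have hpp : Fact p.Prime := ⟨CharP.char_is_prime K p⟩
  have hbad : ∃ i : Option (Fin m), ¬ P m K (nd i) ≤ stG j x := by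
    by_contra hcon
    push Not at hcon
    have h1 := pre_gen_P _ hcon
    obtain ⟨y, hy⟩ := hx
    obtain ⟨t, ht⟩ := htr x y
    obtain ⟨g, rfl⟩ := QuotientGroup.mk'_surjective _ t
    have h2 : g ∈ stG j x := by rw [h1]; trivial
    exact hy (ht.symm.trans ((mem_stG j x g).1 h2))
  by_cases hmid : ∃ i : Option (Fin m), ¬ P m K (nd i) ≤ stG j x ∧ 1 ≤ (nd i : ℕ) ∧
      (nd i : ℕ) < m
  · obtain ⟨i, h1, h2, h3⟩ := hmid
    exact char_A p hq j hj htr x hB i h1 h2 h3
  push Not at hmid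
  have hall : ∀ a : Fin (m + 1), a ≠ 0 → a ≠ Fin.last m → P m K a ≤ stG j x := by
    intro a h0 h1
    obtain ⟨i, rfl⟩ := nd_bij.2 a
    by_contra h2
    have h3 := hmid i h2 (Nat.one_le_iff_ne_zero.2 fun h => h0 (Fin.ext h))
    exact h1 (Fin.ext (le_antisymm (Nat.lt_succ_iff.1 (nd i).2) h3))
  by_cases h0 : P m K 0 ≤ stG j x
  · by_cases h1 : P m K (Fin.last m) ≤ stG j x
    · exfalso
      obtain ⟨i, hi⟩ := hbad
      apply hi
      by_cases h2 : nd i = 0
      · rw [h2]; exact h0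
      · by_cases h3 : nd i = Fin.last m
        · rw [h3]; exact h1
        · exact hall _ h2 h3
    · rcases Nat.lt_or_ge 1 m with h2 | h2
      · exact char_C p h2 hq j hj htr x hB h0 h1
      · obtain rfl : m = 1 := le_antisymm h2 hm
        rcases hst with hst | hst
        · exact spr_cert hst p hq j hj htr x hB h0 h1
        · omega
  · by_cases h1 : P m K (Fin.last m) ≤ stG j x
    · refine pts_cert p hm hq j hj htr x hB h0 fun a ha => ?_
      by_cases h2 : a = Fin.last m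
      · rw [h2]; exact h1
      · exact hall a ha h2
    · exact char_B p hm hq j hj htr x hB h0 h1

theorem main_su [Finite K] (hm : 1 ≤ m) (hq : 59 < Nat.card (K0 K))
    (hst : (∀ c : K, star c = c) ∨ 2 ≤ m)
    {Ω : Type*} [Fintype Ω] [DecidableEq Ω] (hΩ : Nontrivial Ω)
    (G : Subgroup (Equiv.Perm Ω)) (htr : IsPretransitive G Ω)
    (L : Subgroup G) [L.Normal] (k : ℕ) (hk : 1 ≤ k)
    (e : L ≃* (Fin k → grp m K ⧸ Subgroup.center (grp m K))) : ¬ IsSpreading G Ω := by
  intro hsp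
  obtain ⟨p, hp⟩ := CharP.exists K
  have hpp : Fact p.Prime := ⟨CharP.char_is_prime K p⟩
  have hsimple : IsSimpleGroup (grp m K ⧸ Subgroup.center (grp m K)) :=
    (pre m K p hm hq).quot_simple
  obtain ⟨hk1, x, hx⟩ := main_bn (pre m K p hm hq).quot (pre m K p hm hq).quot.noncomm hΩ G htr
    hsp L k hk e
  subst hk1
  have hprim : IsPreprimitive G Ω := preprimitive_of_spreading hsp
  let T := grp m K ⧸ Subgroup.center (grp m K)
  obtain ⟨a, b, hab⟩ := (pre m K p hm hq).quot.noncomm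
  have hMne : L ≠ ⊥ := by
    intro hb
    have key : ∀ m : L, (m : G) = 1 := by
      intro m
      have h1 : (m : G) ∈ (⊥ : Subgroup G) := hb ▸ m.2
      exact Subgroup.mem_bot.1 h1
    have h2 : (fun _ : Fin 1 => a) = (fun _ : Fin 1 => (1 : T)) := by
      apply e.symm.injective
      apply Subtype.ext
      rw [key, key]
    have h3 : a = 1 := congrFun h2 0
    exact hab (by rw [h3]; simp)
  have hMtr : IsPretransitive L Ω := by
    have hq : IsQuasiPreprimitive G Ω := inferInstance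
    apply hq.isPretransitive_of_normal
    intro hfix
    apply hMne
    rw [eq_bot_iff]
    intro m hm
    rw [Subgroup.mem_bot]
    apply Subtype.ext
    apply Equiv.ext
    intro x
    have hx : x ∈ fixedPoints L Ω := by rw [hfix]; trivial
    exact hx ⟨m, hm⟩
  let u : (Fin 1 → T) ≃* T := MulEquiv.piUnique (fun _ : Fin 1 => T)
  let e' : L ≃* T := e.trans u
  have htr1 : ∀ x y : Ω, ∃ t : T, (L.subtype.comp e'.symm.toMonoidHom) t • x = y := by
    intro x y
    obtain ⟨m, hm⟩ := exists_smul_eq L x y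
    refine ⟨e' m, ?_⟩
    rw [← hm]
    simp
    rfl
  obtain ⟨y, hy⟩ := exists_ne x
  refine one_su hm hq hst (L.subtype.comp e'.symm.toMonoidHom)
    (fun g => exists_conj_aut L e' g) htr1 x ⟨y, hy⟩ (fun b hb => ?_) hsp
  have h1 := hx (e'.symm (pj (grp m K) b)) (fun i => ?_)
  · simpa using h1
  · have h2 : e (e'.symm (pj (grp m K) b)) = u.symm (pj (grp m K) b) := by
      simp [e']
    rw [h2]
    exact Subgroup.mem_map_of_mem (pj (grp m K)) hb

end SU43
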