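import Pool.Agent.Lib.MP_43150e_al.SU.Inv
import Pool.Agent.Lib.MP_43150e_al.SU.Bru
import Pool.Agent.Lib.MP_43150e_al.SU.LLS

/-! # Overgroups of `B` -/

set_option autoImplicit false

namespace SU43

open Matrix BN43

variable {m : ℕ} {K : Type} [Field K] [StarRing K]

theorem nd_bij : Function.Bijective (nd : Option (Fin m) → Fin (m + 1)) := by
  constructor
  · intro i j h
    cases i with
    | none =>
      cases j with
      | none => rfl
      | some b => exact absurd h.symm (Fin.castSucc_lt_last b).ne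
    | some a =>
      cases j with
      | none => exact absurd h (Fin.castSucc_lt_last a).ne
      | some b => exact congrArg some (Fin.castSucc_injective m h)
  · intro a
    induction a using Fin.lastCases with
    | last => exact ⟨none, rfl⟩
    | cast b => exact ⟨some b, rfl⟩

/-- `P i` is not contained in the maximal parabolic subgroup of the same node. -/
theorem over_not_le (i : Option (Fin m)) : ¬ P m K (nd i) ≤ M m K (nd i) := by
  intro h
  have h1 := h (LL_mem_P i (dn2 (1 : Fl m K i)))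
  have h2 : mat (LL m K i (dn2 1)) (hi m (nd i)) (lo m (nd i)) = 0 :=
    h1 _ _ (Nat.lt_succ_self _) le_rfl
  have h3 : Val (pi m K i) (LL m K i (dn2 1))
      (ProjGenLinGroup.mk (SpecialLinearGroup.toGL (dn2 (1 : Fl m K i)))) := val_LL i (dn2 1)
  obtain ⟨-, c, hc, hb⟩ := (val_iff i _ _).1 h3
  have h4 := congrFun (congrFun hb 1) 0
  have h5 : blk (nd i) (mat (LL m K i (dn2 1))) 1 0 =
      mat (LL m K i (dn2 1)) (hi m (nd i)) (lo m (nd i)) := rfl
  rw [h5, h2] at h4
  have h6 : (c • ((SpecialLinearGroup.toGL (dn2 (1 : Fl m K i)) :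
      GeneralLinearGroup (Fin 2) (Fl m K i)) : Matrix (Fin 2) (Fin 2) (Fl m K i)).map
        (em m K i)) 1 0 = c * em m K i 1 := rfl
  rw [h6, map_one, mul_one] at h4
  exact hc h4.symm

/-- An overgroup of `B` which does not contain `P a` fixes `E_{a+1}`. -/
theorem overgroup (i : Option (Fin m)) (L : Subgroup (grp m K)) (hL : B m K ≤ L) :
    L ≤ M m K (nd i) ↔ ¬ P m K (nd i) ≤ L := by
  constructor
  · intro h h1
    exact over_not_le i (h1.trans h)
  · intro h g hg
    obtain ⟨u, hu, n, hn, u', hu', rfl⟩ := bruhat g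
    have huL : u ∈ L := hL (U_le_B hu)
    have huL' : u' ∈ L := hL (U_le_B hu')
    have hnL : n ∈ L := by
      have h1 : n = u⁻¹ * (u * n * u') * u'⁻¹ := by group
      rw [h1]
      exact L.mul_mem (L.mul_mem (L.inv_mem huL) hg) (L.inv_mem huL')
    have key : n ∈ L → n ∈ M m K (nd i) := by
      refine N_induction (fun n => n ∈ L → n ∈ M m K (nd i)) ?_ ?_ n hn
      · intro n hn _
        exact B_le_M (nd i) hn.1
      · intro j n _ hc ih hnL
        have h1 : ∀ c : Fl m K j, LL m K j (dn2 c) ∈ L := by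
          intro c
          have h2 : LL m K j (dn2 c) = n * (n⁻¹ * LL m K j (dn2 c) * n) * n⁻¹ := by group
          rw [h2]
          exact L.mul_mem (L.mul_mem hnL (hL (U_le_B (hc c)))) (L.inv_mem hnL)
        have h2 : P m K (nd j) ≤ L := P_le_of j L hL h1
        have hij : nd i ≠ nd j := by
          intro h3
          apply h
          rw [h3]
          exact h2
        have h3 : LL m K j wl ∈ P m K (nd j) := LL_mem_P j wl
        have h4 : (LL m K j wl)⁻¹ * n ∈ M m K (nd i) :=
          ih (L.mul_mem (L.inv_mem (h2 h3)) hnL)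
        have h5 : n = LL m K j wl * ((LL m K j wl)⁻¹ * n) := by group
        rw [h5]
        exact (M m K (nd i)).mul_mem (P_le_M hij h3) h4
    exact (M m K (nd i)).mul_mem ((M m K (nd i)).mul_mem (B_le_M _ (U_le_B hu)) (key hnL))
      (B_le_M _ (U_le_B hu'))

theorem pre_minp (L : Subgroup (grp m K)) (hL : B m K < L) :
    ∃ i : Option (Fin m), P m K (nd i) ≤ L := by
  by_contra h
  push Not at h
  have h1 : L ≤ B m K := by
    refine le_iInf fun a => ?_
    obtain ⟨i, rfl⟩ := nd_bij.2 a
    exact (overgroup i L hL.le).2 (h i)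
  exact absurd (lt_of_lt_of_le hL h1) (lt_irrefl _)

theorem pre_gen_P (L : Subgroup (grp m K)) (h : ∀ i : Option (Fin m), P m K (nd i) ≤ L) :
    L = ⊤ := by
  rw [eq_top_iff]
  intro g _
  have hB : B m K ≤ L := (B_le_P (nd none)).trans (h none)
  obtain ⟨u, hu, n, hn, u', hu', rfl⟩ := bruhat g
  have key : n ∈ L := by
    refine N_induction (fun n => n ∈ L) ?_ ?_ n hn
    · intro n hn
      exact hB hn.1
    · intro j n _ _ ih
      have h5 : n = LL m K j wl * ((LL m K j wl)⁻¹ * n) := by group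
      rw [h5]
      exact L.mul_mem (h j (LL_mem_P j wl)) ih
  exact L.mul_mem (L.mul_mem (hB (U_le_B hu)) key) (hB (U_le_B hu'))

theorem pre_opp (k : Option (Fin m)) : ∀ n ∈ N m K, ∃ i : Option (Fin m), ∀ c : Fl m K i,
    ∃ y ∈ U m K, n⁻¹ * y * n ∈ conjGen (P m K (nd k)) (U m K) ∧
      Val (pi m K i) y (uni c) ∧ ∀ l, l ≠ i → Val (pi m K l) y 1 := by
  intro n hn
  rcases N_opp n hn with ⟨i, hi⟩ | h
  · refine ⟨i, fun c => ⟨LL m K i (up2 c), LL_up_mem i c, ?_, val_LL_up i c,
      fun l hl => val_LL_up_ne i l hl c⟩⟩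
    apply Subgroup.subset_closure
    exact ⟨1, one_mem _, _, hi c, by group⟩
  · refine ⟨k, fun c => ⟨LL m K k (up2 c), LL_up_mem k c, ?_, val_LL_up k c,
      fun l hl => val_LL_up_ne k l hl c⟩⟩
    obtain ⟨c', hc'⟩ := h k c
    rw [hc']
    exact LL_mem_S k _

end SU43
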