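import Pool.Agent.Lib.MP_43150e_al.SU.Str

/-! # The homomorphisms `P i → PGL_2(F i)` -/

set_option autoImplicit false

namespace SU43

open Matrix BN43

variable {m : ℕ} {K : Type} [Field K] [StarRing K]

theorem blk_one (a : Fin (m + 1)) : blk a (1 : Mat m K) = 1 := by
  have h1 : lo m a ≠ hi m a := by
    intro h
    have := congrArg Fin.val h
    simp [lo, hi] at this
  ext i j
  fin_cases i <;> fin_cases j <;> simp [blk, h1, h1.symm]

/-- The entries of a product in the block. -/
private theorem blk_entry (a : Fin (m + 1)) (x y : grp m K) (hx : x ∈ P m K a)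
    (hy : y ∈ P m K a) (k l : Fin (2 * m + 2)) (hk : k = lo m a ∨ k = hi m a)
    (hl : l = lo m a ∨ l = hi m a) :
    mat (x * y) k l =
      mat x k (lo m a) * mat y (lo m a) l + mat x k (hi m a) * mat y (hi m a) l := by
  have h1 : lo m a ≠ hi m a := by
    intro h
    have := congrArg Fin.val h
    simp [lo, hi] at this
  have ha := a.2
  rw [mat_mul, Matrix.mul_apply,
    ← Finset.sum_pair (f := fun j => mat x k j * mat y j l) h1]
  symm
  apply Finset.sum_subset (Finset.subset_univ _)
  intro j _ hj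
  rw [Finset.mem_insert, Finset.mem_singleton, not_or] at hj
  have hk' : (k : ℕ) = a ∨ (k : ℕ) = a + 1 := by
    rcases hk with rfl | rfl
    · exact Or.inl rfl
    · exact Or.inr rfl
  have hl' : (l : ℕ) = a ∨ (l : ℕ) = a + 1 := by
    rcases hl with rfl | rfl
    · exact Or.inl rfl
    · exact Or.inr rfl
  have hj1 : (j : ℕ) ≠ a := fun h => hj.1 (Fin.ext h)
  have hj2 : (j : ℕ) ≠ a + 1 := fun h => hj.2 (Fin.ext h)
  by_cases hja : (j : ℕ) < a
  · have h2 : mat x k j = 0 := by
      refine (mem_P_iff a x).1 hx k j ?_ ?_ ?_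
      · rw [Fin.lt_def]; omega
      · rintro ⟨h, _⟩
        exact hj.1 h
      · rintro ⟨h, _⟩
        have h3 := congrArg Fin.val h
        rw [Fin.val_rev] at h3
        simp only [hi] at h3
        omega
    rw [h2, zero_mul]
  · have h2 : mat y j l = 0 := by
      refine (mem_P_iff a y).1 hy j l ?_ ?_ ?_
      · rw [Fin.lt_def]; omega
      · rintro ⟨_, h⟩
        exact hj.2 h
      · rintro ⟨h, h'⟩
        have h3 := congrArg Fin.val h
        have h4 := congrArg Fin.val h'
        rw [Fin.val_rev] at h3 h4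
        simp only [hi, lo] at h3 h4
        omega
    rw [h2, mul_zero]

theorem blk_mul (a : Fin (m + 1)) (x y : grp m K) (hx : x ∈ P m K a) (hy : y ∈ P m K a) :
    blk a (mat (x * y)) = blk a (mat x) * blk a (mat y) := by
  ext i j
  fin_cases i <;> fin_cases j
  · simp only [blk, Matrix.mul_apply, Fin.sum_univ_two]
    exact blk_entry a x y hx hy _ _ (Or.inl rfl) (Or.inl rfl)
  · simp only [blk, Matrix.mul_apply, Fin.sum_univ_two]
    exact blk_entry a x y hx hy _ _ (Or.inl rfl) (Or.inr rfl)
  · simp only [blk, Matrix.mul_apply, Fin.sum_univ_two]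
    exact blk_entry a x y hx hy _ _ (Or.inr rfl) (Or.inl rfl)
  · simp only [blk, Matrix.mul_apply, Fin.sum_univ_two]
    exact blk_entry a x y hx hy _ _ (Or.inr rfl) (Or.inr rfl)

theorem blk_det_ne (a : Fin (m + 1)) (x : grp m K) (hx : x ∈ P m K a) :
    (blk a (mat x)).det ≠ 0 := by
  have h1 := blk_mul a x x⁻¹ hx ((P m K a).inv_mem hx)
  rw [mul_inv_cancel, mat_one, blk_one] at h1
  have h2 := congrArg Matrix.det h1
  rw [Matrix.det_one, Matrix.det_mul] at h2
  exact left_ne_zero_of_mul_eq_one h2.symm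

/-- The relations of the middle block. -/
private theorem blk_rel (x : grp m K) (hx : x ∈ P m K (Fin.last m)) (i k : Fin (2 * m + 2))
    (hi' : i = lo m (Fin.last m) ∨ i = hi m (Fin.last m))
    (hk : k = lo m (Fin.last m) ∨ k = hi m (Fin.last m)) :
    mat x i (lo m (Fin.last m)) * star (mat x k (hi m (Fin.last m))) -
      mat x i (hi m (Fin.last m)) * star (mat x k (lo m (Fin.last m))) = J m K i k := by
  have h1 : lo m (Fin.last m) ≠ hi m (Fin.last m) := by
    intro h
    have := congrArg Fin.val h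
    simp [lo, hi] at this
  have hrev : (lo m (Fin.last m)).rev = hi m (Fin.last m) := by
    apply Fin.ext
    rw [Fin.val_rev]
    simp only [lo, hi, Fin.val_last]
    omega
  have hrev' : (hi m (Fin.last m)).rev = lo m (Fin.last m) := by
    rw [← hrev, Fin.rev_rev]
  have hs1 : sg m K (lo m (Fin.last m)) = 1 := by
    simp [sg, lo]
  have hs2 : sg m K (hi m (Fin.last m)) = -1 := by
    simp [sg, hi]
  have hp := mat_pres x
  unfold Pres at hp
  have hp' := congrFun (congrFun hp i) k
  rw [Matrix.mul_apply] at hp'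
  simp only [mul_J_apply, conjTranspose_apply] at hp'
  rw [← hp', ← Finset.sum_subset (Finset.subset_univ {lo m (Fin.last m), hi m (Fin.last m)}),
    Finset.sum_pair h1, hrev, hrev', hs1, hs2]
  · ring
  · intro j _ hj
    rw [Finset.mem_insert, Finset.mem_singleton, not_or] at hj
    have hk' : (k : ℕ) = m ∨ (k : ℕ) = m + 1 := by
      rcases hk with rfl | rfl
      · exact Or.inl rfl
      · exact Or.inr rfl
    have hi'' : (i : ℕ) = m ∨ (i : ℕ) = m + 1 := by
      rcases hi' with rfl | rfl
      · exact Or.inl rfl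
      · exact Or.inr rfl
    have hj1 : (j : ℕ) ≠ m := fun h => hj.1 (Fin.ext h)
    have hj2 : (j : ℕ) ≠ m + 1 := fun h => hj.2 (Fin.ext h)
    by_cases hja : (j : ℕ) < m
    · have h2 : mat x k j = 0 := by
        refine (mem_P_iff (Fin.last m) x).1 hx k j ?_ ?_ ?_
        · rw [Fin.lt_def]; omega
        · rintro ⟨h, _⟩
          exact hj.1 h
        · rintro ⟨h, _⟩
          rw [hrev'] at h
          exact hj.1 h
      rw [h2, star_zero, mul_zero]
    · have h2 : mat x i j.rev = 0 := by
        have hjj : (j.rev : ℕ) < m := by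
          rw [Fin.val_rev]
          have := j.2
          omega
        refine (mem_P_iff (Fin.last m) x).1 hx i j.rev ?_ ?_ ?_
        · rw [Fin.lt_def]; omega
        · rintro ⟨h, _⟩
          have h3 := congrArg Fin.val h
          simp only [lo, Fin.val_last] at h3
          omega
        · rintro ⟨h, _⟩
          rw [hrev'] at h
          have h3 := congrArg Fin.val h
          simp only [lo, Fin.val_last] at h3
          omega
      rw [h2, zero_mul, zero_mul]

/-- The block of the node `m` is a multiple of a matrix over the fixed field. -/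
theorem blk_last (x : grp m K) (hx : x ∈ P m K (Fin.last m)) :
    ∃ (c : K) (s : Matrix (Fin 2) (Fin 2) (K0 K)), c ≠ 0 ∧ s.det ≠ 0 ∧
      blk (Fin.last m) (mat x) = c • s.map (K0 K).subtype := by
  have hdet := blk_det_ne (Fin.last m) x hx
  have hJ1 : J m K (lo m (Fin.last m)) (lo m (Fin.last m)) = 0 := by
    simp only [J, Matrix.of_apply]
    rw [if_neg]
    intro h
    have h3 := congrArg Fin.val h
    rw [Fin.val_rev] at h3
    simp only [lo, Fin.val_last] at h3
    omega
  have hJ2 : J m K (lo m (Fin.last m)) (hi m (Fin.last m)) = 1 := by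
    simp only [J, Matrix.of_apply]
    rw [if_pos, if_pos]
    · simp [lo]
    · apply Fin.ext
      rw [Fin.val_rev]
      simp only [lo, hi, Fin.val_last]
      omega
  have hJ3 : J m K (hi m (Fin.last m)) (lo m (Fin.last m)) = -1 := by
    simp only [J, Matrix.of_apply]
    rw [if_pos, if_neg]
    · simp [hi]
    · apply Fin.ext
      rw [Fin.val_rev]
      simp only [lo, hi, Fin.val_last]
      omega
  have hJ4 : J m K (hi m (Fin.last m)) (hi m (Fin.last m)) = 0 := by
    simp only [J, Matrix.of_apply]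
    rw [if_neg]
    intro h
    have h3 := congrArg Fin.val h
    rw [Fin.val_rev] at h3
    simp only [hi, Fin.val_last] at h3
    omega
  have e1 := blk_rel x hx _ _ (Or.inl rfl) (Or.inl rfl)
  have e2 := blk_rel x hx _ _ (Or.inl rfl) (Or.inr rfl)
  have e3 := blk_rel x hx _ _ (Or.inr rfl) (Or.inl rfl)
  have e4 := blk_rel x hx _ _ (Or.inr rfl) (Or.inr rfl)
  rw [hJ1] at e1
  rw [hJ2] at e2
  rw [hJ3] at e3
  rw [hJ4] at e4
  have key : ∀ i j : Fin 2, (blk (Fin.last m) (mat x)).det *
      star (blk (Fin.last m) (mat x) i j) = blk (Fin.last m) (mat x) i j := by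
    intro i j
    rw [Matrix.det_fin_two]
    fin_cases i <;> fin_cases j <;> simp only [blk, Matrix.of_apply, Matrix.cons_val',
      Matrix.cons_val_zero, Matrix.cons_val_one, Matrix.cons_val_fin_one, Fin.zero_eta,
      Fin.mk_one, Fin.isValue]
    · linear_combination mat x (hi m (Fin.last m)) (lo m (Fin.last m)) * e1 -
        mat x (lo m (Fin.last m)) (lo m (Fin.last m)) * e3
    · linear_combination mat x (hi m (Fin.last m)) (hi m (Fin.last m)) * e1 -
        mat x (lo m (Fin.last m)) (hi m (Fin.last m)) * e3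
    · linear_combination -mat x (lo m (Fin.last m)) (lo m (Fin.last m)) * e4 +
        mat x (hi m (Fin.last m)) (lo m (Fin.last m)) * e2
    · linear_combination -mat x (lo m (Fin.last m)) (hi m (Fin.last m)) * e4 +
        mat x (hi m (Fin.last m)) (hi m (Fin.last m)) * e2
  obtain ⟨k, l, hkl⟩ : ∃ k l, blk (Fin.last m) (mat x) k l ≠ 0 := by
    by_contra hcon
    push Not at hcon
    apply hdet
    rw [Matrix.det_fin_two, hcon, hcon 0 1, zero_mul, zero_mul, sub_zero]
  have hmem : ∀ i j : Fin 2, star (blk (Fin.last m) (mat x) i j *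
      (blk (Fin.last m) (mat x) k l)⁻¹) =
      blk (Fin.last m) (mat x) i j * (blk (Fin.last m) (mat x) k l)⁻¹ := by
    intro i j
    rw [star_mul', star_inv₀]
    have h1 := key i j
    have h2 := key k l
    have h3 : star (blk (Fin.last m) (mat x) k l) ≠ 0 := by
      rw [star_ne_zero]
      exact hkl
    rw [← div_eq_mul_inv, ← div_eq_mul_inv, div_eq_div_iff h3 hkl]
    apply mul_left_cancel₀ hdet
    linear_combination blk (Fin.last m) (mat x) k l * h1 - blk (Fin.last m) (mat x) i j * h2
  have heq : blk (Fin.last m) (mat x) = blk (Fin.last m) (mat x) k l •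
      (Matrix.of fun i j => (⟨blk (Fin.last m) (mat x) i j *
        (blk (Fin.last m) (mat x) k l)⁻¹, hmem i j⟩ : K0 K)).map (K0 K).subtype := by
    ext i j
    rw [Matrix.smul_apply, Matrix.map_apply, Matrix.of_apply, smul_eq_mul, Subfield.subtype_apply]
    field_simp
  refine ⟨blk (Fin.last m) (mat x) k l, Matrix.of fun i j =>
    ⟨blk (Fin.last m) (mat x) i j * (blk (Fin.last m) (mat x) k l)⁻¹, hmem i j⟩, hkl, ?_, heq⟩
  intro h0
  apply hdet
  rw [heq, Matrix.det_smul]
  have h4 := RingHom.map_det (K0 K).subtype (Matrix.of fun i j =>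
    (⟨blk (Fin.last m) (mat x) i j * (blk (Fin.last m) (mat x) k l)⁻¹, hmem i j⟩ : K0 K))
  rw [h0, map_zero] at h4
  rw [RingHom.mapMatrix_apply] at h4
  rw [← h4, mul_zero]

/-- The scalar between two representatives is in the small field. -/
private theorem mk_eq_of_smul {F : Type} [Field F] (e : F →+* K)
    (s t : GeneralLinearGroup (Fin 2) F) (c d : K) (hc : c ≠ 0) (hd : d ≠ 0)
    (h : c • (s : Matrix (Fin 2) (Fin 2) F).map e = d • (t : Matrix (Fin 2) (Fin 2) F).map e) :
    ProjGenLinGroup.mk s = ProjGenLinGroup.mk t := by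
  have hs : (s : Matrix (Fin 2) (Fin 2) F).det ≠ 0 := by
    have h1 : IsUnit (s : Matrix (Fin 2) (Fin 2) F).det :=
      (Matrix.isUnit_iff_isUnit_det _).mp s.isUnit
    exact h1.ne_zero
  obtain ⟨k, l, hkl⟩ : ∃ k l, (s : Matrix (Fin 2) (Fin 2) F) k l ≠ 0 := by
    by_contra hcon
    push Not at hcon
    apply hs
    rw [Matrix.det_fin_two, hcon, hcon 0 1, zero_mul, zero_mul, sub_zero]
  have hent : ∀ i j, c * e ((s : Matrix (Fin 2) (Fin 2) F) i j) =
      d * e ((t : Matrix (Fin 2) (Fin 2) F) i j) := by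
    intro i j
    have := congrFun (congrFun h i) j
    simpa [Matrix.smul_apply, Matrix.map_apply] using this
  have hekl : e ((s : Matrix (Fin 2) (Fin 2) F) k l) ≠ 0 := by
    rw [ne_eq, map_eq_zero]
    exact hkl
  have hu : e ((t : Matrix (Fin 2) (Fin 2) F) k l / (s : Matrix (Fin 2) (Fin 2) F) k l) =
      c / d := by
    rw [map_div₀, div_eq_div_iff hekl hd]
    linear_combination -hent k l
  have hu0 : (t : Matrix (Fin 2) (Fin 2) F) k l / (s : Matrix (Fin 2) (Fin 2) F) k l ≠ 0 := by
    intro h0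
    rw [h0, map_zero] at hu
    exact div_ne_zero hc hd hu.symm
  refine pgl_mk_eq_of _ hu0 fun i j => ?_
  apply e.injective
  rw [map_mul, hu]
  have := hent i j
  field_simp
  linear_combination this

/-- A homomorphism of `P a`, if all blocks are multiples of matrices over a small field. -/
private theorem exists_hom {F : Type} [Field F] (e : F →+* K) (a : Fin (m + 1))
    (h : ∀ x : grp m K, x ∈ P m K a → ∃ (c : K) (s : Matrix (Fin 2) (Fin 2) F),
      c ≠ 0 ∧ s.det ≠ 0 ∧ blk a (mat x) = c • s.map e) :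
    ∃ f : P m K a →* ProjGenLinGroup (Fin 2) F,
      ∀ (g : grp m K) (x : GeneralLinearGroup (Fin 2) F),
        Val f g (ProjGenLinGroup.mk x) ↔ g ∈ P m K a ∧ ∃ c : K, c ≠ 0 ∧
          blk a (mat g) = c • (x : Matrix (Fin 2) (Fin 2) F).map e := by
  choose! c s hc hs hcs using h
  have hs' : ∀ g : P m K a, (s g).det ≠ 0 := fun g => hs g.1 g.2
  have key : ∀ g : P m K a, blk a (mat (g : grp m K)) = c g •
      ((GeneralLinearGroup.mkOfDetNeZero (s g) (hs' g) : GeneralLinearGroup (Fin 2) F) :
        Matrix (Fin 2) (Fin 2) F).map e := fun g => hcs g.1 g.2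
  let f : P m K a →* ProjGenLinGroup (Fin 2) F := MonoidHom.mk'
    (fun g => ProjGenLinGroup.mk (GeneralLinearGroup.mkOfDetNeZero (s g) (hs' g)))
    (by
      intro g g'
      rw [← map_mul]
      apply mk_eq_of_smul e _ _ (c (g * g' : P m K a)) (c g * c g')
        (hc _ (g * g').2) (mul_ne_zero (hc _ g.2) (hc _ g'.2))
      rw [← key, Units.val_mul, Matrix.map_mul, ← smul_mul_smul_comm, ← key, ← key]
      exact blk_mul a g.1 g'.1 g.2 g'.2)
  have hf : ∀ g : P m K a,
      f g = ProjGenLinGroup.mk (GeneralLinearGroup.mkOfDetNeZero (s g) (hs' g)) := fun g => rfl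
  refine ⟨f, fun g x => ?_⟩
  constructor
  · rintro ⟨hg, hgx⟩
    refine ⟨hg, ?_⟩
    rw [hf] at hgx
    obtain ⟨u, hu, huij⟩ := pgl_mk_eq hgx
    have heu : e u ≠ 0 := by
      rw [ne_eq, map_eq_zero]
      exact hu
    refine ⟨c g / e u, div_ne_zero (hc _ hg) heu, ?_⟩
    rw [key ⟨g, hg⟩]
    ext i j
    rw [Matrix.smul_apply, Matrix.smul_apply, Matrix.map_apply, Matrix.map_apply, ← huij i j,
      map_mul, smul_eq_mul, smul_eq_mul]
    field_simp
  · rintro ⟨hg, d, hd, hgd⟩
    refine ⟨hg, ?_⟩
    rw [hf]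
    apply mk_eq_of_smul e _ _ (c g) d (hc _ hg) hd
    rw [← hgd]
    exact (key ⟨g, hg⟩).symm

/-- The homomorphism of the node `i`. -/
theorem exists_pi (i : Option (Fin m)) :
    ∃ f : P m K (nd i) →* ProjGenLinGroup (Fin 2) (Fl m K i),
      ∀ (g : grp m K) (x : GeneralLinearGroup (Fin 2) (Fl m K i)),
        Val f g (ProjGenLinGroup.mk x) ↔ g ∈ P m K (nd i) ∧ ∃ c : K, c ≠ 0 ∧
          blk (nd i) (mat g) =
            c • (x : Matrix (Fin 2) (Fin 2) (Fl m K i)).map (em m K i) := by
  cases i with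
  | none => exact exists_hom (em m K none) (nd none) (fun x hx => blk_last x hx)
  | some a =>
    have h := exists_hom (RingHom.id K) (a.castSucc : Fin (m + 1)) (fun x hx =>
      ⟨1, blk a.castSucc (mat x), one_ne_zero, blk_det_ne _ x hx, by
        rw [one_smul]
        ext i j
        rfl⟩)
    exact h

/-- The homomorphism of the node `i`. -/
noncomputable def pi (m : ℕ) (K : Type) [Field K] [StarRing K] (i : Option (Fin m)) :
    P m K (nd i) →* ProjGenLinGroup (Fin 2) (Fl m K i) := (exists_pi i).choose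

theorem val_iff (i : Option (Fin m)) (g : grp m K)
    (x : GeneralLinearGroup (Fin 2) (Fl m K i)) :
    Val (pi m K i) g (ProjGenLinGroup.mk x) ↔ g ∈ P m K (nd i) ∧ ∃ c : K, c ≠ 0 ∧
      blk (nd i) (mat g) = c • (x : Matrix (Fin 2) (Fin 2) (Fl m K i)).map (em m K i) :=
  (exists_pi i).choose_spec g x

end SU43
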