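import Pool.Agent.Lib.MP_43150e_al.SU.ValS

/-! # The unipotent radicals of the minimal parabolic subgroups -/

set_option autoImplicit false

namespace SU43

open Matrix BN43

variable {m : ℕ} {K : Type} [Field K] [StarRing K]

/-- The nonzero entries of the elements of `P a`. -/
private theorem rad_entry (a : Fin (m + 1)) (x : grp m K) (hx : x ∈ P m K a)
    (k l : Fin (2 * m + 2)) (h : mat x k l ≠ 0) : (k : ℕ) ≤ l ∨ ((l : ℕ) = a ∧ (k : ℕ) = a + 1) ∨
      ((l : ℕ) = 2 * m - a ∧ (k : ℕ) = 2 * m + 1 - a) := by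
  by_contra hcon
  rw [not_or, not_or] at hcon
  obtain ⟨h1, h2, h3⟩ := hcon
  have ha := a.2
  apply h
  refine (mem_P_iff a x).1 hx k l ?_ ?_ ?_
  · rw [Fin.lt_def]; omega
  · rintro ⟨rfl, rfl⟩
    exact h2 ⟨rfl, rfl⟩
  · rintro ⟨rfl, rfl⟩
    apply h3
    rw [Fin.val_rev, Fin.val_rev]
    simp only [lo, hi]
    omega

/-- The vanishing entries of `u - 1`. -/
private theorem rad_zero (a : Fin (m + 1)) (u : grp m K) (hu : u ∈ U m K)
    (h : mat u (lo m a) (hi m a) = 0) (i j : Fin (2 * m + 2)) (hij : (mat u - 1) i j ≠ 0) :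
    (i : ℕ) < j ∧ ¬ ((i : ℕ) = a ∧ (j : ℕ) = a + 1) ∧
      ¬ ((i : ℕ) = 2 * m - a ∧ (j : ℕ) = 2 * m + 1 - a) := by
  have ha := a.2
  have hlt : (i : ℕ) < j := by
    by_contra hcon
    apply hij
    rcases Nat.lt_or_ge j i with h1 | h1
    · have h2 : i ≠ j := by
        rintro rfl
        exact lt_irrefl _ h1
      rw [Matrix.sub_apply, Matrix.one_apply_ne h2, hu.1 i j h1, sub_zero]
    · have h2 : i = j := Fin.ext (by omega)
      subst h2
      rw [Matrix.sub_apply, Matrix.one_apply_eq, hu.2 i, sub_self]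
  have hne : i ≠ j := by
    rintro rfl
    exact lt_irrefl _ hlt
  have hlh : (i : ℕ) = a → (j : ℕ) = a + 1 → False := by
    intro h1 h2
    apply hij
    have e1 : i = lo m a := Fin.ext h1
    have e2 : j = hi m a := Fin.ext h2
    rw [Matrix.sub_apply, Matrix.one_apply_ne hne, e1, e2, h, sub_zero]
  refine ⟨hlt, fun h' => hlh h'.1 h'.2, fun h' => ?_⟩
  by_cases ham : (a : ℕ) = m
  · exact hlh (by omega) (by omega)
  · have h1 := side_rel u hu ⟨a, by omega⟩
    have e0 : (⟨a, by omega⟩ : Fin m).castSucc = a := Fin.ext rfl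
    rw [e0, h, star_zero, neg_zero] at h1
    apply hij
    have e1 : i = (hi m a).rev := Fin.ext (by
      rw [Fin.val_rev]
      simp only [hi]
      omega)
    have e2 : j = (lo m a).rev := Fin.ext (by
      rw [Fin.val_rev]
      simp only [lo]
      omega)
    rw [Matrix.sub_apply, Matrix.one_apply_ne hne, e1, e2, h1, sub_zero]

theorem rad_mat (a : Fin (m + 1)) (x u : grp m K) (hx : x ∈ P m K a) (hu : u ∈ U m K)
    (h : mat u (lo m a) (hi m a) = 0) : x * u * x⁻¹ ∈ U m K := by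
  have ha := a.2
  have h1 : mat (x * u * x⁻¹) = 1 + mat x * (mat u - 1) * mat x⁻¹ := by
    have h2 : mat x * mat x⁻¹ = 1 := by rw [← mat_mul, mul_inv_cancel, mat_one]
    rw [mat_mul, mat_mul, Matrix.mul_sub, Matrix.sub_mul, Matrix.mul_one, h2]
    abel
  have h3 : ∀ k l : Fin (2 * m + 2), (l : ℕ) ≤ k →
      (mat x * (mat u - 1) * mat x⁻¹) k l = 0 := by
    intro k l hkl
    rw [Matrix.mul_apply]
    apply Finset.sum_eq_zero
    intro j _
    by_cases hj : mat x⁻¹ j l = 0
    · rw [hj, mul_zero]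
    have hj' := rad_entry a x⁻¹ ((P m K a).inv_mem hx) j l hj
    suffices h4 : (mat x * (mat u - 1)) k j = 0 by rw [h4, zero_mul]
    rw [Matrix.mul_apply]
    apply Finset.sum_eq_zero
    intro i _
    by_cases hi' : mat x k i = 0
    · rw [hi', zero_mul]
    by_cases hw : (mat u - 1) i j = 0
    · rw [hw, mul_zero]
    exfalso
    have hi'' := rad_entry a x hx k i hi'
    have hw' := rad_zero a u hu h i j hw
    omega
  refine (mem_U_iff _).2 ⟨?_, ?_⟩
  · intro k l hkl
    have h4 : k ≠ l := by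
      rintro rfl
      exact lt_irrefl _ hkl
    rw [h1, Matrix.add_apply, Matrix.one_apply_ne h4, h3 k l (le_of_lt hkl), zero_add]
  · intro k
    rw [h1, Matrix.add_apply, Matrix.one_apply_eq, h3 k k le_rfl, add_zero]

theorem pi_rad (i : Option (Fin m)) : ∀ x ∈ P m K (nd i), ∀ u ∈ U m K,
    Val (pi m K i) u 1 → x * u * x⁻¹ ∈ U m K := by
  intro x hx u hu h
  exact rad_mat (nd i) x u hx hu ((val_one_iff i u hu).1 h)

end SU43
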