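import Pool.Agent.Lib.MP_43150e_al.SU.Tor
import Pool.Agent.Lib.MP_43150e_al.SU.Cen

/-! # The rank is at least two -/

set_option autoImplicit false

namespace SU43

open Matrix BN43

variable {m : ℕ} {K : Type} [Field K] [StarRing K]

namespace RankAux

theorem col0 (hm : 1 ≤ m) (x : grp m K) (hx : x ∈ P m K (Fin.last m)) (j : Fin (2 * m + 2))
    (hj : j ≠ ee m 0) : mat x j (ee m 0) = 0 := by
  have h0 : ((ee m 0 : Fin (2 * m + 2)) : ℕ) = 0 := rfl
  refine (mem_P_iff _ x).1 hx j (ee m 0) ?_ ?_ ?_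
  · rw [Fin.lt_def, h0]
    rcases Nat.eq_zero_or_pos (j : ℕ) with h | h
    · exact absurd (Fin.ext (h.trans h0.symm)) hj
    · exact h
  · rintro ⟨h, -⟩
    have h1 := congrArg Fin.val h
    rw [h0] at h1
    simp only [lo, Fin.val_last] at h1
    omega
  · rintro ⟨h, -⟩
    have h1 := congrArg Fin.val h
    rw [h0, Fin.val_rev] at h1
    simp only [hi, Fin.val_last] at h1
    omega

theorem mul00 (hm : 1 ≤ m) (x y : grp m K) (hy : y ∈ P m K (Fin.last m)) :
    mat (x * y) (ee m 0) (ee m 0) = mat x (ee m 0) (ee m 0) * mat y (ee m 0) (ee m 0) := by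
  rw [mat_mul, Matrix.mul_apply, Finset.sum_eq_single (ee m 0)]
  · intro j _ hj
    rw [col0 hm y hy j hj, mul_zero]
  · intro h
    exact absurd (Finset.mem_univ _) h

theorem blkU (u : grp m K) (hu : u ∈ U m K) : (blk (Fin.last m) (mat u)).det = 1 := by
  have hu1 : Lin43.UU (mat u) := hu
  have h : lo m (Fin.last m) < hi m (Fin.last m) := by
    rw [Fin.lt_def]
    simp [lo, hi]
  rw [blk, Matrix.det_fin_two_of, hu1.2, hu1.2, hu1.1 _ _ h]
  ring

theorem U_le_P : U m K ≤ P m K (Fin.last m) := le_trans U_le_B (B_le_P _)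

theorem mat_pow_diag {b : grp m K} {d : Fin (2 * m + 2) → K} (h : mat b = Matrix.diagonal d)
    (n : ℕ) : mat (b ^ n) = Matrix.diagonal fun i => d i ^ n := by
  induction n with
  | zero =>
    rw [pow_zero, mat_one]
    simp
  | succ n ih =>
    rw [pow_succ, mat_mul, ih, h, Matrix.diagonal_mul_diagonal]
    congr 1
    funext i
    rw [pow_succ]

end RankAux

open RankAux

/-- The entry `(0, 0)` of the elements of `S m` is one, and the middle block has determinant
one. -/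
theorem S_last (hm : 1 ≤ m) (x : grp m K)
    (hx : x ∈ conjGen (P m K (Fin.last m)) (U m K)) :
    mat x (ee m 0) (ee m 0) = 1 ∧ (blk (Fin.last m) (mat x)).det = 1 := by
  have key : x ∈ P m K (Fin.last m) ∧
      mat x (ee m 0) (ee m 0) = 1 ∧ (blk (Fin.last m) (mat x)).det = 1 := by
    refine Subgroup.closure_induction (p := fun x _ => x ∈ P m K (Fin.last m) ∧
      mat x (ee m 0) (ee m 0) = 1 ∧ (blk (Fin.last m) (mat x)).det = 1) ?_ ?_ ?_ ?_ hx
    · rintro y ⟨g, hg, u, hu, rfl⟩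
      have huP := U_le_P hu
      have hgi := (P m K (Fin.last m)).inv_mem hg
      have hgu := (P m K (Fin.last m)).mul_mem hg huP
      have hu1 : Lin43.UU (mat u) := hu
      refine ⟨(P m K (Fin.last m)).mul_mem hgu hgi, ?_, ?_⟩
      · rw [mul00 hm _ _ hgi, mul00 hm _ _ huP, hu1.2, mul_one, ← mul00 hm _ _ hgi,
          mul_inv_cancel, mat_one, Matrix.one_apply_eq]
      · rw [blk_mul _ _ _ hgu hgi, blk_mul _ _ _ hg huP, Matrix.det_mul, Matrix.det_mul,
          blkU u hu, mul_one, ← Matrix.det_mul, ← blk_mul _ _ _ hg hgi, mul_inv_cancel, mat_one,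
          blk_one, Matrix.det_one]
    · exact ⟨one_mem _, by rw [mat_one, Matrix.one_apply_eq], by
        rw [mat_one, blk_one, Matrix.det_one]⟩
    · rintro a b _ _ ⟨ha, ha1, ha2⟩ ⟨hb, hb1, hb2⟩
      refine ⟨mul_mem ha hb, ?_, ?_⟩
      · rw [mul00 hm _ _ hb, ha1, hb1, mul_one]
      · rw [blk_mul _ _ _ ha hb, Matrix.det_mul, ha2, hb2, mul_one]
    · rintro a _ ⟨ha, ha1, ha2⟩
      have hai := (P m K (Fin.last m)).inv_mem ha
      refine ⟨hai, ?_, ?_⟩
      · have h1 := mul00 hm a a⁻¹ hai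
        rw [mul_inv_cancel, mat_one, Matrix.one_apply_eq, ha1, one_mul] at h1
        exact h1.symm
      · have h1 : (blk (Fin.last m) (mat (a * a⁻¹))).det = 1 := by
          rw [mul_inv_cancel, mat_one, blk_one, Matrix.det_one]
        rw [blk_mul _ _ _ ha hai, Matrix.det_mul, ha2, one_mul] at h1
        exact h1
  exact key.2

theorem pre_rank [Finite K] (hm : 1 ≤ m) (hq : 59 < Nat.card (K0 K)) :
    ∃ k : Option (Fin m), ∃ b ∈ B m K, ∀ z ∈ Subgroup.center (grp m K),
      b ^ (4 * (Fintype.card (Fl m K k) + 1)) * z ∉ conjGen (P m K (nd k)) (U m K) := by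
  have hfin : Finite (K0 K) := inferInstance
  obtain ⟨s, hs⟩ := IsCyclic.exists_generator (α := (K0 K)ˣ)
  have hord : orderOf s = Nat.card (K0 K)ˣ := orderOf_eq_card_of_forall_mem_zpowers hs
  have hcu : Nat.card (K0 K)ˣ = Nat.card (K0 K) - 1 := Nat.card_units (K0 K)
  obtain ⟨c0, hc0⟩ : ∃ c0 : K, c0 = ((s : K0 K) : K) := ⟨_, rfl⟩
  have hc0ne : c0 ≠ 0 := by
    rw [hc0]
    intro h
    exact s.ne_zero (Subtype.ext h)
  have hc0s : star c0 = c0 := by
    rw [hc0]
    exact (s : K0 K).2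
  obtain ⟨d, hd⟩ : ∃ d : Fin (m + 1) → K, d = fun p => if p = 0 then c0 else 1 := ⟨_, rfl⟩
  have hprod : ∏ i, d i = c0 := by
    rw [hd, Finset.prod_ite_eq' Finset.univ (0 : Fin (m + 1)), if_pos (Finset.mem_univ _)]
  have hd0 : ∀ i, d i ≠ 0 := by
    intro i
    rw [hd]
    show (if i = 0 then c0 else 1) ≠ 0
    split_ifs
    · exact hc0ne
    · exact one_ne_zero
  obtain ⟨b, hb⟩ := exists_tor d hd0 (by rw [hprod, hc0s])
  have hbB : b ∈ B m K := by
    rw [mem_B_iff]
    intro i j hij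
    rw [hb, Matrix.diagonal_apply_ne _ hij.ne']
  refine ⟨none, b, hbB, fun z hz hmem => ?_⟩
  obtain ⟨c, hc, -, hzc⟩ := center_scalar z hz
  obtain ⟨Nn, hNn⟩ : ∃ Nn : ℕ, Nn = 4 * (Fintype.card (Fl m K none) + 1) := ⟨_, rfl⟩
  have hcard : Fintype.card (Fl m K none) = Nat.card (K0 K) := by
    rw [← Nat.card_eq_fintype_card]
    rfl
  rw [← hNn] at hmem
  have hmat : mat (b ^ Nn * z) = Matrix.diagonal fun i => torD d i ^ Nn * c := by
    rw [mat_mul, mat_pow_diag hb, hzc, Matrix.diagonal_mul_diagonal]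
  obtain ⟨h1, h2⟩ := S_last hm _ hmem
  have ht0 : torD d (ee m 0) = c0 := by
    unfold torD
    rw [dif_pos (show ((ee m 0 : Fin (2 * m + 2)) : ℕ) < m + 1 from Nat.succ_pos m), hd]
    exact if_pos rfl
  have hdm : ∀ p : Fin (m + 1), (p : ℕ) = m → d p = 1 := by
    intro p hp
    rw [hd]
    refine if_neg fun h => ?_
    rw [h] at hp
    have : ((0 : Fin (m + 1)) : ℕ) = 0 := rfl
    omega
  have ht1 : torD d (lo m (Fin.last m)) = 1 := by
    unfold torD
    rw [dif_pos (show ((lo m (Fin.last m) : Fin (2 * m + 2)) : ℕ) < m + 1 from Nat.lt_succ_self m)]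
    exact hdm _ rfl
  have ht2 : torD d (hi m (Fin.last m)) = 1 := by
    unfold torD
    have h3 : ¬ ((hi m (Fin.last m) : Fin (2 * m + 2)) : ℕ) < m + 1 := by
      simp [hi]
    rw [dif_neg h3, hdm, star_one, inv_one]
    simp only [Fin.val_rev, hi, Fin.val_last]
    omega
  rw [hmat, Matrix.diagonal_apply_eq, ht0] at h1
  have hne : lo m (Fin.last m) ≠ hi m (Fin.last m) := by
    intro h
    have := congrArg Fin.val h
    simp [lo, hi] at this
  rw [hmat, blk, Matrix.det_fin_two_of, Matrix.diagonal_apply_eq, Matrix.diagonal_apply_eq,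
    Matrix.diagonal_apply_ne _ hne, ht1, ht2, one_pow, one_mul, zero_mul, sub_zero] at h2
  -- c0 ^ (2 * N) = 1
  have h3 : c0 ^ (2 * Nn) = 1 := by
    have h4 : c0 ^ (2 * Nn) * (c * c) = 1 := by
      have : c0 ^ (2 * Nn) * (c * c) = (c0 ^ Nn * c) * (c0 ^ Nn * c) := by ring
      rw [this, h1, one_mul]
    rwa [h2, mul_one] at h4
  have h5 : s ^ (2 * Nn) = 1 := by
    apply Units.ext
    apply Subtype.ext
    rw [Units.val_pow_eq_pow_val, Units.val_one, SubmonoidClass.coe_pow, ← hc0, h3]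
    rfl
  have h6 : orderOf s ∣ 2 * Nn := orderOf_dvd_of_pow_eq_one h5
  rw [hord, hcu, hNn, hcard] at h6
  obtain ⟨q, hq'⟩ : ∃ q, Nat.card (K0 K) = q + 1 := ⟨Nat.card (K0 K) - 1, by omega⟩
  rw [hq', Nat.add_sub_cancel] at h6
  have h7 : q ∣ 16 := by
    have h8 : 2 * (4 * (q + 1 + 1)) = 8 * q + 16 := by ring
    rw [h8] at h6
    exact (Nat.dvd_add_right (Dvd.intro_left 8 rfl)).1 h6
  have h9 := Nat.le_of_dvd (by norm_num) h7
  omega

end SU43
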