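import Pool.Agent.Lib.MP_43150e_al.SU.Tor

/-! # The torus conditions of the datum -/

set_option autoImplicit false

namespace SU43

open Matrix BN43

variable {m : ℕ} {K : Type} [Field K] [StarRing K]

/-- An element of the fixed field with `t ^ 4 ≠ 1`. -/
theorem exists_t [Finite K] (hq : 59 < Nat.card (K0 K)) : ∃ t : K0 K, t ≠ 0 ∧ t ^ 4 ≠ 1 := by
  classical
  by_contra hcon
  push Not at hcon
  have := Fintype.ofFinite (K0 K)
  have h1 : (Finset.univ : Finset (K0 K)) ⊆
      insert 0 (Polynomial.nthRoots 4 (1 : K0 K)).toFinset := by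
    intro t _
    rw [Finset.mem_insert, Multiset.mem_toFinset, Polynomial.mem_nthRoots (by norm_num)]
    by_cases ht : t = 0
    · exact Or.inl ht
    · exact Or.inr (hcon t ht)
  have h2 := Finset.card_le_card h1
  have h3 := Finset.card_insert_le (0 : K0 K) (Polynomial.nthRoots 4 (1 : K0 K)).toFinset
  have h4 := Multiset.toFinset_card_le (Polynomial.nthRoots 4 (1 : K0 K))
  have h5 := Polynomial.card_nthRoots 4 (1 : K0 K)
  rw [Finset.card_univ, ← Nat.card_eq_fintype_card] at h2
  omega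

theorem diag_mem_BN {h : grp m K} {D : Fin (2 * m + 2) → K} (hh : mat h = Matrix.diagonal D) :
    h ∈ B m K ⊓ N m K := by
  rw [mem_BN_iff]
  intro i j hij
  rw [hh, Matrix.diagonal_apply_ne _ hij]

theorem torD_last (d : Fin (m + 1) → K) (i : Fin (2 * m + 2)) (h : (i : ℕ) = m + 1) :
    torD d i = (star (d (Fin.last m)))⁻¹ := by
  have h1 : ¬ ((i : ℕ) < m + 1) := by omega
  unfold torD
  rw [dif_neg h1]
  have h2 := Fin.val_rev i
  have h3 : (⟨(i.rev : ℕ), by omega⟩ : Fin (m + 1)) = Fin.last m := by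
    apply Fin.ext
    show (i.rev : ℕ) = m
    omega
  rw [h3]

theorem star_prod_of {ι : Type*} [Fintype ι] (d : ι → K) (h : ∀ i, star (d i) = d i) :
    star (∏ i, d i) = ∏ i, d i := by
  have : ∏ i, d i ∈ K0 K := Subfield.prod_mem (K0 K) fun i _ => h i
  exact this

theorem pre_cowt [Finite K] (hq : 59 < Nat.card (K0 K)) (i k : Option (Fin m)) (hik : k ≠ i) :
    ∃ h ∈ ⨆ l, B m K ⊓ conjGen (P m K (nd l)) (U m K),
      (¬ ∃ c, Val (pi m K i) h (uni c)) ∧ ∃ c, Val (pi m K k) h (uni c) := by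
  obtain ⟨t, ht0, ht4⟩ := exists_t (K := K) hq
  have ht1 : (t : K) ≠ 0 := fun h => ht0 (Subtype.ext h)
  have hts : star (t : K) = (t : K) := t.2
  have ht2 : (t : K) ^ 2 ≠ 1 := by
    intro h
    apply ht4
    apply Subtype.ext
    show (t : K) ^ 4 = 1
    calc (t : K) ^ 4 = ((t : K) ^ 2) ^ 2 := by ring
      _ = 1 := by rw [h, one_pow]
  have ht3 : (t : K) ≠ 1 := by
    intro h
    rw [h, one_pow] at ht2
    exact ht2 rfl
  cases i with
  | none =>
    obtain ⟨h, hh⟩ := exists_tor (m := m) (K := K) (fun _ => (t : K)) (fun _ => ht1)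
      (star_prod_of _ fun _ => hts)
    have hBN := diag_mem_BN hh
    refine ⟨h, tor_mem _ (fun l => le_iSup (fun l => B m K ⊓ conjGen (P m K (nd l)) (U m K)) l)
      h hBN, ?_, ?_⟩
    · rw [val_B_iff _ _ hBN.1, hh, Matrix.diagonal_apply_eq, Matrix.diagonal_apply_eq,
        torD_lt _ _ (show ((lo m (nd none) : Fin (2 * m + 2)) : ℕ) < m + 1 from (nd none).2),
        torD_last _ _ (show ((hi m (nd none) : Fin (2 * m + 2)) : ℕ) = m + 1 from rfl)]
      rw [hts]
      intro h1
      apply ht2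
      rw [pow_two]
      nth_rewrite 2 [h1]
      exact mul_inv_cancel₀ ht1
    · cases k with
      | none => exact absurd rfl hik
      | some a =>
        rw [val_B_iff _ _ hBN.1, hh, Matrix.diagonal_apply_eq, Matrix.diagonal_apply_eq,
          torD_lt _ _ (show ((lo m (nd (some a)) : Fin (2 * m + 2)) : ℕ) < m + 1 from
            (nd (some a)).2),
          torD_lt _ _ (show ((hi m (nd (some a)) : Fin (2 * m + 2)) : ℕ) < m + 1 from
            Nat.succ_lt_succ a.2)]
  | some a =>
    obtain ⟨h, hh⟩ := exists_tor (m := m) (K := K)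
      (fun j => if (j : ℕ) ≤ (a : ℕ) then (t : K) else 1)
      (fun j => by
        beta_reduce
        split_ifs
        · exact ht1
        · exact one_ne_zero)
      (star_prod_of _ fun j => by
        beta_reduce
        split_ifs
        · exact hts
        · exact star_one K)
    have hBN := diag_mem_BN hh
    refine ⟨h, tor_mem _ (fun l => le_iSup (fun l => B m K ⊓ conjGen (P m K (nd l)) (U m K)) l)
      h hBN, ?_, ?_⟩
    · rw [val_B_iff _ _ hBN.1, hh, Matrix.diagonal_apply_eq, Matrix.diagonal_apply_eq,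
        torD_lt _ _ (show ((lo m (nd (some a)) : Fin (2 * m + 2)) : ℕ) < m + 1 from
            (nd (some a)).2),
        torD_lt _ _ (show ((hi m (nd (some a)) : Fin (2 * m + 2)) : ℕ) < m + 1 from
            Nat.succ_lt_succ a.2)]
      rw [if_pos (show ((lo m (nd (some a)) : Fin (2 * m + 2)) : ℕ) ≤ a from le_refl _),
        if_neg (show ¬ ((hi m (nd (some a)) : Fin (2 * m + 2)) : ℕ) ≤ a from
          Nat.not_succ_le_self _)]
      exact ht3
    · cases k with
      | none =>
        rw [val_B_iff _ _ hBN.1, hh, Matrix.diagonal_apply_eq, Matrix.diagonal_apply_eq,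
          torD_lt _ _ (show ((lo m (nd none) : Fin (2 * m + 2)) : ℕ) < m + 1 from (nd none).2),
          torD_last _ _ (show ((hi m (nd none) : Fin (2 * m + 2)) : ℕ) = m + 1 from rfl)]
        have ha := a.2
        rw [if_neg (show ¬ ((lo m (nd none) : Fin (2 * m + 2)) : ℕ) ≤ a by
            show ¬ m ≤ (a : ℕ)
            omega),
          if_neg (show ¬ ((Fin.last m : Fin (m + 1)) : ℕ) ≤ a by
            show ¬ m ≤ (a : ℕ)
            omega), star_one, inv_one]
      | some b =>
        rw [val_B_iff _ _ hBN.1, hh, Matrix.diagonal_apply_eq, Matrix.diagonal_apply_eq,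
          torD_lt _ _ (show ((lo m (nd (some b)) : Fin (2 * m + 2)) : ℕ) < m + 1 from
            (nd (some b)).2),
          torD_lt _ _ (show ((hi m (nd (some b)) : Fin (2 * m + 2)) : ℕ) < m + 1 from
            Nat.succ_lt_succ b.2)]
        show (if (b : ℕ) ≤ a then (t : K) else 1) = if (b : ℕ) + 1 ≤ a then (t : K) else 1
        have hab : (b : ℕ) ≠ a := by
          intro h1
          exact hik (congrArg some (Fin.ext h1))
        by_cases hle : (b : ℕ) ≤ a
        · rw [if_pos hle, if_pos (by omega)]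
        · rw [if_neg hle, if_neg (by omega)]

/-- The node with the number `n`. -/
def idx (m n : ℕ) : Option (Fin m) := if h : n < m then some ⟨n, h⟩ else none

theorem nd_idx {n : ℕ} (hn : n ≤ m) : ((nd (idx m n) : Fin (m + 1)) : ℕ) = n := by
  unfold idx
  by_cases h : n < m
  · rw [dif_pos h]
    rfl
  · rw [dif_neg h]
    show m = n
    omega

theorem idx_nd (k : Option (Fin m)) : idx m ((nd k : Fin (m + 1)) : ℕ) = k := by
  cases k with
  | none => exact dif_neg (Nat.lt_irrefl m)
  | some a => exact dif_pos a.2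

/-- The coroot element of the node `k`, parameter in the fixed field. -/
theorem exists_dg (k : Option (Fin m)) (t : K0 K) (ht : t ≠ 0) :
    ∃ b ∈ B m K ⊓ conjGen (P m K (nd k)) (U m K), mat b = Matrix.diagonal (torD fun p =>
      if (p : ℕ) = (nd k : Fin (m + 1)) then (t : K) else
        if (p : ℕ) = (nd k : Fin (m + 1)) + 1 then (t : K)⁻¹ else 1) := by
  have ht1 : (t : K) ≠ 0 := fun h => ht (Subtype.ext h)
  cases k with
  | none =>
    have h1 := LL_dg_none (m := m) t ht
    have h2 : (fun p : Fin (m + 1) => if p = Fin.last m then (t : K) else 1) =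
        fun p : Fin (m + 1) => if (p : ℕ) = (nd none : Fin (m + 1)) then (t : K) else
        if (p : ℕ) = (nd none : Fin (m + 1)) + 1 then (t : K)⁻¹ else 1 := by
      funext p
      have hp := p.2
      by_cases h : p = Fin.last m
      · have h5 : (p : ℕ) = ((nd (none : Option (Fin m)) : Fin (m + 1)) : ℕ) := congrArg Fin.val h
        rw [if_pos h, if_pos h5]
      · have h5 : ¬ (p : ℕ) = ((nd (none : Option (Fin m)) : Fin (m + 1)) : ℕ) :=
          fun h3 => h (Fin.ext h3)
        have h6 : ¬ (p : ℕ) = ((nd (none : Option (Fin m)) : Fin (m + 1)) : ℕ) + 1 := by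
          show ¬ (p : ℕ) = m + 1
          omega
        rw [if_neg h, if_neg h5, if_neg h6]
    rw [h2] at h1
    exact ⟨_, ⟨(diag_mem_BN h1).1, LL_mem_S none _⟩, h1⟩
  | some a =>
    have h1 := LL_dg_some (m := m) a (t : K) ht1
    have h2 : (fun p : Fin (m + 1) => if p = a.castSucc then (t : K) else
        if p = a.succ then (t : K)⁻¹ else 1) =
        fun p : Fin (m + 1) => if (p : ℕ) = (nd (some a) : Fin (m + 1)) then (t : K) else
        if (p : ℕ) = (nd (some a) : Fin (m + 1)) + 1 then (t : K)⁻¹ else 1 := by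
      funext p
      by_cases h : p = a.castSucc
      · have h5 : (p : ℕ) = ((nd (some a) : Fin (m + 1)) : ℕ) := congrArg Fin.val h
        rw [if_pos h, if_pos h5]
      · have h5 : ¬ (p : ℕ) = ((nd (some a) : Fin (m + 1)) : ℕ) := fun h3 => h (Fin.ext h3)
        rw [if_neg h, if_neg h5]
        by_cases h4 : p = a.succ
        · have h6 : (p : ℕ) = ((nd (some a) : Fin (m + 1)) : ℕ) + 1 := congrArg Fin.val h4
          rw [if_pos h4, if_pos h6]
        · have h6 : ¬ (p : ℕ) = ((nd (some a) : Fin (m + 1)) : ℕ) + 1 :=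
            fun h3 => h4 (Fin.ext h3)
          rw [if_neg h4, if_neg h6]
    rw [h2] at h1
    exact ⟨_, ⟨(diag_mem_BN h1).1, LL_mem_S (some a) _⟩, h1⟩

theorem pre_conn [Finite K] (hq : 59 < Nat.card (K0 K)) (A : Set (Option (Fin m)))
    (h1 : A.Nonempty) (h2 : Aᶜ.Nonempty) :
    ∃ i ∈ A, ∃ k ∈ Aᶜ, ∃ b ∈ B m K ⊓ conjGen (P m K (nd k)) (U m K),
      ¬ ∃ c, Val (pi m K i) (b ^ 2) (uni c) := by
  obtain ⟨t, ht0, ht4⟩ := exists_t (K := K) hq
  have ht1 : (t : K) ≠ 0 := fun h => ht0 (Subtype.ext h)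
  have hts : star (t : K) = (t : K) := t.2
  have ht44 : (t : K) ^ 4 ≠ 1 := by
    intro h
    apply ht4
    apply Subtype.ext
    exact h
  have ht2 : (t : K) ^ 2 ≠ 1 := by
    intro h
    apply ht44
    calc (t : K) ^ 4 = ((t : K) ^ 2) ^ 2 := by ring
      _ = 1 := by rw [h, one_pow]
  -- reduction
  have key : ∀ i k : Option (Fin m),
      (((nd i : Fin (m + 1)) : ℕ) + 1 = (nd k : Fin (m + 1)) ∨
        ((nd k : Fin (m + 1)) : ℕ) + 1 = (nd i : Fin (m + 1))) →
      ∃ b ∈ B m K ⊓ conjGen (P m K (nd k)) (U m K),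
        ¬ ∃ c, Val (pi m K i) (b ^ 2) (uni c) := by
    intro i k hik
    obtain ⟨b, hb, hmat⟩ := exists_dg k t ht0
    refine ⟨b, hb, ?_⟩
    have hb2 : mat (b ^ 2) = Matrix.diagonal (fun j => (torD (fun p : Fin (m + 1) =>
      if (p : ℕ) = (nd k : Fin (m + 1)) then (t : K) else
        if (p : ℕ) = (nd k : Fin (m + 1)) + 1 then (t : K)⁻¹ else 1) j) ^ 2) := by
      rw [pow_two, mat_mul, hmat, Matrix.diagonal_mul_diagonal]
      congr 1
      funext j
      exact (pow_two _).symm
    rw [val_B_iff _ _ (pow_mem hb.1 2), hb2, Matrix.diagonal_apply_eq,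
      Matrix.diagonal_apply_eq,
      torD_lt _ (lo m (nd i)) (show ((lo m (nd i) : Fin (2 * m + 2)) : ℕ) < m + 1 from (nd i).2)]
    have hlo : ((lo m (nd i) : Fin (2 * m + 2)) : ℕ) = (nd i : Fin (m + 1)) := rfl
    have hhi : ((hi m (nd i) : Fin (2 * m + 2)) : ℕ) = ((nd i : Fin (m + 1)) : ℕ) + 1 := rfl
    have hi2 := (nd i).2
    have hk2 := (nd k).2
    rcases hik with hik | hik
    · rw [torD_lt _ (hi m (nd i)) (by rw [hhi]; omega)]
      beta_reduce
      rw [if_neg (by rw [hlo]; omega), if_neg (by rw [hlo]; omega), if_pos (by rw [hhi]; omega),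
        one_pow]
      exact fun h => ht2 h.symm
    · beta_reduce
      rw [if_neg (by rw [hlo]; omega), if_pos (by rw [hlo]; omega)]
      by_cases hlt : ((hi m (nd i) : Fin (2 * m + 2)) : ℕ) < m + 1
      · rw [torD_lt _ (hi m (nd i)) hlt]
        beta_reduce
        rw [if_neg (by rw [hhi]; omega), if_neg (by rw [hhi]; omega), one_pow, inv_pow]
        intro h
        exact ht2 (inv_eq_one.1 h)
      · rw [torD_last _ (hi m (nd i)) (by omega)]
        beta_reduce
        rw [if_neg (by rw [Fin.val_last]; omega), if_pos (by rw [Fin.val_last]; omega),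
          star_inv₀, hts, inv_inv, inv_pow]
        intro h
        apply ht44
        calc (t : K) ^ 4 = (t : K) ^ 2 * (t : K) ^ 2 := by ring
          _ = ((t : K) ^ 2)⁻¹ * (t : K) ^ 2 := by rw [h]
          _ = 1 := inv_mul_cancel₀ (pow_ne_zero 2 ht1)
  by_contra hcon
  push Not at hcon
  have hstep : ∀ n, n < m → (idx m n ∈ A ↔ idx m (n + 1) ∈ A) := by
    intro n hn
    constructor
    · intro ha
      by_contra hb
      obtain ⟨b, hb1, hb2⟩ := key (idx m n) (idx m (n + 1)) (Or.inl (by
        rw [nd_idx (by omega), nd_idx (by omega)]))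
      obtain ⟨c, hc⟩ := hcon _ ha _ hb b hb1
      exact hb2 ⟨c, hc⟩
    · intro ha
      by_contra hb
      obtain ⟨b, hb1, hb2⟩ := key (idx m (n + 1)) (idx m n) (Or.inr (by
        rw [nd_idx (by omega), nd_idx (by omega)]))
      obtain ⟨c, hc⟩ := hcon _ ha _ hb b hb1
      exact hb2 ⟨c, hc⟩
  have hall : ∀ n, n ≤ m → (idx m n ∈ A ↔ idx m 0 ∈ A) := by
    intro n
    induction n with
    | zero => intro _; exact Iff.rfl
    | succ n ih => intro hn; exact (hstep n (by omega)).symm.trans (ih (by omega))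
  obtain ⟨i, hi⟩ := h1
  obtain ⟨k, hk⟩ := h2
  rw [← idx_nd i, hall _ (Nat.lt_succ_iff.1 (nd i).2)] at hi
  apply hk
  rw [← idx_nd k, hall _ (Nat.lt_succ_iff.1 (nd k).2)]
  exact hi

end SU43
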