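import Pool.Agent.Lib.MP_43150e_al.BN.QuotS
import Pool.Agent.Lib.MP_43150e_al.SU.Rad
import Pool.Agent.Lib.MP_43150e_al.SU.Frat
import Pool.Agent.Lib.MP_43150e_al.SU.TorF
import Pool.Agent.Lib.MP_43150e_al.SU.Rank
import Pool.Agent.Lib.MP_43150e_al.SU.Over

/-! # The datum of `Sp_{2m+2}(K)` and `SU_{2m+2}(K)` -/

set_option autoImplicit false

namespace SU43

open Matrix BN43

variable {m : ℕ} {K : Type} [Field K] [StarRing K]

theorem Fl_char (p : ℕ) [CharP K p] : ∀ i : Option (Fin m), CharP (Fl m K i) p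
  | none => inferInstanceAs (CharP (K0 K) p)
  | some _ => inferInstanceAs (CharP K p)

theorem Fl_big [Finite K] (hq : 59 < Nat.card (K0 K)) :
    ∀ i : Option (Fin m), 59 < Fintype.card (Fl m K i) := by
  intro i
  rw [← Nat.card_eq_fintype_card]
  cases i with
  | none => exact hq
  | some a =>
    exact lt_of_lt_of_le hq (Nat.card_le_card_of_injective (K0 K).subtype
      (K0 K).subtype.injective)

/-- The datum of the group. -/
noncomputable def pre (m : ℕ) (K : Type) [Field K] [StarRing K] [Finite K] (p : ℕ)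
    [Fact p.Prime] [CharP K p] (hm : 1 ≤ m) (hq : 59 < Nat.card (K0 K)) :
    PreDatum (grp m K) where
  p := p
  prime := Fact.out
  U := U m K
  B := B m K
  N := N m K
  ι := Option (Fin m)
  finι := inferInstance
  F := Fl m K
  field := instFieldFl m K
  fint := instFintypeFl m K
  char := Fl_char p
  big := Fl_big hq
  P := fun i => P m K (nd i)
  π := pi m K
  Z_B := Z_le_B
  Z_N := Z_le_N
  Z_U := Z_U
  Z_val := Z_val
  pgroup := U_pgroup p
  U_le := U_le_B
  norm := U_norm
  cop := U_cop p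
  comm := BN_comm
  split := BN_split
  torus := BN_torus
  bruhat := fun t => by
    obtain ⟨u, hu, n, hn, u', hu', h⟩ := bruhat t
    exact ⟨u, U_le_B hu, n, hn, u', U_le_B hu', h⟩
  B_le := fun i => B_le_P (nd i)
  up_iff := pi_up_iff
  uni_of := pi_uni_of
  uni_sur := fun i c => ⟨_, LL_up_mem i c, val_LL_up i c⟩
  sl_sur := fun i s => ⟨_, val_LL i s⟩
  rad := pi_rad
  frat := pi_frat hq
  faith := pi_faith
  cowt := pre_cowt hq
  conn := pre_conn hq
  opp := pre_opp
  rank := pre_rank hm hq
  minp := pre_minp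
  gen_B := fun L _ hU hL => pre_gen_B L hU hL
  gen_P := pre_gen_P
  core := pre_core

end SU43
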