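import Pool.Agent.Lib.MP_43150e_al.BN.CritG
import Pool.Agent.Lib.MP_43150e_al.SU.PreSU
import Pool.Agent.Lib.MP_43150e_al.SU.CommP

/-! # Admissible automorphisms of the classical groups -/

set_option autoImplicit false

namespace SU43

open Matrix BN43 Spr43

variable {m : ℕ} {K : Type} [Field K] [StarRing K]

/-- The maximal parabolic subgroups are permuted. -/
theorem adm_max [Finite K] {p : ℕ} [Fact p.Prime] [CharP K p] {hm : 1 ≤ m}
    {hq : 59 < Nat.card (K0 K)} {Γ Ω : Type*} [Group Γ] [MulAction Γ Ω]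
    {j : grp m K ⧸ Subgroup.center (grp m K) →* Γ} {x : Ω}
    {β : (grp m K ⧸ Subgroup.center (grp m K)) ≃* (grp m K ⧸ Subgroup.center (grp m K))}
    {t : grp m K} {σ : Equiv.Perm (Option (Fin m))}
    (h : (pre m K p hm hq).Adm j x β t σ) (c : Option (Fin m)) (y : grp m K) :
    β (pj (grp m K) y) ∈ (M m K (nd c)).map (pj (grp m K)) ↔
      t⁻¹ * y * t ∈ M m K (nd (σ c)) :=
  h.max (fun c : Option (Fin m) => M m K (nd c)) (fun c => B_le_M (nd c))
    (fun c L hL => overgroup c L hL) c y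

/-- The ends of the diagram are permuted. -/
theorem adm_ends [Finite K] {p : ℕ} [Fact p.Prime] [CharP K p] {hm : 1 ≤ m}
    {hq : 59 < Nat.card (K0 K)} {Γ Ω : Type*} [Group Γ] [MulAction Γ Ω]
    {j : grp m K ⧸ Subgroup.center (grp m K) →* Γ} {x : Ω}
    {β : (grp m K ⧸ Subgroup.center (grp m K)) ≃* (grp m K ⧸ Subgroup.center (grp m K))}
    {t : grp m K} {σ : Equiv.Perm (Option (Fin m))}
    (h : (pre m K p hm hq).Adm j x β t σ) (i : Option (Fin m))
    (hi : nd i = 0 ∨ nd i = Fin.last m) : nd (σ i) = 0 ∨ nd (σ i) = Fin.last m := by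
  refine ends σ (fun i k hik => ?_) i hi
  have h1 := comm_iff (m := m) (K := K) i k hik
  have h2 := comm_iff (m := m) (K := K) (σ i) (σ k) (fun h' => hik (σ.injective h'))
  have h3 : (∀ x ∈ P m K (nd i), ∀ y ∈ P m K (nd k), ∃ y' ∈ P m K (nd k),
      ∃ x' ∈ P m K (nd i), x * y = y' * x') ↔
      (∀ x ∈ P m K (nd (σ i)), ∀ y ∈ P m K (nd (σ k)), ∃ y' ∈ P m K (nd (σ k)),
      ∃ x' ∈ P m K (nd (σ i)), x * y = y' * x') := h.comm i k
  exact not_iff_not.1 (h1.symm.trans (h3.trans h2))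

/-- An overgroup of `B` which does not contain `P i` lies in `M i`. -/
theorem st_le_M [Finite K] {Γ Ω : Type*} [Group Γ] [MulAction Γ Ω]
    (j : grp m K ⧸ Subgroup.center (grp m K) →* Γ) (x : Ω)
    (hB : ∀ b ∈ B m K, j (pj (grp m K) b) • x = x) (i : Option (Fin m))
    (hi : ¬ P m K (nd i) ≤ stG j x) : stG j x ≤ M m K (nd i) :=
  (overgroup i (stG j x) (fun b hb => (mem_stG j x b).2 (hB b hb))).2 hi

end SU43
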