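import Pool.Agent.Lib.MP_43150e_al.SU.Str

/-! # Siegel transformations -/

set_option autoImplicit false

namespace SU43

open Matrix BN43

variable {m : ℕ} {K : Type} [Field K] [StarRing K]

/-- The matrix with column `k` equal to `e_k + v`, row `rev k` dual to it, identity elsewhere
(`v k = 0`). -/
def sie (k : Fin (2 * m + 2)) (v : Fin (2 * m + 2) → K) : Mat m K :=
  Matrix.of fun a b => (if a = b then 1 else 0) + (if b = k then v a else 0) -
    (if a = k.rev ∧ b ≠ k then sg m K k * sg m K b.rev * star (v b.rev) else 0)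

/-- The isotropy condition for `e_k + v`. -/
def iso (k : Fin (2 * m + 2)) (v : Fin (2 * m + 2) → K) : Prop :=
  v k = 0 ∧ (∑ a, star (v a) * sg m K a * v a.rev) + sg m K k * (v k.rev - star (v k.rev)) = 0

namespace SieAux

theorem rev_ne (k : Fin (2 * m + 2)) : k.rev ≠ k := by
  intro h1
  have h2 := congrArg Fin.val h1
  rw [Fin.val_rev] at h2
  have := k.2
  omega

theorem sg_rev (k : Fin (2 * m + 2)) : sg m K k.rev = -sg m K k := by
  have h4 : (k.rev : ℕ) = 2 * m + 2 - (k + 1) := Fin.val_rev k
  have h5 := k.2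
  unfold sg
  by_cases h6 : (k : ℕ) < m + 1
  · rw [if_pos h6, if_neg (by omega)]
  · rw [if_neg h6, if_pos (by omega), neg_neg]

theorem sg_sq (k : Fin (2 * m + 2)) : sg m K k * sg m K k = 1 := by
  unfold sg
  split_ifs <;> ring

theorem star_sg (k : Fin (2 * m + 2)) : star (sg m K k) = sg m K k := by
  unfold sg
  split_ifs
  · exact star_one K
  · rw [star_neg, star_one]

theorem split2 (k : Fin (2 * m + 2)) (f : Fin (2 * m + 2) → K) :
    ∑ c, f c = f k + f k.rev + ∑ c ∈ (Finset.univ.erase k).erase k.rev, f c := by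
  rw [add_assoc, Finset.add_sum_erase _ f (Finset.mem_erase.2 ⟨rev_ne k, Finset.mem_univ _⟩),
    Finset.add_sum_erase _ f (Finset.mem_univ k)]

theorem J_star : (J m K)ᴴ = -J m K := by
  ext i j
  rw [conjTranspose_apply, Matrix.neg_apply]
  simp only [J, Matrix.of_apply]
  by_cases h : j = i.rev
  · have h1 : i = j.rev := by rw [h, Fin.rev_rev]
    rw [if_pos h1, if_pos h]
    have h2 := sg_rev (K := K) i
    have h3 := star_sg (K := K) j
    unfold sg at h2 h3
    rw [h3, h]
    exact h2
  · have h1 : i ≠ j.rev := by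
      rintro rfl
      exact h (Fin.rev_rev j).symm
    rw [if_neg h1, if_neg h, star_zero, neg_zero]

theorem form_apply (A : Mat m K) (a b : Fin (2 * m + 2)) :
    (A * J m K * Aᴴ) a b = ∑ c, A a c * sg m K c * star (A b c.rev) := by
  rw [Matrix.mul_apply]
  refine Fintype.sum_equiv Fin.revPerm _ _ fun c => ?_
  rw [mul_J_apply, conjTranspose_apply, Fin.revPerm_apply, Fin.rev_rev]

theorem form_star (A : Mat m K) (a b : Fin (2 * m + 2)) :
    (A * J m K * Aᴴ) a b = -star ((A * J m K * Aᴴ) b a) := by
  rw [← conjTranspose_apply, conjTranspose_mul, conjTranspose_mul, conjTranspose_conjTranspose,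
    J_star, Matrix.neg_mul, Matrix.mul_neg, Matrix.neg_apply, neg_neg, Matrix.mul_assoc]

/-- The form with a sparse row. -/
theorem form_right (k b : Fin (2 * m + 2)) (v x : Fin (2 * m + 2) → K) :
    ∑ c, x c * sg m K c * star ((if b = c.rev then 1 else 0) + (if c.rev = k then v b else 0)) =
      x b.rev * sg m K b.rev + x k.rev * sg m K k.rev * star (v b) := by
  have h1 : ∀ c : Fin (2 * m + 2), x c * sg m K c *
      star ((if b = c.rev then 1 else 0) + (if c.rev = k then v b else 0)) =
      (if c = b.rev then x c * sg m K c else 0) +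
        (if c = k.rev then x c * sg m K c * star (v b) else 0) := by
    intro c
    have e1 : (b = c.rev) ↔ (c = b.rev) :=
      ⟨fun h => by rw [h, Fin.rev_rev], fun h => by rw [h, Fin.rev_rev]⟩
    have e2 : (c.rev = k) ↔ (c = k.rev) :=
      ⟨fun h => by rw [← h, Fin.rev_rev], fun h => by rw [h, Fin.rev_rev]⟩
    rw [star_add, mul_add]
    congr 1
    · by_cases h : c = b.rev
      · rw [if_pos (e1.2 h), if_pos h, star_one, mul_one]
      · rw [if_neg (fun h' => h (e1.1 h')), if_neg h, star_zero, mul_zero]
    · by_cases h : c = k.rev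
      · rw [if_pos (e2.2 h), if_pos h]
      · rw [if_neg (fun h' => h (e2.1 h')), if_neg h, star_zero, mul_zero]
  rw [Finset.sum_congr rfl fun c _ => h1 c, Finset.sum_add_distrib, Finset.sum_ite_eq',
    Finset.sum_ite_eq', if_pos (Finset.mem_univ _), if_pos (Finset.mem_univ _)]

theorem sie_apply (k : Fin (2 * m + 2)) (v : Fin (2 * m + 2) → K) (a b : Fin (2 * m + 2)) :
    sie k v a b = (if a = b then 1 else 0) + (if b = k then v a else 0) -
      (if a = k.rev ∧ b ≠ k then sg m K k * sg m K b.rev * star (v b.rev) else 0) := rfl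

theorem sie_apply_of_ne {k : Fin (2 * m + 2)} {v : Fin (2 * m + 2) → K} {a : Fin (2 * m + 2)}
    (ha : a ≠ k.rev) (c : Fin (2 * m + 2)) :
    sie k v a c = (if a = c then 1 else 0) + (if c = k then v a else 0) := by
  rw [sie_apply, if_neg (show ¬ (a = k.rev ∧ c ≠ k) from fun h => ha h.1), sub_zero]

theorem sie_rev_apply {k : Fin (2 * m + 2)} {v : Fin (2 * m + 2) → K} {c : Fin (2 * m + 2)}
    (hc : c ≠ k) : sie k v k.rev c = (if k.rev = c then 1 else 0) -
      sg m K k * sg m K c.rev * star (v c.rev) := by
  rw [sie_apply, if_neg hc, if_pos (show k.rev = k.rev ∧ c ≠ k from ⟨rfl, hc⟩), add_zero]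

theorem J_apply (a b : Fin (2 * m + 2)) : J m K a b = if b = a.rev then sg m K a else 0 := rfl

/-- The columns of an element of the group are isotropic. -/
theorem col_iso (A : grp m K) (j : Fin (2 * m + 2)) :
    ∑ a, star (mat A a j) * sg m K a * mat A a.rev j = 0 := by
  have h1 : (mat A)ᴴ * J m K * mat A = J m K := by
    have h2 := mat_inv_mul A
    rw [mat_inv, Matrix.neg_mul] at h2
    have h3 : J m K * (-(J m K * (mat A)ᴴ * J m K * mat A)) = J m K * 1 := by rw [h2]
    rw [mul_one, mul_neg, Matrix.mul_assoc, Matrix.mul_assoc, ← Matrix.mul_assoc (J m K) (J m K),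
      J_mul_J, Matrix.neg_mul, Matrix.one_mul, neg_neg, ← Matrix.mul_assoc] at h3
    exact h3
  have h2 : ((mat A)ᴴ * J m K * mat A) j j = J m K j j := by rw [h1]
  rw [J_apply, if_neg (fun h => rev_ne j h.symm), Matrix.mul_assoc, Matrix.mul_apply] at h2
  rw [← h2]
  refine Finset.sum_congr rfl fun a _ => ?_
  rw [J_mul_apply, conjTranspose_apply]
  ring

end SieAux

open SieAux

theorem sie_pres (k : Fin (2 * m + 2)) (v : Fin (2 * m + 2) → K) (h : iso k v) :
    Pres (sie k v) := by
  obtain ⟨hk, hs⟩ := h
  have hrow : sie k v k.rev k.rev = 1 := by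
    rw [sie_rev_apply (rev_ne k), if_pos rfl, Fin.rev_rev, hk, star_zero, mul_zero, sub_zero]
  have hrk : sie k v k.rev k = v k.rev := by
    rw [sie_apply, if_neg (rev_ne k), if_pos rfl,
      if_neg (show ¬ (k.rev = k.rev ∧ k ≠ k) from fun h => h.2 rfl), zero_add, sub_zero]
  -- `b ≠ rev k`
  have hb : ∀ a b, b ≠ k.rev → (sie k v * J m K * (sie k v)ᴴ) a b = J m K a b := by
    intro a b hbk
    rw [form_apply]
    have h1 : ∀ c : Fin (2 * m + 2), sie k v a c * sg m K c * star (sie k v b c.rev) =
        sie k v a c * sg m K c *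
          star ((if b = c.rev then 1 else 0) + (if c.rev = k then v b else 0)) := by
      intro c
      rw [sie_apply_of_ne hbk]
    rw [Finset.sum_congr rfl fun c _ => h1 c, form_right k b v (fun c => sie k v a c), J_apply]
    have hbr : b.rev ≠ k := by
      intro h2
      exact hbk (by rw [← h2, Fin.rev_rev])
    by_cases ha : a = k.rev
    · rw [ha, hrow, sie_rev_apply hbr, Fin.rev_rev, Fin.rev_rev, sg_rev, sg_rev]
      by_cases hbk2 : b = k
      · subst hbk2
        rw [if_pos rfl, if_pos rfl, hk, star_zero]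
        ring
      · rw [if_neg (fun h3 => hbk2 (Fin.rev_injective h3).symm), if_neg hbk2]
        have h4 := sg_sq (K := K) b
        linear_combination (sg m K k * star (v b)) * h4
    · rw [sie_apply_of_ne ha, sie_apply_of_ne ha, if_neg hbr, if_neg ha, if_neg (rev_ne k)]
      by_cases hab : b = a.rev
      · have h3 : a = b.rev := by rw [hab, Fin.rev_rev]
        rw [if_pos h3, if_pos hab, ← h3]
        ring
      · have h3 : a ≠ b.rev := by
          intro h4
          exact hab (by rw [h4, Fin.rev_rev])
        rw [if_neg h3, if_neg hab]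
        ring
  show sie k v * J m K * (sie k v)ᴴ = J m K
  ext a b
  by_cases hbk : b = k.rev
  · by_cases hak : a = k.rev
    · rw [hak, hbk, J_apply, Fin.rev_rev, if_neg (rev_ne k), form_apply, split2 k, hrk,
        Fin.rev_rev, hrow, hrk, star_one, mul_one, one_mul, sg_rev]
      rw [split2 k, hk, Fin.rev_rev, hk, star_zero, zero_mul, zero_mul, mul_zero, zero_add,
        zero_add] at hs
      have h1 : ∑ c ∈ (Finset.univ.erase k).erase k.rev,
          sie k v k.rev c * sg m K c * star (sie k v k.rev c.rev) =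
          ∑ c ∈ (Finset.univ.erase k).erase k.rev, star (v c) * sg m K c * v c.rev := by
        refine Finset.sum_nbij' Fin.rev Fin.rev ?_ ?_ ?_ ?_ ?_
        · intro c hc
          rw [Finset.mem_erase, Finset.mem_erase] at hc ⊢
          refine ⟨fun h => hc.2.1 (Fin.rev_injective h), fun h => hc.1 ?_, Finset.mem_univ _⟩
          rw [← h, Fin.rev_rev]
        · intro c hc
          rw [Finset.mem_erase, Finset.mem_erase] at hc ⊢
          refine ⟨fun h => hc.2.1 (Fin.rev_injective h), fun h => hc.1 ?_, Finset.mem_univ _⟩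
          rw [← h, Fin.rev_rev]
        · intro c _
          exact Fin.rev_rev c
        · intro c _
          exact Fin.rev_rev c
        · intro c hc
          rw [Finset.mem_erase, Finset.mem_erase] at hc
          have h2 : c.rev ≠ k := by
            intro h
            exact hc.1 (by rw [← h, Fin.rev_rev])
          rw [sie_rev_apply hc.2.1, sie_rev_apply h2, if_neg (fun h => hc.1 h.symm),
            if_neg (fun h => hc.2.1 (Fin.rev_injective h).symm), Fin.rev_rev]
          rw [zero_sub, zero_sub, star_neg, star_mul', star_mul', star_sg, star_sg, star_star]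
          have h3 := sg_sq (K := K) k
          have h4 := sg_sq (K := K) c
          linear_combination (sg m K c.rev * star (v c.rev) * v c * sg m K k * sg m K k) * h4 +
            (sg m K c.rev * star (v c.rev) * v c) * h3
      rw [h1]
      linear_combination hs
    · rw [form_star, hbk, hb _ _ hak, J_apply, J_apply, Fin.rev_rev]
      by_cases h1 : a = k
      · rw [if_pos h1, if_pos (by rw [h1]), star_sg, h1, sg_rev, neg_neg]
      · rw [if_neg h1, if_neg (fun h2 => h1 (Fin.rev_injective h2).symm), star_zero, neg_zero]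
  · exact hb a b hbk

theorem sie_col (k : Fin (2 * m + 2)) (v : Fin (2 * m + 2) → K) (h : v k = 0)
    (a : Fin (2 * m + 2)) : sie k v a k = (if a = k then 1 else 0) + v a := by
  rw [SieAux.sie_apply, if_pos (show k = k from rfl),
    if_neg (show ¬ (a = k.rev ∧ k ≠ k) from fun h => h.2 rfl), sub_zero]

theorem sie_UU (k : Fin (2 * m + 2)) (v : Fin (2 * m + 2) → K)
    (hv : ∀ a, k ≤ a → v a = 0) : Lin43.UU (sie k v) := by
  constructor
  · intro i j hij
    have hne : i ≠ j := by
      rintro rfl
      exact lt_irrefl _ hij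
    rw [sie_apply, if_neg hne]
    by_cases hj : j = k
    · rw [if_pos hj, if_neg (show ¬ (i = k.rev ∧ j ≠ k) from fun h => h.2 hj),
        hv i (by rw [← hj]; exact le_of_lt hij)]
      ring
    · rw [if_neg hj]
      by_cases hi : i = k.rev
      · rw [if_pos (show i = k.rev ∧ j ≠ k from ⟨hi, hj⟩), hv j.rev, star_zero]
        · ring
        · rw [hi] at hij
          have h1 : k.rev.rev ≤ j.rev := Fin.rev_le_rev.2 (le_of_lt hij)
          rwa [Fin.rev_rev] at h1
      · rw [if_neg (show ¬ (i = k.rev ∧ j ≠ k) from fun h => hi h.1)]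
        ring
  · intro i
    rw [sie_apply, if_pos (show i = i from rfl)]
    by_cases hi : i = k
    · rw [if_pos hi, if_neg (show ¬ (i = k.rev ∧ i ≠ k) from fun h => h.2 hi), hi, hv k le_rfl]
      ring
    · rw [if_neg hi]
      by_cases hi2 : i = k.rev
      · rw [if_pos (show i = k.rev ∧ i ≠ k from ⟨hi2, hi⟩), hi2, Fin.rev_rev, hv k le_rfl,
          star_zero]
        ring
      · rw [if_neg (show ¬ (i = k.rev ∧ i ≠ k) from fun h => hi2 h.1)]
        ring

/-- `U` is transitive on the isotropic vectors with leading term `e_k`. -/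
theorem exists_col (k : Fin (2 * m + 2)) (v : Fin (2 * m + 2) → K) (h : iso k v)
    (hv : ∀ a, k ≤ a → v a = 0) : ∃ u ∈ U m K, ∀ a, mat u a k = (if a = k then 1 else 0) + v a := by
  have hUU := sie_UU k v hv
  have hdet : (sie k v).det = 1 := by
    rw [hUU.1.det]
    exact Finset.prod_eq_one fun i _ => hUU.2 i
  exact ⟨⟨⟨sie k v, hdet⟩, sie_pres k v h⟩, hUU, sie_col k v h.1⟩

/-- A column of an element of the group, scaled to have leading entry one, satisfies the isotropy
condition. -/
theorem iso_col (A : grp m K) (j k : Fin (2 * m + 2)) (hk : mat A k j ≠ 0)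
    (h : ∀ a, k < a → mat A a j = 0) :
    iso k (fun a => if a = k then 0 else mat A a j * (mat A k j)⁻¹) := by
  refine ⟨if_pos rfl, ?_⟩
  have h1 := col_iso A j
  rw [split2 k, Fin.rev_rev, sg_rev] at h1
  rw [split2 k]
  beta_reduce
  rw [if_pos rfl, Fin.rev_rev, if_pos rfl, star_zero, zero_mul, zero_mul, mul_zero,
    zero_add, zero_add, if_neg (rev_ne k), star_mul', star_inv₀]
  have hsk : star (mat A k j) ≠ 0 := star_ne_zero.2 hk
  have h2 : ∑ c ∈ (Finset.univ.erase k).erase k.rev,
      star (if c = k then 0 else mat A c j * (mat A k j)⁻¹) * sg m K c *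
        (if c.rev = k then 0 else mat A c.rev j * (mat A k j)⁻¹) =
      (star (mat A k j))⁻¹ * (mat A k j)⁻¹ *
        ∑ c ∈ (Finset.univ.erase k).erase k.rev, star (mat A c j) * sg m K c * mat A c.rev j := by
    rw [Finset.mul_sum]
    refine Finset.sum_congr rfl fun c hc => ?_
    rw [Finset.mem_erase, Finset.mem_erase] at hc
    have h3 : c.rev ≠ k := by
      intro h
      exact hc.1 (by rw [← h, Fin.rev_rev])
    rw [if_neg hc.2.1, if_neg h3, star_mul', star_inv₀]
    ring
  rw [h2]
  have h3 : ∑ c ∈ (Finset.univ.erase k).erase k.rev,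
      star (mat A c j) * sg m K c * mat A c.rev j =
      -(star (mat A k j) * sg m K k * mat A k.rev j +
        star (mat A k.rev j) * -sg m K k * mat A k j) := by
    linear_combination h1
  rw [h3]
  field_simp
  ring

end SU43
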