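import Pool.Agent.Lib.MP_43150e_al.SU.LLS
import Pool.Agent.Lib.MP_43150e_al.SU.StrN

/-! # The torus -/

set_option autoImplicit false

namespace SU43

open Matrix BN43

variable {m : ℕ} {K : Type} [Field K] [StarRing K]

/-- The diagonal of the torus element with parameters `d`. -/
def torD (d : Fin (m + 1) → K) (i : Fin (2 * m + 2)) : K :=
  if h : (i : ℕ) < m + 1 then d ⟨i, h⟩
  else (star (d ⟨(i.rev : ℕ), by have := Fin.val_rev i; omega⟩))⁻¹

theorem torD_lt (d : Fin (m + 1) → K) (i : Fin (2 * m + 2)) (h : (i : ℕ) < m + 1) :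
    torD d i = d ⟨i, h⟩ := dif_pos h

theorem torD_ge (d : Fin (m + 1) → K) (i : Fin (2 * m + 2)) (h : ¬ (i : ℕ) < m + 1)
    (h' : (i.rev : ℕ) < m + 1) : torD d i = (star (d ⟨(i.rev : ℕ), h'⟩))⁻¹ := dif_neg h

theorem torD_ee (d : Fin (m + 1) → K) (p : Fin (m + 1)) : torD d (ee m p) = d p :=
  torD_lt d (ee m p) p.2

theorem torD_prod (d : Fin (m + 1) → K) :
    ∏ i, torD d i = (∏ i, d i) * (star (∏ i, d i))⁻¹ := by
  have hc : (m + 1) + (m + 1) = 2 * m + 2 := by omega
  rw [← Fin.prod_congr' (torD d) hc, Fin.prod_univ_add]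
  congr 1
  · apply Finset.prod_congr rfl
    intro i _
    exact torD_lt d _ i.2
  · have h1 : ∀ i : Fin (m + 1), torD d ((Fin.natAdd (m + 1) i).cast hc) =
        (star (d i.rev))⁻¹ := by
      intro i
      have h2 : ((((Fin.natAdd (m + 1) i).cast hc : Fin (2 * m + 2)).rev : Fin (2 * m + 2)) : ℕ) =
          2 * m + 2 - ((m + 1 + (i : ℕ)) + 1) := Fin.val_rev _
      have h3 : (i.rev : ℕ) = m + 1 - ((i : ℕ) + 1) := Fin.val_rev i
      have h4 := i.2
      have h5 : ((((Fin.natAdd (m + 1) i).cast hc : Fin (2 * m + 2)).rev : Fin (2 * m + 2)) : ℕ) <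
          m + 1 := by omega
      rw [torD_ge d _ (by
        show ¬ (m + 1 + (i : ℕ)) < m + 1
        omega) h5]
      have h6 : (⟨_, h5⟩ : Fin (m + 1)) = i.rev := Fin.ext (by
        show ((((Fin.natAdd (m + 1) i).cast hc : Fin (2 * m + 2)).rev : Fin (2 * m + 2)) : ℕ) = _
        omega)
      rw [h6]
    rw [Finset.prod_congr rfl (fun i _ => h1 i)]
    have h7 : (star (∏ i, d i))⁻¹ = ∏ i, (star (d i))⁻¹ := by
      rw [Finset.prod_inv_distrib]
      congr 1
      exact map_prod (starRingEnd K) d Finset.univ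
    rw [h7]
    exact Equiv.prod_comp Fin.revPerm (fun i => (star (d i))⁻¹)

/-- The torus elements. -/
theorem exists_tor (d : Fin (m + 1) → K) (h0 : ∀ i, d i ≠ 0) (h1 : star (∏ i, d i) = ∏ i, d i) :
    ∃ h : grp m K, mat h = Matrix.diagonal (torD d) := by
  apply exists_diag
  · intro i
    have hr : (i.rev : ℕ) = 2 * m + 2 - ((i : ℕ) + 1) := Fin.val_rev i
    have hi := i.2
    by_cases h : (i : ℕ) < m + 1
    · have h' : ((i.rev.rev : Fin (2 * m + 2)) : ℕ) < m + 1 := by rw [Fin.rev_rev]; exact h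
      rw [torD_lt d i h, torD_ge d i.rev (by omega) h', star_inv₀, star_star]
      have h2 : (⟨_, h'⟩ : Fin (m + 1)) = ⟨i, h⟩ :=
        Fin.ext (show ((i.rev.rev : Fin (2 * m + 2)) : ℕ) = (i : ℕ) by rw [Fin.rev_rev])
      rw [h2]
      exact mul_inv_cancel₀ (h0 _)
    · have h' : (i.rev : ℕ) < m + 1 := by omega
      rw [torD_ge d i h h', torD_lt d i.rev h']
      exact inv_mul_cancel₀ (star_ne_zero.2 (h0 _))
  · rw [torD_prod, h1]
    exact mul_inv_cancel₀ (Finset.prod_ne_zero_iff.2 fun i _ => h0 i)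

/-- A diagonal element is given by its diagonal. -/
theorem mat_diag (h : grp m K) (hh : h ∈ B m K ⊓ N m K) :
    mat h = Matrix.diagonal fun i => mat h i i := by
  ext i j
  by_cases hij : i = j
  · subst hij
    rw [Matrix.diagonal_apply_eq]
  · rw [Matrix.diagonal_apply_ne _ hij]
    exact (mem_BN_iff h).1 hh i j hij

/-- The parameters of a diagonal element. -/
theorem mat_tor (h : grp m K) (hh : h ∈ B m K ⊓ N m K) :
    mat h = Matrix.diagonal (torD fun p => mat h (ee m p) (ee m p)) := by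
  rw [mat_diag h hh]
  congr 1
  funext i
  have hr : (i.rev : ℕ) = 2 * m + 2 - ((i : ℕ) + 1) := Fin.val_rev i
  have hi := i.2
  by_cases h1 : (i : ℕ) < m + 1
  · rw [torD_lt _ i h1]
    have h2 : ee m (⟨i, h1⟩ : Fin (m + 1)) = i := Fin.ext rfl
    rw [h2, Matrix.diagonal_apply_eq]
  · have h' : (i.rev : ℕ) < m + 1 := by omega
    rw [torD_ge _ i h1 h']
    have h2 : ee m (⟨(i.rev : ℕ), h'⟩ : Fin (m + 1)) = i.rev := Fin.ext rfl
    rw [h2, Matrix.diagonal_apply_eq]
    exact eq_inv_of_mul_eq_one_left (diag_rel h hh.1 i)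

/-- Every diagonal element is a torus element. -/
theorem eq_tor (h : grp m K) (hh : h ∈ B m K ⊓ N m K) : ∃ d : Fin (m + 1) → K, (∀ i, d i ≠ 0) ∧
    star (∏ i, d i) = ∏ i, d i ∧ mat h = Matrix.diagonal (torD d) := by
  have h1 := mat_tor h hh
  have h0 : ∀ p : Fin (m + 1), mat h (ee m p) (ee m p) ≠ 0 := fun p => diag_ne h hh.1 _
  refine ⟨fun p => mat h (ee m p) (ee m p), h0, ?_, h1⟩
  have h2 := mat_det h
  rw [h1, Matrix.det_diagonal, torD_prod] at h2
  have h3 : (∏ p : Fin (m + 1), mat h (ee m p) (ee m p)) ≠ 0 :=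
    Finset.prod_ne_zero_iff.2 fun i _ => h0 i
  have h4 : (star (∏ p : Fin (m + 1), mat h (ee m p) (ee m p))) ≠ 0 := star_ne_zero.2 h3
  exact ((mul_inv_eq_one₀ h4).1 h2).symm

omit [StarRing K] in
theorem b2_diag {n : ℕ} {p q : Fin n} (hpq : p ≠ q) (x y : K) :
    b2 p q !![x, 0; 0, y] = Matrix.diagonal fun i => if i = p then x else if i = q then y else 1 := by
  ext i j
  unfold b2
  simp only [Matrix.of_apply, Matrix.cons_val', Matrix.cons_val_zero, Matrix.cons_val_one,
    Matrix.cons_val_fin_one]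
  by_cases hij : i = j
  · subst hij
    rw [Matrix.diagonal_apply_eq]
    by_cases hi : i = p
    · rw [if_pos hi, if_pos hi, if_pos hi]
    · rw [if_neg hi, if_neg hi, if_neg hi, if_pos rfl]
      by_cases hi' : i = q
      · rw [if_pos hi', if_pos hi', if_pos hi']
      · rw [if_neg hi', if_neg hi']
  · rw [Matrix.diagonal_apply_ne _ hij]
    by_cases hi : i = p
    · subst hi
      rw [if_pos rfl, if_neg (Ne.symm hij)]
      split_ifs <;> rfl
    · rw [if_neg hi]
      by_cases hi' : i = q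
      · subst hi'
        rw [if_pos rfl, if_neg (Ne.symm hij)]
        split_ifs <;> rfl
      · rw [if_neg hi', if_neg hij]

theorem ee_inj {p q : Fin (m + 1)} (h : ee m p = ee m q) : p = q :=
  Fin.ext (show ((ee m p : Fin (2 * m + 2)) : ℕ) = (ee m q : Fin (2 * m + 2)) by rw [h])

theorem ff_val (p : Fin (m + 1)) : ((ff m p : Fin (2 * m + 2)) : ℕ) = 2 * m + 2 - ((p : ℕ) + 1) :=
  Fin.val_rev _

theorem eq_ee_iff (i : Fin (2 * m + 2)) (h : (i : ℕ) < m + 1) (p : Fin (m + 1)) :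
    i = ee m p ↔ (⟨i, h⟩ : Fin (m + 1)) = p :=
  ⟨fun h' => Fin.ext (show (i : ℕ) = (ee m p : Fin (2 * m + 2)) by rw [h']),
    fun h' => Fin.ext (show (i : ℕ) = (p : ℕ) by rw [← h'])⟩

theorem eq_ff_iff (i : Fin (2 * m + 2)) (h : (i.rev : ℕ) < m + 1) (p : Fin (m + 1)) :
    i = ff m p ↔ (⟨(i.rev : ℕ), h⟩ : Fin (m + 1)) = p := by
  constructor
  · rintro rfl
    apply Fin.ext
    show (((ff m p).rev : Fin (2 * m + 2)) : ℕ) = p
    unfold ff
    rw [Fin.rev_rev]
    rfl
  · rintro rfl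
    unfold ff
    have h2 : ee m (⟨(i.rev : ℕ), h⟩ : Fin (m + 1)) = i.rev := Fin.ext rfl
    rw [h2, Fin.rev_rev]

theorem ne_ff (i : Fin (2 * m + 2)) (h : (i : ℕ) < m + 1) (p : Fin (m + 1)) : i ≠ ff m p := by
  intro h'
  have h1 := congrArg Fin.val h'
  rw [ff_val] at h1
  have := p.2
  omega

theorem ne_ee (i : Fin (2 * m + 2)) (h : ¬ (i : ℕ) < m + 1) (p : Fin (m + 1)) : i ≠ ee m p := by
  intro h'
  have h1 : (i : ℕ) = (p : ℕ) := congrArg Fin.val h'
  have := p.2
  omega

/-- The coroot elements of the nodes `a < m`. -/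
theorem LL_dg_some (a : Fin m) (t : K) (ht : t ≠ 0) :
    mat (LL m K (some a) (dg2 (F := K) t ht)) = Matrix.diagonal (torD fun p =>
      if p = a.castSucc then t else if p = a.succ then t⁻¹ else 1) := by
  have hne : a.castSucc ≠ a.succ := ne_of_lt (Fin.castSucc_lt_succ)
  show lev2 a.castSucc a.succ (dg2 (F := K) t ht).1 = _
  unfold lev2
  have h1 : (dg2 (F := K) t ht).1 = !![t, 0; 0, t⁻¹] := rfl
  have h2 : til (K := K) !![t, 0; 0, t⁻¹] = !![star t, 0; 0, star t⁻¹] := by
    ext i j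
    fin_cases i <;> fin_cases j <;> simp [til]
  have hne1 : ee m a.castSucc ≠ ee m a.succ := fun h => hne (ee_inj h)
  have hne2 : ff m a.succ ≠ ff m a.castSucc := fun h =>
    hne (ee_inj (Fin.rev_injective h)).symm
  rw [h1, h2, b2_diag hne1, b2_diag hne2, Matrix.diagonal_mul_diagonal]
  congr 1
  funext i
  have hr : (i.rev : ℕ) = 2 * m + 2 - ((i : ℕ) + 1) := Fin.val_rev i
  have hi := i.2
  by_cases h : (i : ℕ) < m + 1
  · rw [torD_lt _ i h, if_neg (ne_ff i h _), if_neg (ne_ff i h _), mul_one]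
    simp only [eq_ee_iff i h]
  · have h' : (i.rev : ℕ) < m + 1 := by omega
    rw [torD_ge _ i h h', if_neg (ne_ee i h _), if_neg (ne_ee i h _), one_mul]
    simp only [eq_ff_iff i h']
    by_cases h3 : (⟨(i.rev : ℕ), h'⟩ : Fin (m + 1)) = a.castSucc
    · rw [h3, if_neg hne, if_pos rfl, if_pos rfl, star_inv₀]
    · rw [if_neg h3]
      by_cases h4 : (⟨(i.rev : ℕ), h'⟩ : Fin (m + 1)) = a.succ
      · rw [if_pos h4, if_neg h3, if_pos h4, star_inv₀, inv_inv]
      · rw [if_neg h4, if_neg h3, if_neg h4, star_one, inv_one]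

/-- The coroot elements of the node `m`. -/
theorem LL_dg_none (t : K0 K) (ht : t ≠ 0) :
    mat (LL m K none (dg2 (F := K0 K) t ht)) = Matrix.diagonal (torD fun p =>
      if p = Fin.last m then (t : K) else 1) := by
  show lev1 (Fin.last m) (inc (dg2 (F := K0 K) t ht)) = _
  unfold lev1
  have h1 : inc (dg2 (F := K0 K) t ht) = !![(t : K), 0; 0, (t : K)⁻¹] := by
    ext i j
    fin_cases i <;> fin_cases j <;> simp [inc, dg2]
  have hst : star (t : K) = t := t.2
  have hne : ee m (Fin.last m) ≠ ff m (Fin.last m) := ne_ff _ (Nat.lt_succ_self m) _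
  rw [h1, b2_diag hne]
  congr 1
  funext i
  have hr : (i.rev : ℕ) = 2 * m + 2 - ((i : ℕ) + 1) := Fin.val_rev i
  have hi := i.2
  by_cases h : (i : ℕ) < m + 1
  · rw [torD_lt _ i h, if_neg (ne_ff i h _)]
    simp only [eq_ee_iff i h]
  · have h' : (i.rev : ℕ) < m + 1 := by omega
    rw [torD_ge _ i h h', if_neg (ne_ee i h _)]
    simp only [eq_ff_iff i h']
    by_cases h3 : (⟨(i.rev : ℕ), h'⟩ : Fin (m + 1)) = Fin.last m
    · rw [if_pos h3, if_pos h3, hst]
    · rw [if_neg h3, if_neg h3, star_one, inv_one]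

theorem diagonal_mem (h : grp m K) (d : Fin (2 * m + 2) → K) (hd : mat h = Matrix.diagonal d) :
    h ∈ B m K ⊓ N m K := by
  rw [mem_BN_iff]
  intro i j hij
  rw [hd, Matrix.diagonal_apply_ne _ hij]

/-- The torus is generated by the coroot elements. -/
theorem tor_mem (L : Subgroup (grp m K))
    (hL : ∀ i, B m K ⊓ conjGen (P m K (nd i)) (U m K) ≤ L) (h : grp m K)
    (hh : h ∈ B m K ⊓ N m K) : h ∈ L := by
  have hcor : ∀ (i : Option (Fin m)) (t : Fl m K i) (ht : t ≠ 0) (d : Fin (2 * m + 2) → K),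
      mat (LL m K i (dg2 t ht)) = Matrix.diagonal d → LL m K i (dg2 t ht) ∈ L := fun i t ht d hd =>
    hL i ⟨(diagonal_mem _ d hd).1, LL_mem_S i _⟩
  suffices key : ∀ r : ℕ, ∀ k : ℕ, k + r = m → ∀ h : grp m K, h ∈ B m K ⊓ N m K →
      (∀ j : Fin (m + 1), (j : ℕ) < k → mat h (ee m j) (ee m j) = 1) → h ∈ L from
    key m 0 (by omega) h hh (fun j hj => absurd hj (Nat.not_lt_zero _))
  intro r
  induction r with
  | zero =>
    intro k hk h hh h1
    have hkm : k = m := by omega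
    subst hkm
    obtain ⟨d, h0, hst, hmat⟩ := eq_tor h hh
    have hd : ∀ j : Fin (k + 1), d j = mat h (ee k j) (ee k j) := by
      intro j
      rw [hmat, Matrix.diagonal_apply_eq, torD_ee]
    have hd1 : ∀ j : Fin (k + 1), j ≠ Fin.last k → d j = 1 := by
      intro j hj
      rw [hd j]
      exact h1 j (Fin.val_lt_last hj)
    have hprod : ∏ i, d i = d (Fin.last k) :=
      Finset.prod_eq_single _ (fun j _ hj => hd1 j hj)
        (fun h => absurd (Finset.mem_univ _) h)
    rw [hprod] at hst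
    have hd2 : d = fun p => if p = Fin.last k then d (Fin.last k) else 1 := by
      funext p
      by_cases hp : p = Fin.last k
      · rw [if_pos hp, hp]
      · rw [if_neg hp, hd1 p hp]
    have ht : (⟨d (Fin.last k), hst⟩ : K0 K) ≠ 0 := fun h => h0 _ (congrArg Subtype.val h)
    have heq : h = LL k K none (dg2 (F := K0 K) ⟨d (Fin.last k), hst⟩ ht) := by
      apply mat_inj
      rw [LL_dg_none, hmat]
      congr 2
    rw [heq]
    exact hcor none _ ht _ (LL_dg_none _ ht)
  | succ r ih =>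
    intro k hk h hh h1
    have hkm : k < m := by omega
    have ht : mat h (ee m (⟨k, by omega⟩ : Fin (m + 1))) (ee m ⟨k, by omega⟩) ≠ 0 :=
      diag_ne h hh.1 _
    generalize htt : mat h (ee m (⟨k, by omega⟩ : Fin (m + 1))) (ee m ⟨k, by omega⟩) = t at ht
    have hc := LL_dg_some (⟨k, hkm⟩ : Fin m) t ht
    generalize hcc : LL m K (some ⟨k, hkm⟩) (dg2 (F := K) t ht) = c at hc
    have hcL : c ∈ L := by
      rw [← hcc]
      exact hcor (some ⟨k, hkm⟩) t ht _ (LL_dg_some _ t ht)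
    have hcB : c ∈ B m K ⊓ N m K := diagonal_mem c _ hc
    have h2 : c⁻¹ * h ∈ B m K ⊓ N m K := mul_mem (inv_mem hcB) hh
    have h3 : h = c * (c⁻¹ * h) := by group
    have h4 : ∀ i : Fin (2 * m + 2), mat h i i = mat c i i * mat (c⁻¹ * h) i i := by
      intro i
      calc mat h i i = mat (c * (c⁻¹ * h)) i i := by rw [← h3]
        _ = mat c i i * mat (c⁻¹ * h) i i := by
          rw [mat_mul, hc, Matrix.diagonal_mul, Matrix.diagonal_apply_eq]
    have h5 : c⁻¹ * h ∈ L := by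
      refine ih (k + 1) (by omega) _ h2 ?_
      intro j hj
      have h6 := h4 (ee m j)
      rw [hc, Matrix.diagonal_apply_eq, torD_ee] at h6
      by_cases hjk : (j : ℕ) = k
      · have h7 : j = (⟨k, hkm⟩ : Fin m).castSucc := Fin.ext hjk
        rw [if_pos h7] at h6
        have h8 : mat h (ee m j) (ee m j) = t := by
          rw [← htt]
          have h9 : j = (⟨k, by omega⟩ : Fin (m + 1)) := Fin.ext hjk
          rw [h9]
        rw [h8] at h6
        exact mul_left_cancel₀ ht (by rw [mul_one]; exact h6.symm)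
      · have h7 : j ≠ (⟨k, hkm⟩ : Fin m).castSucc := fun h => hjk (congrArg Fin.val h)
        have h8 : j ≠ (⟨k, hkm⟩ : Fin m).succ := by
          intro h
          have h9 : (j : ℕ) = k + 1 := congrArg Fin.val h
          omega
        rw [if_neg h7, if_neg h8, one_mul, h1 j (by omega)] at h6
        exact h6.symm
    rw [h3]
    exact mul_mem hcL h5

theorem pre_gen_B (L : Subgroup (grp m K)) (hU : U m K ≤ L)
    (hL : ∀ i, B m K ⊓ conjGen (P m K (nd i)) (U m K) ≤ L) : B m K ≤ L := by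
  intro b hb
  obtain ⟨u, hu, h, hh, rfl⟩ := BN_split b hb
  exact mul_mem (hU hu) (tor_mem L hL h hh)

end SU43
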